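import Mathlib
import Pool.Agent.Lib.MP_ca0fc2_an.Mg.G122
import Pool.Agent.Lib.MP_ca0fc2_an.Mg.G013
import Pool.Agent.Lib.MP_ca0fc2_an.Mg.G023
import Pool.Agent.Lib.MP_ca0fc2_an.Mg.G045

set_option autoImplicit false

open Metric Set MeasureTheory Filter Topology
open scoped InnerProductSpace ENNReal ContDiff

/-! # The potentials -/

namespace Pool.Agent.MPca0fc2.TS

open Pool.Agent.MPca0fc2.PT
open Pool.Agent.MPca0fc2.QT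

variable {E : Type*} [NormedAddCommGroup E] [InnerProductSpace ℂ E]
variable [FiniteDimensional ℂ E] [MeasurableSpace E] [BorelSpace E]

omit [FiniteDimensional ℂ E] [MeasurableSpace E] [BorelSpace E] in
private theorem PP_int_low {x y : E} (hx : x ∈ ball (0 : E) 1) :
    1 - ‖y‖ ≤ ‖1 - ⟪x, y⟫_ℂ‖ := by
  have h1 : ‖⟪x, y⟫_ℂ‖ ≤ ‖x‖ * ‖y‖ := norm_inner_le_norm x y
  have hx1 : ‖x‖ < 1 := by simpa using hx
  have h2 : ‖x‖ * ‖y‖ ≤ 1 * ‖y‖ := mul_le_mul_of_nonneg_right hx1.le (norm_nonneg y)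
  have h3 : ‖(1 : ℂ)‖ - ‖⟪x, y⟫_ℂ‖ ≤ ‖1 - ⟪x, y⟫_ℂ‖ := norm_sub_norm_le _ _
  rw [norm_one] at h3
  linarith

omit [FiniteDimensional ℂ E] [BorelSpace E] in
private theorem PP_int_ae {ν : Measure E} (h : OnB ν) : ∀ᵐ x ∂ν, x ∈ ball (0 : E) 1 := by
  rw [ae_iff]
  exact h.supp

theorem PP_int {ν : Measure E} (h : OnB ν) {p : ℝ} (hp : 0 ≤ p) {y : E} (hy : ‖y‖ < 1) :
    Integrable (fun x => ‖1 - ⟪x, y⟫_ℂ‖ ^ (-p)) ν := by
  have hfin := h.fin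
  have hc : Continuous fun x : E => ‖1 - ⟪x, y⟫_ℂ‖ := by fun_prop
  have hm : Measurable fun x : E => ‖1 - ⟪x, y⟫_ℂ‖ ^ (-p) := hc.measurable.pow_const _
  refine Integrable.of_bound hm.aestronglyMeasurable ((1 - ‖y‖) ^ (-p)) ?_
  filter_upwards [PP_int_ae h] with x hx
  rw [Real.norm_of_nonneg (Real.rpow_nonneg (norm_nonneg _) _)]
  exact Real.rpow_le_rpow_of_nonpos (by linarith) (PP_int_low hx) (by linarith)

omit [FiniteDimensional ℂ E] [BorelSpace E] in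
theorem PP_nonneg (ν : Measure E) (p : ℝ) (y : E) : 0 ≤ PP ν p y :=
  integral_nonneg fun _ => Real.rpow_nonneg (norm_nonneg _) _

/-- comparison -/
theorem PP_le {ν : Measure E} (h : OnB ν) {p : ℝ} (hp : 0 ≤ p) {y y' : E} (hy : ‖y‖ < 1)
    (hy' : ‖y'‖ < 1) {c : ℝ} (hc : 0 < c)
    (hcc : ∀ x ∈ ball (0 : E) 1, ‖1 - ⟪x, y⟫_ℂ‖ ≤ c * ‖1 - ⟪x, y'⟫_ℂ‖) :
    PP ν p y' ≤ c ^ p * PP ν p y := by
  unfold PP
  rw [← integral_const_mul]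
  refine integral_mono_ae (PP_int h hp hy') ((PP_int h hp hy).const_mul _) ?_
  filter_upwards [PP_int_ae h] with x hx
  have h1 : 0 < ‖1 - ⟪x, y⟫_ℂ‖ := lt_of_lt_of_le (by linarith) (PP_int_low (y := y) hx)
  have h2 : ‖1 - ⟪x, y⟫_ℂ‖ / c ≤ ‖1 - ⟪x, y'⟫_ℂ‖ := by
    rw [div_le_iff₀ hc, mul_comm]
    exact hcc x hx
  calc ‖1 - ⟪x, y'⟫_ℂ‖ ^ (-p) ≤ (‖1 - ⟪x, y⟫_ℂ‖ / c) ^ (-p) :=
        Real.rpow_le_rpow_of_nonpos (by positivity) h2 (by linarith)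
    _ = c ^ p * ‖1 - ⟪x, y⟫_ℂ‖ ^ (-p) := by
        rw [Real.div_rpow h1.le hc.le, Real.rpow_neg hc.le, div_inv_eq_mul, mul_comm]

omit [FiniteDimensional ℂ E] [MeasurableSpace E] [BorelSpace E] in
private theorem PP_c1_ne {x y : E} (hx : ‖x‖ ≤ 1) (hy : ‖y‖ < 1) : 1 - ⟪x, y⟫_ℂ ≠ 0 := by
  intro h0
  have h1 : ⟪x, y⟫_ℂ = 1 := (sub_eq_zero.1 h0).symm
  have h2 : ‖⟪x, y⟫_ℂ‖ ≤ ‖x‖ * ‖y‖ := norm_inner_le_norm x y
  rw [h1, norm_one] at h2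
  have h3 : ‖x‖ * ‖y‖ ≤ 1 * ‖y‖ := mul_le_mul_of_nonneg_right hx (norm_nonneg _)
  linarith

omit [FiniteDimensional ℂ E] [MeasurableSpace E] [BorelSpace E] in
private theorem PP_c1_in : ContDiff ℝ 1 (fun q : E × E => 1 - ⟪q.2, q.1⟫_ℂ) :=
  contDiff_const.sub (contDiff_snd.inner ℂ contDiff_fst)

omit [FiniteDimensional ℂ E] [MeasurableSpace E] [BorelSpace E] in
private theorem PP_c1_ker (p : ℝ) : ContDiffOn ℝ 1 (fun q : E × E => ‖1 - ⟪q.2, q.1⟫_ℂ‖ ^ (-p))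
    {q : E × E | 1 - ⟪q.2, q.1⟫_ℂ ≠ 0} := by
  have h1 : ContDiffOn ℝ 1 (fun q : E × E => ‖1 - ⟪q.2, q.1⟫_ℂ‖)
      {q : E × E | 1 - ⟪q.2, q.1⟫_ℂ ≠ 0} :=
    PP_c1_in.contDiffOn.norm ℂ fun q hq => hq
  exact h1.rpow_const_of_ne fun q hq => norm_ne_zero_iff.2 hq

theorem PP_c1 {ν : Measure E} (h : OnB ν) {p : ℝ} (hp : 0 ≤ p) :
    ContDiffOn ℝ 1 (PP ν p) (ball 0 1) := by
  have hfin := h.fin
  have hres : ν.restrict (ball (0 : E) 1) = ν :=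
    Measure.restrict_eq_self_of_ae_mem h.supp
  have hO : IsOpen {q : E × E | 1 - ⟪q.2, q.1⟫_ℂ ≠ 0} :=
    isOpen_ne_fun PP_c1_in.continuous continuous_const
  have hp' := FiniteDimensional.proper ℂ E
  have hfd : FiniteDimensional ℝ E := FiniteDimensional.complexToReal E
  have key := (reg_param hO (PP_c1_ker p) (S := ball (0 : E) 1) isOpen_ball
    (isCompact_closedBall (0 : E) 1) measurableSet_ball ball_subset_closedBall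
    (fun z hz x hx => PP_c1_ne (mem_closedBall_zero_iff.1 hx) (mem_ball_zero_iff.1 hz))
    ν (measure_lt_top ν _)).2
  rw [hres] at key
  exact key

omit [FiniteDimensional ℂ E] [BorelSpace E] in
theorem Ik_nonneg (ν : Measure E) (M : ℕ) (θ : ℝ) (k : ℕ) (w : E) : 0 ≤ Ik ν M θ k w :=
  PP_nonneg _ _ _

end Pool.Agent.MPca0fc2.TS
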