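import Mathlib
import Pool.Agent.Lib.MP_ca0fc2_an.Mg.G122
import Pool.Agent.Lib.MP_ca0fc2_an.TS.PoA
import Pool.Agent.Lib.MP_ca0fc2_an.QTCmp
import Pool.Agent.Lib.MP_ca0fc2_an.Mg.G015
import Pool.Agent.Lib.MP_ca0fc2_an.Mg.G008
import Pool.Agent.Lib.MP_ca0fc2_an.TWKest
import Pool.Agent.Lib.MP_ca0fc2_an.TWKop2

set_option autoImplicit false

open Metric Set MeasureTheory Filter Topology
open scoped InnerProductSpace ENNReal ContDiff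

/-! # The decaying Harnack inequality and the operator (helper42) -/

namespace Pool.Agent.MPca0fc2.TS

open Pool.Agent.MPca0fc2.PT
open Pool.Agent.MPca0fc2.QT

variable {E : Type*} [NormedAddCommGroup E] [InnerProductSpace ℂ E]
variable [FiniteDimensional ℂ E] [MeasurableSpace E] [BorelSpace E]
variable {V : Type*} [NormedAddCommGroup V] [NormedSpace ℂ V]

omit [FiniteDimensional ℂ E] [MeasurableSpace E] [BorelSpace E] in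
/-- the inequality of three points -/
theorem ha_three {x y z : E} (hx : ‖x‖ < 1) (hy : ‖y‖ < 1) (hz : ‖z‖ < 1) :
    (1 - ‖y‖ ^ 2) * ‖1 - ⟪x, z⟫_ℂ‖ ≤ 2 * ‖1 - ⟪x, y⟫_ℂ‖ * ‖1 - ⟪y, z⟫_ℂ‖ := by
  have hh := HH_mul hx hy hz
  unfold HH at hh
  have h1 : 0 < 1 - ‖x‖ ^ 2 := by nlinarith [norm_nonneg x]
  have h2 : 0 < 1 - ‖y‖ ^ 2 := by nlinarith [norm_nonneg y]
  have h3 : 0 < 1 - ‖z‖ ^ 2 := by nlinarith [norm_nonneg z]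
  obtain ⟨a1, a2⟩ := geo_one_sub hx hy
  obtain ⟨b1, b2⟩ := geo_one_sub hy hz
  obtain ⟨c1, c2⟩ := geo_one_sub hx hz
  set A := ‖1 - ⟪x, y⟫_ℂ‖
  set B := ‖1 - ⟪y, z⟫_ℂ‖
  set D := ‖1 - ⟪x, z⟫_ℂ‖
  have hA : 0 < A := lt_of_lt_of_le a1 a2
  have hB : 0 < B := lt_of_lt_of_le b1 b2
  have hD : 0 < D := lt_of_lt_of_le c1 c2
  have e1 : (1 - ‖x‖ ^ 2) * (1 - ‖y‖ ^ 2) / A ^ 2 * ((1 - ‖y‖ ^ 2) * (1 - ‖z‖ ^ 2) / B ^ 2) =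
      ((1 - ‖x‖ ^ 2) * (1 - ‖z‖ ^ 2)) * ((1 - ‖y‖ ^ 2) ^ 2 / (A ^ 2 * B ^ 2)) := by
    field_simp
  have e2 : 4 * ((1 - ‖x‖ ^ 2) * (1 - ‖z‖ ^ 2) / D ^ 2) =
      ((1 - ‖x‖ ^ 2) * (1 - ‖z‖ ^ 2)) * (4 / D ^ 2) := by
    field_simp
  rw [e1, e2] at hh
  have h4 : (1 - ‖y‖ ^ 2) ^ 2 / (A ^ 2 * B ^ 2) ≤ 4 / D ^ 2 :=
    le_of_mul_le_mul_left hh (mul_pos h1 h3)
  rw [div_le_div_iff₀ (by positivity) (by positivity)] at h4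
  have h5 : ((1 - ‖y‖ ^ 2) * D) ^ 2 ≤ (2 * A * B) ^ 2 := by
    calc ((1 - ‖y‖ ^ 2) * D) ^ 2 = (1 - ‖y‖ ^ 2) ^ 2 * D ^ 2 := by ring
      _ ≤ 4 * (A ^ 2 * B ^ 2) := h4
      _ = _ := by ring
  exact (pow_le_pow_iff_left₀ (by positivity) (by positivity) two_ne_zero).mp h5

/-- The operator for an arbitrary weight with the Harnack property. -/
theorem solveW (μ : Measure E) [μ.IsAddHaarMeasure] {m : ℕ} (hm : 1 ≤ m)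
    (hdim : Module.finrank ℂ E = m + 1) [FiniteDimensional ℂ V] (q τ : ℕ) {θ : ℝ} (h0 : 0 < θ)
    (h1 : θ < 1) {c₀ : ℝ} (hc₀ : 0 < c₀) :
    ∃ C : ℝ, 0 < C ∧ ∀ (k : ℕ) (R R' A : ℝ) (Φ : E → ℝ)
      (η : E → E [⋀^Fin (q + 1)]→L[ℝ] V) (U : Set E), 1 ≤ R → R' + c₀ * θ ^ k ≤ R →
      R ≤ RC θ k → IsOpen U → closedBall (0 : E) R ⊆ U → 0 ≤ A → ContDiffOn ℝ 1 η U →
      (∀ w : E, ‖w‖ < R → 0 ≤ Φ w) →
      (∀ z w : E, ‖z‖ + c₀ * θ ^ k ≤ R → ‖w‖ < R → Φ w ≤ A * Φ z *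
        (‖((R ^ 2 : ℝ) : ℂ) - ⟪w, z⟫_ℂ‖ / (R ^ 2 - ‖w‖ ^ 2)) ^ (τ + 3) *
          Real.sqrt ((R ^ 2 - ‖z‖ ^ 2) / ‖((R ^ 2 : ℝ) : ℂ) - ⟪w, z⟫_ℂ‖)) →
      BdG θ k R Φ η → BdG θ k R' (fun w => C * A * Φ w) (TW.TR τ μ m R η) := by
  obtain ⟨CT, hCT, hT⟩ := TW.TR_sub (τ := τ) (V := V) μ hm hdim q
  obtain ⟨CG, hCG, hG⟩ := gau_compare (E := E) h0 h1 hc₀
  refine ⟨CT * CG ^ (q + 1) * CG ^ q, by positivity, ?_⟩
  intro k R R' A Φ η U hR1 hR' hRC hU hRU hA hη hΦ0 hH hBd z hz v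
  have hθk : 0 < c₀ * θ ^ k := by positivity
  have hzR' : ‖z‖ + c₀ * θ ^ k ≤ R := by linarith
  have hzR : ‖z‖ < R := by linarith
  have hzC : ‖z‖ < RC θ k := hzR.trans_le hRC
  have hR0 : 0 < R := by linarith
  have hΦz := hΦ0 z hzR
  have key := hT R η U z (A * Φ z * CG ^ (q + 1)) hR0 hU hRU hη hzR (by positivity) ?_ v
  · refine key.trans ?_
    have hprod : ∏ i, gau (R ^ 2 - ‖z‖ ^ 2) z (v i) ≤ CG ^ q * ∏ i, gau (dl θ k z) z (v i) := by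
      have e : CG ^ q * ∏ i, gau (dl θ k z) z (v i) = ∏ i : Fin q, (CG * gau (dl θ k z) z (v i)) := by
        rw [Finset.prod_mul_distrib]
        simp
      rw [e]
      refine Finset.prod_le_prod (fun i _ => ?_) (fun i _ => (hG k R z (v i) hR1 hRC).2 hzR')
      exact gau_nonneg (by nlinarith [norm_nonneg z]) z (v i)
    have hΦ : 0 ≤ CT * (A * Φ z * CG ^ (q + 1)) := by positivity
    calc _ ≤ CT * (A * Φ z * CG ^ (q + 1)) *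
          (CG ^ q * ∏ i, gau (dl θ k z) z (v i)) := mul_le_mul_of_nonneg_left hprod hΦ
      _ = _ := by ring
  · intro w hw x
    have hwR : ‖w‖ < R := mem_ball_zero_iff.mp hw
    have hwC : ‖w‖ < RC θ k := hwR.trans_le hRC
    have a1 := hBd w hwR x
    have a2 := hH z w hzR' hwR
    have hprod : ∏ i, gau (dl θ k w) w (x i) ≤
        CG ^ (q + 1) * ∏ i, gau (R ^ 2 - ‖w‖ ^ 2) w (x i) := by
      have e : CG ^ (q + 1) * ∏ i, gau (R ^ 2 - ‖w‖ ^ 2) w (x i) =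
          ∏ i : Fin (q + 1), (CG * gau (R ^ 2 - ‖w‖ ^ 2) w (x i)) := by
        rw [Finset.prod_mul_distrib]
        simp
      rw [e]
      refine Finset.prod_le_prod (fun i _ => ?_) (fun i _ => (hG k R w (x i) hR1 hRC).1 hwR)
      exact gau_nonneg (dl_pos h0 h1 hwC).le w (x i)
    have hG0 : 0 ≤ ∏ i, gau (dl θ k w) w (x i) :=
      Finset.prod_nonneg fun i _ => gau_nonneg (dl_pos h0 h1 hwC).le w (x i)
    calc ‖η w x‖ ≤ Φ w * ∏ i, gau (dl θ k w) w (x i) := a1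
      _ ≤ (A * Φ z * (‖((R ^ 2 : ℝ) : ℂ) - ⟪w, z⟫_ℂ‖ / (R ^ 2 - ‖w‖ ^ 2)) ^ (τ + 3) *
          Real.sqrt ((R ^ 2 - ‖z‖ ^ 2) / ‖((R ^ 2 : ℝ) : ℂ) - ⟪w, z⟫_ℂ‖)) *
            (CG ^ (q + 1) * ∏ i, gau (R ^ 2 - ‖w‖ ^ 2) w (x i)) := by
          apply mul_le_mul a2 hprod hG0
          exact (hΦ0 w hwR).trans a2
      _ = _ := by ring

end Pool.Agent.MPca0fc2.TS
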