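import Mathlib
import Pool.Agent.Lib.MP_ca0fc2_an.Mg.G012
import Pool.Agent.Lib.MP_ca0fc2_an.Mg.G049
import Pool.Agent.Lib.MP_ca0fc2_an.Holo
import Pool.Agent.Lib.MP_ca0fc2_an.Mg.G073

set_option autoImplicit false

open Metric Set MeasureTheory Filter Topology
open scoped InnerProductSpace ENNReal

/-! # The weighted projection of the ball with a general weight -/

namespace Pool.Agent.MPca0fc2.TS

open Pool.Agent.MPca0fc2.PT

variable {E : Type*} [NormedAddCommGroup E] [InnerProductSpace ℂ E]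

/-- the weight -/
noncomputable def WWs (s : ℕ) (w : E) : ℝ := (1 - ‖w‖ ^ 2) ^ s

section meas

variable [MeasurableSpace E]

/-- the mass of the weight -/
noncomputable def cWs (s : ℕ) (μ : Measure E) : ℝ := ∫ w in ball (0 : E) 1, WWs s w ∂μ

/-- the projection of the unit ball of a space of dimension `m + 1` with the weight `s` -/
noncomputable def PQs (s : ℕ) (μ : Measure E) (m : ℕ) (N : E → ℂ) (z : E) : ℂ :=
  ((cWs s μ : ℝ) : ℂ)⁻¹ * ∫ w in ball (0 : E) 1,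
    ((WWs s w : ℝ) : ℂ) * N w / (1 - ⟪w, z⟫_ℂ) ^ (m + 2 + s) ∂μ

/-- the same for the ball of radius `R` -/
noncomputable def PRs (s : ℕ) (μ : Measure E) (m : ℕ) (R : ℝ) (N : E → ℂ) (z : E) : ℂ :=
  PQs s μ m (fun w => N ((R : ℂ) • w)) (((R⁻¹ : ℝ) : ℂ) • z)

end meas


variable [FiniteDimensional ℂ E] [MeasurableSpace E] [BorelSpace E]

omit [InnerProductSpace ℂ E] [FiniteDimensional ℂ E] [MeasurableSpace E] [BorelSpace E] in
theorem ts_WW_le (s : ℕ) {w : E} (hw : w ∈ ball (0 : E) 1) : |WWs s w| ≤ 1 := by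
  rw [mem_ball_zero_iff] at hw
  have h1 : 0 ≤ 1 - ‖w‖ ^ 2 := by nlinarith [norm_nonneg w]
  have h2 : 1 - ‖w‖ ^ 2 ≤ 1 := by nlinarith [norm_nonneg w]
  unfold WWs
  rw [abs_of_nonneg (by positivity)]
  exact pow_le_one₀ h1 h2

/-- differentiation along a curve of complex multipliers -/
theorem ts_curve (s : ℕ) (μ : Measure E) [μ.IsAddHaarMeasure] {G : E → ℂ} {U : Set E}
    (hU : IsOpen U) (hBU : closedBall (0 : E) 1 ⊆ U) (hG : ContDiffOn ℝ 1 G U)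
    {γ : ℝ → ℂ} {γ' : ℝ → ℂ} {t₀ L : ℝ} (ht₀ : ‖γ t₀‖ ≤ 1)
    (hγ : ∀ t, HasDerivAt γ (γ' t) t) (hL : ∀ t, ‖γ' t‖ ≤ L) :
    Integrable (fun ξ : E => ((WWs s ξ : ℝ) : ℂ) * fderiv ℝ G (γ t₀ • ξ) (γ' t₀ • ξ))
      (μ.restrict (ball 0 1)) ∧
    HasDerivAt (fun t : ℝ => ∫ ξ in ball (0 : E) 1, ((WWs s ξ : ℝ) : ℂ) * G (γ t • ξ) ∂μ)
      (∫ ξ in ball (0 : E) 1, ((WWs s ξ : ℝ) : ℂ) * fderiv ℝ G (γ t₀ • ξ) (γ' t₀ • ξ) ∂μ) t₀ := by
  have hprop : ProperSpace E := FiniteDimensional.proper ℂ E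
  have hfin : IsFiniteMeasure (μ.restrict (ball (0 : E) 1)) :=
    ⟨by rw [Measure.restrict_apply_univ]; exact measure_ball_lt_top⟩
  obtain ⟨δ, hδ, hδU⟩ := (isCompact_closedBall (0 : E) 1).exists_cthickening_subset_open hU hBU
  rw [cthickening_closedBall hδ.le zero_le_one] at hδU
  have hcd : ContinuousOn (fderiv ℝ G) U := hG.continuousOn_fderiv_of_isOpen hU le_rfl
  have hcG : ContinuousOn G U := hG.continuousOn
  obtain ⟨B, hB⟩ := (isCompact_closedBall (0 : E) (δ + 1)).exists_bound_of_continuousOn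
    (hcd.mono hδU)
  obtain ⟨B', hB'⟩ := (isCompact_closedBall (0 : E) (δ + 1)).exists_bound_of_continuousOn
    (hcG.mono hδU)
  have hγc : Continuous γ := continuous_iff_continuousAt.mpr fun t => (hγ t).continuousAt
  have hs : {t : ℝ | ‖γ t‖ < δ + 1} ∈ 𝓝 t₀ := by
    apply (isOpen_lt hγc.norm continuous_const).mem_nhds
    show ‖γ t₀‖ < δ + 1
    linarith
  have hmemE : ∀ t, ‖γ t‖ < δ + 1 → ∀ ξ ∈ ball (0 : E) 1, γ t • ξ ∈ closedBall (0 : E) (δ + 1) := by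
    intro t ht ξ hξ
    rw [mem_ball_zero_iff] at hξ
    rw [mem_closedBall_zero_iff, norm_smul]
    nlinarith [norm_nonneg (γ t), norm_nonneg ξ]
  have hmeas : ∀ c : ℂ, ‖c‖ < δ + 1 → AEStronglyMeasurable
      (fun ξ : E => ((WWs s ξ : ℝ) : ℂ) * G (c • ξ)) (μ.restrict (ball 0 1)) := by
    intro c hc
    apply ContinuousOn.aestronglyMeasurable _ measurableSet_ball
    apply ContinuousOn.mul
    · apply Continuous.continuousOn
      unfold WWs
      fun_prop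
    · apply hcG.comp (continuous_const_smul c).continuousOn
      intro ξ hξ
      apply hδU
      rw [mem_ball_zero_iff] at hξ
      rw [mem_closedBall_zero_iff, norm_smul]
      nlinarith [norm_nonneg c, norm_nonneg ξ]
  have hmeas' : AEStronglyMeasurable
      (fun ξ : E => ((WWs s ξ : ℝ) : ℂ) * fderiv ℝ G (γ t₀ • ξ) (γ' t₀ • ξ))
      (μ.restrict (ball 0 1)) := by
    apply ContinuousOn.aestronglyMeasurable _ measurableSet_ball
    apply ContinuousOn.mul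
    · apply Continuous.continuousOn
      unfold WWs
      fun_prop
    · apply ContinuousOn.clm_apply
      · apply hcd.comp (continuous_const_smul (γ t₀)).continuousOn
        intro ξ hξ
        apply hδU
        exact hmemE t₀ (by linarith) ξ hξ
      · exact (continuous_const_smul (γ' t₀)).continuousOn
  refine hasDerivAt_integral_of_dominated_loc_of_deriv_le (𝕜 := ℝ) (bound := fun _ => B * L)
    (F := fun (t : ℝ) (ξ : E) => ((WWs s ξ : ℝ) : ℂ) * G (γ t • ξ))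
    (F' := fun (t : ℝ) (ξ : E) => ((WWs s ξ : ℝ) : ℂ) * fderiv ℝ G (γ t • ξ) (γ' t • ξ))
    hs ?_ ?_ hmeas' ?_ (integrable_const _) ?_
  · filter_upwards [hs] with t ht using hmeas (γ t) ht
  · refine Integrable.mono' (g := fun _ => B') (integrable_const _)
      (hmeas (γ t₀) (by linarith)) ?_
    refine (ae_restrict_iff' measurableSet_ball).mpr (Eventually.of_forall fun ξ hξ => ?_)
    rw [norm_mul, Complex.norm_real, Real.norm_eq_abs]
    have h1 := hB' _ (hmemE t₀ (by linarith) ξ hξ)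
    have h2 := ts_WW_le s hξ
    have h3 := norm_nonneg (G (γ t₀ • ξ))
    have h4 := abs_nonneg (WWs s ξ)
    nlinarith
  · refine (ae_restrict_iff' measurableSet_ball).mpr (Eventually.of_forall fun ξ hξ => ?_)
    intro t ht
    rw [norm_mul, Complex.norm_real, Real.norm_eq_abs]
    have h1 := hB _ (hmemE t ht ξ hξ)
    have h2 := ts_WW_le s hξ
    have h3 : ‖fderiv ℝ G (γ t • ξ) (γ' t • ξ)‖ ≤ B * L := by
      refine (ContinuousLinearMap.le_opNorm _ _).trans ?_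
      have h5 : ‖γ' t • ξ‖ ≤ L := by
        rw [norm_smul]
        rw [mem_ball_zero_iff] at hξ
        nlinarith [hL t, norm_nonneg (γ' t), norm_nonneg ξ]
      have h6 := norm_nonneg (fderiv ℝ G (γ t • ξ))
      exact mul_le_mul h1 h5 (norm_nonneg _) (h6.trans h1)
    have h4 := abs_nonneg (WWs s ξ)
    have h7 := norm_nonneg (fderiv ℝ G (γ t • ξ) (γ' t • ξ))
    nlinarith
  · refine (ae_restrict_iff' measurableSet_ball).mpr (Eventually.of_forall fun ξ hξ => ?_)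
    intro t ht
    have hd : DifferentiableAt ℝ G (γ t • ξ) :=
      (hG.differentiableOn one_ne_zero).differentiableAt
        (hU.mem_nhds (hδU (hmemE t ht ξ hξ)))
    have h1 : HasDerivAt (fun t => γ t • ξ) (γ' t • ξ) t := (hγ t).smul_const ξ
    have h2 := hd.hasFDerivAt.comp_hasDerivAt t h1
    exact h2.const_mul _

/-- rotation invariance -/
theorem ts_rot (s : ℕ) (μ : Measure E) [μ.IsAddHaarMeasure] (F : E → ℂ) {c : ℂ} (hc : ‖c‖ = 1) :
    ∫ ξ in ball (0 : E) 1, ((WWs s ξ : ℝ) : ℂ) * F (c • ξ) ∂μ =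
      ∫ ξ in ball (0 : E) 1, ((WWs s ξ : ℝ) : ℂ) * F ξ ∂μ := by
  have hprop : ProperSpace E := FiniteDimensional.proper ℂ E
  have hmp := SD.mp_smul μ hc
  have hpre : (fun y : E => c • y) ⁻¹' (ball 0 1) = ball 0 1 := by
    ext y
    simp only [mem_preimage, mem_ball_zero_iff, norm_smul, hc, one_mul]
  have hemb : MeasurableEmbedding (fun y : E => c • y) := by
    have hc0 : c ≠ 0 := by
      intro h; rw [h, norm_zero] at hc; exact one_ne_zero hc.symm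
    exact (Homeomorph.smulOfNeZero _ hc0 : E ≃ₜ E).measurableEmbedding
  have h := hmp.setIntegral_preimage_emb hemb (fun ξ => ((WWs s ξ : ℝ) : ℂ) * F ξ) (ball 0 1)
  rw [hpre] at h
  rw [← h]
  congr 1
  funext ξ
  congr 2
  unfold WWs
  rw [norm_smul, hc, one_mul]

/-- the rotational derivative has mean zero -/
theorem ts_rot_zero (s : ℕ) (μ : Measure E) [μ.IsAddHaarMeasure] {G : E → ℂ} {U : Set E}
    (hU : IsOpen U) (hBU : closedBall (0 : E) 1 ⊆ U) (hG : ContDiffOn ℝ 1 G U) {r : ℝ}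
    (hr : r ∈ Icc (0 : ℝ) 1) :
    ∫ ξ in ball (0 : E) 1,
      ((WWs s ξ : ℝ) : ℂ) * fderiv ℝ G ((r : ℂ) • ξ) (Complex.I • ξ) ∂μ = 0 := by
  rcases eq_or_lt_of_le hr.1 with h0 | h0
  · have h := ts_rot s μ (fun ξ => fderiv ℝ G ((r : ℂ) • ξ) (Complex.I • ξ)) (c := -1) (by simp)
    rw [← h0] at h ⊢
    simp only [Complex.ofReal_zero, zero_smul, neg_smul, one_smul, smul_neg, map_neg, mul_neg,
      integral_neg, neg_zero] at h ⊢
    linear_combination (-1 / 2 : ℂ) * h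
  · set γ : ℝ → ℂ := fun θ => (r : ℂ) * Complex.exp ((θ : ℂ) * Complex.I) with hγ
    set γ' : ℝ → ℂ := fun θ => (r : ℂ) * (Complex.exp ((θ : ℂ) * Complex.I) * Complex.I) with hγ'
    have hd : ∀ t, HasDerivAt γ (γ' t) t := by
      intro t
      have h1 : HasDerivAt (fun θ : ℝ => (θ : ℂ) * Complex.I) Complex.I t := by
        simpa using (Complex.ofRealCLM.hasDerivAt (x := t)).mul_const Complex.I
      exact h1.cexp.const_mul _
    have hn : ∀ t, ‖γ' t‖ ≤ r := by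
      intro t
      rw [hγ']
      simp only [norm_mul, Complex.norm_real, Real.norm_of_nonneg hr.1, Complex.norm_I, mul_one,
        Complex.norm_exp_ofReal_mul_I]
      exact le_rfl
    have ht : ‖γ 0‖ ≤ 1 := by
      rw [hγ]
      simp only [norm_mul, Complex.norm_real, Real.norm_of_nonneg hr.1,
        Complex.norm_exp_ofReal_mul_I, mul_one]
      exact hr.2
    obtain ⟨-, h⟩ := ts_curve s μ hU hBU hG ht hd hn
    have hconst : (fun t : ℝ => ∫ ξ in ball (0 : E) 1, ((WWs s ξ : ℝ) : ℂ) * G (γ t • ξ) ∂μ) =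
        fun _ => ∫ ξ in ball (0 : E) 1, ((WWs s ξ : ℝ) : ℂ) * G ((r : ℂ) • ξ) ∂μ := by
      funext t
      have h1 := ts_rot s μ (fun ξ => G ((r : ℂ) • ξ)) (c := Complex.exp ((t : ℂ) * Complex.I))
        (Complex.norm_exp_ofReal_mul_I t)
      rw [← h1]
      congr 1
      funext ξ
      rw [hγ, smul_smul]
    rw [hconst] at h
    have h2 := h.unique (hasDerivAt_const (0 : ℝ) _)
    have h3 : ∀ ξ : E, ((WWs s ξ : ℝ) : ℂ) * fderiv ℝ G (γ 0 • ξ) (γ' 0 • ξ) =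
        (r : ℂ) * (((WWs s ξ : ℝ) : ℂ) * fderiv ℝ G ((r : ℂ) • ξ) (Complex.I • ξ)) := by
      intro ξ
      have e1 : γ 0 = r := by rw [hγ]; simp
      have e2 : γ' 0 • ξ = r • (Complex.I • ξ) := by
        rw [hγ', ← Complex.coe_smul, smul_smul]
        simp
      rw [e1, e2, map_smul, Complex.real_smul]
      ring
    simp only [h3] at h2
    rw [integral_const_mul] at h2
    have hr0 : (r : ℂ) ≠ 0 := by exact_mod_cast h0.ne'
    exact (mul_eq_zero.mp h2).resolve_left hr0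

theorem ts_scaling_deriv (s : ℕ) (μ : Measure E) [μ.IsAddHaarMeasure] {G : E → ℂ} {U : Set E}
    (hU : IsOpen U) (hBU : closedBall (0 : E) 1 ⊆ U) (hG : ContDiffOn ℝ 1 G U) {r : ℝ}
    (hr : r ∈ Icc (0 : ℝ) 1) :
    HasDerivAt (fun r : ℝ => ∫ ξ in ball (0 : E) 1, ((WWs s ξ : ℝ) : ℂ) * G ((r : ℂ) • ξ) ∂μ)
      (2 * ∫ ξ in ball (0 : E) 1, ((WWs s ξ : ℝ) : ℂ) * dbE G ((r : ℂ) • ξ) ξ ∂μ) r := by
  have hrn : ‖(r : ℂ)‖ ≤ 1 := by
    rw [Complex.norm_real, Real.norm_of_nonneg hr.1]; exact hr.2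
  have hd1 : ∀ t : ℝ, HasDerivAt (fun t : ℝ => (t : ℂ)) ((fun _ => (1 : ℂ)) t) t := by
    intro t
    exact (hasDerivAt_id t).ofReal_comp
  obtain ⟨hi1, h1⟩ := ts_curve s μ hU hBU hG (γ := fun t : ℝ => (t : ℂ)) (γ' := fun _ => 1)
    (t₀ := r) (L := 1) hrn hd1 (by simp)
  have hd2 : ∀ t : ℝ, HasDerivAt (fun t : ℝ => (r : ℂ) + ((t - r : ℝ) : ℂ) * Complex.I)
      ((fun _ => Complex.I) t) t := by
    intro t
    have h3 : HasDerivAt (fun t : ℝ => ((t - r : ℝ) : ℂ)) 1 t := by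
      simpa using ((hasDerivAt_id t).sub_const r).ofReal_comp
    simpa using (h3.mul_const Complex.I).const_add (r : ℂ)
  obtain ⟨hi2, -⟩ := ts_curve s μ hU hBU hG
    (γ := fun t : ℝ => (r : ℂ) + ((t - r : ℝ) : ℂ) * Complex.I) (γ' := fun _ => Complex.I)
    (t₀ := r) (L := 1) (by simpa using hrn) hd2 (by simp)
  simp only [sub_self, Complex.ofReal_zero, zero_mul, add_zero] at hi2
  simp only [one_smul] at hi1 h1
  have h0 := ts_rot_zero s μ hU hBU hG hr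
  have e : ∀ ξ : E, ((WWs s ξ : ℝ) : ℂ) * dbE G ((r : ℂ) • ξ) ξ =
      (1 / 2 : ℂ) * (((WWs s ξ : ℝ) : ℂ) * fderiv ℝ G ((r : ℂ) • ξ) ξ) +
        (Complex.I / 2) * (((WWs s ξ : ℝ) : ℂ) * fderiv ℝ G ((r : ℂ) • ξ) (Complex.I • ξ)) := by
    intro ξ
    unfold dbE
    ring
  simp only [e]
  rw [integral_add (hi1.const_mul _) (hi2.const_mul _), integral_const_mul, integral_const_mul,
    h0, mul_zero, add_zero, ← mul_assoc]
  norm_num
  exact h1

/-- The projection in the coordinates in which `z` is the origin. -/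
theorem PQs_eq (s : ℕ) (μ : Measure E) [μ.IsAddHaarMeasure] {m : ℕ}
    (hdim : Module.finrank ℂ E = m + 1) {z : E} (hz : ‖z‖ < 1) (N : E → ℂ) :
    PQs s μ m N z = ((cWs s μ : ℝ) : ℂ)⁻¹ * ∫ x in ball (0 : E) 1,
      ((WWs s x : ℝ) : ℂ) * (N (gg z x) / (1 + ⟪z, x⟫_ℂ) ^ (m + 2 + s)) ∂μ := by
  unfold PQs
  congr 1
  rw [integral_gg μ hdim hz]
  apply setIntegral_congr_fun measurableSet_ball
  intro x hx
  have hx1 := (mem_ball_zero_iff.mp hx).le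
  obtain ⟨d, hd⟩ : ∃ d : ℂ, d = 1 + ⟪z, x⟫_ℂ := ⟨_, rfl⟩
  have hd0 : d ≠ 0 := by rw [hd]; exact one_add_ne hz hx1
  have hdc : (starRingEnd ℂ) d ≠ 0 := (map_ne_zero _).mpr hd0
  have hz2 : (1 - ‖z‖ ^ 2 : ℝ) ≠ 0 := by nlinarith [norm_nonneg z]
  have hz2c : ((1 - ‖z‖ ^ 2 : ℝ) : ℂ) ≠ 0 := by exact_mod_cast hz2
  have h1 : 1 - ⟪gg z x, z⟫_ℂ = ((1 - ‖z‖ ^ 2 : ℝ) : ℂ) / (starRingEnd ℂ) d := by
    have h := congrArg (starRingEnd ℂ) (inner_gg_self hz hx1)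
    rw [map_sub, map_one, inner_conj_symm, map_div₀, Complex.conj_ofReal, ← hd] at h
    exact h
  have h2 : ((‖d‖ : ℝ) : ℂ) ^ 2 = d * (starRingEnd ℂ) d := by rw [Complex.mul_conj']
  simp only
  rw [h1, ← hd]
  unfold WWs
  rw [norm_gg hz hx1, ← hd]
  obtain ⟨a, ha⟩ : ∃ a : ℂ, a = ((1 - ‖z‖ ^ 2 : ℝ) : ℂ) := ⟨_, rfl⟩
  obtain ⟨b, hb⟩ : ∃ b : ℂ, b = ((1 - ‖x‖ ^ 2 : ℝ) : ℂ) := ⟨_, rfl⟩
  rw [← ha] at hz2c
  have e1 : ((((1 - ‖z‖ ^ 2) / ‖d‖ ^ 2) ^ (m + 2) : ℝ) : ℂ) = a ^ (m + 2) /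
      (d ^ (m + 2) * ((starRingEnd ℂ) d) ^ (m + 2)) := by
    rw [ha, Complex.ofReal_pow, Complex.ofReal_div, Complex.ofReal_pow, h2, div_pow, mul_pow]
  have e2 : ((((1 - ‖z‖ ^ 2) * (1 - ‖x‖ ^ 2) / ‖d‖ ^ 2) ^ s : ℝ) : ℂ) =
      a ^ s * b ^ s / (d ^ s * ((starRingEnd ℂ) d) ^ s) := by
    rw [ha, hb, Complex.ofReal_pow, Complex.ofReal_div, Complex.ofReal_mul, Complex.ofReal_pow, h2,
      div_pow, mul_pow, mul_pow]
  have e3 : (((1 - ‖x‖ ^ 2) ^ s : ℝ) : ℂ) = b ^ s := by rw [hb, Complex.ofReal_pow]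
  rw [e1, e2, e3, ← ha, div_pow a, pow_add a (m + 2) s,
    pow_add ((starRingEnd ℂ) d) (m + 2) s, pow_add d (m + 2) s]
  field_simp

omit [FiniteDimensional ℂ E] [MeasurableSpace E] [BorelSpace E] in
theorem ts_point (s : ℕ) {z ξ : E} (hz : ‖z‖ < 1) (hξ : ‖ξ‖ < 1) {r : ℝ} (hr : 0 ≤ r) (hr1 : r < 1)
    {N : E → ℂ} {Φ : ℝ} (hΦ : 0 ≤ Φ) (m : ℕ)
    (hN : DifferentiableAt ℝ N (gg z ((r : ℂ) • ξ)))
    (hyp : ∀ w ∈ ball (0 : E) 1, ∀ x : E, ‖dbE N w x‖ ≤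
        Φ * (‖1 - ⟪w, z⟫_ℂ‖ / (1 - ‖w‖ ^ 2)) ^ s *
          Real.sqrt ((1 - ‖z‖ ^ 2) / ‖1 - ⟪w, z⟫_ℂ‖) * gau (1 - ‖w‖ ^ 2) w x) :
    ‖((WWs (s + 1) ξ : ℝ) : ℂ) *
        dbE (fun x => N (gg z x) / (1 + ⟪z, x⟫_ℂ) ^ (m + 3 + s)) ((r : ℂ) • ξ) ξ‖ ≤
      6 * Φ * 2 ^ ((m + 2 : ℝ) + 1 / 2) *
        (1 / (‖1 - ⟪ξ, -((r : ℂ) • z)⟫_ℂ‖ + (1 - r))) ^ ((m + 2 : ℝ) + 1 / 2) := by
  set x : E := (r : ℂ) • ξ with hx
  have hxn : ‖x‖ = r * ‖ξ‖ := by
    rw [hx, norm_smul, Complex.norm_real, Real.norm_of_nonneg hr]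
  have hxξ : ‖x‖ ≤ ‖ξ‖ := by rw [hxn]; nlinarith [norm_nonneg ξ]
  have hxr : ‖x‖ ≤ r := by rw [hxn]; nlinarith [norm_nonneg ξ]
  have hx1 : ‖x‖ < 1 := by linarith
  have hne := one_add_ne hz hx1.le
  have hD : 0 < ‖1 + ⟪z, x⟫_ℂ‖ := norm_pos_iff.mpr hne
  have hw := gg_lt hz hx1
  have hz2 : 0 < 1 - ‖z‖ ^ 2 := by nlinarith [norm_nonneg z]
  have hx2 : 0 < 1 - ‖x‖ ^ 2 := by nlinarith [norm_nonneg x]
  have hw2 : 0 < 1 - ‖gg z x‖ ^ 2 := by nlinarith [norm_nonneg (gg z x)]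
  have e1 : ‖1 - ⟪gg z x, z⟫_ℂ‖ = (1 - ‖z‖ ^ 2) / ‖1 + ⟪z, x⟫_ℂ‖ := by
    have h1 : 1 - ⟪gg z x, z⟫_ℂ = (starRingEnd ℂ) (1 - ⟪z, gg z x⟫_ℂ) := by
      rw [map_sub, map_one, inner_conj_symm]
    rw [h1, inner_gg_self hz hx1.le, RCLike.norm_conj, norm_div, Complex.norm_real,
      Real.norm_of_nonneg hz2.le]
  have e2 := norm_gg hz hx1.le
  set D : ℝ := ‖1 + ⟪z, x⟫_ℂ‖ with hDdef
  have e3 : ‖1 - ⟪gg z x, z⟫_ℂ‖ / (1 - ‖gg z x‖ ^ 2) = D / (1 - ‖x‖ ^ 2) := by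
    rw [e1, e2]
    field_simp
  have e4 : (1 - ‖z‖ ^ 2) / ‖1 - ⟪gg z x, z⟫_ℂ‖ = D := by
    rw [e1]
    field_simp
  have hb := hyp (gg z x) (by rwa [mem_ball_zero_iff]) (gg' z x ξ)
  rw [e3, e4] at hb
  have hg : gau (1 - ‖gg z x‖ ^ 2) (gg z x) (gg' z x ξ) ≤ 6 / (1 - ‖x‖ ^ 2) := by
    refine (gau_gg hz hx1).trans ?_
    gcongr
    linarith
  have hb2 : ‖dbE N (gg z x) (gg' z x ξ)‖ ≤
      Φ * (D / (1 - ‖x‖ ^ 2)) ^ s * Real.sqrt D * (6 / (1 - ‖x‖ ^ 2)) := by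
    refine hb.trans ?_
    gcongr
  rw [k4_chain hz hx1.le hN, norm_mul, norm_div, norm_pow, ← hDdef, Complex.norm_real]
  have hξ2 : 0 ≤ 1 - ‖ξ‖ ^ 2 := by nlinarith [norm_nonneg ξ]
  have hW0 : 0 ≤ WWs (s + 1) ξ := by
    unfold WWs
    exact pow_nonneg hξ2 _
  have hW : WWs (s + 1) ξ ≤ (1 - ‖x‖ ^ 2) ^ (s + 1) := by
    unfold WWs
    have h1 : 0 ≤ 1 - ‖ξ‖ ^ 2 := by nlinarith [norm_nonneg ξ]
    have h2 : 1 - ‖ξ‖ ^ 2 ≤ 1 - ‖x‖ ^ 2 := by nlinarith [norm_nonneg ξ, norm_nonneg x]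
    exact pow_le_pow_left₀ h1 h2 (s + 1)
  rw [Real.norm_of_nonneg hW0]
  have hsD : 0 < Real.sqrt D := Real.sqrt_pos.mpr hD
  have hsq : Real.sqrt D * Real.sqrt D = D := Real.mul_self_sqrt hD.le
  have step1 : WWs (s + 1) ξ * (‖dbE N (gg z x) (gg' z x ξ)‖ / D ^ (m + 3 + s)) ≤
      6 * Φ * (1 / D) ^ ((m + 2 : ℝ) + 1 / 2) := by
    have hp : (1 / D) ^ ((m + 2 : ℝ) + 1 / 2) = (1 / D) ^ (m + 2) * (1 / Real.sqrt D) := by
      rw [Real.rpow_add (by positivity), ← Real.sqrt_eq_rpow, Real.sqrt_div (by norm_num),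
        Real.sqrt_one]
      congr 1
      rw [← Real.rpow_natCast]
      congr 1
      push_cast
      ring
    rw [hp]
    calc WWs (s + 1) ξ * (‖dbE N (gg z x) (gg' z x ξ)‖ / D ^ (m + 3 + s))
        ≤ (1 - ‖x‖ ^ 2) ^ (s + 1) * ((Φ * (D / (1 - ‖x‖ ^ 2)) ^ s * Real.sqrt D *
            (6 / (1 - ‖x‖ ^ 2))) / D ^ (m + 3 + s)) := by gcongr
      _ = 6 * Φ * (Real.sqrt D / D ^ (m + 3)) := by
          rw [div_pow, pow_succ (1 - ‖x‖ ^ 2) s, pow_add D (m + 3) s]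
          have hxs : (1 - ‖x‖ ^ 2) ^ s ≠ 0 := pow_ne_zero _ hx2.ne'
          have hDs : D ^ s ≠ 0 := pow_ne_zero _ hD.ne'
          field_simp
      _ = 6 * Φ * ((1 / D) ^ (m + 2) * (1 / Real.sqrt D)) := by
          congr 1
          rw [one_div_pow, div_mul_div_comm, div_eq_div_iff (by positivity) (by positivity)]
          calc Real.sqrt D * (D ^ (m + 2) * Real.sqrt D)
              = D ^ (m + 2) * (Real.sqrt D * Real.sqrt D) := by ring
            _ = 1 * 1 * D ^ (m + 3) := by rw [hsq]; ring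
  refine step1.trans ?_
  have hD2 : ‖1 - ⟪ξ, -((r : ℂ) • z)⟫_ℂ‖ = D := by
    have h1 : 1 - ⟪ξ, -((r : ℂ) • z)⟫_ℂ = (starRingEnd ℂ) (1 + ⟪z, x⟫_ℂ) := by
      rw [map_add, map_one, inner_conj_symm, hx, inner_neg_right, inner_smul_right,
        inner_smul_left, Complex.conj_ofReal]
      ring
    rw [h1, RCLike.norm_conj]
  rw [hD2]
  have hDr : 1 - r ≤ D := by
    have h1 : ‖⟪z, x⟫_ℂ‖ ≤ r := by
      refine (norm_inner_le_norm (𝕜 := ℂ) z x).trans ?_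
      nlinarith [norm_nonneg z, norm_nonneg x]
    have h2 := norm_sub_norm_le (1 : ℂ) (-⟪z, x⟫_ℂ)
    rw [norm_neg, norm_one, sub_neg_eq_add] at h2
    linarith
  have h3 : 1 / D ≤ 2 * (1 / (D + (1 - r))) := by
    rw [mul_one_div, div_le_div_iff₀ hD (by linarith)]
    linarith
  have h4 : (1 / D) ^ ((m + 2 : ℝ) + 1 / 2) ≤
      2 ^ ((m + 2 : ℝ) + 1 / 2) * (1 / (D + (1 - r))) ^ ((m + 2 : ℝ) + 1 / 2) := by
    have hpos : 0 ≤ 1 / (D + (1 - r)) := by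
      apply one_div_nonneg.mpr
      linarith
    rw [← Real.mul_rpow (by norm_num) hpos]
    exact Real.rpow_le_rpow (by positivity) h3 (by positivity)
  calc 6 * Φ * (1 / D) ^ ((m + 2 : ℝ) + 1 / 2)
      ≤ 6 * Φ * (2 ^ ((m + 2 : ℝ) + 1 / 2) *
          (1 / (D + (1 - r))) ^ ((m + 2 : ℝ) + 1 / 2)) := by gcongr
    _ = _ := by ring


theorem ts_cW_pos (s : ℕ) (μ : Measure E) [μ.IsAddHaarMeasure] : 0 < cWs (s + 1) μ := by
  have hprop : ProperSpace E := FiniteDimensional.proper ℂ E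
  have hfin : IsFiniteMeasure (μ.restrict (ball (0 : E) 1)) :=
    ⟨by rw [Measure.restrict_apply_univ]; exact measure_ball_lt_top⟩
  unfold cWs
  rw [setIntegral_pos_iff_support_of_nonneg_ae]
  · have : Function.support (fun w : E => WWs (s + 1) w) ∩ ball 0 1 = ball 0 1 := by
      apply inter_eq_right.mpr
      intro w hw
      rw [mem_ball_zero_iff] at hw
      have : 0 < 1 - ‖w‖ ^ 2 := by nlinarith [norm_nonneg w]
      rw [Function.mem_support]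
      unfold WWs
      positivity
    rw [this]
    exact measure_ball_pos μ 0 one_pos
  · refine (ae_restrict_iff' measurableSet_ball).mpr (Eventually.of_forall fun w hw => ?_)
    rw [mem_ball_zero_iff] at hw
    have h1 : 0 ≤ 1 - ‖w‖ ^ 2 := by nlinarith [norm_nonneg w]
    exact pow_nonneg h1 _
  · refine Integrable.mono' (g := fun _ => (1 : ℝ)) (integrable_const _) ?_ ?_
    · apply Continuous.aestronglyMeasurable
      unfold WWs
      fun_prop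
    · refine (ae_restrict_iff' measurableSet_ball).mpr (Eventually.of_forall fun w hw => ?_)
      rw [mem_ball_zero_iff] at hw
      have h1 : 0 ≤ 1 - ‖w‖ ^ 2 := by nlinarith [norm_nonneg w]
      have h2 : 1 - ‖w‖ ^ 2 ≤ 1 := by nlinarith [norm_nonneg w]
      unfold WWs
      rw [Real.norm_of_nonneg (by positivity)]
      exact pow_le_one₀ h1 h2

theorem PQs_sub (s : ℕ) (μ : Measure E) [μ.IsAddHaarMeasure] {m : ℕ} (hm : 1 ≤ m)
    (hdim : Module.finrank ℂ E = m + 1) :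
    ∃ C : ℝ, 0 < C ∧ ∀ (N : E → ℂ) (U : Set E) (z : E) (Φ : ℝ), IsOpen U →
      closedBall (0 : E) 1 ⊆ U → ContDiffOn ℝ 1 N U → ‖z‖ < 1 → 0 ≤ Φ →
      (∀ w ∈ ball (0 : E) 1, ∀ x : E, ‖dbE N w x‖ ≤
        Φ * (‖1 - ⟪w, z⟫_ℂ‖ / (1 - ‖w‖ ^ 2)) ^ s *
          Real.sqrt ((1 - ‖z‖ ^ 2) / ‖1 - ⟪w, z⟫_ℂ‖) * gau (1 - ‖w‖ ^ 2) w x) →
      ‖PQs (s + 1) μ m N z - N z‖ ≤ C * Φ := by
  obtain ⟨C₀, hC₀, hk⟩ := SD.kernel_int μ m hm hdim
  have hc := ts_cW_pos s μ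
  refine ⟨(cWs (s + 1) μ)⁻¹ * (2 * (12 * 2 ^ ((m + 2 : ℝ) + 1 / 2) * C₀)), by positivity, ?_⟩
  intro N U z Φ hU hBU hN hz hΦ hyp
  set G : E → ℂ := fun x => N (gg z x) / (1 + ⟪z, x⟫_ℂ) ^ (m + 3 + s) with hG
  set U' : Set E := {x | 1 + ⟪z, x⟫_ℂ ≠ 0} ∩ gg z ⁻¹' U with hU'
  have hU'o : IsOpen U' :=
    (k4_contDiffOn z).continuousOn.isOpen_inter_preimage (k4_open z) hU
  have hBU' : closedBall (0 : E) 1 ⊆ U' := by
    intro x hx
    rw [mem_closedBall_zero_iff] at hx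
    refine ⟨one_add_ne hz hx, hBU ?_⟩
    rw [mem_closedBall_zero_iff]
    exact gg_le hz hx
  have hG1 : ContDiffOn ℝ 1 G U' := k4_contDiffOn_G hN z (m + 3 + s)
  set M : ℝ → ℂ := fun r => ∫ ξ in ball (0 : E) 1, ((WWs (s + 1) ξ : ℝ) : ℂ) * G ((r : ℂ) • ξ) ∂μ with hM
  set M' : ℝ → ℂ := fun r =>
    2 * ∫ ξ in ball (0 : E) 1, ((WWs (s + 1) ξ : ℝ) : ℂ) * dbE G ((r : ℂ) • ξ) ξ ∂μ with hM'
  have hder : ∀ r ∈ Icc (0 : ℝ) 1, HasDerivAt M (M' r) r :=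
    fun r hr => ts_scaling_deriv (s + 1) μ hU'o hBU' hG1 hr
  set K : ℝ := Φ * (12 * 2 ^ ((m + 2 : ℝ) + 1 / 2) * C₀) with hK
  have hK0 : 0 ≤ K := by positivity
  have hbound : ∀ r ∈ Ico (0 : ℝ) 1, ‖M' r‖ ≤ K / Real.sqrt (1 - r) := by
    intro r hr
    have ht : 0 < 1 - r := by linarith [hr.2]
    have hst : 0 < Real.sqrt (1 - r) := Real.sqrt_pos.mpr ht
    have hz' : ‖-((r : ℂ) • z)‖ ≤ 1 := by
      rw [norm_neg, norm_smul, Complex.norm_real, Real.norm_of_nonneg hr.1]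
      nlinarith [norm_nonneg z, hr.1, hr.2]
    obtain ⟨hi, hI⟩ := hk (-((r : ℂ) • z)) hz' (1 - r) ht
    have h1 : ‖∫ ξ in ball (0 : E) 1, ((WWs (s + 1) ξ : ℝ) : ℂ) * dbE G ((r : ℂ) • ξ) ξ ∂μ‖ ≤
        ∫ ξ in ball (0 : E) 1, (6 * Φ * 2 ^ ((m + 2 : ℝ) + 1 / 2) / Real.sqrt (1 - r)) *
          (Real.sqrt (1 - r) * (1 / (‖1 - ⟪ξ, -((r : ℂ) • z)⟫_ℂ‖ + (1 - r))) ^
            ((m + 2 : ℝ) + 1 / 2)) ∂μ := by
      apply norm_integral_le_of_norm_le (hi.const_mul _)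
      refine (ae_restrict_iff' measurableSet_ball).mpr (Eventually.of_forall fun ξ hξ => ?_)
      rw [mem_ball_zero_iff] at hξ
      have hx1 : ‖(r : ℂ) • ξ‖ ≤ 1 := by
        rw [norm_smul, Complex.norm_real, Real.norm_of_nonneg hr.1]
        nlinarith [norm_nonneg ξ, hr.1, hr.2]
      have hd : DifferentiableAt ℝ N (gg z ((r : ℂ) • ξ)) := by
        have hmem : gg z ((r : ℂ) • ξ) ∈ U := by
          apply hBU
          rw [mem_closedBall_zero_iff]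
          exact gg_le hz hx1
        exact (hN.differentiableOn one_ne_zero).differentiableAt (hU.mem_nhds hmem)
      refine (ts_point s hz hξ hr.1 hr.2 hΦ m hd hyp).trans (le_of_eq ?_)
      field_simp
    rw [integral_const_mul] at h1
    have h2 : ‖M' r‖ = 2 * ‖∫ ξ in ball (0 : E) 1,
        ((WWs (s + 1) ξ : ℝ) : ℂ) * dbE G ((r : ℂ) • ξ) ξ ∂μ‖ := by
      rw [hM']
      simp only [norm_mul]
      norm_num
    rw [h2]
    calc 2 * ‖∫ ξ in ball (0 : E) 1, ((WWs (s + 1) ξ : ℝ) : ℂ) * dbE G ((r : ℂ) • ξ) ξ ∂μ‖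
        ≤ 2 * ((6 * Φ * 2 ^ ((m + 2 : ℝ) + 1 / 2) / Real.sqrt (1 - r)) * C₀) := by
          apply mul_le_mul_of_nonneg_left _ (by norm_num)
          refine h1.trans ?_
          apply mul_le_mul_of_nonneg_left hI
          positivity
      _ = K / Real.sqrt (1 - r) := by
          rw [hK]
          ring
  have hmain : ‖M 1 - M 0‖ ≤ 2 * K := by
    have hcont : ContinuousOn (fun r => M r - M 0) (Icc 0 1) := fun r hr =>
      ((hder r hr).continuousAt.sub continuousAt_const).continuousWithinAt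
    have h := image_norm_le_of_norm_deriv_right_le_deriv_boundary' (f := fun r => M r - M 0)
      (a := 0) (b := 1) (f' := M') hcont
      (fun x hx => ((hder x ⟨hx.1, hx.2.le⟩).sub_const (M 0)).hasDerivWithinAt)
      (B := fun r => 2 * K * (1 - Real.sqrt (1 - r))) (B' := fun r => K / Real.sqrt (1 - r))
      (by simp) (by fun_prop) ?_ hbound (right_mem_Icc.mpr zero_le_one)
    · simpa using h
    · intro x hx
      have ht : 0 < 1 - x := by linarith [hx.2]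
      have hst : 0 < Real.sqrt (1 - x) := Real.sqrt_pos.mpr ht
      have h1 : HasDerivAt (fun r : ℝ => 1 - r) (-1) x := by
        simpa using (hasDerivAt_id x).const_sub 1
      have h2 := (h1.sqrt ht.ne').const_sub 1
      have h3 := h2.const_mul (2 * K)
      refine (h3.congr_deriv ?_).hasDerivWithinAt
      field_simp
  have hexp : m + 2 + (s + 1) = m + 3 + s := by omega
  have hPQ : PQs (s + 1) μ m N z = ((cWs (s + 1) μ : ℝ) : ℂ)⁻¹ * M 1 := by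
    rw [PQs_eq (s + 1) μ hdim hz N, hM]
    simp only [Complex.ofReal_one, one_smul, hG, hexp]
  have hNz : N z = ((cWs (s + 1) μ : ℝ) : ℂ)⁻¹ * M 0 := by
    have h1 : M 0 = ((cWs (s + 1) μ : ℝ) : ℂ) * N z := by
      rw [hM]
      simp only [Complex.ofReal_zero, zero_smul, hG, gg_zero, inner_zero_right, add_zero,
        one_pow, div_one]
      rw [integral_mul_const]
      congr 1
      unfold cWs
      exact integral_complex_ofReal
    rw [h1, ← mul_assoc, inv_mul_cancel₀, one_mul]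
    exact_mod_cast hc.ne'
  rw [hPQ, hNz, ← mul_sub, norm_mul, norm_inv, Complex.norm_real, Real.norm_of_nonneg hc.le]
  calc (cWs (s + 1) μ)⁻¹ * ‖M 1 - M 0‖ ≤ (cWs (s + 1) μ)⁻¹ * (2 * K) := by gcongr
    _ = _ := by rw [hK]; ring

theorem PRs_sub (s : ℕ) (μ : Measure E) [μ.IsAddHaarMeasure] {m : ℕ} (hm : 1 ≤ m)
    (hdim : Module.finrank ℂ E = m + 1) :
    ∃ C : ℝ, 0 < C ∧ ∀ (R : ℝ) (N : E → ℂ) (U : Set E) (z : E) (Φ : ℝ), 0 < R → IsOpen U →
      closedBall (0 : E) R ⊆ U → ContDiffOn ℝ 1 N U → ‖z‖ < R → 0 ≤ Φ →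
      (∀ w ∈ ball (0 : E) R, ∀ x : E, ‖dbE N w x‖ ≤
        Φ * (‖((R ^ 2 : ℝ) : ℂ) - ⟪w, z⟫_ℂ‖ / (R ^ 2 - ‖w‖ ^ 2)) ^ s *
          Real.sqrt ((R ^ 2 - ‖z‖ ^ 2) / ‖((R ^ 2 : ℝ) : ℂ) - ⟪w, z⟫_ℂ‖) *
            gau (R ^ 2 - ‖w‖ ^ 2) w x) →
      ‖PRs (s + 1) μ m R N z - N z‖ ≤ C * Φ := by
  obtain ⟨C, hC, hP⟩ := PQs_sub s μ hm hdim
  refine ⟨C, hC, ?_⟩
  intro R N U z Φ hR hU hBU hN hz hΦ hyp
  have hRC : (R : ℂ) ≠ 0 := by exact_mod_cast hR.ne'
  have hRn : ‖(R : ℂ)‖ = R := by rw [Complex.norm_real, Real.norm_of_nonneg hR.le]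
  have hsc : ContDiff ℝ 1 (fun w : E => (R : ℂ) • w) := contDiff_const.smul contDiff_id
  set z' : E := ((R⁻¹ : ℝ) : ℂ) • z with hz'
  have hzz' : (R : ℂ) • z' = z := by
    rw [hz', smul_smul]
    push_cast
    rw [mul_inv_cancel₀ hRC, one_smul]
  have hz'n : R * ‖z'‖ = ‖z‖ := by
    have h1 : ‖(R : ℂ) • z'‖ = R * ‖z'‖ := by rw [norm_smul, hRn]
    rw [hzz'] at h1
    exact h1.symm
  have hz'1 : ‖z'‖ < 1 := by
    by_contra hcon
    push Not at hcon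
    nlinarith
  have h := hP (fun w => N ((R : ℂ) • w)) ((fun w : E => (R : ℂ) • w) ⁻¹' U) z' Φ
    (hU.preimage hsc.continuous) ?_ (hN.comp hsc.contDiffOn (fun x hx => hx)) hz'1 hΦ ?_
  · simp only [hzz'] at h
    exact h
  · intro w hw
    rw [mem_closedBall_zero_iff] at hw
    apply hBU
    rw [mem_closedBall_zero_iff, norm_smul, hRn]
    nlinarith
  · intro w hw x
    rw [mem_ball_zero_iff] at hw
    have hw2 : 0 < 1 - ‖w‖ ^ 2 := by nlinarith [norm_nonneg w]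
    have hRw : ‖(R : ℂ) • w‖ = R * ‖w‖ := by rw [norm_smul, hRn]
    have hmem : (R : ℂ) • w ∈ ball (0 : E) R := by
      rw [mem_ball_zero_iff, hRw]
      nlinarith
    have hb := hyp ((R : ℂ) • w) hmem ((R : ℂ) • x)
    have hdN : DifferentiableAt ℝ N ((R : ℂ) • w) :=
      (hN.differentiableOn one_ne_zero).differentiableAt
        (hU.mem_nhds (hBU (ball_subset_closedBall hmem)))
    have hL : HasFDerivAt (𝕜 := ℝ) (fun w : E => (R : ℂ) • w)
        (((R : ℂ) • ContinuousLinearMap.id ℂ E).restrictScalars ℝ) w := by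
      exact (((R : ℂ) • ContinuousLinearMap.id ℂ E).restrictScalars ℝ).hasFDerivAt
    have hcomp := hdN.hasFDerivAt.comp w hL
    have e0 : dbE (fun w => N ((R : ℂ) • w)) w x = dbE N ((R : ℂ) • w) ((R : ℂ) • x) := by
      unfold dbE
      have : fderiv ℝ (fun w => N ((R : ℂ) • w)) w =
          (fderiv ℝ N ((R : ℂ) • w)).comp
            (((R : ℂ) • ContinuousLinearMap.id ℂ E).restrictScalars ℝ) := hcomp.fderiv
      rw [this]
      simp only [ContinuousLinearMap.comp_apply, ContinuousLinearMap.coe_restrictScalars',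
        smul_apply, ContinuousLinearMap.id_apply]
      rw [smul_comm (R : ℂ) Complex.I x]
    rw [e0]
    have hin : ⟪(R : ℂ) • w, z⟫_ℂ = ((R ^ 2 : ℝ) : ℂ) * ⟪w, z'⟫_ℂ := by
      rw [← hzz', inner_smul_left, inner_smul_right, Complex.conj_ofReal]
      push_cast
      ring
    have e1 : ‖((R ^ 2 : ℝ) : ℂ) - ⟪(R : ℂ) • w, z⟫_ℂ‖ = R ^ 2 * ‖1 - ⟪w, z'⟫_ℂ‖ := by
      rw [hin]
      have : ((R ^ 2 : ℝ) : ℂ) - ((R ^ 2 : ℝ) : ℂ) * ⟪w, z'⟫_ℂ =
          ((R ^ 2 : ℝ) : ℂ) * (1 - ⟪w, z'⟫_ℂ) := by ring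
      rw [this, norm_mul, Complex.norm_real, Real.norm_of_nonneg (by positivity)]
    have e2 : R ^ 2 - ‖(R : ℂ) • w‖ ^ 2 = R ^ 2 * (1 - ‖w‖ ^ 2) := by
      rw [hRw]; ring
    have e3 : R ^ 2 - ‖z‖ ^ 2 = R ^ 2 * (1 - ‖z'‖ ^ 2) := by
      rw [← hz'n]; ring
    have e4 : gau (R ^ 2 - ‖(R : ℂ) • w‖ ^ 2) ((R : ℂ) • w) ((R : ℂ) • x) =
        gau (1 - ‖w‖ ^ 2) w x := by
      unfold gau
      rw [e2, inner_smul_left, inner_smul_right, Complex.conj_ofReal, norm_mul, norm_mul,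
        norm_smul, hRn, Real.sqrt_mul (by positivity), Real.sqrt_sq hR.le]
      have hs : 0 < Real.sqrt (1 - ‖w‖ ^ 2) := Real.sqrt_pos.mpr hw2
      field_simp
    rw [e4, e1, e2, e3] at hb
    have hR2 : (R ^ 2 : ℝ) ≠ 0 := by positivity
    rw [mul_div_mul_left _ _ hR2, mul_div_mul_left _ _ hR2] at hb
    exact hb

/-- holomorphy of the weighted Bergman projection of the unit ball -/
theorem ts_PQ_diff (s : ℕ) (μ : Measure E) [μ.IsAddHaarMeasure] (m : ℕ) {F : E → ℂ} {B : ℝ}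
    (hF : AEStronglyMeasurable F (μ.restrict (ball 0 1))) (hB : ∀ w ∈ ball (0 : E) 1, ‖F w‖ ≤ B) :
    DifferentiableOn ℂ (PQs s μ m F) (ball 0 1) := by
  have hprop : ProperSpace E := FiniteDimensional.proper ℂ E
  intro z₀ hz₀
  apply DifferentiableAt.differentiableWithinAt
  rw [mem_ball_zero_iff] at hz₀
  have hB0 : 0 ≤ B := (norm_nonneg _).trans (hB 0 (mem_ball_self one_pos))
  set r : ℝ := (1 - ‖z₀‖) / 2 with hr
  have hr0 : 0 < r := by rw [hr]; linarith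
  have hlow : ∀ z ∈ ball z₀ r, ∀ w ∈ ball (0 : E) 1, r ≤ ‖1 - ⟪w, z⟫_ℂ‖ := by
    intro z hz w hw
    rw [mem_ball_zero_iff] at hw
    rw [mem_ball, dist_eq_norm] at hz
    have h1 : ‖z‖ ≤ 1 - r := by
      have := norm_le_insert' z z₀
      linarith
    have h2 : ‖⟪w, z⟫_ℂ‖ ≤ ‖z‖ := by
      refine (norm_inner_le_norm w z).trans ?_
      nlinarith [norm_nonneg w, norm_nonneg z]
    calc r ≤ ‖(1 : ℂ)‖ - ‖⟪w, z⟫_ℂ‖ := by rw [norm_one]; linarith
      _ ≤ _ := norm_sub_norm_le _ _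
  unfold PQs
  apply DifferentiableAt.const_mul
  have hfin : IsFiniteMeasure (μ.restrict (ball (0 : E) 1)) :=
    ⟨by rw [Measure.restrict_apply_univ]; exact measure_ball_lt_top⟩
  refine Pool.Agent.Lib.MP_ca0fc2_an.differentiableAt_integral
    (G := fun z w => ((WWs s w : ℝ) : ℂ) * F w / (1 - ⟪w, z⟫_ℂ) ^ (m + 2 + s)) hr0
    (g := fun _ => 1 * B / r ^ (m + 2 + s)) ?_ ?_ (integrable_const _) ?_
  · refine (ae_restrict_iff' measurableSet_ball).mpr (Eventually.of_forall fun w hw => ?_)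
    intro z hz
    apply DifferentiableAt.differentiableWithinAt
    have h1 : DifferentiableAt ℂ (fun z : E => (1 - ⟪w, z⟫_ℂ) ^ (m + 2 + s)) z := by
      apply DifferentiableAt.pow
      apply (differentiableAt_const _).sub
      exact (innerSL ℂ w).differentiableAt
    have hne : (1 - ⟪w, z⟫_ℂ) ^ (m + 2 + s) ≠ 0 := by
      apply pow_ne_zero
      rw [← norm_pos_iff]
      linarith [hlow z hz w hw]
    have h2 := (h1.inv hne).const_mul (((WWs s w : ℝ) : ℂ) * F w)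
    refine h2.congr_of_eventuallyEq (Eventually.of_forall fun b => ?_)
    simp only [div_eq_mul_inv, Pi.inv_apply]
  · intro z hz
    have hc : ContinuousOn (fun w : E => ((WWs s w : ℝ) : ℂ) /
        (1 - ⟪w, z⟫_ℂ) ^ (m + 2 + s)) (ball 0 1) := by
      apply ContinuousOn.div
      · apply Continuous.continuousOn
        unfold WWs
        fun_prop
      · apply Continuous.continuousOn; fun_prop
      · intro w hw
        apply pow_ne_zero
        rw [← norm_pos_iff]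
        linarith [hlow z hz w hw]
    have := hF.mul (hc.aestronglyMeasurable measurableSet_ball)
    refine this.congr (Eventually.of_forall fun w => ?_)
    simp only [Pi.mul_apply]
    ring
  · refine (ae_restrict_iff' measurableSet_ball).mpr (Eventually.of_forall fun w hw => ?_)
    intro z hz
    have h1 := hlow z hz w hw
    rw [norm_div, norm_mul, Complex.norm_real, norm_pow (1 - ⟪w, z⟫_ℂ)]
    have h2 : ‖WWs s w‖ ≤ 1 := by
      rw [mem_ball_zero_iff] at hw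
      unfold WWs
      have : 0 ≤ 1 - ‖w‖ ^ 2 := by nlinarith [norm_nonneg w]
      rw [Real.norm_of_nonneg (pow_nonneg this _)]
      apply pow_le_one₀ this
      nlinarith [sq_nonneg ‖w‖]
    have h3 := hB w hw
    gcongr

theorem PRs_diff (s : ℕ) (μ : Measure E) [μ.IsAddHaarMeasure] {m : ℕ} {R : ℝ} (hR : 0 < R) {N : E → ℂ}
    (hN : ContinuousOn N (closedBall 0 R)) :
    DifferentiableOn ℂ (PRs s μ m R N) (ball 0 R) := by
  have hprop : ProperSpace E := FiniteDimensional.proper ℂ E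
  obtain ⟨B, hB⟩ := (isCompact_closedBall (0 : E) R).exists_bound_of_continuousOn hN
  have hRn : ‖(R : ℂ)‖ = R := by rw [Complex.norm_real, Real.norm_of_nonneg hR.le]
  have hmaps : MapsTo (fun w : E => (R : ℂ) • w) (ball 0 1) (closedBall 0 R) := by
    intro w hw
    rw [mem_ball_zero_iff] at hw
    rw [mem_closedBall_zero_iff, norm_smul, hRn]
    nlinarith
  have hF : AEStronglyMeasurable (fun w : E => N ((R : ℂ) • w)) (μ.restrict (ball 0 1)) := by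
    apply ContinuousOn.aestronglyMeasurable _ measurableSet_ball
    exact hN.comp (continuous_const_smul (R : ℂ)).continuousOn hmaps
  have hQ := ts_PQ_diff s μ m hF (B := B) (fun w hw => hB _ (hmaps hw))
  have hs : DifferentiableOn ℂ (fun z : E => ((R⁻¹ : ℝ) : ℂ) • z) (ball 0 R) :=
    (differentiable_id.const_smul _).differentiableOn
  refine hQ.comp hs ?_
  intro z hz
  rw [mem_ball_zero_iff] at hz
  rw [mem_ball_zero_iff, norm_smul, Complex.norm_real, Real.norm_of_nonneg (by positivity)]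
  rw [inv_mul_lt_iff₀ hR]
  linarith

end Pool.Agent.MPca0fc2.TS
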