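import Mathlib
import Pool.Agent.Lib.MP_ca0fc2_an.Mg.G055
import Pool.Agent.Lib.MP_ca0fc2_an.TS.Pr

set_option autoImplicit false

open Metric Set MeasureTheory Filter Topology
open scoped InnerProductSpace ENNReal

/-! # The projection of vector valued functions -/

namespace Pool.Agent.MPca0fc2.TS

open Pool.Agent.MPca0fc2.PT Pool.Agent.MPca0fc2.QT

variable {E : Type*} [NormedAddCommGroup E] [InnerProductSpace ℂ E]
variable {V : Type*} [NormedAddCommGroup V] [InnerProductSpace ℂ V] [FiniteDimensional ℂ V]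

/-- the coordinates of a vector valued function -/
noncomputable def crd (N : E → V) (i : Fin (Module.finrank ℂ V)) (w : E) : ℂ :=
  ⟪stdOrthonormalBasis ℂ V i, N w⟫_ℂ

theorem crd_dbE {N : E → V} {w : E} (hN : DifferentiableAt ℝ N w) (i : Fin (Module.finrank ℂ V))
    (v : E) : dbE (crd N i) w v = ⟪stdOrthonormalBasis ℂ V i, D01 N w v⟫_ℂ := by
  have h1 : HasFDerivAt (crd N i)
      (((innerSL ℂ (stdOrthonormalBasis ℂ V i)).restrictScalars ℝ).comp (fderiv ℝ N w)) w :=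
    ((innerSL ℂ (stdOrthonormalBasis ℂ V i)).restrictScalars ℝ).hasFDerivAt.comp w hN.hasFDerivAt
  unfold dbE
  rw [h1.fderiv, D01_apply]
  simp only [ContinuousLinearMap.comp_apply, ContinuousLinearMap.coe_restrictScalars',
    innerSL_apply_apply, inner_smul_right, inner_add_right]
  ring

theorem crd_dbE_le {N : E → V} {w : E} (hN : DifferentiableAt ℝ N w)
    (i : Fin (Module.finrank ℂ V)) (v : E) : ‖dbE (crd N i) w v‖ ≤ ‖D01 N w v‖ := by
  rw [crd_dbE hN]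
  refine (norm_inner_le_norm _ _).trans (le_of_eq ?_)
  rw [(stdOrthonormalBasis ℂ V).norm_eq_one, one_mul]

theorem crd_c1 {N : E → V} {U : Set E} (hN : ContDiffOn ℝ 1 N U)
    (i : Fin (Module.finrank ℂ V)) : ContDiffOn ℝ 1 (crd N i) U :=
  ((innerSL ℂ (stdOrthonormalBasis ℂ V i)).restrictScalars ℝ).contDiff.comp_contDiffOn hN

variable [FiniteDimensional ℂ E] [MeasurableSpace E] [BorelSpace E]

/-- the projection -/
noncomputable def PRV (s : ℕ) (μ : Measure E) (m : ℕ) (R : ℝ) (N : E → V) (z : E) : V :=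
  ∑ i, PRs s μ m R (crd N i) z • stdOrthonormalBasis ℂ V i

theorem PRV_diff (s : ℕ) (μ : Measure E) [μ.IsAddHaarMeasure] {m : ℕ} {R : ℝ} (hR : 0 < R)
    {N : E → V} {U : Set E} (hBU : closedBall (0 : E) R ⊆ U) (hN : ContDiffOn ℝ 1 N U) :
    DifferentiableOn ℂ (PRV s μ m R N) (ball 0 R) := by
  unfold PRV
  apply DifferentiableOn.fun_sum
  intro i _
  exact (PRs_diff s μ hR ((crd_c1 hN i).continuousOn.mono hBU)).smul_const _

theorem PRV_sub (s : ℕ) (μ : Measure E) [μ.IsAddHaarMeasure] {m : ℕ} (hm : 1 ≤ m)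
    (hdim : Module.finrank ℂ E = m + 1) :
    ∃ C : ℝ, 0 < C ∧ ∀ (R : ℝ) (N : E → V) (U : Set E) (z : E) (Φ : ℝ), 0 < R → IsOpen U →
      closedBall (0 : E) R ⊆ U → ContDiffOn ℝ 1 N U → ‖z‖ < R → 0 ≤ Φ →
      (∀ w ∈ ball (0 : E) R, ∀ x : E, ‖D01 N w x‖ ≤
        Φ * (‖((R ^ 2 : ℝ) : ℂ) - ⟪w, z⟫_ℂ‖ / (R ^ 2 - ‖w‖ ^ 2)) ^ s *
          Real.sqrt ((R ^ 2 - ‖z‖ ^ 2) / ‖((R ^ 2 : ℝ) : ℂ) - ⟪w, z⟫_ℂ‖) *
            gau (R ^ 2 - ‖w‖ ^ 2) w x) →
      ‖PRV (s + 1) μ m R N z - N z‖ ≤ C * Φ := by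
  obtain ⟨C, hC, h⟩ := PRs_sub s μ hm hdim
  refine ⟨Module.finrank ℂ V * C + 1, by positivity, ?_⟩
  intro R N U z Φ hR hU hBU hN hz hΦ hyp
  have e1 : N z = ∑ i, crd N i z • stdOrthonormalBasis ℂ V i :=
    ((stdOrthonormalBasis ℂ V).sum_repr' (N z)).symm
  have e2 : PRV (s + 1) μ m R N z - N z =
      ∑ i, (PRs (s + 1) μ m R (crd N i) z - crd N i z) • stdOrthonormalBasis ℂ V i := by
    conv_lhs => rw [e1]
    unfold PRV
    rw [← Finset.sum_sub_distrib]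
    exact Finset.sum_congr rfl fun i _ => (sub_smul _ _ _).symm
  rw [e2]
  have h1 : ∀ i, ‖(PRs (s + 1) μ m R (crd N i) z - crd N i z) • stdOrthonormalBasis ℂ V i‖ ≤
      C * Φ := by
    intro i
    rw [norm_smul, (stdOrthonormalBasis ℂ V).norm_eq_one, mul_one]
    refine h R (crd N i) U z Φ hR hU hBU (crd_c1 hN i) hz hΦ fun w hw x => ?_
    have hd : DifferentiableAt ℝ N w :=
      (hN.differentiableOn one_ne_zero).differentiableAt
        (hU.mem_nhds (hBU (ball_subset_closedBall hw)))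
    exact (crd_dbE_le hd i x).trans (hyp w hw x)
  refine (norm_sum_le _ _).trans ((Finset.sum_le_sum fun i _ => h1 i).trans ?_)
  rw [Finset.sum_const, Finset.card_univ, Fintype.card_fin, nsmul_eq_mul]
  nlinarith

end Pool.Agent.MPca0fc2.TS
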