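import Mathlib
import Pool.Agent.Lib.MP_ca0fc2_an.Mg.G122
import Pool.Agent.Lib.MP_ca0fc2_an.PTGrad
import Pool.Agent.Lib.MP_ca0fc2_an.CGInv

set_option autoImplicit false

open Metric Set MeasureTheory Filter Topology
open scoped InnerProductSpace ENNReal ContDiff

/-! # The energy measure and the gradient -/

namespace Pool.Agent.MPca0fc2.TS

open Pool.Agent.MPca0fc2.PT
open Pool.Agent.MPca0fc2.QT

variable {E : Type*} [NormedAddCommGroup E] [InnerProductSpace ℂ E]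
variable [FiniteDimensional ℂ E] [MeasurableSpace E] [BorelSpace E]

/-- `PT.grad_bounded` or `PT.gd_schwarz`; `IG2 u = |∇(u ∘ φ)(0)|²` is in `CGInv` -/
theorem IG2_le {u : E → ℂ} (hu : DifferentiableOn ℂ u (ball 0 1))
    (hM : ∀ z ∈ ball (0 : E) 1, ‖u z‖ ≤ 1) {y : E} (hy : ‖y‖ < 1) : IG2 u y ≤ 1 := by
  obtain ⟨b, hb1, hb2⟩ := CG.IG_rep (u := u) hy
  have h1 := gd_chain hu hy (x := 0) (by simp) b
  rw [gg_zero, hb1 b] at h1
  have h2 := gd_schwarz (gd_diff hu hy) (M := 1) (by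
    intro z hz
    rw [mem_ball_zero_iff] at hz
    exact hM _ (by rw [mem_ball_zero_iff]; exact gg_lt hy hz)) b
  rw [h1, one_mul] at h2
  have h3 : ‖⟪b, b⟫_ℂ‖ = ‖b‖ ^ 2 := by
    rw [inner_self_eq_norm_sq_to_K]
    simp
  rw [h3] at h2
  have h4 : ‖b‖ ≤ 1 := by
    by_contra hcon
    push Not at hcon
    nlinarith
  rw [← hb2]
  nlinarith [norm_nonneg b]

/-- the density is bounded: `(1 - |x|²)^M (1 - |x|²)^{-(m+2)} ≤ 1` and `IG2 ≤ 1` -/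
theorem nuE_OnB (μ : Measure E) [μ.IsAddHaarMeasure] {m M : ℕ} (hM : m + 2 ≤ M) {N : ℕ}
    {f : Fin N → E → ℂ} (hf : ∀ j, DifferentiableOn ℂ (f j) (ball 0 1))
    (hfM : ∀ j, ∀ z ∈ ball (0 : E) 1, ‖f j z‖ ≤ 1) : OnB (nuE μ m M f) := by
  have hprop : ProperSpace E := FiniteDimensional.proper ℂ E
  refine ⟨⟨?_⟩, ?_⟩
  · unfold nuE
    rw [withDensity_apply _ MeasurableSet.univ, Measure.restrict_univ]
    have hle : ∫⁻ x in ball (0 : E) 1, ENNReal.ofReal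
        ((1 - ‖x‖ ^ 2) ^ M * (∑ j, IG2 (f j) x) / (1 - ‖x‖ ^ 2) ^ (m + 2)) ∂μ ≤
        ∫⁻ x in ball (0 : E) 1, ENNReal.ofReal N ∂μ := by
      refine setLIntegral_mono' measurableSet_ball fun x hx => ?_
      rw [mem_ball_zero_iff] at hx
      apply ENNReal.ofReal_le_ofReal
      have h0 : 0 < 1 - ‖x‖ ^ 2 := by nlinarith [norm_nonneg x]
      have h1 : 1 - ‖x‖ ^ 2 ≤ 1 := by nlinarith [norm_nonneg x]
      have hs : ∑ j, IG2 (f j) x ≤ N := by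
        calc ∑ j, IG2 (f j) x ≤ ∑ _j : Fin N, (1 : ℝ) :=
              Finset.sum_le_sum fun j _ => IG2_le (hf j) (hfM j) hx
          _ = N := by simp
      have hs0 : 0 ≤ ∑ j, IG2 (f j) x := Finset.sum_nonneg fun j _ => gd_IG_nonneg hx
      have hp : (1 - ‖x‖ ^ 2) ^ M ≤ (1 - ‖x‖ ^ 2) ^ (m + 2) := pow_le_pow_of_le_one h0.le h1 hM
      rw [div_le_iff₀ (pow_pos h0 _), mul_comm]
      exact mul_le_mul hs hp (pow_pos h0 _).le (Nat.cast_nonneg _)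
    refine lt_of_le_of_lt hle ?_
    rw [lintegral_const, Measure.restrict_apply_univ]
    exact ENNReal.mul_lt_top ENNReal.ofReal_lt_top measure_ball_lt_top
  · unfold nuE
    refine withDensity_absolutelyContinuous _ _ ?_
    rw [Measure.restrict_apply measurableSet_ball.compl, compl_inter_self, measure_empty]

omit [FiniteDimensional ℂ E] [MeasurableSpace E] [BorelSpace E] in
private theorem IG_mean_den {y x : E} (hy : ‖y‖ < 1) (hx : ‖x‖ < 1 / 2) :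
    1 / 2 ≤ ‖1 + ⟪y, x⟫_ℂ‖ ∧ ‖1 + ⟪y, x⟫_ℂ‖ ≤ 3 / 2 := by
  have h1 : ‖⟪y, x⟫_ℂ‖ ≤ 1 / 2 := by
    have h2 := norm_inner_le_norm (𝕜 := ℂ) y x
    nlinarith [norm_nonneg y, norm_nonneg x]
  have h3 := norm_sub_norm_le (1 : ℂ) (-⟪y, x⟫_ℂ)
  rw [sub_neg_eq_add, norm_neg, norm_one] at h3
  have h4 := norm_add_le (1 : ℂ) ⟪y, x⟫_ℂ
  rw [norm_one] at h4
  exact ⟨by linarith, by linarith⟩

omit [FiniteDimensional ℂ E] [MeasurableSpace E] [BorelSpace E] in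
private theorem IG_mean_ker {y x : E} (hy : ‖y‖ < 1) (hx : ‖x‖ < 1) :
    ‖1 - ⟪gg y x, y⟫_ℂ‖ = (1 - ‖y‖ ^ 2) / ‖1 + ⟪y, x⟫_ℂ‖ := by
  have h1 := congrArg (starRingEnd ℂ) (inner_gg_self hy hx.le)
  rw [map_sub, map_one, inner_conj_symm] at h1
  have ha : 0 ≤ 1 - ‖y‖ ^ 2 := by nlinarith [norm_nonneg y]
  rw [h1, Complex.norm_conj, norm_div, Complex.norm_real, Real.norm_of_nonneg ha]

omit [FiniteDimensional ℂ E] [MeasurableSpace E] [BorelSpace E] in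
private theorem IG_mean_pt {y x : E} (hy : ‖y‖ < 1) (hx : ‖x‖ < 1 / 2) (M : ℕ) :
    (1 / 2) ^ (M + 1) * (1 - ‖y‖ ^ 2) ^ (-(1 / 4) : ℝ) ≤
      ‖1 - ⟪gg y x, y⟫_ℂ‖ ^ (-((M : ℝ) + 1 / 4)) * (1 - ‖gg y x‖ ^ 2) ^ M := by
  obtain ⟨hD1, hD2⟩ := IG_mean_den hy hx
  have hx1 : ‖x‖ < 1 := by linarith
  rw [IG_mean_ker hy hx1, norm_gg hy hx1.le]
  have ha : 0 < 1 - ‖y‖ ^ 2 := by nlinarith [norm_nonneg y]
  have hb : 3 / 4 ≤ 1 - ‖x‖ ^ 2 := by nlinarith [norm_nonneg x]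
  generalize ‖1 + ⟪y, x⟫_ℂ‖ = D at *
  generalize 1 - ‖y‖ ^ 2 = a at *
  generalize 1 - ‖x‖ ^ 2 = b at *
  have hD0 : 0 < D := by linarith
  have haD : 0 < a / D := by positivity
  have h1 : (a / D) ^ (-((M : ℝ) + 1 / 4)) = ((a / D) ^ M)⁻¹ * (a / D) ^ (-(1 / 4) : ℝ) := by
    rw [neg_add, Real.rpow_add haD, Real.rpow_neg haD.le, Real.rpow_natCast]
  have h2 : (a * b / D ^ 2) ^ M = (a / D) ^ M * (b / D) ^ M := by
    rw [← mul_pow]
    congr 1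
    field_simp
  have h3 : (1 / 2 : ℝ) ^ M ≤ (b / D) ^ M := by
    apply pow_le_pow_left₀ (by norm_num)
    rw [le_div_iff₀ hD0]
    linarith
  have h4 : 1 / 2 * a ^ (-(1 / 4) : ℝ) ≤ (a / D) ^ (-(1 / 4) : ℝ) := by
    have h5 : (2 * a) ^ (-(1 / 4) : ℝ) ≤ (a / D) ^ (-(1 / 4) : ℝ) := by
      apply Real.rpow_le_rpow_of_nonpos haD _ (by norm_num)
      rw [div_le_iff₀ hD0]
      nlinarith
    have h6 : (1 / 2 : ℝ) ≤ 2 ^ (-(1 / 4) : ℝ) := by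
      have h7 : (2 : ℝ) ^ (-1 : ℝ) ≤ 2 ^ (-(1 / 4) : ℝ) :=
        Real.rpow_le_rpow_of_exponent_le (by norm_num) (by norm_num)
      rw [Real.rpow_neg_one] at h7
      linarith
    rw [Real.mul_rpow (by norm_num) ha.le] at h5
    have h8 : 0 ≤ a ^ (-(1 / 4) : ℝ) := Real.rpow_nonneg ha.le _
    nlinarith
  rw [h1, h2]
  have h9 : 0 ≤ a ^ (-(1 / 4) : ℝ) := Real.rpow_nonneg ha.le _
  have h10 : 0 < (a / D) ^ M := by positivity
  calc (1 / 2) ^ (M + 1) * a ^ (-(1 / 4) : ℝ) = (1 / 2 * a ^ (-(1 / 4) : ℝ)) * (1 / 2) ^ M := by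
        rw [pow_succ]; ring
    _ ≤ (a / D) ^ (-(1 / 4) : ℝ) * (b / D) ^ M := by gcongr
    _ = ((a / D) ^ M)⁻¹ * (a / D) ^ (-(1 / 4) : ℝ) * ((a / D) ^ M * (b / D) ^ M) := by
        field_simp

omit [FiniteDimensional ℂ E] in
private theorem IG_mean_int {ν : Measure E} (hν : OnB ν) {p : ℝ} (hp : 0 ≤ p) {y : E}
    (hy : ‖y‖ < 1) : Integrable (fun x => ‖1 - ⟪x, y⟫_ℂ‖ ^ (-p)) ν := by
  have := hν.fin
  have hcont : Continuous fun x : E => ‖1 - ⟪x, y⟫_ℂ‖ := by fun_prop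
  have hmeas : Measurable fun x : E => ‖1 - ⟪x, y⟫_ℂ‖ ^ (-p) := hcont.measurable.pow_const _
  refine Integrable.mono' (integrable_const ((1 - ‖y‖) ^ (-p))) hmeas.aestronglyMeasurable ?_
  have hae : ∀ᵐ x ∂ν, x ∈ ball (0 : E) 1 := by
    rw [ae_iff]
    exact hν.supp
  filter_upwards [hae] with x hx
  rw [mem_ball_zero_iff] at hx
  rw [Real.norm_of_nonneg (Real.rpow_nonneg (norm_nonneg _) _)]
  apply Real.rpow_le_rpow_of_nonpos (by linarith) _ (by linarith)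
  have h1 := norm_inner_le_norm (𝕜 := ℂ) x y
  have h2 := norm_sub_norm_le (1 : ℂ) ⟪x, y⟫_ℂ
  rw [norm_one] at h2
  nlinarith [norm_nonneg y, norm_nonneg x]

/-- The submean value inequality on the Bergman ball `gg y '' ball 0 (1/2)` (pattern: `gd_mean`,
`gd_EE` and the proof of `grad_bound` in `PTGrad`, with `p = 2`); there
`1 - |x|² ≥ c |1 - ⟪x, y⟫|` and `1 - |y|² ≥ c |1 - ⟪x, y⟫|`. -/
theorem IG_mean (μ : Measure E) [μ.IsAddHaarMeasure] {m : ℕ}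
    (hdim : Module.finrank ℂ E = m + 1) {M : ℕ} (hM : m + 2 ≤ M) :
    ∃ C : ℝ, 0 < C ∧ ∀ (N : ℕ) (f : Fin N → E → ℂ),
      (∀ j, DifferentiableOn ℂ (f j) (ball 0 1)) → (∀ j, ∀ z ∈ ball (0 : E) 1, ‖f j z‖ ≤ 1) →
      ∀ (j : Fin N) (y : E), ‖y‖ < 1 → IG2 (f j) y ≤
        C * ((1 - ‖y‖ ^ 2) ^ (1 / 4 : ℝ) * PP (nuE μ m M f) ((M : ℝ) + 1 / 4) y) := by
  have hprop : ProperSpace E := FiniteDimensional.proper ℂ E
  set V : ℝ := μ.real (ball (0 : E) (1 / 2)) with hV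
  have hV0 : 0 < V :=
    ENNReal.toReal_pos (measure_ball_pos μ 0 (by norm_num)).ne' measure_ball_lt_top.ne
  have hVV : μ (ball (0 : E) (1 / 2)) = ENNReal.ofReal V := by
    rw [hV, ofReal_measureReal]
  refine ⟨576 * 2 ^ (M + 1) / V, by positivity, ?_⟩
  intro N f hf hfM j y hy
  have hB : OnB (nuE μ m M f) := nuE_OnB μ hM hf hfM
  have ha : 0 < 1 - ‖y‖ ^ 2 := by nlinarith [norm_nonneg y]
  obtain ⟨P, hP⟩ : ∃ P, P = PP (nuE μ m M f) ((M : ℝ) + 1 / 4) y := ⟨_, rfl⟩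
  have hP0 : 0 ≤ P := by
    rw [hP]
    exact integral_nonneg fun x => Real.rpow_nonneg (norm_nonneg _) _
  rw [← hP]
  obtain ⟨b, hb1, hb2⟩ := CG.IG_rep (u := f j) hy
  rcases eq_or_ne b 0 with hb | hb
  · rw [← hb2, hb, norm_zero, zero_pow two_ne_zero]
    exact mul_nonneg (by positivity) (mul_nonneg (Real.rpow_nonneg ha.le _) hP0)
  have hb0 : 0 < ‖b‖ := norm_pos_iff.mpr hb
  -- the mean value inequality
  have h0 : ‖fderiv ℂ (fun x => f j (gg y x)) 0 b‖ = ‖b‖ ^ 2 := by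
    have := gd_chain (hf j) hy (x := 0) (by simp) b
    rw [gg_zero, hb1] at this
    rw [this, inner_self_eq_norm_sq_to_K, norm_pow]
    simp
  have hmean := gd_mean μ (p := 2) (by norm_num) (gd_diff (hf j) hy) b
  rw [h0, hVV] at hmean
  have hnn : ∀ l, ∀ w : E, ‖w‖ < 1 → 0 ≤ IG2 (f l) w := fun l w hw => gd_IG_nonneg hw
  have hpt : ∀ x ∈ ball (0 : E) (1 / 2), ENNReal.ofReal ‖fderiv ℂ (fun x => f j (gg y x)) x b‖ ^ (2 : ℝ) ≤
      ENNReal.ofReal (576 * ‖b‖ ^ 2) * ENNReal.ofReal (IG2 (f j) (gg y x)) := by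
    intro x hx
    rw [mem_ball_zero_iff] at hx
    have hx1 : ‖x‖ < 1 := by linarith
    have hgx := gg_lt hy hx1
    have hIG := hnn j _ hgx
    obtain ⟨v', hv', hvn'⟩ := gg'_zero_surj hgx (gg' y x b)
    have hx2 : ‖x‖ ^ 2 ≤ 1 / 4 := by nlinarith [norm_nonneg x]
    have h1 : ‖fderiv ℂ (fun x => f j (gg y x)) x b‖ ≤
        Real.sqrt (IG2 (f j) (gg y x)) * (24 * ‖b‖) := by
      rw [gd_chain (hf j) hy hx1 b, ← hv']
      calc _ ≤ Real.sqrt (IG2 (f j) (gg y x)) * ‖v'‖ := gd_IG hgx v'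
        _ ≤ Real.sqrt (IG2 (f j) (gg y x)) * (24 * ‖b‖) := by
          gcongr
          calc ‖v'‖ ≤ 3 * gau (1 - ‖gg y x‖ ^ 2) (gg y x) (gg' y x b) := hvn'
            _ ≤ 3 * (6 * ‖b‖ / (1 - ‖x‖ ^ 2)) := by
              gcongr
              exact gau_gg hy hx1
            _ ≤ 3 * (6 * ‖b‖ / (3 / 4)) := by
              gcongr
              linarith
            _ = 24 * ‖b‖ := by ring
    rw [ENNReal.ofReal_rpow_of_nonneg (norm_nonneg _) (by norm_num), ← ENNReal.ofReal_mul (by positivity)]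
    apply ENNReal.ofReal_le_ofReal
    rw [Real.rpow_two]
    calc ‖fderiv ℂ (fun x => f j (gg y x)) x b‖ ^ 2 ≤
          (Real.sqrt (IG2 (f j) (gg y x)) * (24 * ‖b‖)) ^ 2 := by gcongr
      _ = 576 * ‖b‖ ^ 2 * IG2 (f j) (gg y x) := by
          rw [mul_pow, Real.sq_sqrt hIG]
          ring
  obtain ⟨J, hJ⟩ : ∃ J, J = ∫⁻ x in ball (0 : E) (1 / 2), ENNReal.ofReal (IG2 (f j) (gg y x)) ∂μ :=
    ⟨_, rfl⟩
  have h1 : ENNReal.ofReal (‖b‖ ^ 2) ^ (2 : ℝ) * ENNReal.ofReal V ≤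
      ENNReal.ofReal (576 * ‖b‖ ^ 2) * J := by
    rw [hJ, ← lintegral_const_mul' _ _ ENNReal.ofReal_ne_top]
    exact hmean.trans (setLIntegral_mono' measurableSet_ball hpt)
  -- the integral with respect to the energy measure
  obtain ⟨c, hc⟩ : ∃ c : ℝ, c = (1 / 2) ^ (M + 1) * (1 - ‖y‖ ^ 2) ^ (-(1 / 4) : ℝ) := ⟨_, rfl⟩
  have hc0 : 0 < c := by
    rw [hc]
    have := Real.rpow_pos_of_pos ha (-(1 / 4) : ℝ)
    positivity
  have hSm : Measurable fun x : E => ∑ l, IG2 (f l) x :=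
    Finset.measurable_sum _ fun l _ => gd_IG_meas (f l)
  have hdm : Measurable fun x : E => ENNReal.ofReal ((1 - ‖x‖ ^ 2) ^ M * (∑ l, IG2 (f l) x) /
      (1 - ‖x‖ ^ 2) ^ (m + 2)) := by
    apply ENNReal.measurable_ofReal.comp
    have h5 : Measurable fun x : E => 1 - ‖x‖ ^ 2 := measurable_const.sub (measurable_norm.pow_const 2)
    exact ((h5.pow_const M).mul hSm).div (h5.pow_const (m + 2))
  have hkm : Measurable fun x : E => ENNReal.ofReal (‖1 - ⟪x, y⟫_ℂ‖ ^ (-((M : ℝ) + 1 / 4))) := by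
    have hcont : Continuous fun x : E => ‖1 - ⟪x, y⟫_ℂ‖ := by fun_prop
    exact ENNReal.measurable_ofReal.comp (hcont.measurable.pow_const _)
  have h2 : ENNReal.ofReal P = ∫⁻ x in ball (0 : E) 1,
      ENNReal.ofReal (((1 - ‖y‖ ^ 2) / ‖1 + ⟪y, x⟫_ℂ‖ ^ 2) ^ (m + 2)) *
        (ENNReal.ofReal ((1 - ‖gg y x‖ ^ 2) ^ M * (∑ l, IG2 (f l) (gg y x)) /
          (1 - ‖gg y x‖ ^ 2) ^ (m + 2)) *
          ENNReal.ofReal (‖1 - ⟪gg y x, y⟫_ℂ‖ ^ (-((M : ℝ) + 1 / 4)))) ∂μ := by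
    rw [hP, PP, ofReal_integral_eq_lintegral_ofReal (IG_mean_int hB (by positivity) hy)
      (ae_of_all _ fun _ => Real.rpow_nonneg (norm_nonneg _) _), nuE,
      lintegral_withDensity_eq_lintegral_mul _ hdm hkm, lintegral_gg μ hdim hy]
    rfl
  have h3 : ENNReal.ofReal c * J ≤ ENNReal.ofReal P := by
    rw [h2, hJ, ← lintegral_const_mul' _ _ ENNReal.ofReal_ne_top]
    refine le_trans ?_ (lintegral_mono_set (ball_subset_ball (by norm_num : (1 : ℝ) / 2 ≤ 1)))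
    apply setLIntegral_mono' measurableSet_ball
    intro x hx
    rw [mem_ball_zero_iff] at hx
    have hx1 : ‖x‖ < 1 := by linarith
    have hgx := gg_lt hy hx1
    have hw : 0 < 1 - ‖gg y x‖ ^ 2 := by nlinarith [norm_nonneg (gg y x)]
    have hS : IG2 (f j) (gg y x) ≤ ∑ l, IG2 (f l) (gg y x) :=
      Finset.single_le_sum (f := fun l => IG2 (f l) (gg y x)) (fun l _ => hnn l _ hgx)
        (Finset.mem_univ j)
    have hS0 := hnn j _ hgx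
    have hpos3 : 0 < ‖1 + ⟪y, x⟫_ℂ‖ := norm_pos_iff.mpr (one_add_ne hy hx1.le)
    have hk := IG_mean_pt hy hx M
    rw [← hc] at hk
    have hk0 : 0 ≤ ‖1 - ⟪gg y x, y⟫_ℂ‖ ^ (-((M : ℝ) + 1 / 4)) := Real.rpow_nonneg (norm_nonneg _) _
    have hng := norm_gg hy hx1.le
    have hbx : 0 < 1 - ‖x‖ ^ 2 := by nlinarith [norm_nonneg x]
    have hbx1 : 1 - ‖x‖ ^ 2 ≤ 1 := by nlinarith [norm_nonneg x]
    rw [← ENNReal.ofReal_mul hc0.le, ← ENNReal.ofReal_mul (by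
        apply div_nonneg
        · exact mul_nonneg (by positivity) (hS0.trans hS)
        · positivity), ← ENNReal.ofReal_mul (by positivity)]
    apply ENNReal.ofReal_le_ofReal
    generalize ‖1 - ⟪gg y x, y⟫_ℂ‖ ^ (-((M : ℝ) + 1 / 4)) = κ at *
    generalize ∑ l, IG2 (f l) (gg y x) = S at *
    generalize IG2 (f j) (gg y x) = s at *
    generalize 1 - ‖gg y x‖ ^ 2 = w at *
    generalize ‖1 + ⟪y, x⟫_ℂ‖ = D at *
    generalize 1 - ‖x‖ ^ 2 = β at *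
    generalize 1 - ‖y‖ ^ 2 = a at *
    have e1 : (a / D ^ 2) ^ (m + 2) * (w ^ M * S / w ^ (m + 2) * κ) =
        (κ * w ^ M) * S / β ^ (m + 2) := by
      have e2 : (a / D ^ 2) ^ (m + 2) = w ^ (m + 2) / β ^ (m + 2) := by
        rw [← div_pow, hng]
        congr 1
        field_simp
      rw [e2]
      field_simp
    rw [e1, le_div_iff₀ (by positivity)]
    have e3 : β ^ (m + 2) ≤ 1 := pow_le_one₀ hbx.le hbx1
    calc c * s * β ^ (m + 2) ≤ c * s * 1 := by gcongr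
      _ = c * s := mul_one _
      _ ≤ κ * w ^ M * S := by gcongr
  -- combination
  have h4 : ENNReal.ofReal c * (ENNReal.ofReal (‖b‖ ^ 2) ^ (2 : ℝ) * ENNReal.ofReal V) ≤
      ENNReal.ofReal (576 * ‖b‖ ^ 2) * ENNReal.ofReal P := by
    calc _ ≤ ENNReal.ofReal c * (ENNReal.ofReal (576 * ‖b‖ ^ 2) * J) := by gcongr
      _ = ENNReal.ofReal (576 * ‖b‖ ^ 2) * (ENNReal.ofReal c * J) := by ring
      _ ≤ _ := by gcongr
  rw [ENNReal.ofReal_rpow_of_nonneg (by positivity) (by norm_num), Real.rpow_two,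
    ← ENNReal.ofReal_mul (by positivity), ← ENNReal.ofReal_mul (by positivity),
    ← ENNReal.ofReal_mul (by positivity), ENNReal.ofReal_le_ofReal_iff (by positivity)] at h4
  have h5 : c * ‖b‖ ^ 2 * V ≤ 576 * P := by
    have h6 : 0 < ‖b‖ ^ 2 := by positivity
    nlinarith
  rw [← hb2]
  have h7 : (1 - ‖y‖ ^ 2) ^ (1 / 4 : ℝ) = ((1 / 2) ^ (M + 1)) / c := by
    rw [hc, Real.rpow_neg ha.le]
    have := Real.rpow_pos_of_pos ha (1 / 4 : ℝ)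
    field_simp
  rw [h7]
  have h8 : 576 * 2 ^ (M + 1) / V * ((1 / 2) ^ (M + 1) / c * P) = 576 * P / (c * V) := by
    have h9 : (2 : ℝ) ^ (M + 1) * (1 / 2) ^ (M + 1) = 1 := by
      rw [← mul_pow]; norm_num
    calc _ = 576 * P * ((2 : ℝ) ^ (M + 1) * (1 / 2) ^ (M + 1)) / (c * V) := by
          field_simp
      _ = _ := by rw [h9, mul_one]
  rw [h8, le_div_iff₀ (by positivity)]
  linarith

end Pool.Agent.MPca0fc2.TS
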