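import Mathlib
import Pool.Agent.Lib.MP_ca0fc2_an.Mg.G055
import Pool.Agent.Lib.MP_ca0fc2_an.Mg.G022

set_option autoImplicit false

open Metric Set MeasureTheory Filter Topology
open scoped InnerProductSpace ENNReal

/-! # The intermediate solution -/

namespace Pool.Agent.MPca0fc2.TS

open Pool.Agent.MPca0fc2.PT Pool.Agent.MPca0fc2.QT

variable {E : Type*} [NormedAddCommGroup E] [InnerProductSpace ℂ E]
variable {Y : Type*} [NormedAddCommGroup Y] [NormedSpace ℂ Y]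

/-- the intermediate solution -/
noncomputable def shp (F : E → Y →L[ℂ] ℂ) (σ : E → Y) (w : E) : Y := (F w (σ w))⁻¹ • σ w

omit [NormedAddCommGroup E] [InnerProductSpace ℂ E] in
theorem shp_one {F : E → Y →L[ℂ] ℂ} {σ : E → Y} {w : E} (h : F w (σ w) ≠ 0) :
    F w (shp F σ w) = 1 := by
  unfold shp
  rw [map_smul, smul_eq_mul, inv_mul_cancel₀ h]

/-- the derivative of a pairing -/
theorem clm_hasFDerivAt {F : E → Y →L[ℂ] ℂ} {σ : E → Y} {w : E} (hF : DifferentiableAt ℂ F w)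
    (hσ : DifferentiableAt ℝ σ w) :
    DifferentiableAt ℝ (fun x => F x (σ x)) w ∧ ∀ v, fderiv ℝ (fun x => F x (σ x)) w v =
      F w (fderiv ℝ σ w v) + fderiv ℂ F w v (σ w) := by
  have hF1 : HasFDerivAt F ((fderiv ℂ F w).restrictScalars ℝ) w :=
    hF.hasFDerivAt.restrictScalars ℝ
  have hF2 : HasFDerivAt (fun x => (F x).restrictScalars ℝ)
      ((ContinuousLinearMap.restrictScalarsL ℂ Y ℂ ℝ ℝ).comp
        ((fderiv ℂ F w).restrictScalars ℝ)) w :=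
    (ContinuousLinearMap.restrictScalarsL ℂ Y ℂ ℝ ℝ).hasFDerivAt.comp w hF1
  have h1 := hF2.clm_apply hσ.hasFDerivAt
  have h2 : HasFDerivAt (fun x => F x (σ x)) _ w := h1
  refine ⟨h2.differentiableAt, fun v => ?_⟩
  rw [h2.fderiv]
  simp

/-- the conjugate derivative of a pairing with a holomorphic functional -/
theorem D01_clm {F : E → Y →L[ℂ] ℂ} {σ : E → Y} {w : E} (hF : DifferentiableAt ℂ F w)
    (hσ : DifferentiableAt ℝ σ w) (v : E) :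
    D01 (fun w => F w (σ w)) w v = F w (D01 σ w v) := by
  obtain ⟨-, h⟩ := clm_hasFDerivAt hF hσ
  have e1 : fderiv ℂ F w (Complex.I • v) = Complex.I • fderiv ℂ F w v := map_smul _ _ _
  have e2 : F w (D01 σ w v) = (2⁻¹ : ℂ) * (F w (fderiv ℝ σ w v) +
      Complex.I * F w (fderiv ℝ σ w (Complex.I • v))) := by
    rw [D01_apply, map_smul, map_add, map_smul]
    rfl
  rw [e2, D01_apply, h, h, e1]
  simp only [smul_apply, smul_eq_mul]
  have h6 : Complex.I * (Complex.I * fderiv ℂ F w v (σ w)) = -(fderiv ℂ F w v (σ w)) := by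
    rw [← mul_assoc, Complex.I_mul_I, neg_one_mul]
  rw [mul_add Complex.I, h6]
  ring

/-- the conjugate derivative of the inverse -/
theorem D01_inv {q : E → ℂ} {w : E} (hq : DifferentiableAt ℝ q w) (h0 : q w ≠ 0) (v : E) :
    D01 (fun w => (q w)⁻¹) w v = -(D01 q w v / (q w) ^ 2) := by
  have h1 : HasFDerivAt (fun w => (q w)⁻¹) (-((q w) ^ 2)⁻¹ • fderiv ℝ q w) w := by
    have h2 : HasFDerivAt (𝕜 := ℝ) (fun z : ℂ => z⁻¹)
        ((ContinuousLinearMap.toSpanSingleton ℂ (-((q w) ^ 2)⁻¹)).restrictScalars ℝ) (q w) :=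
      (hasDerivAt_inv h0).hasFDerivAt.restrictScalars ℝ
    refine (h2.comp w hq.hasFDerivAt).congr_fderiv ?_
    ext x
    simp [mul_comm]
  rw [D01_apply, D01_apply, h1.fderiv]
  simp only [smul_apply, smul_eq_mul]
  field_simp
  ring

/-- the conjugate derivative of a product -/
theorem D01_smul {q : E → ℂ} {σ : E → Y} {w : E} (hq : DifferentiableAt ℝ q w)
    (hσ : DifferentiableAt ℝ σ w) (v : E) :
    D01 (fun w => q w • σ w) w v = q w • D01 σ w v + D01 q w v • σ w := by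
  have h1 := hq.hasFDerivAt.fun_smul hσ.hasFDerivAt
  rw [D01_apply, D01_apply, D01_apply, h1.fderiv]
  simp only [add_apply, smul_apply, ContinuousLinearMap.smulRight_apply, smul_eq_mul]
  module

theorem shp_D01 {F : E → Y →L[ℂ] ℂ} {σ : E → Y} {w : E} (hF : DifferentiableAt ℂ F w)
    (hσ : DifferentiableAt ℝ σ w) (h0 : F w (σ w) ≠ 0) (v : E) :
    D01 (shp F σ) w v = (F w (σ w))⁻¹ • D01 σ w v -
      (F w (D01 σ w v) / (F w (σ w)) ^ 2) • σ w := by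
  have h1 := (clm_hasFDerivAt hF hσ).1
  have h2 : DifferentiableAt ℝ (fun w => (F w (σ w))⁻¹) w := h1.inv h0
  have h3 := D01_smul h2 hσ v
  rw [D01_inv h1 h0, D01_clm hF hσ] at h3
  have h4 : D01 (shp F σ) w v = D01 (fun w => (F w (σ w))⁻¹ • σ w) w v := rfl
  rw [h4, h3, neg_smul, ← sub_eq_add_neg]

section bounds

variable {F F' : E → Y →L[ℂ] ℂ} {σ : E → Y} {w : E} {κ b : ℝ}

omit [NormedAddCommGroup E] [InnerProductSpace ℂ E] in
/-- the pairing is near `1` -/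
theorem shp_near (h1 : F w (σ w) = 1) (hκ : ‖F' w - F w‖ ≤ κ) (hb : ‖σ w‖ ≤ b)
    (hκb : κ * b ≤ 1 / 2) : 1 / 2 ≤ ‖F' w (σ w)‖ ∧ F' w (σ w) ≠ 0 ∧
      ‖F' w (σ w) - 1‖ ≤ κ * b := by
  have hκ0 : 0 ≤ κ := (norm_nonneg _).trans hκ
  have h2 : ‖F' w (σ w) - 1‖ ≤ κ * b := by
    rw [← h1]
    calc ‖F' w (σ w) - F w (σ w)‖ = ‖(F' w - F w) (σ w)‖ := by rw [sub_apply]
      _ ≤ ‖F' w - F w‖ * ‖σ w‖ := (F' w - F w).le_opNorm _
      _ ≤ κ * b := mul_le_mul hκ hb (norm_nonneg _) hκ0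
  have h3 : 1 / 2 ≤ ‖F' w (σ w)‖ := by
    have := norm_sub_norm_le (1 : ℂ) (1 - F' w (σ w))
    rw [norm_one, sub_sub_cancel, norm_sub_rev] at this
    linarith
  refine ⟨h3, fun h => ?_, h2⟩
  rw [h, norm_zero] at h3
  linarith

omit [NormedAddCommGroup E] [InnerProductSpace ℂ E] in
theorem shp_norm (h1 : F w (σ w) = 1) (hκ : ‖F' w - F w‖ ≤ κ) (hb : ‖σ w‖ ≤ b)
    (hκb : κ * b ≤ 1 / 2) : ‖shp F' σ w‖ ≤ 2 * b ∧ ‖shp F' σ w - σ w‖ ≤ 2 * (κ * b) * b := by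
  obtain ⟨h2, h3, h4⟩ := shp_near h1 hκ hb hκb
  have hb0 : 0 ≤ b := (norm_nonneg _).trans hb
  have hκ0 : 0 ≤ κ := (norm_nonneg _).trans hκ
  have h5 : ‖(F' w (σ w))⁻¹‖ ≤ 2 := by
    rw [norm_inv]
    calc ‖F' w (σ w)‖⁻¹ ≤ (1 / 2)⁻¹ := by gcongr
      _ = 2 := by norm_num
  constructor
  · unfold shp
    rw [norm_smul]
    exact mul_le_mul h5 hb (norm_nonneg _) (by norm_num)
  · have e : shp F' σ w - σ w = ((F' w (σ w))⁻¹ * (1 - F' w (σ w))) • σ w := by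
      unfold shp
      rw [mul_sub, mul_one, inv_mul_cancel₀ h3, sub_smul, one_smul]
    rw [e, norm_smul, norm_mul, norm_sub_rev]
    have : ‖(F' w (σ w))⁻¹‖ * ‖F' w (σ w) - 1‖ ≤ 2 * (κ * b) :=
      mul_le_mul h5 h4 (norm_nonneg _) (by norm_num)
    exact mul_le_mul this hb (norm_nonneg _) (by positivity)

theorem shp_D01_le (hF' : DifferentiableAt ℂ F' w) (hσ : DifferentiableAt ℝ σ w)
    (h1 : F w (σ w) = 1) (h0 : ∀ v, F w (D01 σ w v) = 0) (hκ : ‖F' w - F w‖ ≤ κ)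
    (hb : ‖σ w‖ ≤ b) (hκb : κ * b ≤ 1 / 2) (v : E) :
    ‖D01 (shp F' σ) w v - D01 σ w v‖ ≤ 6 * (κ * b) * ‖D01 σ w v‖ ∧
      ‖D01 (shp F' σ) w v‖ ≤ 4 * ‖D01 σ w v‖ := by
  obtain ⟨h2, h3, h4⟩ := shp_near h1 hκ hb hκb
  have hb0 : 0 ≤ b := (norm_nonneg _).trans hb
  have hκ0 : 0 ≤ κ := (norm_nonneg _).trans hκ
  have h5 : ‖(F' w (σ w))⁻¹‖ ≤ 2 := by
    rw [norm_inv]
    calc ‖F' w (σ w)‖⁻¹ ≤ (1 / 2)⁻¹ := by gcongr
      _ = 2 := by norm_num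
  have h6 : ‖F' w (D01 σ w v)‖ ≤ κ * ‖D01 σ w v‖ := by
    have e : F' w (D01 σ w v) = (F' w - F w) (D01 σ w v) := by
      rw [sub_apply, h0, sub_zero]
    rw [e]
    exact ((F' w - F w).le_opNorm _).trans (mul_le_mul_of_nonneg_right hκ (norm_nonneg _))
  have hD := norm_nonneg (D01 σ w v)
  have e := shp_D01 hF' hσ h3 v
  have h7 : ‖D01 (shp F' σ) w v - D01 σ w v‖ ≤ 6 * (κ * b) * ‖D01 σ w v‖ := by
    have e1 : D01 (shp F' σ) w v - D01 σ w v =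
        ((F' w (σ w))⁻¹ * (1 - F' w (σ w))) • D01 σ w v -
          ((F' w (D01 σ w v)) * ((F' w (σ w))⁻¹ * (F' w (σ w))⁻¹)) • σ w := by
      rw [e, mul_sub, mul_one, inv_mul_cancel₀ h3, sub_smul, one_smul]
      have : F' w (D01 σ w v) / (F' w (σ w)) ^ 2 =
          (F' w (D01 σ w v)) * ((F' w (σ w))⁻¹ * (F' w (σ w))⁻¹) := by
        field_simp
      rw [this]
      abel
    rw [e1]
    refine (norm_sub_le _ _).trans ?_
    rw [norm_smul, norm_smul, norm_mul, norm_mul, norm_mul, norm_sub_rev (1 : ℂ)]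
    calc ‖(F' w (σ w))⁻¹‖ * ‖F' w (σ w) - 1‖ * ‖D01 σ w v‖ +
          ‖F' w (D01 σ w v)‖ * (‖(F' w (σ w))⁻¹‖ * ‖(F' w (σ w))⁻¹‖) * ‖σ w‖
        ≤ 2 * (κ * b) * ‖D01 σ w v‖ + (κ * ‖D01 σ w v‖) * (2 * 2) * b := by gcongr
      _ = 6 * (κ * b) * ‖D01 σ w v‖ := by ring
  refine ⟨h7, ?_⟩
  have h8 : ‖D01 (shp F' σ) w v‖ ≤ ‖D01 (shp F' σ) w v - D01 σ w v‖ + ‖D01 σ w v‖ := by
    calc ‖D01 (shp F' σ) w v‖ = ‖(D01 (shp F' σ) w v - D01 σ w v) + D01 σ w v‖ := by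
          rw [sub_add_cancel]
      _ ≤ _ := norm_add_le _ _
  nlinarith

/-- the intermediate solution is a solution -/
theorem shp_sol (hc : ContDiffAt ℝ 2 σ w) (hF : ContDiffAt ℝ 2 F' w)
    (hF' : DifferentiableAt ℂ F' w) (h3 : F' w (σ w) ≠ 0) : SolAt (shp F' σ) F' w := by
  have h4 : ContDiffAt ℝ 2 (fun x => F' x (σ x)) w := by
    have hF2 : ContDiffAt ℝ 2 (fun x => (F' x).restrictScalars ℝ) w :=
      (ContinuousLinearMap.restrictScalarsL ℂ Y ℂ ℝ ℝ).contDiff.contDiffAt.comp w hF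
    exact hF2.clm_apply hc
  have hc2 : ContDiffAt ℝ 2 (shp F' σ) w := (h4.inv h3).smul hc
  refine ⟨hc2, hF', shp_one h3, ?_⟩
  apply F_D01 hF' (hc2.differentiableAt (by norm_num))
  filter_upwards [h4.continuousAt.eventually_ne h3] with x hx
  exact shp_one hx

end bounds

end Pool.Agent.MPca0fc2.TS
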