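import Mathlib
import Pool.Agent.Lib.MP_ca0fc2_an.Mg.G122
import Pool.Agent.Lib.MP_ca0fc2_an.TS.Sharp
import Pool.Agent.Lib.MP_ca0fc2_an.Mg.G023
import Pool.Agent.Lib.MP_ca0fc2_an.Mg.G022

set_option autoImplicit false

open Metric Set MeasureTheory Filter Topology
open scoped InnerProductSpace ENNReal ContDiff

/-! # The smooth solutions -/

namespace Pool.Agent.MPca0fc2.TS

open Pool.Agent.MPca0fc2.PT
open Pool.Agent.MPca0fc2.QT

variable {E : Type*} [NormedAddCommGroup E] [InnerProductSpace ℂ E]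
variable {N : ℕ} {f : Fin N → E → ℂ} {δ θ : ℝ}

section hol

variable {E' : Type*} [NormedAddCommGroup E'] [NormedSpace ℂ E']

/-- holomorphic functions are bounded on small balls -/
private theorem sol_bdd {f : E' → ℂ} {U : Set E'} (hU : IsOpen U) (hf : DifferentiableOn ℂ f U)
    {z₀ : E'} (hz₀ : z₀ ∈ U) : ∃ r : ℝ, 0 < r ∧ ball z₀ (4 * r) ⊆ U ∧
      ∀ z ∈ ball z₀ (4 * r), ‖f z‖ ≤ ‖f z₀‖ + 1 := by
  have hc : ContinuousAt f z₀ := (hf.differentiableAt (hU.mem_nhds hz₀)).continuousAt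
  have h1 : ∀ᶠ z in 𝓝 z₀, z ∈ U ∧ ‖f z‖ < ‖f z₀‖ + 1 :=
    (hU.eventually_mem hz₀).and (hc.norm.eventually_lt continuousAt_const (by linarith))
  obtain ⟨ε, hε, h⟩ := Metric.eventually_nhds_iff_ball.1 h1
  refine ⟨ε / 4, by positivity, fun z hz => (h z ?_).1, fun z hz => (h z ?_).2.le⟩
  · rwa [mul_div_cancel₀ _ (by norm_num : (4 : ℝ) ≠ 0)] at hz
  · rwa [mul_div_cancel₀ _ (by norm_num : (4 : ℝ) ≠ 0)] at hz

/-- the data on small balls around a point, for the function `z ↦ f'(z) v` -/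
private theorem sol_gv {f : E' → ℂ} {z₀ : E'} {r M : ℝ} (hr : 0 < r)
    (hf : DifferentiableOn ℂ f (ball z₀ (4 * r))) (hM : ∀ z ∈ ball z₀ (4 * r), ‖f z‖ ≤ M) (v : E') :
    DifferentiableOn ℂ (fun z => fderiv ℂ f z v) (ball z₀ (2 * r)) ∧
      ∀ z ∈ ball z₀ (2 * r), ‖fderiv ℂ f z v‖ ≤ M / r * ‖v‖ := by
  constructor
  · exact (Pool.Agent.Lib.MP_ca0fc2_an.differentiableOn_fderiv_apply isOpen_ball hf hM v).mono
      (ball_subset_ball (by linarith))
  · intro z hz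
    have hsub : ball z (2 * r) ⊆ ball z₀ (4 * r) := by
      intro y hy
      rw [mem_ball] at hy hz ⊢
      have := dist_triangle y z z₀
      linarith
    have h1 := Pool.Agent.Lib.MP_ca0fc2_an.norm_fderiv_apply_le (r := 2 * r) (by positivity)
      (hf.mono hsub) (fun y hy => hM y (hsub hy)) v
    have e : 2 * M / (2 * r) = M / r := by field_simp
    rw [e] at h1
    exact h1

/-- the derivative of a holomorphic function is differentiable -/
private theorem sol_d2 {f : E' → ℂ} {U : Set E'} (hU : IsOpen U) (hf : DifferentiableOn ℂ f U)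
    {z₀ : E'} (hz₀ : z₀ ∈ U) : DifferentiableAt ℂ (fderiv ℂ f) z₀ := by
  obtain ⟨r, hr, hsub, hM⟩ := sol_bdd hU hf hz₀
  obtain ⟨M, hMd⟩ : ∃ M, M = ‖f z₀‖ + 1 := ⟨_, rfl⟩
  rw [← hMd] at hM
  have hM0 : 0 ≤ M := by rw [hMd]; positivity
  have hg := fun v => sol_gv hr (hf.mono hsub) hM v
  have hgd : ∀ v, DifferentiableAt ℂ (fun z => fderiv ℂ f z v) z₀ := fun v =>
    (hg v).1.differentiableAt (isOpen_ball.mem_nhds (mem_ball_self (by positivity)))
  let B₀ : E' →ₗ[ℂ] E' →ₗ[ℂ] ℂ := LinearMap.mk₂ ℂ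
    (fun h v => fderiv ℂ (fun z => fderiv ℂ f z v) z₀ h)
    (fun h h' v => map_add _ _ _) (fun c h v => map_smul _ _ _)
    (fun h v v' => by
      have e : (fun z => fderiv ℂ f z (v + v')) =
          fun z => fderiv ℂ f z v + fderiv ℂ f z v' := by
        funext z
        exact map_add _ _ _
      rw [e, fderiv_fun_add (hgd v) (hgd v')]
      rfl)
    (fun c h v => by
      have e : (fun z => fderiv ℂ f z (c • v)) = fun z => c • fderiv ℂ f z v := by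
        funext z
        exact map_smul _ _ _
      rw [e, fderiv_fun_const_smul (hgd v)]
      rfl)
  have hB0 : ∀ h v, ‖B₀ h v‖ ≤ M / r / r * ‖h‖ * ‖v‖ := by
    intro h v
    have h1 := Pool.Agent.Lib.MP_ca0fc2_an.norm_fderiv_apply_le (r := 2 * r) (by positivity)
      (hg v).1 (hg v).2 h
    have e : 2 * (M / r * ‖v‖) / (2 * r) * ‖h‖ = M / r / r * ‖h‖ * ‖v‖ := by field_simp
    rw [e] at h1
    exact h1
  let B : E' →L[ℂ] E' →L[ℂ] ℂ := B₀.mkContinuous₂ (M / r / r) hB0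
  have hB : ∀ h v, B h v = fderiv ℂ (fun z => fderiv ℂ f z v) z₀ h := fun h v => rfl
  have hder : HasFDerivAt (fderiv ℂ f) B z₀ := by
    rw [hasFDerivAt_iff_isLittleO_nhds_zero]
    refine (Asymptotics.IsBigO.of_bound (M / r / r ^ 2) ?_).trans_isLittleO
      (Asymptotics.isLittleO_norm_pow_id one_lt_two)
    filter_upwards [ball_mem_nhds (0 : E') (show 0 < 2 * r by positivity)] with h hh
    rw [mem_ball_zero_iff] at hh
    refine ContinuousLinearMap.opNorm_le_bound _ (by positivity) fun v => ?_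
    have h1 := Pool.Agent.Lib.MP_ca0fc2_an.taylor_two (r := 2 * r) (by positivity)
      (hg v).1 (hg v).2 hh
    have e1 : (fderiv ℂ f (z₀ + h) - fderiv ℂ f z₀ - B h) v =
        fderiv ℂ f (z₀ + h) v - fderiv ℂ f z₀ v - fderiv ℂ (fun z => fderiv ℂ f z v) z₀ h := by
      rw [sub_apply, sub_apply, hB]
    rw [e1]
    refine h1.trans (le_of_eq ?_)
    rw [Real.norm_of_nonneg (by positivity)]
    field_simp
    ring
  exact hder.differentiableAt

/-- the second derivative is continuous -/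
private theorem sol_c2 {f : E' → ℂ} {U : Set E'} (hU : IsOpen U) (hf : DifferentiableOn ℂ f U) :
    ContDiffOn ℂ 2 f U := by
  have hd : DifferentiableOn ℂ (fderiv ℂ f) U := fun z hz =>
    (sol_d2 hU hf hz).differentiableWithinAt
  rw [show (2 : WithTop ℕ∞) = 1 + 1 by norm_num, contDiffOn_succ_iff_fderiv_of_isOpen hU]
  refine ⟨hf, by simp, ?_⟩
  rw [show (1 : WithTop ℕ∞) = 0 + 1 by norm_num, contDiffOn_succ_iff_fderiv_of_isOpen hU]
  refine ⟨hd, by simp, ?_⟩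
  rw [contDiffOn_zero]
  intro z₀ hz₀
  apply ContinuousAt.continuousWithinAt
  obtain ⟨r, hr, hsub, hM⟩ := sol_bdd hU hf hz₀
  obtain ⟨M, hMd⟩ : ∃ M, M = ‖f z₀‖ + 1 := ⟨_, rfl⟩
  rw [← hMd] at hM
  have hM0 : 0 ≤ M := by rw [hMd]; positivity
  have hg := fun v => sol_gv hr (hf.mono hsub) hM v
  have hap : ∀ z ∈ U, ∀ h v, fderiv ℂ (fderiv ℂ f) z h v =
      fderiv ℂ (fun z => fderiv ℂ f z v) z h := by
    intro z hz h v
    have h1 : HasFDerivAt (fun z => fderiv ℂ f z v)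
        ((ContinuousLinearMap.apply ℂ ℂ v).comp (fderiv ℂ (fderiv ℂ f) z)) z :=
      (ContinuousLinearMap.apply ℂ ℂ v).hasFDerivAt.comp z (sol_d2 hU hf hz).hasFDerivAt
    rw [h1.fderiv]
    rfl
  have h2 : ∀ᶠ z₁ in 𝓝 z₀, ‖fderiv ℂ (fderiv ℂ f) z₁ - fderiv ℂ (fderiv ℂ f) z₀‖ ≤
      24 * (M / r) / r ^ 2 * ‖z₁ - z₀‖ := by
    filter_upwards [ball_mem_nhds z₀ (show 0 < r / 4 by positivity), hU.mem_nhds hz₀] with z₁ hz₁ hz₁U
    rw [mem_ball, dist_eq_norm] at hz₁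
    refine ContinuousLinearMap.opNorm_le_bound _ (by positivity) fun h => ?_
    refine ContinuousLinearMap.opNorm_le_bound _ (by positivity) fun v => ?_
    have h1 := VP.fderiv_lip hr (hg v).1 (hg v).2 hz₁
    have e1 : ((fderiv ℂ (fderiv ℂ f) z₁ - fderiv ℂ (fderiv ℂ f) z₀) h) v =
        (fderiv ℂ (fun z => fderiv ℂ f z v) z₁ - fderiv ℂ (fun z => fderiv ℂ f z v) z₀) h := by
      rw [sub_apply, sub_apply, hap z₁ hz₁U, hap z₀ hz₀, sub_apply]
    rw [e1]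
    refine (ContinuousLinearMap.le_opNorm _ h).trans ?_
    refine (mul_le_mul_of_nonneg_right h1 (norm_nonneg h)).trans (le_of_eq ?_)
    ring
  rw [ContinuousAt, tendsto_iff_norm_sub_tendsto_zero]
  have h3 : Tendsto (fun z₁ : E' => 24 * (M / r) / r ^ 2 * ‖z₁ - z₀‖) (𝓝 z₀) (𝓝 0) := by
    have : Tendsto (fun z₁ : E' => 24 * (M / r) / r ^ 2 * ‖z₁ - z₀‖) (𝓝 z₀)
        (𝓝 (24 * (M / r) / r ^ 2 * ‖z₀ - z₀‖)) := by
      apply Continuous.tendsto; fun_prop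
    simpa using this
  exact squeeze_zero' (Eventually.of_forall fun _ => norm_nonneg _) h2 h3

end hol

private theorem sol_maps (h : TD f δ θ) {k : ℕ} {w : E} (hw : ‖w‖ < RC θ k) {i : ℕ}
    (hi : i ≤ k + 1) : ((rt θ i : ℂ) • w) ∈ ball (0 : E) 1 := by
  have hr : 0 ≤ rt θ i := by
    unfold rt
    linarith [pow_le_one₀ (n := i) h.θ0.le h.θ1.le]
  rw [mem_ball_zero_iff, norm_smul, Complex.norm_real, Real.norm_of_nonneg hr]
  exact rt_mul_lt h.θ0 h.θ1 hi hw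

/-- the dilated data are holomorphic near `w` -/
theorem uk_an (h : TD f δ θ) {k : ℕ} {w : E} (hw : ‖w‖ < RC θ k) {i : ℕ} (hi : i ≤ k + 1)
    (j : Fin N) : ContDiffAt ℂ 2 (uk (f j) θ i) w := by
  have h1 : ContDiffAt ℂ 2 (f j) ((rt θ i : ℂ) • w) :=
    (sol_c2 isOpen_ball (h.hf j)).contDiffAt (isOpen_ball.mem_nhds (sol_maps h hw hi))
  have h2 : ContDiff ℂ 2 (fun w : E => (rt θ i : ℂ) • w) := contDiff_const_smul _
  exact h1.comp w h2.contDiffAt

theorem uk_le (h : TD f δ θ) {k : ℕ} {w : E} (hw : ‖w‖ < RC θ k) {i : ℕ} (hi : i ≤ k + 1)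
    (j : Fin N) : ‖uk (f j) θ i w‖ ≤ 1 := h.hfM j _ (sol_maps h hw hi)

theorem FF_c2 (h : TD f δ θ) {k : ℕ} {w : E} (hw : ‖w‖ < RC θ k) {i : ℕ} (hi : i ≤ k + 1) :
    ContDiffAt ℝ 2 (FF f θ i) w ∧ DifferentiableAt ℂ (FF f θ i) w := by
  have h1 : ContDiffAt ℂ 2 (FF f θ i) w := by
    unfold FF
    refine ContDiffAt.sum fun j _ => ?_
    exact (uk_an h hw hi j).smul contDiffAt_const
  exact ⟨h1.restrict_scalars ℝ, h1.differentiableAt (by norm_num)⟩

theorem FF_le (h : TD f δ θ) {k : ℕ} {w : E} (hw : ‖w‖ < RC θ k) {i : ℕ} (hi : i ≤ k + 1) :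
    ‖FF f θ i w‖ ≤ N := by
  unfold FF
  have h1 : ∀ j : Fin N, ‖uk (f j) θ i w • (ContinuousLinearMap.proj j : (Fin N → ℂ) →L[ℂ] ℂ)‖ ≤
      1 := by
    intro j
    rw [norm_smul]
    have h2 : ‖(ContinuousLinearMap.proj j : (Fin N → ℂ) →L[ℂ] ℂ)‖ ≤ 1 := by
      refine ContinuousLinearMap.opNorm_le_bound _ zero_le_one fun x => ?_
      rw [one_mul]
      exact norm_le_pi_norm x j
    calc ‖uk (f j) θ i w‖ * ‖(ContinuousLinearMap.proj j : (Fin N → ℂ) →L[ℂ] ℂ)‖ ≤ 1 * 1 :=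
          mul_le_mul (uk_le h hw hi j) h2 (norm_nonneg _) zero_le_one
      _ = 1 := one_mul 1
  refine (norm_sum_le _ _).trans ((Finset.sum_le_sum fun j _ => h1 j).trans ?_)
  simp

end Pool.Agent.MPca0fc2.TS
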