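import Mathlib
import Pool.Agent.Lib.MP_ca0fc2_an.Mg.G122
import Pool.Agent.Lib.MP_ca0fc2_an.TS.Sol
import Pool.Agent.Lib.MP_ca0fc2_an.QTCov
import Pool.Agent.Lib.MP_ca0fc2_an.Mg.G019
import Pool.Agent.Lib.MP_ca0fc2_an.Mg.G008
import Pool.Agent.Lib.MP_ca0fc2_an.QTCmp
import Pool.Agent.Lib.MP_ca0fc2_an.Mg.G015
import Pool.Agent.Lib.MP_ca0fc2_an.Mg.G016

set_option autoImplicit false

open Metric Set MeasureTheory Filter Topology
open scoped InnerProductSpace ENNReal ContDiff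

/-! # The forms of the Koszul complex: algebra -/

namespace Pool.Agent.MPca0fc2.TS

open Pool.Agent.MPca0fc2.PT
open Pool.Agent.MPca0fc2.QT

variable {E : Type*} [NormedAddCommGroup E] [InnerProductSpace ℂ E]
variable {V : Type*} [NormedAddCommGroup V] [NormedSpace ℂ V]
variable {N : ℕ}

/-- radii -/
structure Rad (θ : ℝ) (R : ℕ → ℝ) : Prop where
  anti : Antitone R
  le : ∀ k, R k ≤ RC θ k

/-- the corrections of the degree `r` (qualitative) -/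
structure TC (K : Car (Fin N → ℂ) V) (f : Fin N → E → ℂ) (θ : ℝ)
    (T : (r : ℕ) → ℕ → E → E [⋀^Fin r]→L[ℝ] V) (R : ℕ → ℝ) (r : ℕ) : Prop where
  c1 : ∀ k, ContDiffOn ℝ 1 (T r k) (ball 0 (R (k + 1)))
  anti : ∀ k, ∀ w ∈ ball (0 : E) (R (k + 1)), Anti (T r k w)
  eq : ∀ k, ∀ w ∈ ball (0 : E) (R (k + 1)), db (T r k) w = Src K f θ T k r w

variable {K : Car (Fin N → ℂ) V} {f : Fin N → E → ℂ} {δ θ : ℝ}
  {T : (r : ℕ) → ℕ → E → E [⋀^Fin r]→L[ℝ] V} {R : ℕ → ℝ}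

theorem rj_rad (m : ℕ) {θ : ℝ} (h0 : 0 < θ) (h1 : θ < 1) {j : ℕ} (hj : j ≤ m + 1) :
    Rad θ (RJ m θ j) := by
  have hm : (0 : ℝ) < 8 * ((m : ℝ) + 1) := by positivity
  have hj' : (j : ℝ) ≤ (m : ℝ) + 1 := by exact_mod_cast hj
  have h3 : 3 * (j : ℝ) / (8 * ((m : ℝ) + 1)) ≤ 3 / 8 := by
    rw [div_le_div_iff₀ hm (by norm_num)]
    linarith
  have h4 : 0 ≤ 3 * (j : ℝ) / (8 * ((m : ℝ) + 1)) := by positivity
  refine ⟨?_, ?_⟩
  · refine antitone_nat_of_succ_le fun k => ?_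
    unfold RJ
    have hp : θ ^ (k + 1 + 1) ≤ θ ^ (k + 1) := pow_le_pow_of_le_one h0.le h1.le (Nat.le_succ _)
    have := mul_le_mul_of_nonneg_left hp
      (show 0 ≤ 3 / 4 - 3 * (j : ℝ) / (8 * ((m : ℝ) + 1)) by linarith)
    linarith
  · intro k
    unfold RJ RC
    have hp : 0 < θ ^ (k + 1) := pow_pos h0 _
    have := mul_nonneg h4 hp.le
    nlinarith

end Pool.Agent.MPca0fc2.TS
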