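import Mathlib
import Pool.Agent.Lib.MP_ca0fc2_an.Mg.G122
import Pool.Agent.Lib.MP_ca0fc2_an.TS.SSdb
import Pool.Agent.Lib.MP_ca0fc2_an.Mg.G015
import Pool.Agent.Lib.MP_ca0fc2_an.TS.Ha
import Pool.Agent.Lib.MP_ca0fc2_an.Mg.G016
import Pool.Agent.Lib.MP_ca0fc2_an.Mg.G022

set_option autoImplicit false

open Metric Set MeasureTheory Filter Topology
open scoped InnerProductSpace ENNReal ContDiff

/-! # The descent over the degrees (helper42) -/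

namespace Pool.Agent.MPca0fc2.TS

open Pool.Agent.MPca0fc2.PT
open Pool.Agent.MPca0fc2.QT

variable {E : Type*} [NormedAddCommGroup E] [InnerProductSpace ℂ E]
variable [FiniteDimensional ℂ E] [MeasurableSpace E] [BorelSpace E]
variable {V : Type*} [NormedAddCommGroup V] [NormedSpace ℂ V] [FiniteDimensional ℂ V]

omit [FiniteDimensional ℂ E] [MeasurableSpace E] [BorelSpace E] [FiniteDimensional ℂ V] in
theorem BdG.ball {q k : ℕ} {θ R R' : ℝ} {Φ : E → ℝ} {η : E → E [⋀^Fin q]→L[ℝ] V}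
    (h : BdG θ k R Φ η) (hR : R' ≤ R) : BdG θ k R' Φ η :=
  fun w hw v => h w (lt_of_lt_of_le hw hR) v

omit [FiniteDimensional ℂ E] [MeasurableSpace E] [BorelSpace E] [FiniteDimensional ℂ V] in
theorem BdG.mono {q k : ℕ} {θ R : ℝ} (h0 : 0 < θ) (h1 : θ < 1) (hR : R ≤ RC θ k) {Φ Φ' : E → ℝ}
    {η : E → E [⋀^Fin q]→L[ℝ] V} (h : BdG θ k R Φ η) (hΦ : ∀ w : E, ‖w‖ < R → Φ w ≤ Φ' w) :
    BdG θ k R Φ' η := by
  intro w hw v
  refine (h w hw v).trans (mul_le_mul_of_nonneg_right (hΦ w hw) ?_)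
  exact Finset.prod_nonneg fun i _ => gau_nonneg (dl_pos h0 h1 (lt_of_lt_of_le hw hR)).le w (v i)

theorem rj_le (m : ℕ) {θ : ℝ} (h0 : 0 < θ) (j k : ℕ) : RJ m θ (j + 1) k ≤ RJ m θ j k := by
  unfold RJ
  have h2 : (0 : ℝ) < 8 * (m + 1) := by positivity
  have h3 : 3 * (j : ℝ) / (8 * (m + 1)) ≤ 3 * ((j + 1 : ℕ) : ℝ) / (8 * (m + 1)) := by
    rw [div_le_div_iff_of_pos_right h2]
    push_cast
    linarith
  have : 0 < θ ^ (k + 1) := pow_pos h0 _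
  nlinarith

theorem rj_one (m : ℕ) {θ : ℝ} (h0 : 0 < θ) {j : ℕ} (hj : j ≤ m + 1) (k : ℕ) :
    1 ≤ RJ m θ j k := by
  unfold RJ
  have hm : (0 : ℝ) < m + 1 := by positivity
  have hj' : (j : ℝ) ≤ (m : ℝ) + 1 := by exact_mod_cast hj
  have h3 : 3 * (j : ℝ) / (8 * ((m : ℝ) + 1)) ≤ 3 / 8 := by
    rw [div_le_div_iff₀ (by positivity) (by norm_num)]
    linarith
  have : 0 < θ ^ (k + 1) := pow_pos h0 _
  nlinarith

omit [BorelSpace E] in
theorem Wk_nonneg {θ : ℝ} (h0 : 0 < θ) (h1 : θ < 1) (ν : Measure E) (M : ℕ) {k : ℕ} {w : E}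
    (hw : ‖w‖ < RC θ k) : 0 ≤ Wk ν M θ k w := by
  unfold Wk
  have := dl_pos h0 h1 hw
  have := Ik_nonneg ν M θ k w
  positivity

end Pool.Agent.MPca0fc2.TS
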