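import Mathlib
import Pool.Agent.Lib.MP_ca0fc2_an.Mg.G055
import Pool.Agent.Lib.MP_ca0fc2_an.QTX7a

set_option autoImplicit false

open Metric Set MeasureTheory Filter Topology
open scoped InnerProductSpace ENNReal

/-! # Forms of degree zero and functions -/

namespace Pool.Agent.MPca0fc2.TS

open Pool.Agent.MPca0fc2.PT Pool.Agent.MPca0fc2.QT

variable {E : Type*} [NormedAddCommGroup E] [InnerProductSpace ℂ E]
variable {V : Type*} [NormedAddCommGroup V] [NormedSpace ℂ V]

/-- functions as forms of degree `0` -/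
noncomputable def cstL (E : Type*) [NormedAddCommGroup E] [InnerProductSpace ℂ E]
    (V : Type*) [NormedAddCommGroup V] [NormedSpace ℂ V] : V →L[ℝ] (E [⋀^Fin 0]→L[ℝ] V) :=
  (ContinuousAlternatingMap.constOfIsEmptyLIE ℝ E V (Fin 0)).toContinuousLinearEquiv

theorem cstL_apply (x : V) : cstL E V x = cst E x := rfl

theorem cst_evz (η : E [⋀^Fin 0]→L[ℝ] V) : cst E (evz E V η) = η := by
  ext v
  have e : v = fun i : Fin 0 => i.elim0 := funext fun i => i.elim0
  rw [e]
  rfl

theorem evz_cst (x : V) : evz E V (cst E x) = x := rfl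

/-- the `∂̄` of a function -/
theorem db_cst {g : E → V} {w : E} (hg : DifferentiableAt ℝ g w) (v : Fin 1 → E) :
    db (fun w => cst E (g w)) w v = D01 g w (v 0) := by
  have h1 : HasFDerivAt (fun w => cst E (g w)) ((cstL E V).comp (fderiv ℝ g w)) w :=
    (cstL E V).hasFDerivAt.comp w hg.hasFDerivAt
  unfold db
  rw [ContinuousAlternatingMap.alternatizeUncurryFin_apply, Fin.sum_univ_one, d1_apply,
    h1.fderiv, D01_apply]
  have e2 : ((-1 : ℤ)) ^ (((0 : Fin (0 + 1))) : ℕ) = 1 := by simp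
  rw [e2, one_smul]
  rfl

/-- holomorphic functions are closed -/
theorem db_cst_holo {g : E → V} {w : E} (hg : DifferentiableAt ℂ g w) :
    db (fun w => cst E (g w)) w = 0 := by
  ext v
  rw [db_cst (hg.restrictScalars ℝ), D01_holo hg]
  rfl

theorem cst_c1 {g : E → V} {w : E} (hg : ContDiffAt ℝ 1 g w) :
    ContDiffAt ℝ 1 (fun w => cst E (g w)) w :=
  (cstL E V).contDiff.contDiffAt.comp w hg

theorem evz_c1 {η : E → E [⋀^Fin 0]→L[ℝ] V} {w : E} (hη : ContDiffAt ℝ 1 η w) :
    ContDiffAt ℝ 1 (fun w => evz E V (η w)) w :=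
  (evz E V).contDiff.contDiffAt.comp w hη

/-- the conjugate derivative of the function of a form of degree `0` -/
theorem D01_evz {η : E → E [⋀^Fin 0]→L[ℝ] V} {w : E} (hη : DifferentiableAt ℝ η w) (v : E) :
    D01 (fun w => evz E V (η w)) w v = db η w (fun _ => v) := by
  have h1 : DifferentiableAt ℝ (fun w => evz E V (η w)) w :=
    (evz E V).differentiableAt.comp w hη
  have h2 := db_cst h1 (fun _ => v)
  simp only [cst_evz] at h2
  exact h2.symm

theorem norm_evz (η : E [⋀^Fin 0]→L[ℝ] V) (v : Fin 0 → E) : ‖evz E V η‖ = ‖η v‖ := by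
  rw [evz_apply η v]

end Pool.Agent.MPca0fc2.TS
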