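import Mathlib
import Pool.Agent.Lib.MP_ca0fc2_an.Mg.G055

set_option autoImplicit false

open Metric Set MeasureTheory Filter Topology
open scoped InnerProductSpace ENNReal

/-! # Creation and annihilation operators on an inner product space -/

namespace Pool.Agent.MPca0fc2.TS

open Pool.Agent.MPca0fc2.PT Pool.Agent.MPca0fc2.QT

variable {Y V V' : Type*} [NormedAddCommGroup Y] [NormedSpace ℂ Y] [NormedAddCommGroup V]
  [NormedSpace ℂ V] [NormedAddCommGroup V'] [NormedSpace ℂ V']

/-- conjugation of operators by an isomorphism -/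
noncomputable def cj (e : V ≃L[ℂ] V') : (V →L[ℂ] V) →L[ℂ] (V' →L[ℂ] V') :=
  (ContinuousLinearMap.compL ℂ V' V V' (e : V →L[ℂ] V')).comp
    ((ContinuousLinearMap.compL ℂ V' V V).flip (e.symm : V' →L[ℂ] V))

theorem cj_apply (e : V ≃L[ℂ] V') (A : V →L[ℂ] V) (x : V') : cj e A x = e (A (e.symm x)) := rfl

/-- transport of the operators -/
noncomputable def carMap (K : Car Y V) (e : V ≃L[ℂ] V') : Car Y V' where
  a := (cj e).comp K.a
  c := (cj e).comp K.c
  Ω := e K.Ω
  ω := K.ω.comp (e.symm : V' →L[ℂ] V)
  aa := by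
    intro s t x
    simp only [ContinuousLinearMap.comp_apply, cj_apply, ContinuousLinearEquiv.symm_apply_apply]
    rw [K.aa, map_neg]
  cc := by
    intro F G x
    simp only [ContinuousLinearMap.comp_apply, cj_apply, ContinuousLinearEquiv.symm_apply_apply]
    rw [K.cc, map_neg]
  ca := by
    intro F s x
    simp only [ContinuousLinearMap.comp_apply, cj_apply, ContinuousLinearEquiv.symm_apply_apply]
    rw [← map_add, K.ca, map_smul, ContinuousLinearEquiv.apply_symm_apply]
  cΩ := by
    intro F
    simp only [ContinuousLinearMap.comp_apply, cj_apply, ContinuousLinearEquiv.symm_apply_apply]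
    rw [K.cΩ, map_zero]
  ωΩ := by
    simp only [ContinuousLinearMap.comp_apply, ContinuousLinearEquiv.coe_coe,
      ContinuousLinearEquiv.symm_apply_apply]
    exact K.ωΩ

/-- creation and annihilation operators on an inner product space -/
theorem exists_carI (N : ℕ) : ∃ d : ℕ, Nonempty (Car (Fin N → ℂ) (EuclideanSpace ℂ (Fin d))) := by
  obtain ⟨V, i1, i2, i3, ⟨K⟩⟩ := exists_car N
  have h : Module.finrank ℂ V = Module.finrank ℂ (EuclideanSpace ℂ (Fin (Module.finrank ℂ V))) := by
    simp
  exact ⟨Module.finrank ℂ V, ⟨carMap K (ContinuousLinearEquiv.ofFinrankEq h)⟩⟩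

end Pool.Agent.MPca0fc2.TS
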