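import Mathlib
import Pool.Agent.Lib.MP_ca0fc2_an.Mg.G122
import Pool.Agent.Lib.MP_ca0fc2_an.TS.PrV
import Pool.Agent.Lib.MP_ca0fc2_an.Mg.G073
import Pool.Agent.Lib.MP_ca0fc2_an.PTInc

set_option autoImplicit false

open Metric Set MeasureTheory Filter Topology
open scoped InnerProductSpace ENNReal ContDiff

/-! # Choice of the rate, and the limit -/

namespace Pool.Agent.MPca0fc2.TS

open Pool.Agent.MPca0fc2.PT
open Pool.Agent.MPca0fc2.QT

variable {E : Type*} [NormedAddCommGroup E] [InnerProductSpace ℂ E] [FiniteDimensional ℂ E]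

/-- `|f_j (r_{k+1} w) - f_j (r_k w)| ≤ C (1 - θ) / θ` (library: the same estimate is used for
`ParQ.small`, `2000 * M / θ * (1 - θ)`), so `|F_{k+1} (s0) - 1| ≤ N C (1 - θ) / (θ δ)`. -/
theorem exists_theta (N : ℕ) {δ : ℝ} (hδ : 0 < δ) :
    ∃ θ : ℝ, 0 < θ ∧ θ < 1 ∧ ∀ f : Fin N → E → ℂ, (∀ j, DifferentiableOn ℂ (f j) (ball 0 1)) →
      (∀ j, ∀ z ∈ ball (0 : E) 1, ‖f j z‖ ≤ 1) → (∀ z ∈ ball (0 : E) 1, δ ≤ ∑ j, ‖f j z‖ ^ 2) →
      TD f δ θ := by
  let _ : MeasurableSpace E := borel E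
  have : BorelSpace E := ⟨rfl⟩
  obtain ⟨η, hη⟩ : ∃ η : ℝ, η = min (1 / 2) (δ / (8000 * ((N : ℝ) + 1))) := ⟨_, rfl⟩
  have hN0 : (0 : ℝ) ≤ N := Nat.cast_nonneg N
  have hη0 : 0 < η := by
    rw [hη]
    exact lt_min (by norm_num) (by positivity)
  have hη2 : η ≤ 1 / 2 := by
    rw [hη]
    exact min_le_left _ _
  have hη3 : η * (8000 * ((N : ℝ) + 1)) ≤ δ := by
    rw [← le_div_iff₀ (by positivity), hη]
    exact min_le_right _ _
  have h0 : 0 < 1 - η := by linarith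
  have h1 : 1 - η < 1 := by linarith
  refine ⟨1 - η, h0, h1, fun f hf hfM hfδ => ⟨h0, h1, hδ, hf, hfM, hfδ, fun k w hw => ?_⟩⟩
  have hwk : ‖w‖ < RC (1 - η) k := hw.trans_le (RC_succ_le h0 h1 (k + 1))
  have hmem : (rt (1 - η) k : ℂ) • w ∈ ball (0 : E) 1 := rt_smul_mem h0 h1 (Nat.le_succ k) hwk
  -- the increment of the data
  have hD : ∀ j, ‖uk (f j) (1 - η) (k + 1) w - uk (f j) (1 - η) k w‖ ≤ 4000 * η := by
    intro j
    have h2 := d_small h0 h1 (hf j) (hfM j) k hwk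
    have hx4 : (1 - η) ^ k / dl (1 - η) k w ≤ 4 := xk_le h0 h1 hwk
    refine h2.trans ?_
    have h3 : 500 * 1 / (1 - η) * (1 - (1 - η)) ≤ 1000 * η := by
      have e1 : 500 * 1 / (1 - η) * (1 - (1 - η)) = 500 * η / (1 - η) := by ring
      rw [e1, div_le_iff₀ h0]
      nlinarith
    have h4 : 0 ≤ 500 * 1 / (1 - η) * (1 - (1 - η)) := by
      have e2 : 1 - (1 - η) = η := by ring
      rw [e2]
      positivity
    calc 500 * 1 / (1 - η) * (1 - (1 - η)) * ((1 - η) ^ k / dl (1 - η) k w)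
        ≤ 500 * 1 / (1 - η) * (1 - (1 - η)) * 4 := mul_le_mul_of_nonneg_left hx4 h4
      _ ≤ 1000 * η * 4 := mul_le_mul_of_nonneg_right h3 (by norm_num)
      _ = 4000 * η := by ring
  obtain ⟨S, hS⟩ : ∃ S : ℝ, S = ∑ l, ‖uk (f l) (1 - η) k w‖ ^ 2 := ⟨_, rfl⟩
  have hSδ : δ ≤ S := by
    rw [hS]
    exact hfδ _ hmem
  have hS0 : 0 < S := hδ.trans_le hSδ
  have hSC : (S : ℂ) ≠ 0 := Complex.ofReal_ne_zero.2 hS0.ne'
  have hs0 : ∀ j, s0 f (1 - η) k w j = (starRingEnd ℂ) (uk (f j) (1 - η) k w) / (S : ℂ) := by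
    intro j
    rw [hS]
    rfl
  have hone : ∑ j, uk (f j) (1 - η) k w * s0 f (1 - η) k w j = 1 := by
    simp only [hs0]
    have e1 : ∀ j, uk (f j) (1 - η) k w * ((starRingEnd ℂ) (uk (f j) (1 - η) k w) / (S : ℂ)) =
        ((‖uk (f j) (1 - η) k w‖ ^ 2 : ℝ) : ℂ) / (S : ℂ) := by
      intro j
      rw [← mul_div_assoc, Complex.mul_conj, Complex.normSq_eq_norm_sq]
    simp only [e1]
    rw [← Finset.sum_div, ← Complex.ofReal_sum, ← hS, div_self hSC]
  have hFF : FF f (1 - η) (k + 1) w (s0 f (1 - η) k w) =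
      ∑ j, uk (f j) (1 - η) (k + 1) w * s0 f (1 - η) k w j := by
    unfold FF
    rw [_root_.sum_apply]
    rfl
  rw [hFF, ← hone, ← Finset.sum_sub_distrib]
  refine (norm_sum_le _ _).trans ?_
  have hterm : ∀ j, ‖uk (f j) (1 - η) (k + 1) w * s0 f (1 - η) k w j -
      uk (f j) (1 - η) k w * s0 f (1 - η) k w j‖ ≤ 4000 * η / δ := by
    intro j
    rw [← sub_mul, norm_mul, hs0, norm_div, RCLike.norm_conj, Complex.norm_real,
      Real.norm_of_nonneg hS0.le]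
    have h5 : ‖uk (f j) (1 - η) k w‖ ≤ 1 := hfM j _ hmem
    have h6 : ‖uk (f j) (1 - η) k w‖ / S ≤ 1 / δ := div_le_div₀ zero_le_one h5 hδ hSδ
    calc ‖uk (f j) (1 - η) (k + 1) w - uk (f j) (1 - η) k w‖ * (‖uk (f j) (1 - η) k w‖ / S)
        ≤ 4000 * η * (1 / δ) := mul_le_mul (hD j) h6 (by positivity) (by positivity)
      _ = 4000 * η / δ := by ring
  calc ∑ j, ‖uk (f j) (1 - η) (k + 1) w * s0 f (1 - η) k w j -
        uk (f j) (1 - η) k w * s0 f (1 - η) k w j‖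
      ≤ ∑ _j : Fin N, 4000 * η / δ := Finset.sum_le_sum fun j _ => hterm j
    _ = N * (4000 * η / δ) := by
        rw [Finset.sum_const, Finset.card_univ, Fintype.card_fin, nsmul_eq_mul]
    _ ≤ 1 / 2 := by
        rw [← mul_div_assoc, div_le_iff₀ hδ]
        nlinarith

/-- pattern: `QT.limit_N` (there `Φ` is constant) -/
theorem limit_W {N : ℕ} {f : Fin N → E → ℂ} {θ : ℝ} (h0 : 0 < θ) (h1 : θ < 1) {Φ : E → ℝ}
    (hΦ : ContinuousOn Φ (ball 0 1)) (hf : ∀ j, DifferentiableOn ℂ (f j) (ball 0 1))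
    (h : ∀ K : ℕ, ∃ g : Fin N → E → ℂ, (∀ j, DifferentiableOn ℂ (g j) (ball 0 1)) ∧
      (∀ j, ∀ z ∈ ball (0 : E) 1, ‖g j z‖ ≤ Φ z) ∧
      ∀ z ∈ ball (0 : E) 1, ∑ j, uk (f j) θ K z * g j z = 1) :
    ∃ g : Fin N → E → ℂ, (∀ j, DifferentiableOn ℂ (g j) (ball 0 1)) ∧
      (∀ j, ∀ z ∈ ball (0 : E) 1, ‖g j z‖ ≤ Φ z) ∧
      ∀ z ∈ ball (0 : E) 1, ∑ j, f j z * g j z = 1 := by
  choose H hH1 hH2 hH3 using h
  set 𝒰 : Ultrafilter ℕ := Ultrafilter.of atTop with h𝒰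
  have hle : (𝒰 : Filter ℕ) ≤ atTop := Ultrafilter.of_le _
  have key : ∀ j, ∃ g : E → ℂ, DifferentiableOn ℂ g (ball 0 1) ∧
      (∀ z ∈ ball (0 : E) 1, ‖g z‖ ≤ Φ z) ∧
      ∀ z ∈ ball (0 : E) 1, Tendsto (fun i => H i j z) 𝒰 (𝓝 (g z)) := by
    intro j
    have h2 : ∀ z, z ∈ ball (0 : E) 1 →
        ∃ y : ℂ, ‖y‖ ≤ Φ z ∧ Tendsto (fun i => H i j z) 𝒰 (𝓝 y) := by
      intro z hz
      have hc : IsCompact (closedBall (0 : ℂ) (Φ z)) := isCompact_closedBall 0 (Φ z)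
      obtain ⟨y, hy, hy2⟩ := hc.ultrafilter_le_nhds' (𝒰.map fun i => H i j z) (by
        rw [Ultrafilter.mem_map]
        apply Filter.univ_mem'
        intro i
        exact mem_closedBall_zero_iff.mpr (hH2 i j z hz))
      exact ⟨y, mem_closedBall_zero_iff.mp hy, hy2⟩
    choose! g hg1 hg2 using h2
    refine ⟨g, ?_, hg1, hg2⟩
    intro z₀ hz₀
    obtain ⟨r, hr, hsub⟩ := Metric.isOpen_iff.mp isOpen_ball z₀ hz₀
    have hcl : closedBall z₀ (r / 2) ⊆ ball (0 : E) 1 :=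
      (closedBall_subset_ball (by linarith)).trans hsub
    have : ProperSpace E := FiniteDimensional.proper ℂ E
    obtain ⟨M, hM⟩ := (isCompact_closedBall z₀ (r / 2)).exists_bound_of_continuousOn
      (hΦ.mono hcl)
    have hb : ∀ i, ∀ z ∈ ball z₀ (r / 2), ‖H i j z‖ ≤ max M 0 := by
      intro i z hz
      have h3 := ball_subset_closedBall hz
      exact (hH2 i j z (hcl h3)).trans ((le_abs_self _).trans ((hM z h3).trans (le_max_left _ _)))
    obtain ⟨g', hd', -, ht'⟩ := Pool.Agent.MPca0fc2.SL.ultra_holo 𝒰 (G := fun i => H i j)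
      (U := ball z₀ (r / 2)) isOpen_ball (le_max_right M 0)
      (fun i => (hH1 i j).mono (ball_subset_closedBall.trans hcl)) hb
    have heq : ∀ z ∈ ball z₀ (r / 2), g z = g' z := fun z hz =>
      tendsto_nhds_unique (hg2 z (hcl (ball_subset_closedBall hz))) (ht' z hz)
    have hmem : ball z₀ (r / 2) ∈ 𝓝 z₀ := ball_mem_nhds z₀ (by linarith)
    have hd : DifferentiableAt ℂ g' z₀ := hd'.differentiableAt hmem
    have hd2 : DifferentiableAt ℂ g z₀ := by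
      refine hd.congr_of_eventuallyEq ?_
      filter_upwards [hmem] with z hz
      exact heq z hz
    exact hd2.differentiableWithinAt
  choose g hg1 hg2 hg3 using key
  refine ⟨g, hg1, hg2, ?_⟩
  intro z hz
  have h1' : Tendsto (fun i => ∑ j, uk (f j) θ i z * H i j z) 𝒰
      (𝓝 (∑ j, f j z * g j z)) := by
    apply tendsto_finsetSum
    intro j _
    apply Tendsto.mul _ (hg3 j z hz)
    have h2 : Tendsto (fun i : ℕ => (rt θ i : ℂ) • z) atTop (𝓝 z) := by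
      have h3 : Tendsto (fun i : ℕ => rt θ i) atTop (𝓝 1) := by
        have h4 := (tendsto_pow_atTop_nhds_zero_of_lt_one h0.le h1).const_sub 1
        rw [sub_zero] at h4
        exact h4
      have h5 : Tendsto (fun i : ℕ => ((rt θ i : ℝ) : ℂ)) atTop (𝓝 ((1 : ℝ) : ℂ)) :=
        (Complex.continuous_ofReal.tendsto 1).comp h3
      have h6 := h5.smul_const z
      rwa [Complex.ofReal_one, one_smul] at h6
    have h5 : ContinuousAt (f j) z :=
      ((hf j).differentiableAt (isOpen_ball.mem_nhds hz)).continuousAt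
    exact (h5.tendsto.comp h2).mono_left hle
  have h2' : Tendsto (fun i => ∑ j, uk (f j) θ i z * H i j z) 𝒰 (𝓝 1) := by
    refine (tendsto_const_nhds).congr fun i => ?_
    exact (hH3 i z hz).symm
  exact tendsto_nhds_unique h1' h2'

end Pool.Agent.MPca0fc2.TS
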