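import Mathlib

set_option autoImplicit false

/-! # Two sided geometric sums -/

namespace Pool.Agent.MPca0fc2.TS

/-- decreasing part -/
theorem geo_left {q : ℝ} (h0 : 0 < q) (h1 : q < 1) (n : ℕ) :
    ∑ j ∈ Finset.range n, q ^ j ≤ 1 / (1 - q) := by
  have e := geom_sum_mul_neg q n
  rw [le_div_iff₀ (by linarith), e]
  have : 0 ≤ q ^ n := by positivity
  linarith

/-- a two sided geometric sum: `y θ^j` and its inverse -/
theorem geo_two {θ b : ℝ} (h0 : 0 < θ) (h1 : θ < 1) (hb : 0 < b) {y : ℝ} (hy : 0 < y) (n : ℕ) :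
    ∑ j ∈ Finset.range n, (min (y * θ ^ j) (y * θ ^ j)⁻¹) ^ b ≤ 2 / (1 - θ ^ b) := by
  set q : ℝ := θ ^ b with hq
  have hq0 : 0 < q := Real.rpow_pos_of_pos h0 _
  have hq1 : q < 1 := Real.rpow_lt_one h0.le h1 hb
  have hpow : ∀ i : ℕ, (θ ^ i) ^ b = q ^ i := by
    intro i
    rw [hq, ← Real.rpow_natCast, ← Real.rpow_natCast, ← Real.rpow_mul h0.le, ← Real.rpow_mul h0.le,
      mul_comm]
  -- the first index with `y θ^j ≤ 1`
  have hex : ∃ j : ℕ, y * θ ^ j ≤ 1 := by
    obtain ⟨j, hj⟩ := exists_pow_lt_of_lt_one (show 0 < y⁻¹ by positivity) h1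
    refine ⟨j, ?_⟩
    calc y * θ ^ j ≤ y * y⁻¹ := by gcongr
      _ = 1 := mul_inv_cancel₀ hy.ne'
  classical
  obtain ⟨J, hJ1, hJ2⟩ : ∃ J : ℕ, y * θ ^ J ≤ 1 ∧ ∀ j < J, 1 < y * θ ^ j := by
    refine ⟨Nat.find hex, Nat.find_spec hex, fun j hj => ?_⟩
    have := Nat.find_min hex hj
    linarith
  have hterm : ∀ j, (min (y * θ ^ j) (y * θ ^ j)⁻¹) ^ b ≤
      (if J ≤ j then q ^ (j - J) else 0) + (if j < J then q ^ (J - 1 - j) else 0) := by
    intro j
    have hyj : 0 < y * θ ^ j := by positivity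
    have hmin0 : 0 ≤ min (y * θ ^ j) (y * θ ^ j)⁻¹ := le_min hyj.le (by positivity)
    by_cases hj : J ≤ j
    · rw [if_pos hj, if_neg (by omega), add_zero]
      have e : y * θ ^ j = (y * θ ^ J) * θ ^ (j - J) := by
        rw [mul_assoc, ← pow_add, Nat.add_sub_cancel' hj]
      calc (min (y * θ ^ j) (y * θ ^ j)⁻¹) ^ b ≤ (θ ^ (j - J)) ^ b := by
            apply Real.rpow_le_rpow hmin0 _ hb.le
            refine (min_le_left _ _).trans ?_
            rw [e]
            have : 0 < θ ^ (j - J) := by positivity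
            nlinarith
        _ = q ^ (j - J) := hpow _
    · rw [if_neg hj, if_pos (by omega), zero_add]
      have hlt : j < J := by omega
      have h2 := hJ2 (J - 1) (by omega)
      have e : y * θ ^ (J - 1) = (y * θ ^ j) * θ ^ (J - 1 - j) := by
        rw [mul_assoc, ← pow_add]
        congr 2
        omega
      calc (min (y * θ ^ j) (y * θ ^ j)⁻¹) ^ b ≤ (θ ^ (J - 1 - j)) ^ b := by
            apply Real.rpow_le_rpow hmin0 _ hb.le
            refine (min_le_right _ _).trans ?_
            rw [inv_le_iff_one_le_mul₀ hyj]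
            rw [e] at h2
            linarith
        _ = q ^ (J - 1 - j) := hpow _
  refine (Finset.sum_le_sum fun j _ => hterm j).trans ?_
  rw [Finset.sum_add_distrib]
  have s1 : ∑ j ∈ Finset.range n, (if J ≤ j then q ^ (j - J) else 0) ≤ 1 / (1 - q) := by
    have e1 : ∑ j ∈ Finset.range n, (if J ≤ j then q ^ (j - J) else 0) =
        ∑ j ∈ Finset.Ico J n, q ^ (j - J) := by
      rw [← Finset.sum_filter]
      apply Finset.sum_congr _ fun _ _ => rfl
      ext j
      simp only [Finset.mem_filter, Finset.mem_range, Finset.mem_Ico]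
      tauto
    rw [e1, Finset.sum_Ico_eq_sum_range]
    have e2 : ∀ i ∈ Finset.range (n - J), q ^ (J + i - J) = q ^ i := by
      intro i _
      congr 1
      omega
    rw [Finset.sum_congr rfl e2]
    exact geo_left hq0 hq1 _
  have s2 : ∑ j ∈ Finset.range n, (if j < J then q ^ (J - 1 - j) else 0) ≤ 1 / (1 - q) := by
    calc ∑ j ∈ Finset.range n, (if j < J then q ^ (J - 1 - j) else 0) ≤
          ∑ j ∈ Finset.range J, q ^ (J - 1 - j) := by
          rw [← Finset.sum_filter]
          apply Finset.sum_le_sum_of_subset_of_nonneg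
          · intro j hj
            simp only [Finset.mem_filter, Finset.mem_range] at hj ⊢
            exact hj.2
          · intro j _ _
            positivity
      _ = ∑ j ∈ Finset.range J, q ^ j := Finset.sum_range_reflect (fun j => q ^ j) J
      _ ≤ 1 / (1 - q) := geo_left hq0 hq1 _
  calc _ ≤ 1 / (1 - q) + 1 / (1 - q) := add_le_add s1 s2
    _ = 2 / (1 - q) := by ring

end Pool.Agent.MPca0fc2.TS
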