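import Mathlib
import Pool.Agent.Lib.MP_ca0fc2_an.Mg.G045
import Pool.Agent.Lib.MP_ca0fc2_an.TS.GeoS

set_option autoImplicit false

open Metric Set MeasureTheory Filter Topology
open scoped InnerProductSpace ENNReal

/-! # The sum over the ancestors -/

namespace Pool.Agent.MPca0fc2.TS

open Pool.Agent.MPca0fc2.PT

variable {E : Type*} [NormedAddCommGroup E] [InnerProductSpace ℂ E]

/-- subadditivity of a power -/
theorem rpow_add_le' {x y b : ℝ} (hx : 0 ≤ x) (hy : 0 ≤ y) (hb : 0 ≤ b) (hb1 : b ≤ 1) :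
    (x + y) ^ b ≤ x ^ b + y ^ b := Real.rpow_add_le_add_rpow hx hy hb hb1

/-- the elementary inequality for one term, `P = θ^j`, `q = θ^(k-j)`, `t` the depth of `w` -/
theorem age_real {P q t dj dk : ℝ} (hP : 0 < P) (hq : 0 < q) (hdj : 0 < dj) (hdk : 0 < dk)
    (h1 : P ≤ 4 * dj) (h2 : t ≤ dj) (h3 : dk ≤ max t 0 + 7 * (P * q)) :
    P / dj * (dk / dj) ≤ 64 * (7 * q + (if 0 < t then min (t⁻¹ * P) (t⁻¹ * P)⁻¹ else 0)) := by
  have e1 : P / dj * (dk / dj) = P * dk / dj ^ 2 := by field_simp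
  rw [e1, div_le_iff₀ (by positivity)]
  split_ifs with ht
  · rw [max_eq_left ht.le] at h3
    have hm : min (t⁻¹ * P) (t⁻¹ * P)⁻¹ * (64 * dj ^ 2) ≥ P * t := by
      rcases le_total (t⁻¹ * P) (t⁻¹ * P)⁻¹ with h | h
      · rw [min_eq_left h]
        have : t ^ 2 ≤ dj ^ 2 := pow_le_pow_left₀ ht.le h2 2
        calc t⁻¹ * P * (64 * dj ^ 2) ≥ t⁻¹ * P * (64 * t ^ 2) := by gcongr
          _ = 64 * (P * t) := by field_simp
          _ ≥ P * t := by nlinarith [mul_pos hP ht]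
      · rw [min_eq_right h]
        have : (P / 4) ^ 2 ≤ dj ^ 2 := pow_le_pow_left₀ (by positivity) (by linarith) 2
        calc (t⁻¹ * P)⁻¹ * (64 * dj ^ 2) ≥ (t⁻¹ * P)⁻¹ * (64 * (P / 4) ^ 2) := by gcongr
          _ = 4 * (P * t) := by field_simp; ring
          _ ≥ P * t := by nlinarith [mul_pos hP ht]
    have h5 : P ^ 2 ≤ 16 * dj ^ 2 := by nlinarith
    have h6 : P * dk ≤ P * t + 7 * q * P ^ 2 := by nlinarith
    have h7 : 7 * q * P ^ 2 ≤ 7 * q * (16 * dj ^ 2) := by gcongr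
    nlinarith [mul_pos hq (pow_pos hdj 2)]
  · rw [not_lt] at ht
    rw [max_eq_right ht, zero_add] at h3
    have h5 : P ^ 2 ≤ 16 * dj ^ 2 := by nlinarith
    have h6 : P * dk ≤ 7 * q * P ^ 2 := by nlinarith
    have h7 : 7 * q * P ^ 2 ≤ 7 * q * (16 * dj ^ 2) := by gcongr
    nlinarith [mul_pos hq (pow_pos hdj 2)]

/-- the depth from above -/
theorem dl_up {θ : ℝ} (h0 : 0 < θ) (h1 : θ < 1) {k : ℕ} {w : E} (hw : ‖w‖ < RC θ k) :
    dl θ k w ≤ max (1 - ‖w‖ ^ 2) 0 + 7 * θ ^ k := by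
  have hk0 : 0 < θ ^ k := by positivity
  have hk1 : θ ^ k ≤ 1 := pow_le_one₀ h0.le h1.le
  have hk2 : θ ^ (k + 1) ≤ 1 := pow_le_one₀ h0.le h1.le
  have hw2 : ‖w‖ ≤ 7 / 4 := by
    unfold RC at hw
    linarith
  have hw3 : ‖w‖ ^ 2 ≤ 49 / 16 := by nlinarith [norm_nonneg w]
  have e : dl θ k w = (1 - ‖w‖ ^ 2) + θ ^ k * (2 - θ ^ k) * ‖w‖ ^ 2 := by
    unfold dl rt
    ring
  rw [e]
  have h2 : θ ^ k * (2 - θ ^ k) * ‖w‖ ^ 2 ≤ θ ^ k * 2 * (49 / 16) := by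
    have : θ ^ k * (2 - θ ^ k) ≤ θ ^ k * 2 := by nlinarith
    have h3 : 0 ≤ θ ^ k * (2 - θ ^ k) := by nlinarith
    exact mul_le_mul this hw3 (sq_nonneg _) (by positivity)
  have h3 := le_max_left (1 - ‖w‖ ^ 2) 0
  linarith

/-- the depth from below -/
theorem dl_lo {θ : ℝ} (h0 : 0 < θ) (h1 : θ < 1) (j : ℕ) (w : E) : 1 - ‖w‖ ^ 2 ≤ dl θ j w := by
  have hk0 : 0 < θ ^ j := by positivity
  have hk1 : θ ^ j ≤ 1 := pow_le_one₀ h0.le h1.le
  have e : dl θ j w = (1 - ‖w‖ ^ 2) + θ ^ j * (2 - θ ^ j) * ‖w‖ ^ 2 := by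
    unfold dl rt
    ring
  rw [e]
  have : 0 ≤ θ ^ j * (2 - θ ^ j) * ‖w‖ ^ 2 := by
    have : 0 ≤ 2 - θ ^ j := by linarith
    positivity
  linarith

theorem RC_anti {θ : ℝ} (h0 : 0 < θ) (h1 : θ < 1) {j k : ℕ} (hjk : j ≤ k) : RC θ k ≤ RC θ j := by
  unfold RC
  have : θ ^ (k + 1) ≤ θ ^ (j + 1) := pow_le_pow_of_le_one h0.le h1.le (by omega)
  linarith

/-- the sum over the ancestors -/
theorem age_sum {θ a b : ℝ} (h0 : 0 < θ) (h1 : θ < 1) (ha : 0 < a) (hb : 0 < b) :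
    ∃ C : ℝ, 0 < C ∧ ∀ (k : ℕ) (w : E), ‖w‖ < RC θ k →
      ∑ j ∈ Finset.range (k + 1), xk θ j w ^ a * (dl θ k w / dl θ j w) ^ b ≤ C := by
  obtain ⟨c, hc⟩ : ∃ c : ℝ, c = min (min a b) 1 := ⟨_, rfl⟩
  have hc0 : 0 < c := by rw [hc]; positivity
  have hca : c ≤ a := by rw [hc]; exact (min_le_left _ _).trans (min_le_left _ _)
  have hcb : c ≤ b := by rw [hc]; exact (min_le_left _ _).trans (min_le_right _ _)
  have hc1 : c ≤ 1 := by rw [hc]; exact min_le_right _ _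
  have hq0 : 0 < θ ^ c := Real.rpow_pos_of_pos h0 _
  have hq1 : θ ^ c < 1 := Real.rpow_lt_one h0.le h1 hc0
  have h1q : 0 < 1 - θ ^ c := by linarith
  refine ⟨(4 : ℝ) ^ (a - c) * ((64 : ℝ) ^ c * ((7 : ℝ) ^ c * (1 / (1 - θ ^ c)) +
    2 / (1 - θ ^ c))), by positivity, ?_⟩
  intro k w hw
  obtain ⟨t, ht⟩ : ∃ t : ℝ, t = 1 - ‖w‖ ^ 2 := ⟨_, rfl⟩
  have hterm : ∀ j ∈ Finset.range (k + 1), xk θ j w ^ a * (dl θ k w / dl θ j w) ^ b ≤
      (4 : ℝ) ^ (a - c) * ((64 : ℝ) ^ c * ((7 : ℝ) ^ c * (θ ^ c) ^ (k - j) +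
        (if 0 < t then (min (t⁻¹ * θ ^ j) (t⁻¹ * θ ^ j)⁻¹) ^ c else 0))) := by
    intro j hj
    have hjk : j ≤ k := by have := Finset.mem_range.1 hj; omega
    have hwj : ‖w‖ < RC θ j := hw.trans_le (RC_anti h0 h1 hjk)
    have hdj := dl_pos h0 h1 hwj
    have hdk := dl_pos h0 h1 hw
    have hx := xk_pos h0 h1 hwj
    have hx4 := xk_le h0 h1 hwj
    have hr0 : 0 < dl θ k w / dl θ j w := by positivity
    have hr1 : dl θ k w / dl θ j w ≤ 1 := by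
      rw [div_le_one hdj]
      exact dl_anti h0 h1 hjk w
    have hge := dl_ge h0 h1 (Nat.le_succ j) hwj
    have e1 : xk θ j w ^ a ≤ (4 : ℝ) ^ (a - c) * xk θ j w ^ c := by
      have : xk θ j w ^ a = xk θ j w ^ (a - c) * xk θ j w ^ c := by
        rw [← Real.rpow_add hx]; ring_nf
      rw [this]
      have h2 : xk θ j w ^ (a - c) ≤ (4 : ℝ) ^ (a - c) :=
        Real.rpow_le_rpow hx.le hx4 (by linarith)
      gcongr
    have e2 : (dl θ k w / dl θ j w) ^ b ≤ (dl θ k w / dl θ j w) ^ c :=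
      Real.rpow_le_rpow_of_exponent_ge hr0 hr1 hcb
    have hpow : θ ^ k = θ ^ j * θ ^ (k - j) := by rw [← pow_add]; congr 1; omega
    have e3 := age_real (P := θ ^ j) (q := θ ^ (k - j)) (t := t) (dj := dl θ j w)
      (dk := dl θ k w) (by positivity) (by positivity) hdj hdk (by linarith)
      (by rw [ht]; exact dl_lo h0 h1 j w) (by
        rw [← hpow, ht]
        exact dl_up h0 h1 hw)
    have hmin : 0 ≤ (if 0 < t then min (t⁻¹ * θ ^ j) (t⁻¹ * θ ^ j)⁻¹ else 0) := by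
      split_ifs with h
      · positivity
      · exact le_rfl
    have e4 : (θ ^ j / dl θ j w * (dl θ k w / dl θ j w)) ^ c ≤
        (64 : ℝ) ^ c * ((7 : ℝ) ^ c * (θ ^ c) ^ (k - j) +
        (if 0 < t then (min (t⁻¹ * θ ^ j) (t⁻¹ * θ ^ j)⁻¹) ^ c else 0)) := by
      have h5 : ((θ ^ (k - j) : ℝ)) ^ c = (θ ^ c) ^ (k - j) := by
        rw [← Real.rpow_natCast, ← Real.rpow_natCast, ← Real.rpow_mul h0.le,
          ← Real.rpow_mul h0.le, mul_comm]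
      calc (θ ^ j / dl θ j w * (dl θ k w / dl θ j w)) ^ c
          ≤ (64 * (7 * θ ^ (k - j) + (if 0 < t then min (t⁻¹ * θ ^ j) (t⁻¹ * θ ^ j)⁻¹
              else 0))) ^ c := Real.rpow_le_rpow (by positivity) e3 hc0.le
        _ = (64 : ℝ) ^ c * (7 * θ ^ (k - j) + (if 0 < t then min (t⁻¹ * θ ^ j) (t⁻¹ * θ ^ j)⁻¹
              else 0)) ^ c := Real.mul_rpow (by norm_num) (by positivity)
        _ ≤ (64 : ℝ) ^ c * ((7 * θ ^ (k - j)) ^ c + (if 0 < t then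
              min (t⁻¹ * θ ^ j) (t⁻¹ * θ ^ j)⁻¹ else 0) ^ c) := by
            gcongr
            exact rpow_add_le' (by positivity) hmin hc0.le hc1
        _ = _ := by
            rw [Real.mul_rpow (by norm_num) (by positivity), h5]
            congr 2
            split_ifs with h
            · rfl
            · exact Real.zero_rpow hc0.ne'
    have hxd : xk θ j w = θ ^ j / dl θ j w := rfl
    calc xk θ j w ^ a * (dl θ k w / dl θ j w) ^ b
        ≤ ((4 : ℝ) ^ (a - c) * xk θ j w ^ c) * (dl θ k w / dl θ j w) ^ c := by gcongr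
      _ = (4 : ℝ) ^ (a - c) * (θ ^ j / dl θ j w * (dl θ k w / dl θ j w)) ^ c := by
          rw [hxd, Real.mul_rpow (by positivity) (by positivity)]
          ring
      _ ≤ _ := by gcongr
  refine (Finset.sum_le_sum hterm).trans ?_
  rw [← Finset.mul_sum, ← Finset.mul_sum, Finset.sum_add_distrib, ← Finset.mul_sum]
  have s1 : ∑ j ∈ Finset.range (k + 1), (θ ^ c) ^ (k - j) ≤ 1 / (1 - θ ^ c) := by
    have e := Finset.sum_flip (fun i => (θ ^ c) ^ i) (n := k)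
    rw [e]
    exact geo_left hq0 hq1 _
  have s2 : ∑ j ∈ Finset.range (k + 1), (if 0 < t then
      (min (t⁻¹ * θ ^ j) (t⁻¹ * θ ^ j)⁻¹) ^ c else 0) ≤ 2 / (1 - θ ^ c) := by
    split_ifs with h
    · exact geo_two h0 h1 hc0 (by positivity) _
    · rw [Finset.sum_const_zero]
      positivity
  gcongr

end Pool.Agent.MPca0fc2.TS
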