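import Mathlib
import Pool.Agent.Lib.MP_ca0fc2_an.Mg.G020
import Pool.Agent.Lib.MP_ca0fc2_an.TS.Sharp

set_option autoImplicit false

open Metric Set MeasureTheory Filter Topology
open scoped InnerProductSpace ENNReal

/-! # The complex linear derivative of the first order term -/

namespace Pool.Agent.MPca0fc2.TS

open Pool.Agent.MPca0fc2.PT Pool.Agent.MPca0fc2.QT

variable {E : Type*} [NormedAddCommGroup E] [InnerProductSpace ℂ E]
variable {Y : Type*} [NormedAddCommGroup Y] [NormedSpace ℂ Y]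
variable {V : Type*} [NormedAddCommGroup V] [NormedSpace ℂ V]

theorem D10_inv {q : E → ℂ} {w : E} (hq : DifferentiableAt ℝ q w) (h0 : q w ≠ 0) (v : E) :
    D10 (fun w => (q w)⁻¹) w v = -(D10 q w v / (q w) ^ 2) := by
  have h1 : HasFDerivAt (fun w => (q w)⁻¹) (-((q w) ^ 2)⁻¹ • fderiv ℝ q w) w := by
    have h2 : HasFDerivAt (𝕜 := ℝ) (fun z : ℂ => z⁻¹)
        ((ContinuousLinearMap.toSpanSingleton ℂ (-((q w) ^ 2)⁻¹)).restrictScalars ℝ) (q w) :=
      (hasDerivAt_inv h0).hasFDerivAt.restrictScalars ℝ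
    refine (h2.comp w hq.hasFDerivAt).congr_fderiv ?_
    ext x
    simp [mul_comm]
  rw [D10, D10, h1.fderiv]
  simp only [smul_apply, smul_eq_mul]
  field_simp
  ring

theorem D10_smul {q : E → ℂ} {σ : E → Y} {w : E} (hq : DifferentiableAt ℝ q w)
    (hσ : DifferentiableAt ℝ σ w) (v : E) :
    D10 (fun w => q w • σ w) w v = q w • D10 σ w v + D10 q w v • σ w := by
  have h1 := hq.hasFDerivAt.fun_smul hσ.hasFDerivAt
  rw [D10, D10, D10, h1.fderiv]
  simp only [add_apply, smul_apply, ContinuousLinearMap.smulRight_apply, smul_eq_mul]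
  module

/-- the complex linear derivative of a pairing -/
theorem D10_clm {F : E → Y →L[ℂ] ℂ} {σ : E → Y} {w : E} (hF : DifferentiableAt ℂ F w)
    (hσ : DifferentiableAt ℝ σ w) (v : E) :
    D10 (fun w => F w (σ w)) w v = F w (D10 σ w v) + fderiv ℂ F w v (σ w) := by
  obtain ⟨-, h⟩ := clm_hasFDerivAt hF hσ
  have e1 : fderiv ℂ F w (Complex.I • v) = Complex.I • fderiv ℂ F w v := map_smul _ _ _
  have e2 : F w (D10 σ w v) = (2⁻¹ : ℂ) * (F w (fderiv ℝ σ w v) -
      Complex.I * F w (fderiv ℝ σ w (Complex.I • v))) := by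
    rw [D10, map_smul, map_sub, map_smul]
    rfl
  rw [e2, D10, h, h, e1]
  simp only [smul_apply, smul_eq_mul]
  have h6 : Complex.I * (Complex.I * fderiv ℂ F w v (σ w)) = -(fderiv ℂ F w v (σ w)) := by
    rw [← mul_assoc, Complex.I_mul_I, neg_one_mul]
  rw [mul_add Complex.I, h6]
  ring

/-- the intermediate solution has the same logarithmic derivative as a smooth solution -/
theorem D10_shp {F' : E → Y →L[ℂ] ℂ} {σ : E → Y} {w : E} (hF' : DifferentiableAt ℂ F' w)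
    (hσ : DifferentiableAt ℝ σ w) (h3 : F' w (σ w) ≠ 0) (v : E) {α : ℂ}
    (hα : D10 σ w v = α • σ w) :
    D10 (shp F' σ) w v = -(fderiv ℂ F' w v (shp F' σ w)) • shp F' σ w := by
  have h1 := (clm_hasFDerivAt hF' hσ).1
  have h2 : DifferentiableAt ℝ (fun w => (F' w (σ w))⁻¹) w := h1.inv h3
  have h4 := D10_smul h2 hσ v
  rw [D10_inv h1 h3, D10_clm hF' hσ, hα, map_smul, smul_eq_mul] at h4
  have h5 : D10 (shp F' σ) w v = D10 (fun w => (F' w (σ w))⁻¹ • σ w) w v := rfl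
  rw [h5, h4]
  unfold shp
  rw [map_smul, smul_eq_mul, smul_smul, smul_smul, ← add_smul]
  congr 1
  field_simp
  ring

/-- the first order term -/
noncomputable def Jv (K : Car Y V) (s s' : E → Y) (w : E) : V := K.a (s w) (K.a (s' w) K.Ω)

theorem JJ_zero_eq (K : Car Y V) (s s' : E → Y) (w : E) : JJ K s s' 0 w = cst E (Jv K s s' w) := by
  ext v
  rfl

theorem Jv_D10 (K : Car Y V) {s s' : E → Y} {w : E} (hs : DifferentiableAt ℝ s w)
    (hs' : DifferentiableAt ℝ s' w) (v : E) {α α' : ℂ} (hα : D10 s w v = α • s w)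
    (hα' : D10 s' w v = α' • s' w) : D10 (Jv K s s') w v = (α + α') • Jv K s s' w := by
  have h1 : HasFDerivAt (fun w => (K.a (s' w) K.Ω))
      (((ContinuousLinearMap.apply ℂ V K.Ω).restrictScalars ℝ).comp
        ((K.a.restrictScalars ℝ).comp (fderiv ℝ s' w))) w :=
    ((ContinuousLinearMap.apply ℂ V K.Ω).restrictScalars ℝ).hasFDerivAt.comp w
      ((K.a.restrictScalars ℝ).hasFDerivAt.comp w hs'.hasFDerivAt)
  have h2 : HasFDerivAt (fun w => (K.a (s w)).restrictScalars ℝ)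
      ((ContinuousLinearMap.restrictScalarsL ℂ V V ℝ ℝ).comp
        ((K.a.restrictScalars ℝ).comp (fderiv ℝ s w))) w :=
    (ContinuousLinearMap.restrictScalarsL ℂ V V ℝ ℝ).hasFDerivAt.comp w
      ((K.a.restrictScalars ℝ).hasFDerivAt.comp w hs.hasFDerivAt)
  have h3 := h2.clm_apply h1
  have h4 : ∀ x, fderiv ℝ (Jv K s s') w x = K.a (s w) (K.a (fderiv ℝ s' w x) K.Ω) +
      K.a (fderiv ℝ s w x) (K.a (s' w) K.Ω) := by
    intro x
    have : fderiv ℝ (Jv K s s') w = _ := h3.fderiv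
    rw [this]
    simp
  have e1 : K.a (D10 s w v) = (2⁻¹ : ℂ) • (K.a (fderiv ℝ s w v) -
      Complex.I • K.a (fderiv ℝ s w (Complex.I • v))) := by
    rw [D10, map_smul, map_sub, map_smul]
  have e2 : K.a (D10 s' w v) = (2⁻¹ : ℂ) • (K.a (fderiv ℝ s' w v) -
      Complex.I • K.a (fderiv ℝ s' w (Complex.I • v))) := by
    rw [D10, map_smul, map_sub, map_smul]
  have e3 : D10 (Jv K s s') w v = K.a (s w) (K.a (D10 s' w v) K.Ω) +
      K.a (D10 s w v) (K.a (s' w) K.Ω) := by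
    rw [e1, e2, D10, h4, h4]
    simp only [smul_apply, sub_apply, map_smul, map_sub]
    module
  rw [e3, hα, hα', map_smul, map_smul]
  unfold Jv
  simp only [smul_apply, map_smul]
  module

theorem Jv_norm (K : Car Y V) {s s' : E → Y} {w : E} {b κ : ℝ} (hb : ‖s w‖ ≤ b)
    (hκ : ‖s' w - s w‖ ≤ κ) : ‖Jv K s s' w‖ ≤ ‖K.a‖ * b * (‖K.a‖ * κ * ‖K.Ω‖) := by
  have hss : K.a (s w) (K.a (s w) K.Ω) = 0 := by
    have h := K.aa (s w) (s w) K.Ω
    have h2 : (2 : ℂ) • K.a (s w) (K.a (s w) K.Ω) = 0 := by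
      rw [two_smul]
      nth_rewrite 1 [h]
      rw [neg_add_cancel]
    exact (smul_eq_zero.1 h2).resolve_left two_ne_zero
  have e : Jv K s s' w = K.a (s w) (K.a (s' w - s w) K.Ω) := by
    unfold Jv
    rw [map_sub, sub_apply, map_sub, hss, sub_zero]
  have hb0 : 0 ≤ b := (norm_nonneg _).trans hb
  rw [e]
  have h1 : ‖K.a (s' w - s w) K.Ω‖ ≤ ‖K.a‖ * κ * ‖K.Ω‖ := by
    refine (K.a.le_opNorm₂ _ _).trans ?_
    have := norm_nonneg K.a
    gcongr
  refine (K.a.le_opNorm₂ _ _).trans ?_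
  have := norm_nonneg K.a
  gcongr

end Pool.Agent.MPca0fc2.TS
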