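import Mathlib
import Pool.Agent.Lib.MP_ca0fc2_an.Mg.G055
import Pool.Agent.Lib.MP_ca0fc2_an.Mg.G020

set_option autoImplicit false

open Metric Set MeasureTheory Filter Topology
open scoped InnerProductSpace ENNReal

/-! # The barrier step: the algebraic inequality and the conjugate derivative -/

namespace Pool.Agent.MPca0fc2.TS

open Pool.Agent.MPca0fc2.PT Pool.Agent.MPca0fc2.QT

variable {E : Type*} [NormedAddCommGroup E] [InnerProductSpace ℂ E]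
variable {V : Type*} [NormedAddCommGroup V] [InnerProductSpace ℂ V]

/-- the barrier inequality for one step -/
theorem bar_step (K J : V) {B : ℝ}
    (hB : 0 < B) (hK : ‖K‖ ≤ B) (hJ : 2 * ‖J‖ ≤ B) :
    ‖K + J - (⟪J, K⟫_ℂ / (B : ℂ) ^ 2) • K‖ ≤ B + 2 * ‖J‖ ^ 2 / B := by
  have hn : ‖⟪J, K⟫_ℂ‖ ≤ ‖J‖ * ‖K‖ := norm_inner_le_norm _ _
  have hB2 : (0 : ℝ) < B ^ 2 := by positivity
  set t : ℂ := ⟪J, K⟫_ℂ / (B : ℂ) ^ 2 with ht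
  have htn : ‖t‖ = ‖⟪J, K⟫_ℂ‖ / B ^ 2 := by
    rw [ht, norm_div, norm_pow, Complex.norm_real, Real.norm_of_nonneg hB.le]
  have e1 : K + J - t • K = K + (J - t • K) := by abel
  have h1 : ‖K + (J - t • K)‖ ^ 2 = ‖K‖ ^ 2 + 2 * (⟪K, J - t • K⟫_ℂ).re + ‖J - t • K‖ ^ 2 := by
    exact @norm_add_sq ℂ V _ _ _ K (J - t • K)
  -- the mixed term
  have h2 : (⟪K, J - t • K⟫_ℂ).re = (1 - ‖K‖ ^ 2 / B ^ 2) * (⟪J, K⟫_ℂ).re := by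
    rw [inner_sub_right, inner_smul_right, Complex.sub_re]
    have e2 : (⟪K, J⟫_ℂ).re = (⟪J, K⟫_ℂ).re := by
      rw [← inner_conj_symm, Complex.conj_re]
    have e3 : ⟪K, K⟫_ℂ = ((‖K‖ ^ 2 : ℝ) : ℂ) := by
      rw [inner_self_eq_norm_sq_to_K]; norm_cast
    have e4 : t = ((B ^ 2)⁻¹ : ℝ) * ⟪J, K⟫_ℂ := by
      rw [ht]; push_cast; rw [div_eq_inv_mul]
    rw [e2, e3, e4]
    have e5 : (((B ^ 2)⁻¹ : ℝ) : ℂ) * ⟪J, K⟫_ℂ * ((‖K‖ ^ 2 : ℝ) : ℂ) =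
        (((B ^ 2)⁻¹ * ‖K‖ ^ 2 : ℝ) : ℂ) * ⟪J, K⟫_ℂ := by push_cast; ring
    rw [e5, Complex.re_ofReal_mul]
    ring
  have hKB : ‖K‖ ^ 2 / B ^ 2 ≤ 1 := by
    rw [div_le_one hB2]
    exact pow_le_pow_left₀ (norm_nonneg _) hK 2
  have h3 : (⟪J, K⟫_ℂ).re ≤ ‖J‖ * ‖K‖ := (Complex.re_le_norm _).trans hn
  have h4 : ‖J - t • K‖ ≤ 2 * ‖J‖ := by
    refine (norm_sub_le _ _).trans ?_
    rw [norm_smul, htn]
    have : ‖⟪J, K⟫_ℂ‖ / B ^ 2 * ‖K‖ ≤ ‖J‖ := by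
      rw [div_mul_eq_mul_div, div_le_iff₀ hB2]
      calc ‖⟪J, K⟫_ℂ‖ * ‖K‖ ≤ (‖J‖ * ‖K‖) * ‖K‖ := by gcongr
        _ = ‖J‖ * ‖K‖ ^ 2 := by ring
        _ ≤ ‖J‖ * B ^ 2 := by gcongr
    linarith
  have h5 : ‖K + (J - t • K)‖ ^ 2 ≤ B ^ 2 + 4 * ‖J‖ ^ 2 := by
    rw [h1, h2]
    have a1 : 2 * ((1 - ‖K‖ ^ 2 / B ^ 2) * (⟪J, K⟫_ℂ).re) ≤ (1 - ‖K‖ ^ 2 / B ^ 2) * B ^ 2 := by
      have a0 : 0 ≤ 1 - ‖K‖ ^ 2 / B ^ 2 := by linarith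
      have a2 : 2 * (⟪J, K⟫_ℂ).re ≤ B ^ 2 := by
        have : 2 * (‖J‖ * ‖K‖) ≤ B * B := by
          calc 2 * (‖J‖ * ‖K‖) = (2 * ‖J‖) * ‖K‖ := by ring
            _ ≤ B * B := by gcongr
        nlinarith
      calc 2 * ((1 - ‖K‖ ^ 2 / B ^ 2) * (⟪J, K⟫_ℂ).re)
          = (1 - ‖K‖ ^ 2 / B ^ 2) * (2 * (⟪J, K⟫_ℂ).re) := by ring
        _ ≤ _ := mul_le_mul_of_nonneg_left a2 a0
    have a3 : (1 - ‖K‖ ^ 2 / B ^ 2) * B ^ 2 = B ^ 2 - ‖K‖ ^ 2 := by field_simp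
    have a4 : ‖J - t • K‖ ^ 2 ≤ (2 * ‖J‖) ^ 2 := pow_le_pow_left₀ (norm_nonneg _) h4 2
    nlinarith
  rw [e1]
  have h6 : B ^ 2 + 4 * ‖J‖ ^ 2 ≤ (B + 2 * ‖J‖ ^ 2 / B) ^ 2 := by
    have : (B + 2 * ‖J‖ ^ 2 / B) ^ 2 = B ^ 2 + 4 * ‖J‖ ^ 2 + (2 * ‖J‖ ^ 2 / B) ^ 2 := by
      field_simp; ring
    rw [this]
    have : 0 ≤ (2 * ‖J‖ ^ 2 / B) ^ 2 := by positivity
    linarith
  have h7 : 0 ≤ B + 2 * ‖J‖ ^ 2 / B := by positivity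
  exact (pow_le_pow_iff_left₀ (norm_nonneg _) h7 (by norm_num)).1 (h5.trans h6)

/-- the correction before the projection -/
noncomputable def Nb (J K : E → V) (B : E → ℝ) (w : E) : V :=
  (⟪J w, K w⟫_ℂ * (((B w)⁻¹ ^ 2 : ℝ) : ℂ)) • K w

omit [NormedAddCommGroup E] [InnerProductSpace ℂ E] in
theorem Nb_eq (J K : E → V) (B : E → ℝ) (w : E) :
    Nb J K B w = (⟪J w, K w⟫_ℂ / (B w : ℂ) ^ 2) • K w := by
  unfold Nb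
  congr 1
  push_cast
  rw [div_eq_mul_inv, inv_pow]

theorem Nb_c1 {J K : E → V} {B : E → ℝ} {w : E} (hJ : ContDiffAt ℝ 1 J w)
    (hK : ContDiffAt ℝ 1 K w) (hB : ContDiffAt ℝ 1 B w) (hB0 : 0 < B w) :
    ContDiffAt ℝ 1 (Nb J K B) w := by
  unfold Nb
  have h1 : ContDiffAt ℝ 1 (fun w => ⟪J w, K w⟫_ℂ) w := hJ.inner ℂ hK
  have h2 : ContDiffAt ℝ 1 (fun w => (((B w)⁻¹ ^ 2 : ℝ) : ℂ)) w :=
    Complex.ofRealCLM.contDiff.contDiffAt.comp w ((hB.inv hB0.ne').pow 2)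
  exact (h1.mul h2).smul hK

/-- the conjugate derivative of the correction -/
theorem Nb_D01 {J K : E → V} {B : E → ℝ} {w : E} (hJ : DifferentiableAt ℝ J w)
    (hK : DifferentiableAt ℝ K w) (hB : DifferentiableAt ℝ B w) (hB0 : 0 < B w)
    (hKB : ‖K w‖ ≤ B w) (v : E) {a k b : ℝ} (ha : ‖D10 J w v‖ ≤ a) (hk : ‖D01 K w v‖ ≤ k)
    (hb1 : |fderiv ℝ B w v| ≤ b) (hb2 : |fderiv ℝ B w (Complex.I • v)| ≤ b) :
    ‖D01 (Nb J K B) w v‖ ≤ a + 2 * ‖J w‖ * k / B w + 2 * ‖J w‖ * b / B w := by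
  have hI : Complex.I * Complex.I = -1 := Complex.I_mul_I
  -- the scalar factor
  set g : E → ℝ := fun w => (B w)⁻¹ ^ 2 with hg
  have hgd : HasFDerivAt g ((-(2 * (B w)⁻¹ ^ 3) : ℝ) • fderiv ℝ B w) w := by
    have h1 := (hasDerivAt_inv hB0.ne').comp_hasFDerivAt w hB.hasFDerivAt
    have h2 := h1.pow 2
    refine h2.congr_fderiv ?_
    ext x
    simp only [Function.comp_apply, _root_.smul_apply, smul_eq_mul, nsmul_eq_mul,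
      ← inv_pow]
    norm_num
    ring
  have hgc : HasFDerivAt (fun w => ((g w : ℝ) : ℂ))
      (Complex.ofRealCLM.comp ((-(2 * (B w)⁻¹ ^ 3) : ℝ) • fderiv ℝ B w)) w :=
    Complex.ofRealCLM.hasFDerivAt.comp w hgd
  have hin : HasFDerivAt (fun w => ⟪J w, K w⟫_ℂ)
      ((fderivInnerCLM ℂ (J w, K w)).comp ((fderiv ℝ J w).prod (fderiv ℝ K w))) w :=
    hJ.hasFDerivAt.inner ℂ hK.hasFDerivAt
  have hmul := hin.fun_mul hgc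
  have hN := hmul.fun_smul hK.hasFDerivAt
  have hfd : ∀ x : E, fderiv ℝ (Nb J K B) w x =
      (⟪J w, K w⟫_ℂ * ((g w : ℝ) : ℂ)) • fderiv ℝ K w x +
      (⟪J w, K w⟫_ℂ * ((-(2 * (B w)⁻¹ ^ 3) * fderiv ℝ B w x : ℝ) : ℂ) +
        ((g w : ℝ) : ℂ) * (⟪J w, fderiv ℝ K w x⟫_ℂ + ⟪fderiv ℝ J w x, K w⟫_ℂ)) • K w := by
    intro x
    have : fderiv ℝ (Nb J K B) w = _ := hN.fderiv
    rw [this]
    simp [fderivInnerCLM_apply]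
  have hD : D01 (Nb J K B) w v = (⟪J w, K w⟫_ℂ * ((g w : ℝ) : ℂ)) • D01 K w v +
      (⟪J w, K w⟫_ℂ * ((-(2 * (B w)⁻¹ ^ 3) : ℝ) : ℂ) * ((2⁻¹ : ℂ) * ((fderiv ℝ B w v : ℝ) +
        Complex.I * (fderiv ℝ B w (Complex.I • v) : ℝ))) +
        ((g w : ℝ) : ℂ) * (⟪J w, D01 K w v⟫_ℂ + ⟪D10 J w v, K w⟫_ℂ)) • K w := by
    rw [D01_apply, D01_apply, D10, hfd, hfd]
    simp only [inner_smul_left, inner_smul_right, inner_add_right, inner_sub_left, map_inv₀,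
      Complex.conj_I, map_ofNat]
    push_cast
    match_scalars <;> ring_nf
  have hgw : g w = (B w)⁻¹ ^ 2 := rfl
  have hj := norm_nonneg (J w)
  have hin0 : ‖⟪J w, K w⟫_ℂ‖ ≤ ‖J w‖ * B w :=
    (norm_inner_le_norm _ _).trans (mul_le_mul_of_nonneg_left hKB hj)
  have hk0 : 0 ≤ k := (norm_nonneg _).trans hk
  have hb0 : 0 ≤ b := (abs_nonneg _).trans hb1
  have ha0 : 0 ≤ a := (norm_nonneg _).trans ha
  have t1 : ‖(⟪J w, K w⟫_ℂ * ((g w : ℝ) : ℂ)) • D01 K w v‖ ≤ ‖J w‖ * k / B w := by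
    rw [norm_smul, norm_mul, Complex.norm_real, hgw, Real.norm_of_nonneg (by positivity)]
    calc ‖⟪J w, K w⟫_ℂ‖ * (B w)⁻¹ ^ 2 * ‖D01 K w v‖ ≤ (‖J w‖ * B w) * (B w)⁻¹ ^ 2 * k := by
          gcongr
      _ = ‖J w‖ * k / B w := by field_simp
  have t2 : ‖⟪J w, K w⟫_ℂ * ((-(2 * (B w)⁻¹ ^ 3) : ℝ) : ℂ) * ((2⁻¹ : ℂ) * ((fderiv ℝ B w v : ℝ) +
        Complex.I * (fderiv ℝ B w (Complex.I • v) : ℝ)))‖ ≤ 2 * ‖J w‖ * b / B w ^ 2 := by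
    rw [norm_mul, norm_mul, Complex.norm_real, norm_neg, Real.norm_of_nonneg (by positivity),
      norm_mul]
    have h1 : ‖(2⁻¹ : ℂ)‖ = 2⁻¹ := by rw [norm_inv]; simp
    have h2 : ‖((fderiv ℝ B w v : ℝ) : ℂ) + Complex.I * ((fderiv ℝ B w (Complex.I • v) : ℝ) : ℂ)‖ ≤
        b + b := by
      refine (norm_add_le _ _).trans (add_le_add ?_ ?_)
      · rw [Complex.norm_real]; exact hb1
      · rw [norm_mul, Complex.norm_I, one_mul, Complex.norm_real]; exact hb2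
    rw [h1]
    calc ‖⟪J w, K w⟫_ℂ‖ * (2 * (B w)⁻¹ ^ 3) * (2⁻¹ * _) ≤
          (‖J w‖ * B w) * (2 * (B w)⁻¹ ^ 3) * (2⁻¹ * (b + b)) := by
          gcongr
      _ = 2 * ‖J w‖ * b / B w ^ 2 := by field_simp; ring
  have t3 : ‖((g w : ℝ) : ℂ) * (⟪J w, D01 K w v⟫_ℂ + ⟪D10 J w v, K w⟫_ℂ)‖ ≤
      (B w)⁻¹ ^ 2 * (‖J w‖ * k + a * B w) := by
    rw [norm_mul, Complex.norm_real, hgw, Real.norm_of_nonneg (by positivity)]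
    apply mul_le_mul_of_nonneg_left _ (by positivity)
    refine (norm_add_le _ _).trans (add_le_add ?_ ?_)
    · exact (norm_inner_le_norm _ _).trans (mul_le_mul_of_nonneg_left hk hj)
    · exact (norm_inner_le_norm _ _).trans (mul_le_mul ha hKB (norm_nonneg _) ha0)
  rw [hD]
  refine (norm_add_le _ _).trans ?_
  have t4 := norm_add_le (⟪J w, K w⟫_ℂ * ((-(2 * (B w)⁻¹ ^ 3) : ℝ) : ℂ) * ((2⁻¹ : ℂ) *
      ((fderiv ℝ B w v : ℝ) + Complex.I * (fderiv ℝ B w (Complex.I • v) : ℝ))))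
    (((g w : ℝ) : ℂ) * (⟪J w, D01 K w v⟫_ℂ + ⟪D10 J w v, K w⟫_ℂ))
  have t5 : ‖(⟪J w, K w⟫_ℂ * ((-(2 * (B w)⁻¹ ^ 3) : ℝ) : ℂ) * ((2⁻¹ : ℂ) * ((fderiv ℝ B w v : ℝ) +
        Complex.I * (fderiv ℝ B w (Complex.I • v) : ℝ))) +
        ((g w : ℝ) : ℂ) * (⟪J w, D01 K w v⟫_ℂ + ⟪D10 J w v, K w⟫_ℂ)) • K w‖ ≤
      (2 * ‖J w‖ * b / B w ^ 2 + (B w)⁻¹ ^ 2 * (‖J w‖ * k + a * B w)) * B w := by
    rw [norm_smul]
    apply mul_le_mul (t4.trans (add_le_add t2 t3)) hKB (norm_nonneg _)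
    positivity
  refine (add_le_add t1 t5).trans (le_of_eq ?_)
  field_simp
  ring

end Pool.Agent.MPca0fc2.TS
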