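import Mathlib
import Pool.Agent.Lib.MP_ca0fc2_an.Mg.G023
import Pool.Agent.Lib.MP_ca0fc2_an.QTX6
import Pool.Agent.Lib.MP_ca0fc2_an.Mg.G122
import Pool.Agent.Lib.MP_ca0fc2_an.TS.Sharp
import Pool.Agent.Lib.MP_ca0fc2_an.TS.DJ

set_option autoImplicit false

open Metric Set MeasureTheory Filter Topology
open scoped InnerProductSpace ENNReal

/-! # The smooth solutions `s0` and `s1` -/

namespace Pool.Agent.MPca0fc2.TS

open Pool.Agent.MPca0fc2.PT Pool.Agent.MPca0fc2.QT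

variable {E : Type*} [NormedAddCommGroup E] [InnerProductSpace ℂ E]
variable {N : ℕ} {f : Fin N → E → ℂ} {δ θ : ℝ} {k l : ℕ} {w : E}

/-! ### the functionals -/

theorem d0_FF_apply (f : Fin N → E → ℂ) (θ : ℝ) (k : ℕ) (w : E) (y : Fin N → ℂ) :
    FF f θ k w y = ∑ j, uk (f j) θ k w * y j := by
  unfold FF
  rw [sum_apply]
  rfl

theorem d0_proj_norm_le {n : ℕ} (j : Fin n) :
    ‖(ContinuousLinearMap.proj j : (Fin n → ℂ) →L[ℂ] ℂ)‖ ≤ 1 := by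
  apply ContinuousLinearMap.opNorm_le_bound _ zero_le_one
  intro x
  rw [one_mul]
  exact norm_le_pi_norm x j

/-- the norm of a functional with small coefficients -/
theorem d0_coef_norm {a : Fin N → ℂ} {κ : ℝ} (ha : ∀ j, ‖a j‖ ≤ κ) :
    ‖∑ j, a j • (ContinuousLinearMap.proj j : (Fin N → ℂ) →L[ℂ] ℂ)‖ ≤ N * κ := by
  refine (norm_sum_le _ _).trans ?_
  have : ∀ j ∈ Finset.univ, ‖a j • (ContinuousLinearMap.proj j : (Fin N → ℂ) →L[ℂ] ℂ)‖ ≤ κ := by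
    intro j _
    rw [norm_smul]
    calc ‖a j‖ * ‖(ContinuousLinearMap.proj j : (Fin N → ℂ) →L[ℂ] ℂ)‖ ≤ κ * 1 :=
          mul_le_mul (ha j) (d0_proj_norm_le j) (norm_nonneg _) ((norm_nonneg _).trans (ha j))
      _ = κ := mul_one κ
  refine (Finset.sum_le_sum this).trans ?_
  rw [Finset.sum_const, Finset.card_univ, Fintype.card_fin, nsmul_eq_mul]

theorem TD.mem (D : TD f δ θ) (hl : l ≤ k + 1) (hw : ‖w‖ < RC θ k) :
    (rt θ l : ℂ) • w ∈ ball (0 : E) 1 := rt_smul_mem D.θ0 D.θ1 hl hw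

theorem TD.diff (D : TD f δ θ) (hl : l ≤ k + 1) (hw : ‖w‖ < RC θ k) (j : Fin N) :
    DifferentiableAt ℂ (uk (f j) θ l) w :=
  (uk_diff D.θ0 D.θ1 (D.hf j) hl).differentiableAt
    (isOpen_ball.mem_nhds (mem_ball_zero_iff.mpr hw))

theorem TD.ev (_D : TD f δ θ) (hw : ‖w‖ < RC θ k) : ∀ᶠ x in 𝓝 w, ‖x‖ < RC θ k :=
  (isOpen_ball.eventually_mem (show w ∈ ball (0 : E) (RC θ k) from
    mem_ball_zero_iff.mpr hw)).mono fun _ hx => mem_ball_zero_iff.mp hx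

theorem TD.uk_le (D : TD f δ θ) (hl : l ≤ k + 1) (hw : ‖w‖ < RC θ k) (j : Fin N) :
    ‖uk (f j) θ l w‖ ≤ 1 := D.hfM j _ (D.mem hl hw)

theorem TD.qk (D : TD f δ θ) (hl : l ≤ k + 1) (hw : ‖w‖ < RC θ k) :
    δ ≤ ∑ j, ‖uk (f j) θ l w‖ ^ 2 := D.hδ _ (D.mem hl hw)

theorem TD.FF_norm (D : TD f δ θ) (hl : l ≤ k + 1) (hw : ‖w‖ < RC θ k) :
    ‖FF f θ l w‖ ≤ N := by
  have := d0_coef_norm (N := N) (a := fun j => uk (f j) θ l w) (κ := 1) fun j => D.uk_le hl hw j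
  rwa [mul_one] at this

theorem TD.FF_diff (D : TD f δ θ) (hl : l ≤ k + 1) (hw : ‖w‖ < RC θ k) :
    DifferentiableAt ℂ (FF f θ l) w := by
  unfold FF
  apply DifferentiableAt.fun_sum
  intro j _
  exact (D.diff hl hw j).smul_const _

theorem TD.FF_fderiv (D : TD f δ θ) (hl : l ≤ k + 1) (hw : ‖w‖ < RC θ k) (v : E) :
    fderiv ℂ (FF f θ l) w v = ∑ j, fderiv ℂ (uk (f j) θ l) w v •
      (ContinuousLinearMap.proj j : (Fin N → ℂ) →L[ℂ] ℂ) := by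
  have h : HasFDerivAt (FF f θ l) (∑ j, (fderiv ℂ (uk (f j) θ l) w).smulRight
      (ContinuousLinearMap.proj j : (Fin N → ℂ) →L[ℂ] ℂ)) w := by
    unfold FF
    apply HasFDerivAt.fun_sum
    intro j _
    have := (D.diff hl hw j).hasFDerivAt.smul_const
      (ContinuousLinearMap.proj j : (Fin N → ℂ) →L[ℂ] ℂ)
    exact this
  rw [h.fderiv]
  simp [sum_apply]

theorem d0_fderiv_CR {u : E → ℂ} (hu : DifferentiableAt ℂ u w) (v : E) :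
    fderiv ℝ u w v = fderiv ℂ u w v := by
  rw [hu.fderiv_restrictScalars ℝ]
  rfl

theorem TD.FF_fderiv_norm (D : TD f δ θ) (hl : l ≤ k + 1) (hw : ‖w‖ < RC θ k) {v : E} {G : ℝ}
    (hG : ∀ j, ‖fderiv ℝ (uk (f j) θ l) w v‖ ≤ G) : ‖fderiv ℂ (FF f θ l) w v‖ ≤ N * G := by
  rw [D.FF_fderiv hl hw]
  apply d0_coef_norm
  intro j
  rw [← d0_fderiv_CR (D.diff hl hw j)]
  exact hG j

variable [FiniteDimensional ℂ E]

theorem TD.uk_c2 (D : TD f δ θ) (hl : l ≤ k + 1) (hw : ‖w‖ < RC θ k) :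
    ContDiffAt ℝ 2 (fun x => fun j => uk (f j) θ l x) w := by
  apply QTXc_hol_at
  filter_upwards [D.ev hw] with x hx
  rw [differentiableAt_pi]
  exact fun j => D.diff hl hx j

theorem TD.FF_c2 (D : TD f δ θ) (hl : l ≤ k + 1) (hw : ‖w‖ < RC θ k) :
    ContDiffAt ℝ 2 (FF f θ l) w := by
  unfold FF
  apply ContDiffAt.sum
  intro j _
  exact ((contDiffAt_pi.1 (D.uk_c2 hl hw)) j).smul contDiffAt_const

/-! ### the conjugate of the data -/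

/-- the conjugate of the data -/
noncomputable def d0_cf (f : Fin N → E → ℂ) (θ : ℝ) (k : ℕ) (w : E) : Fin N → ℂ := fun j =>
  (starRingEnd ℂ) (uk (f j) θ k w)

omit [FiniteDimensional ℂ E] in
theorem d0_FF_cf (f : Fin N → E → ℂ) (θ : ℝ) (k : ℕ) (w : E) :
    FF f θ k w (d0_cf f θ k w) = ((∑ l, ‖uk (f l) θ k w‖ ^ 2 : ℝ) : ℂ) := by
  rw [d0_FF_apply]
  push_cast
  refine Finset.sum_congr rfl fun j _ => ?_
  unfold d0_cf
  rw [Complex.mul_conj']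

omit [FiniteDimensional ℂ E] in
theorem d0_s0_eq (f : Fin N → E → ℂ) (θ : ℝ) (k : ℕ) : s0 f θ k = shp (FF f θ k) (d0_cf f θ k) := by
  funext w
  unfold shp
  rw [d0_FF_cf]
  funext j
  unfold s0 d0_cf
  simp only [Pi.smul_apply, smul_eq_mul]
  rw [div_eq_inv_mul]

omit [FiniteDimensional ℂ E] in
theorem d0_s1_eq (f : Fin N → E → ℂ) (θ : ℝ) (k : ℕ) :
    s1 f θ k = shp (FF f θ (k + 1)) (s0 f θ k) := rfl

theorem TD.cf_c2 (D : TD f δ θ) (hl : l ≤ k + 1) (hw : ‖w‖ < RC θ k) :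
    ContDiffAt ℝ 2 (d0_cf f θ l) w := by
  unfold d0_cf
  rw [contDiffAt_pi]
  intro j
  exact (Complex.conjCLE : ℂ →L[ℝ] ℂ).contDiff.contDiffAt.comp w
    ((contDiffAt_pi.1 (D.uk_c2 hl hw)) j)

omit [FiniteDimensional ℂ E] in
theorem TD.cf_fderiv (D : TD f δ θ) (hl : l ≤ k + 1) (hw : ‖w‖ < RC θ k) (v : E) (j : Fin N) :
    fderiv ℝ (d0_cf f θ l) w v j = (starRingEnd ℂ) (fderiv ℂ (uk (f j) θ l) w v) := by
  have h : HasFDerivAt (d0_cf f θ l) (ContinuousLinearMap.pi fun j =>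
      (Complex.conjCLE : ℂ →L[ℝ] ℂ).comp ((fderiv ℂ (uk (f j) θ l) w).restrictScalars ℝ)) w := by
    unfold d0_cf
    rw [hasFDerivAt_pi]
    intro j
    exact (Complex.conjCLE : ℂ →L[ℝ] ℂ).hasFDerivAt.comp w
      ((D.diff hl hw j).hasFDerivAt.restrictScalars ℝ)
  rw [h.fderiv]
  rfl

omit [FiniteDimensional ℂ E] in
theorem TD.cf_D01 (D : TD f δ θ) (hl : l ≤ k + 1) (hw : ‖w‖ < RC θ k) (v : E) (j : Fin N) :
    D01 (d0_cf f θ l) w v j = (starRingEnd ℂ) (fderiv ℂ (uk (f j) θ l) w v) := by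
  rw [D01_apply]
  simp only [Pi.smul_apply, Pi.add_apply, smul_eq_mul, D.cf_fderiv hl hw, map_smul, map_mul,
    Complex.conj_I]
  have hI : Complex.I * Complex.I = -1 := Complex.I_mul_I
  linear_combination (-(2⁻¹ : ℂ) * (starRingEnd ℂ) (fderiv ℂ (uk (f j) θ l) w v)) * hI

omit [FiniteDimensional ℂ E] in
theorem TD.cf_D10 (D : TD f δ θ) (hl : l ≤ k + 1) (hw : ‖w‖ < RC θ k) (v : E) :
    D10 (d0_cf f θ l) w v = 0 := by
  funext j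
  rw [D10]
  simp only [Pi.smul_apply, Pi.sub_apply, smul_eq_mul, D.cf_fderiv hl hw, map_smul, map_mul,
    Complex.conj_I, Pi.zero_apply]
  have hI : Complex.I * Complex.I = -1 := Complex.I_mul_I
  linear_combination ((2⁻¹ : ℂ) * (starRingEnd ℂ) (fderiv ℂ (uk (f j) θ l) w v)) * hI

omit [FiniteDimensional ℂ E] in
theorem TD.cf_ne (D : TD f δ θ) (hl : l ≤ k + 1) (hw : ‖w‖ < RC θ k) :
    FF f θ l w (d0_cf f θ l w) ≠ 0 := by
  rw [d0_FF_cf]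
  have := D.qk hl hw
  have := D.δ0
  exact_mod_cast (show (0 : ℝ) < ∑ j, ‖uk (f j) θ l w‖ ^ 2 by linarith).ne'

theorem TD.sol0 (D : TD f δ θ) (hl : l ≤ k + 1) (hw : ‖w‖ < RC θ k) :
    SolAt (s0 f θ l) (FF f θ l) w := by
  rw [d0_s0_eq]
  exact shp_sol (D.cf_c2 hl hw) (D.FF_c2 hl hw) (D.FF_diff hl hw) (D.cf_ne hl hw)

omit [FiniteDimensional ℂ E] in
theorem TD.small_ne (D : TD f δ θ) (hw : ‖w‖ < RC θ (k + 1)) :
    FF f θ (k + 1) w (s0 f θ k w) ≠ 0 ∧ 1 / 2 ≤ ‖FF f θ (k + 1) w (s0 f θ k w)‖ := by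
  have h1 := D.small k w hw
  have h2 := norm_sub_norm_le (1 : ℂ) (1 - FF f θ (k + 1) w (s0 f θ k w))
  rw [norm_one, sub_sub_cancel, norm_sub_rev] at h2
  have h3 : 1 / 2 ≤ ‖FF f θ (k + 1) w (s0 f θ k w)‖ := by linarith
  refine ⟨fun h => ?_, h3⟩
  rw [h, norm_zero] at h3
  linarith

omit [InnerProductSpace ℂ E] [FiniteDimensional ℂ E] in
theorem d0_TS_RC_le {θ : ℝ} (h0 : 0 < θ) (h1 : θ < 1) (k : ℕ) : RC θ (k + 1) ≤ RC θ k := by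
  unfold RC
  have : θ ^ (k + 1 + 1) ≤ θ ^ (k + 1) := pow_le_pow_of_le_one h0.le h1.le (by omega)
  linarith

theorem TD.sol1 (D : TD f δ θ) (hw : ‖w‖ < RC θ (k + 1)) :
    SolAt (s1 f θ k) (FF f θ (k + 1)) w := by
  have hw' := hw.trans_le (d0_TS_RC_le D.θ0 D.θ1 k)
  rw [d0_s1_eq]
  exact shp_sol (D.sol0 (by omega) hw').c2 (D.FF_c2 le_rfl hw') (D.FF_diff le_rfl hw')
    (D.small_ne hw).1

/-! ### bounds -/

omit [FiniteDimensional ℂ E] in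
theorem TD.s0_norm (D : TD f δ θ) (hl : l ≤ k + 1) (hw : ‖w‖ < RC θ k) :
    ‖s0 f θ l w‖ ≤ δ⁻¹ := by
  have hq := D.qk hl hw
  have hδ := D.δ0
  rw [pi_norm_le_iff_of_nonneg (by positivity)]
  intro j
  unfold s0
  rw [norm_div, RCLike.norm_conj, Complex.norm_real, Real.norm_of_nonneg (by positivity)]
  calc ‖uk (f j) θ l w‖ / ∑ l_1, ‖uk (f l_1) θ l w‖ ^ 2 ≤ 1 / δ := by
        gcongr
        exact D.uk_le hl hw j
    _ = δ⁻¹ := one_div δ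

omit [FiniteDimensional ℂ E] in
theorem TD.s1_norm (D : TD f δ θ) (hw : ‖w‖ < RC θ (k + 1)) : ‖s1 f θ k w‖ ≤ 2 * δ⁻¹ := by
  have hw' := hw.trans_le (d0_TS_RC_le D.θ0 D.θ1 k)
  obtain ⟨h1, h2⟩ := D.small_ne hw
  have h3 := D.s0_norm (l := k) (by omega) hw'
  have h5 : ‖(FF f θ (k + 1) w (s0 f θ k w))⁻¹‖ ≤ 2 := by
    rw [norm_inv]
    calc ‖FF f θ (k + 1) w (s0 f θ k w)‖⁻¹ ≤ (1 / 2)⁻¹ := by gcongr
      _ = 2 := by norm_num
  unfold s1 gk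
  rw [norm_smul]
  exact mul_le_mul h5 h3 (norm_nonneg _) (by norm_num)

/-- the conjugate derivative of the smooth solution -/
theorem TD.s0_D01 (D : TD f δ θ) (hl : l ≤ k + 1) (hw : ‖w‖ < RC θ k) {v : E} {G : ℝ}
    (hG : ∀ j, ‖fderiv ℝ (uk (f j) θ l) w v‖ ≤ G) (hG0 : 0 ≤ G) :
    ‖D01 (s0 f θ l) w v‖ ≤ (δ⁻¹ + N * δ⁻¹ ^ 2) * G := by
  have hδ := D.δ0
  have hq := D.qk hl hw
  have hc := (D.cf_c2 hl hw).differentiableAt (by norm_num)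
  have h0 : ‖D01 (d0_cf f θ l) w v‖ ≤ G := by
    rw [pi_norm_le_iff_of_nonneg hG0]
    intro j
    rw [D.cf_D01 hl hw, RCLike.norm_conj, ← d0_fderiv_CR (D.diff hl hw j)]
    exact hG j
  have h1 : ‖FF f θ l w (D01 (d0_cf f θ l) w v)‖ ≤ N * G :=
    ((FF f θ l w).le_opNorm _).trans
      (mul_le_mul (D.FF_norm hl hw) h0 (norm_nonneg _) (Nat.cast_nonneg N))
  have hcn : ‖d0_cf f θ l w‖ ≤ 1 := by
    rw [pi_norm_le_iff_of_nonneg zero_le_one]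
    intro j
    unfold d0_cf
    rw [RCLike.norm_conj]
    exact D.uk_le hl hw j
  have h2 : ‖(FF f θ l w (d0_cf f θ l w))⁻¹‖ ≤ δ⁻¹ := by
    rw [d0_FF_cf, norm_inv, Complex.norm_real, Real.norm_of_nonneg (by positivity)]
    gcongr
  rw [d0_s0_eq, shp_D01 (D.FF_diff hl hw) hc (D.cf_ne hl hw)]
  refine (norm_sub_le _ _).trans ?_
  have e : FF f θ l w (D01 (d0_cf f θ l) w v) / FF f θ l w (d0_cf f θ l w) ^ 2 =
      FF f θ l w (D01 (d0_cf f θ l) w v) * ((FF f θ l w (d0_cf f θ l w))⁻¹) ^ 2 := by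
    rw [div_eq_mul_inv, inv_pow]
  rw [e, norm_smul, norm_smul, norm_mul, norm_pow]
  calc ‖(FF f θ l w (d0_cf f θ l w))⁻¹‖ * ‖D01 (d0_cf f θ l) w v‖ +
        ‖FF f θ l w (D01 (d0_cf f θ l) w v)‖ * ‖(FF f θ l w (d0_cf f θ l w))⁻¹‖ ^ 2 * ‖d0_cf f θ l w‖
      ≤ δ⁻¹ * G + (N * G) * δ⁻¹ ^ 2 * 1 := by gcongr
    _ = (δ⁻¹ + N * δ⁻¹ ^ 2) * G := by ring

/-- the logarithmic derivatives -/
theorem TD.s0_D10 (D : TD f δ θ) (hl : l ≤ k + 1) (hw : ‖w‖ < RC θ k) (v : E) :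
    D10 (s0 f θ l) w v = -(fderiv ℂ (FF f θ l) w v (s0 f θ l w)) • s0 f θ l w := by
  have hc := (D.cf_c2 hl hw).differentiableAt (by norm_num)
  rw [d0_s0_eq]
  exact D10_shp (D.FF_diff hl hw) hc (D.cf_ne hl hw) v (α := 0) (by
    rw [D.cf_D10 hl hw, zero_smul])

theorem TD.s1_D10 (D : TD f δ θ) (hw : ‖w‖ < RC θ (k + 1)) (v : E) :
    D10 (s1 f θ k) w v = -(fderiv ℂ (FF f θ (k + 1)) w v (s1 f θ k w)) • s1 f θ k w := by
  have hw' := hw.trans_le (d0_TS_RC_le D.θ0 D.θ1 k)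
  rw [d0_s1_eq]
  exact D10_shp (D.FF_diff le_rfl hw') ((D.sol0 (by omega) hw').c2.differentiableAt (by norm_num))
    (D.small_ne hw).1 v (D.s0_D10 (by omega) hw' v)

omit [FiniteDimensional ℂ E] in
/-- the difference of the smooth solutions -/
theorem TD.s0_sub (D : TD f δ θ) (hw : ‖w‖ < RC θ (k + 1)) {κ : ℝ}
    (hκ : ∀ j, ‖uk (f j) θ (k + 1) w - uk (f j) θ k w‖ ≤ κ) (hκ0 : 0 ≤ κ) :
    ‖s0 f θ (k + 1) w - s0 f θ k w‖ ≤ (δ⁻¹ + 2 * N * δ⁻¹ ^ 2) * κ := by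
  have hw' := hw.trans_le (d0_TS_RC_le D.θ0 D.θ1 k)
  have hδ := D.δ0
  set q : ℝ := ∑ l, ‖uk (f l) θ k w‖ ^ 2 with hq
  set q' : ℝ := ∑ l, ‖uk (f l) θ (k + 1) w‖ ^ 2 with hq'
  have h1 : δ ≤ q := D.qk (l := k) (by omega) hw'
  have h2 : δ ≤ q' := D.qk (l := k + 1) le_rfl hw'
  have hqq : |q - q'| ≤ N * (2 * κ) := by
    rw [hq, hq', ← Finset.sum_sub_distrib]
    refine (Finset.abs_sum_le_sum_abs _ _).trans ?_
    have : ∀ j ∈ Finset.univ, |‖uk (f j) θ k w‖ ^ 2 - ‖uk (f j) θ (k + 1) w‖ ^ 2| ≤ 2 * κ := by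
      intro j _
      have a1 := D.uk_le (l := k) (by omega) hw' j
      have a2 := D.uk_le (l := k + 1) le_rfl hw' j
      have a3 := abs_norm_sub_norm_le (uk (f j) θ k w) (uk (f j) θ (k + 1) w)
      rw [norm_sub_rev] at a3
      have a4 : ‖uk (f j) θ k w‖ ^ 2 - ‖uk (f j) θ (k + 1) w‖ ^ 2 =
          (‖uk (f j) θ k w‖ - ‖uk (f j) θ (k + 1) w‖) *
            (‖uk (f j) θ k w‖ + ‖uk (f j) θ (k + 1) w‖) := by ring
      rw [a4, abs_mul]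
      have a5 : |‖uk (f j) θ k w‖ + ‖uk (f j) θ (k + 1) w‖| ≤ 2 := by
        rw [abs_of_nonneg (by positivity)]
        linarith
      calc _ ≤ κ * 2 := mul_le_mul (a3.trans (hκ j)) a5 (abs_nonneg _) hκ0
        _ = 2 * κ := by ring
    refine (Finset.sum_le_sum this).trans ?_
    rw [Finset.sum_const, Finset.card_univ, Fintype.card_fin, nsmul_eq_mul]
  rw [pi_norm_le_iff_of_nonneg (by positivity)]
  intro j
  have e : (s0 f θ (k + 1) w - s0 f θ k w) j =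
      (starRingEnd ℂ) (uk (f j) θ (k + 1) w - uk (f j) θ k w) / (q' : ℂ) +
        (starRingEnd ℂ) (uk (f j) θ k w) * (((q - q') : ℝ) : ℂ) / ((q : ℂ) * (q' : ℂ)) := by
    have hqc : (q : ℂ) ≠ 0 := by exact_mod_cast (by linarith : (0 : ℝ) < q).ne'
    have hqc' : (q' : ℂ) ≠ 0 := by exact_mod_cast (by linarith : (0 : ℝ) < q').ne'
    have : (s0 f θ (k + 1) w - s0 f θ k w) j = (starRingEnd ℂ) (uk (f j) θ (k + 1) w) / (q' : ℂ) -
        (starRingEnd ℂ) (uk (f j) θ k w) / (q : ℂ) := rfl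
    rw [this, map_sub]
    push_cast
    field_simp
    ring
  have hq0 : 0 < q := by linarith
  have hq0' : 0 < q' := by linarith
  rw [e]
  refine (norm_add_le _ _).trans ?_
  rw [norm_div, norm_div, norm_mul, norm_mul, RCLike.norm_conj, RCLike.norm_conj,
    Complex.norm_real, Complex.norm_real, Complex.norm_real, Real.norm_of_nonneg hq0.le,
    Real.norm_of_nonneg hq0'.le, Real.norm_eq_abs]
  have a1 := D.uk_le (l := k) (by omega) hw' j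
  calc ‖uk (f j) θ (k + 1) w - uk (f j) θ k w‖ / q' + ‖uk (f j) θ k w‖ * |q - q'| / (q * q')
      ≤ κ / δ + 1 * (N * (2 * κ)) / (δ * δ) := by
        gcongr
        exact hκ j
    _ = (δ⁻¹ + 2 * N * δ⁻¹ ^ 2) * κ := by field_simp

omit [FiniteDimensional ℂ E] in
theorem TD.FF_sub (_D : TD f δ θ) {κ : ℝ}
    (hκ : ∀ j, ‖uk (f j) θ (k + 1) w - uk (f j) θ k w‖ ≤ κ) :
    ‖FF f θ (k + 1) w - FF f θ k w‖ ≤ N * κ := by
  have e : FF f θ (k + 1) w - FF f θ k w = ∑ j, (uk (f j) θ (k + 1) w - uk (f j) θ k w) •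
      (ContinuousLinearMap.proj j : (Fin N → ℂ) →L[ℂ] ℂ) := by
    unfold FF
    rw [← Finset.sum_sub_distrib]
    exact Finset.sum_congr rfl fun j _ => (sub_smul _ _ _).symm
  rw [e]
  exact d0_coef_norm hκ

/-- the transported solution is near -/
theorem TD.s1_sub (D : TD f δ θ) (hw : ‖w‖ < RC θ (k + 1)) {κ : ℝ}
    (hκ : ∀ j, ‖uk (f j) θ (k + 1) w - uk (f j) θ k w‖ ≤ κ) (hκ0 : 0 ≤ κ) :
    ‖s1 f θ k w - s0 f θ k w‖ ≤ 2 * (N * κ * δ⁻¹) * δ⁻¹ := by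
  have hw' := hw.trans_le (d0_TS_RC_le D.θ0 D.θ1 k)
  have hδ := D.δ0
  obtain ⟨h1, h2⟩ := D.small_ne hw
  have h3 := D.s0_norm (l := k) (by omega) hw'
  have hone := (D.sol0 (l := k) (by omega) hw').one
  have h5 : ‖(FF f θ (k + 1) w (s0 f θ k w))⁻¹‖ ≤ 2 := by
    rw [norm_inv]
    calc ‖FF f θ (k + 1) w (s0 f θ k w)‖⁻¹ ≤ (1 / 2)⁻¹ := by gcongr
      _ = 2 := by norm_num
  have h6 : ‖FF f θ (k + 1) w (s0 f θ k w) - 1‖ ≤ N * κ * δ⁻¹ := by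
    rw [← hone]
    calc ‖FF f θ (k + 1) w (s0 f θ k w) - FF f θ k w (s0 f θ k w)‖
        = ‖(FF f θ (k + 1) w - FF f θ k w) (s0 f θ k w)‖ := by rw [sub_apply]
      _ ≤ ‖FF f θ (k + 1) w - FF f θ k w‖ * ‖s0 f θ k w‖ := ContinuousLinearMap.le_opNorm _ _
      _ ≤ N * κ * δ⁻¹ := mul_le_mul (D.FF_sub hκ) h3 (norm_nonneg _) (by positivity)
  have e : s1 f θ k w - s0 f θ k w = ((FF f θ (k + 1) w (s0 f θ k w))⁻¹ *
      (1 - FF f θ (k + 1) w (s0 f θ k w))) • s0 f θ k w := by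
    unfold s1 gk
    rw [mul_sub, mul_one, inv_mul_cancel₀ h1, sub_smul, one_smul]
  rw [e, norm_smul, norm_mul, norm_sub_rev]
  calc ‖(FF f θ (k + 1) w (s0 f θ k w))⁻¹‖ * ‖FF f θ (k + 1) w (s0 f θ k w) - 1‖ * ‖s0 f θ k w‖
      ≤ 2 * (N * κ * δ⁻¹) * δ⁻¹ := by gcongr

end Pool.Agent.MPca0fc2.TS
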