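import Mathlib
import Pool.Agent.Lib.MP_ca0fc2_an.Mg.G015
import Pool.Agent.Lib.MP_ca0fc2_an.Mg.G122
import Pool.Agent.Lib.MP_ca0fc2_an.TS.S0
import Pool.Agent.Lib.MP_ca0fc2_an.TS.AgeS
import Pool.Agent.Lib.MP_ca0fc2_an.TS.DJ
import Pool.Agent.Lib.MP_ca0fc2_an.TS.DbN

set_option autoImplicit false

open Metric Set MeasureTheory Filter Topology
open scoped InnerProductSpace ENNReal

/-! # The bounds in degree zero -/

namespace Pool.Agent.MPca0fc2.TS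

open Pool.Agent.MPca0fc2.PT Pool.Agent.MPca0fc2.QT

variable {E : Type*} [NormedAddCommGroup E] [InnerProductSpace ℂ E]

/-- facts on the potentials -/
structure Pot [MeasurableSpace E] (ν : Measure E) (M : ℕ) (θ c₀ C : ℝ) : Prop where
  c1 : ∀ k, ContDiffOn ℝ 1 (Ik ν M θ k) (ball 0 (RC θ k))
  fd : ∀ (k : ℕ) (w v : E), ‖w‖ < RC θ k →
    |fderiv ℝ (Ik ν M θ k) w v| ≤ C * Ik ν M θ k w * gau (dl θ k w) w v
  le : ∀ (j k : ℕ) (w : E), j ≤ k → ‖w‖ < RC θ k → Ik ν M θ j w ≤ C * Ik ν M θ k w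
  har : ∀ (k : ℕ) (R : ℝ) (w z : E), 1 ≤ R → R ≤ RC θ k → ‖z‖ + c₀ * θ ^ k ≤ R → ‖w‖ < R →
    Uk ν M θ k w ≤ C * Uk ν M θ k z *
      (‖((R ^ 2 : ℝ) : ℂ) - ⟪w, z⟫_ℂ‖ / (R ^ 2 - ‖w‖ ^ 2)) ^ (M + 3) *
        Real.sqrt ((R ^ 2 - ‖z‖ ^ 2) / ‖((R ^ 2 : ℝ) : ℂ) - ⟪w, z⟫_ℂ‖)

section pots

variable [MeasurableSpace E] {ν : Measure E} {M : ℕ} {θ c₀ C : ℝ} {k : ℕ} {w : E}

theorem d0_Ik_nonneg (ν : Measure E) (M : ℕ) (θ : ℝ) (k : ℕ) (w : E) : 0 ≤ Ik ν M θ k w := by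
  unfold Ik PP
  exact integral_nonneg fun x => Real.rpow_nonneg (norm_nonneg _) _

theorem d0_Wk_nonneg (h0 : 0 < θ) (h1 : θ < 1) (hw : ‖w‖ < RC θ k) : 0 ≤ Wk ν M θ k w := by
  unfold Wk
  exact mul_nonneg (Real.rpow_nonneg (dl_pos h0 h1 hw).le _) (d0_Ik_nonneg _ _ _ _ _)

theorem d0_Uk_nonneg (h0 : 0 < θ) (h1 : θ < 1) (hw : ‖w‖ < RC θ k) : 0 ≤ Uk ν M θ k w := by
  unfold Uk
  exact mul_nonneg (xk_pos h0 h1 hw).le (d0_Wk_nonneg h0 h1 hw)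

theorem d0_ek_nonneg (h0 : 0 < θ) : 0 ≤ ek ν M θ k w := by
  unfold ek
  exact mul_nonneg (Real.rpow_nonneg (by positivity) _) (d0_Ik_nonneg _ _ _ _ _)

theorem d0_ek_eq (h0 : 0 < θ) (h1 : θ < 1) (hw : ‖w‖ < RC θ k) :
    ek ν M θ k w = xk θ k w ^ (1 / 4 : ℝ) * Wk ν M θ k w := by
  have hd := dl_pos h0 h1 hw
  have hx := xk_pos h0 h1 hw
  have e : xk θ k w * dl θ k w = θ ^ k := by
    unfold xk
    field_simp
  unfold ek Wk
  rw [← e, Real.mul_rpow hx.le hd.le]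
  ring

theorem d0_Uk_le_ek (h0 : 0 < θ) (h1 : θ < 1) (hw : ‖w‖ < RC θ k) :
    Uk ν M θ k w ≤ 4 * ek ν M θ k w := by
  have hx := xk_pos h0 h1 hw
  have hx4 := xk_le h0 h1 hw
  rw [d0_ek_eq h0 h1 hw]
  unfold Uk
  have e : xk θ k w = xk θ k w ^ (3 / 4 : ℝ) * xk θ k w ^ (1 / 4 : ℝ) := by
    rw [← Real.rpow_add hx]; norm_num
  have h3 : xk θ k w ^ (3 / 4 : ℝ) ≤ 4 := by
    calc xk θ k w ^ (3 / 4 : ℝ) ≤ (4 : ℝ) ^ (3 / 4 : ℝ) :=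
          Real.rpow_le_rpow hx.le hx4 (by norm_num)
      _ ≤ (4 : ℝ) ^ (1 : ℝ) := Real.rpow_le_rpow_of_exponent_le (by norm_num) (by norm_num)
      _ = 4 := by norm_num
  have hW := d0_Wk_nonneg (ν := ν) (M := M) h0 h1 hw
  calc xk θ k w * Wk ν M θ k w
      = xk θ k w ^ (3 / 4 : ℝ) * (xk θ k w ^ (1 / 4 : ℝ) * Wk ν M θ k w) := by
        rw [← mul_assoc, ← e]
    _ ≤ 4 * (xk θ k w ^ (1 / 4 : ℝ) * Wk ν M θ k w) := by gcongr

/-- the derivative of the increments -/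
theorem Pot.ek_fd (P : Pot ν M θ c₀ C) (h0 : 0 < θ) (hw : ‖w‖ < RC θ k) (v : E) :
    |fderiv ℝ (ek ν M θ k) w v| ≤ C * ek ν M θ k w * gau (dl θ k w) w v := by
  have hd : DifferentiableAt ℝ (Ik ν M θ k) w :=
    ((P.c1 k).differentiableOn one_ne_zero).differentiableAt
      (isOpen_ball.mem_nhds (mem_ball_zero_iff.mpr hw))
  have h1 : HasFDerivAt (ek ν M θ k) ((θ ^ k) ^ (1 / 4 : ℝ) • fderiv ℝ (Ik ν M θ k) w) w := by
    unfold ek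
    exact hd.hasFDerivAt.const_mul _
  rw [h1.fderiv, smul_apply, smul_eq_mul, abs_mul,
    abs_of_nonneg (Real.rpow_nonneg (by positivity) _)]
  have h2 := P.fd k w v hw
  have h3 : (0 : ℝ) ≤ (θ ^ k) ^ (1 / 4 : ℝ) := Real.rpow_nonneg (by positivity) _
  calc (θ ^ k) ^ (1 / 4 : ℝ) * |fderiv ℝ (Ik ν M θ k) w v|
      ≤ (θ ^ k) ^ (1 / 4 : ℝ) * (C * Ik ν M θ k w * gau (dl θ k w) w v) := by gcongr
    _ = C * ek ν M θ k w * gau (dl θ k w) w v := by unfold ek; ring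

theorem Pot.ek_c1 (P : Pot ν M θ c₀ C) : ContDiffOn ℝ 1 (ek ν M θ k) (ball 0 (RC θ k)) := by
  unfold ek
  exact contDiffOn_const.mul (P.c1 k)

/-- the barrier -/
noncomputable def d0_BB0 (ν : Measure E) (M : ℕ) (θ B₀ C₁ : ℝ) (k : ℕ) (w : E) : ℝ :=
  B₀ + C₁ * ∑ j ∈ Finset.range k, ek ν M θ j w

theorem d0_BB0_ge {B₀ C₁ : ℝ} (h0 : 0 < θ) (hC : 0 ≤ C₁) (w : E) :
    B₀ ≤ d0_BB0 ν M θ B₀ C₁ k w := by
  unfold d0_BB0
  have : 0 ≤ ∑ j ∈ Finset.range k, ek ν M θ j w := Finset.sum_nonneg fun j _ => d0_ek_nonneg h0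
  have := mul_nonneg hC this
  linarith

theorem d0_BB0_succ {B₀ C₁ : ℝ} (w : E) :
    d0_BB0 ν M θ B₀ C₁ (k + 1) w = d0_BB0 ν M θ B₀ C₁ k w + C₁ * ek ν M θ k w := by
  unfold d0_BB0
  rw [Finset.sum_range_succ]
  ring

theorem Pot.BB0_c1 (P : Pot ν M θ c₀ C) (h0 : 0 < θ) (h1 : θ < 1) (B₀ C₁ : ℝ) :
    ContDiffOn ℝ 1 (d0_BB0 ν M θ B₀ C₁ k) (ball 0 (RC θ k)) := by
  unfold d0_BB0
  apply contDiffOn_const.add
  apply contDiffOn_const.mul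
  apply ContDiffOn.sum
  intro j hj
  have : j < k := Finset.mem_range.1 hj
  exact P.ek_c1.mono (ball_subset_ball (RC_anti h0 h1 (by omega)))

/-- the derivative of the barrier -/
theorem d0_BB0_fd (h0 : 0 < θ) (h1 : θ < 1) (hC : 0 ≤ C) : ∃ D : ℝ, 0 < D ∧
    ∀ (ν : Measure E) (M : ℕ) (c₀ : ℝ), Pot ν M θ c₀ C → ∀ (B₀ C₁ : ℝ), 0 ≤ C₁ →
      ∀ (k : ℕ) (w : E), ‖w‖ < RC θ k → ∀ v : E,
        |fderiv ℝ (d0_BB0 ν M θ B₀ C₁ k) w v| ≤ C₁ * (D * Wk ν M θ k w) * gau (dl θ k w) w v := by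
  obtain ⟨D, hD, hage⟩ := age_sum (E := E) (θ := θ) (a := 1 / 4) (b := 1 / 4) h0 h1
    (by norm_num) (by norm_num)
  refine ⟨C * C * D + 1, by positivity, ?_⟩
  intro ν M c₀ P B₀ C₁ hC₁ k w hw v
  have hdk := dl_pos h0 h1 hw
  have hg : 0 ≤ gau (dl θ k w) w v := PT.gau_nonneg hdk.le w v
  have hd : ∀ j ∈ Finset.range k, DifferentiableAt ℝ (ek ν M θ j) w := by
    intro j hj
    have hj' : j < k := Finset.mem_range.1 hj
    exact (P.ek_c1.differentiableOn one_ne_zero).differentiableAt (isOpen_ball.mem_nhds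
      (mem_ball_zero_iff.mpr (hw.trans_le (RC_anti h0 h1 (by omega)))))
  have h2 : HasFDerivAt (d0_BB0 ν M θ B₀ C₁ k)
      (C₁ • ∑ j ∈ Finset.range k, fderiv ℝ (ek ν M θ j) w) w := by
    unfold d0_BB0
    exact ((HasFDerivAt.fun_sum fun j hj => (hd j hj).hasFDerivAt).const_mul C₁).const_add B₀
  rw [h2.fderiv, smul_apply, smul_eq_mul, abs_mul, abs_of_nonneg hC₁, sum_apply]
  have hterm : ∀ j ∈ Finset.range k, |fderiv ℝ (ek ν M θ j) w v| ≤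
      C * C * (Wk ν M θ k w) * gau (dl θ k w) w v *
        (xk θ j w ^ (1 / 4 : ℝ) * (dl θ k w / dl θ j w) ^ (1 / 4 : ℝ)) := by
    intro j hj
    have hj' : j < k := Finset.mem_range.1 hj
    have hwj : ‖w‖ < RC θ j := hw.trans_le (RC_anti h0 h1 hj'.le)
    have hdj := dl_pos h0 h1 hwj
    have hdd : dl θ k w ≤ dl θ j w := dl_anti h0 h1 hj'.le w
    have hxj := xk_pos h0 h1 hwj
    have hI := P.le j k w hj'.le hw
    have hga := gau_anti hdk hdd w v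
    have hIk := d0_Ik_nonneg ν M θ k w
    obtain ⟨ρ, hρ⟩ : ∃ ρ : ℝ, ρ = dl θ k w / dl θ j w := ⟨_, rfl⟩
    have hρ0 : 0 < ρ := by rw [hρ]; positivity
    have hdk' : dl θ k w = ρ * dl θ j w := by rw [hρ]; field_simp
    rw [← hρ] at hga ⊢
    have e1 : dl θ j w ^ (1 / 4 : ℝ) * Real.sqrt ρ = dl θ k w ^ (1 / 4 : ℝ) * ρ ^ (1 / 4 : ℝ) := by
      rw [hdk', Real.mul_rpow hρ0.le hdj.le, Real.sqrt_eq_rpow]
      have : ρ ^ (1 / 2 : ℝ) = ρ ^ (1 / 4 : ℝ) * ρ ^ (1 / 4 : ℝ) := by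
        rw [← Real.rpow_add hρ0]; norm_num
      rw [this]
      ring
    have hek : ek ν M θ j w ≤ xk θ j w ^ (1 / 4 : ℝ) *
        (dl θ j w ^ (1 / 4 : ℝ) * (C * Ik ν M θ k w)) := by
      rw [d0_ek_eq h0 h1 hwj]
      unfold Wk
      gcongr
    have hekn : 0 ≤ ek ν M θ j w := d0_ek_nonneg h0
    calc |fderiv ℝ (ek ν M θ j) w v| ≤ C * ek ν M θ j w * gau (dl θ j w) w v := P.ek_fd h0 hwj v
      _ ≤ C * (xk θ j w ^ (1 / 4 : ℝ) * (dl θ j w ^ (1 / 4 : ℝ) * (C * Ik ν M θ k w))) *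
          (Real.sqrt ρ * gau (dl θ k w) w v) := by
          apply mul_le_mul _ hga (PT.gau_nonneg hdj.le w v) (by positivity)
          gcongr
      _ = C * C * (xk θ j w ^ (1 / 4 : ℝ)) * Ik ν M θ k w * gau (dl θ k w) w v *
          (dl θ j w ^ (1 / 4 : ℝ) * Real.sqrt ρ) := by ring
      _ = _ := by
          rw [e1]
          unfold Wk
          ring
  have hsum := (Finset.abs_sum_le_sum_abs (fun j => fderiv ℝ (ek ν M θ j) w v)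
    (Finset.range k)).trans (Finset.sum_le_sum hterm)
  rw [← Finset.mul_sum] at hsum
  have hW := d0_Wk_nonneg (ν := ν) (M := M) h0 h1 hw
  have h5 : ∑ j ∈ Finset.range k, (xk θ j w ^ (1 / 4 : ℝ) *
      (dl θ k w / dl θ j w) ^ (1 / 4 : ℝ)) ≤ D := by
    refine le_trans ?_ (hage k w hw)
    rw [Finset.sum_range_succ]
    have : 0 ≤ xk θ k w ^ (1 / 4 : ℝ) * (dl θ k w / dl θ k w) ^ (1 / 4 : ℝ) := by
      have := xk_pos h0 h1 hw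
      positivity
    linarith
  calc C₁ * |∑ j ∈ Finset.range k, fderiv ℝ (ek ν M θ j) w v|
      ≤ C₁ * (C * C * (Wk ν M θ k w) * gau (dl θ k w) w v * D) := by
        apply mul_le_mul_of_nonneg_left (hsum.trans _) hC₁
        exact mul_le_mul_of_nonneg_left h5 (by positivity)
    _ ≤ C₁ * ((C * C * D + 1) * Wk ν M θ k w) * gau (dl θ k w) w v := by
        have : 0 ≤ C₁ * (Wk ν M θ k w) * gau (dl θ k w) w v := by positivity
        nlinarith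

end pots

end Pool.Agent.MPca0fc2.TS
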