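import Mathlib
import Pool.Agent.Lib.MP_ca0fc2_an.Mg.G015
import Pool.Agent.Lib.MP_ca0fc2_an.Mg.G122
import Pool.Agent.Lib.MP_ca0fc2_an.TS.S0
import Pool.Agent.Lib.MP_ca0fc2_an.TS.Bd0
import Pool.Agent.Lib.MP_ca0fc2_an.TS.Zero
import Pool.Agent.Lib.MP_ca0fc2_an.QTX5

set_option autoImplicit false

open Metric Set MeasureTheory Filter Topology
open scoped InnerProductSpace ENNReal

/-! # The bounds of the first order term and of the equation in degree zero -/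

namespace Pool.Agent.MPca0fc2.TS

open Pool.Agent.MPca0fc2.PT Pool.Agent.MPca0fc2.QT

variable {E : Type*} [NormedAddCommGroup E] [InnerProductSpace ℂ E] [FiniteDimensional ℂ E]
variable [MeasurableSpace E]
variable {V : Type*} [NormedAddCommGroup V] [NormedSpace ℂ V]

/-- the first order term -/
noncomputable def d0_Jf {N : ℕ} (K : Car (Fin N → ℂ) V) (f : Fin N → E → ℂ) (θ : ℝ) (k : ℕ) (w : E) : V :=
  Jv K (s1 f θ k) (s0 f θ (k + 1)) w

omit [MeasurableSpace E] in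
theorem d0_Jf_c1 {N : ℕ} (K : Car (Fin N → ℂ) V) {f : Fin N → E → ℂ} {δ θ : ℝ} (D : TD f δ θ) {k : ℕ}
    {w : E} (hw : ‖w‖ < RC θ (k + 1)) : ContDiffAt ℝ 1 (d0_Jf K f θ k) w := by
  have hw' := hw.trans_le (d0_TS_RC_le D.θ0 D.θ1 k)
  have h1 : ContDiffAt ℝ 1 (s1 f θ k) w := (D.sol1 hw).c2.of_le (by norm_num)
  have h2 : ContDiffAt ℝ 1 (s0 f θ (k + 1)) w := (D.sol0 le_rfl hw').c2.of_le (by norm_num)
  have h3 : ContDiffAt ℝ 1 (fun w => K.a (s0 f θ (k + 1) w) K.Ω) w :=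
    ((ContinuousLinearMap.apply ℂ V K.Ω).restrictScalars ℝ).contDiff.contDiffAt.comp w
      ((K.a.restrictScalars ℝ).contDiff.contDiffAt.comp w h2)
  have h4 : ContDiffAt ℝ 1 (fun w => (K.a (s1 f θ k w)).restrictScalars ℝ) w :=
    (ContinuousLinearMap.restrictScalarsL ℂ V V ℝ ℝ).contDiff.contDiffAt.comp w
      ((K.a.restrictScalars ℝ).contDiff.contDiffAt.comp w h1)
  exact h4.clm_apply h3

/-- the minimum of the weight and `1` -/
noncomputable def d0_mW (ν : Measure E) (M : ℕ) (θ : ℝ) (k : ℕ) (w : E) : ℝ :=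
  min 1 (Real.sqrt (Wk ν M θ k w))

section mw

variable {ν : Measure E} {M : ℕ} {θ : ℝ} {k : ℕ} {w : E}

omit [FiniteDimensional ℂ E] in
theorem d0_mW_nonneg : 0 ≤ d0_mW ν M θ k w := le_min zero_le_one (Real.sqrt_nonneg _)

omit [FiniteDimensional ℂ E] in
theorem d0_mW_le_one : d0_mW ν M θ k w ≤ 1 := min_le_left _ _

omit [FiniteDimensional ℂ E] in
theorem d0_mW_sq (hW : 0 ≤ Wk ν M θ k w) : d0_mW ν M θ k w * d0_mW ν M θ k w ≤ Wk ν M θ k w := by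
  have h := min_le_right 1 (Real.sqrt (Wk ν M θ k w))
  calc d0_mW ν M θ k w * d0_mW ν M θ k w ≤ Real.sqrt (Wk ν M θ k w) * Real.sqrt (Wk ν M θ k w) :=
        mul_le_mul h h d0_mW_nonneg (Real.sqrt_nonneg _)
    _ = Wk ν M θ k w := Real.mul_self_sqrt hW

end mw

/-- the bounds of the first order term -/
theorem d0_Jf_bd {N : ℕ} (K : Car (Fin N → ℂ) V) {δ θ Cg : ℝ} (hCg : 0 ≤ Cg) (hδ : 0 < δ) :
    ∃ C : ℝ, 0 < C ∧ ∀ (f : Fin N → E → ℂ) (ν : Measure E) (M : ℕ), TD f δ θ →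
      Gd f θ ν M Cg → ∀ (k : ℕ) (w : E), ‖w‖ < RC θ (k + 1) →
        ‖d0_Jf K f θ k w‖ ≤ C * xk θ k w * d0_mW ν M θ k w ∧
        ∀ v, ‖D10 (d0_Jf K f θ k) w v‖ ≤ C * Uk ν M θ k w * gau (dl θ k w) w v := by
  obtain ⟨a, ha⟩ : ∃ a : ℝ, a = δ⁻¹ + 2 * N * δ⁻¹ ^ 2 + 2 * (N * δ⁻¹) * δ⁻¹ := ⟨_, rfl⟩
  have ha0 : 0 ≤ a := by rw [ha]; positivity
  obtain ⟨C, hC⟩ : ∃ C : ℝ, C = ‖K.a‖ * (2 * δ⁻¹) * (‖K.a‖ * (a * Cg) * ‖K.Ω‖) := ⟨_, rfl⟩
  have hC0 : 0 ≤ C := by rw [hC]; positivity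
  obtain ⟨b, hb⟩ : ∃ b : ℝ, b = 3 * N * Cg * δ⁻¹ := ⟨_, rfl⟩
  have hb0 : 0 ≤ b := by rw [hb]; positivity
  refine ⟨C + C * b + 1, by positivity, ?_⟩
  intro f ν M D G k w hw
  have h0 := D.θ0
  have h1 := D.θ1
  have hw' := hw.trans_le (d0_TS_RC_le h0 h1 k)
  have hx := xk_pos h0 h1 hw'
  have hm0 : 0 ≤ d0_mW ν M θ k w := d0_mW_nonneg
  have hW := d0_Wk_nonneg (ν := ν) (M := M) h0 h1 hw'
  have hκ : ∀ j, ‖uk (f j) θ (k + 1) w - uk (f j) θ k w‖ ≤ Cg * xk θ k w * d0_mW ν M θ k w :=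
    fun j => G.df j k w hw
  have hκ0 : 0 ≤ Cg * xk θ k w * d0_mW ν M θ k w := by positivity
  have e1 := D.s0_sub hw hκ hκ0
  have e2 := D.s1_sub hw hκ hκ0
  have e3 : ‖s0 f θ (k + 1) w - s1 f θ k w‖ ≤ a * (Cg * xk θ k w * d0_mW ν M θ k w) := by
    calc ‖s0 f θ (k + 1) w - s1 f θ k w‖
        = ‖(s0 f θ (k + 1) w - s0 f θ k w) - (s1 f θ k w - s0 f θ k w)‖ := by congr 1; abel
      _ ≤ _ := norm_sub_le _ _
      _ ≤ _ := add_le_add e1 e2
      _ = _ := by rw [ha]; ring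
  have hs1 := D.s1_norm hw
  have hs0 := D.s0_norm (l := k + 1) le_rfl hw'
  have e4 : ‖d0_Jf K f θ k w‖ ≤ C * xk θ k w * d0_mW ν M θ k w := by
    refine (Jv_norm K hs1 e3).trans (le_of_eq ?_)
    rw [hC]
    ring
  refine ⟨e4.trans ?_, fun v => ?_⟩
  · have : 0 ≤ (C * b + 1) * xk θ k w * d0_mW ν M θ k w := by positivity
    linarith
  · have hg : 0 ≤ gau (dl θ k w) w v := PT.gau_nonneg (dl_pos h0 h1 hw').le w v
    have hF : ‖fderiv ℂ (FF f θ (k + 1)) w v‖ ≤ N * (Cg * d0_mW ν M θ k w * gau (dl θ k w) w v) :=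
      D.FF_fderiv_norm le_rfl hw' fun j => G.g1 j k w v hw
    have h2 : DifferentiableAt ℝ (s1 f θ k) w := (D.sol1 hw).c2.differentiableAt (by norm_num)
    have h3 : DifferentiableAt ℝ (s0 f θ (k + 1)) w :=
      (D.sol0 le_rfl hw').c2.differentiableAt (by norm_num)
    have e5 : D10 (d0_Jf K f θ k) w v = _ := Jv_D10 K h2 h3 v (D.s1_D10 hw v) (D.s0_D10 le_rfl hw' v)
    have e6 : ‖-(fderiv ℂ (FF f θ (k + 1)) w v (s1 f θ k w)) +
        -(fderiv ℂ (FF f θ (k + 1)) w v (s0 f θ (k + 1) w))‖ ≤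
          b * d0_mW ν M θ k w * gau (dl θ k w) w v := by
      refine (norm_add_le _ _).trans ?_
      rw [norm_neg, norm_neg]
      have g1 : ‖fderiv ℂ (FF f θ (k + 1)) w v (s1 f θ k w)‖ ≤
          N * (Cg * d0_mW ν M θ k w * gau (dl θ k w) w v) * (2 * δ⁻¹) :=
        (ContinuousLinearMap.le_opNorm _ _).trans
          (mul_le_mul hF hs1 (norm_nonneg _) (by positivity))
      have g2 : ‖fderiv ℂ (FF f θ (k + 1)) w v (s0 f θ (k + 1) w)‖ ≤
          N * (Cg * d0_mW ν M θ k w * gau (dl θ k w) w v) * δ⁻¹ :=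
        (ContinuousLinearMap.le_opNorm _ _).trans
          (mul_le_mul hF hs0 (norm_nonneg _) (by positivity))
      calc _ ≤ _ := add_le_add g1 g2
        _ = _ := by rw [hb]; ring
    rw [e5, norm_smul]
    calc _ ≤ (b * d0_mW ν M θ k w * gau (dl θ k w) w v) * (C * xk θ k w * d0_mW ν M θ k w) :=
          mul_le_mul e6 e4 (norm_nonneg _) (by positivity)
      _ = C * b * xk θ k w * (d0_mW ν M θ k w * d0_mW ν M θ k w) * gau (dl θ k w) w v := by ring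
      _ ≤ C * b * xk θ k w * Wk ν M θ k w * gau (dl θ k w) w v := by
          have := d0_mW_sq (ν := ν) (M := M) (θ := θ) (k := k) (w := w) hW
          gcongr
      _ ≤ (C + C * b + 1) * Uk ν M θ k w * gau (dl θ k w) w v := by
          have hU := d0_Uk_nonneg (ν := ν) (M := M) h0 h1 hw'
          have : 0 ≤ (C + 1) * Uk ν M θ k w * gau (dl θ k w) w v := by positivity
          have e : C * b * xk θ k w * Wk ν M θ k w * gau (dl θ k w) w v =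
            C * b * Uk ν M θ k w * gau (dl θ k w) w v := by unfold Uk; ring
          rw [e]
          linarith

/-- the bound of the right side of the equation -/
theorem d0_Kq_bd {N m : ℕ} (K : Car (Fin N → ℂ) V) {δ θ Cg B : ℝ} (hCg : 0 ≤ Cg) (hδ : 0 < δ)
    (hB : 0 ≤ B) :
    ∃ C : ℝ, 0 < C ∧ ∀ (f : Fin N → E → ℂ) (ν : Measure E) (M : ℕ)
      (T : (r : ℕ) → ℕ → E → E [⋀^Fin r]→L[ℝ] V), TD f δ θ →
      Gd f θ ν M Cg → Des K f θ ν M m B T → ∀ (k : ℕ) (w : E), ‖w‖ < RC θ (k + 1) →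
      ‖w‖ < RJ m θ (m + 1) k → ∀ v : E,
        ‖UU K (s0 f θ k) 1 w (fun _ => v) -
          K.c (FF f θ k w) (SS K f θ T k 1 w (fun _ => v))‖ ≤
            C * (d0_mW ν M θ k w + Wk ν M θ k w) * gau (dl θ k w) w v := by
  obtain ⟨C₁, hC₁, hU⟩ := UU_bound (E := E) K 1
  obtain ⟨a, ha⟩ : ∃ a : ℝ, a = (δ⁻¹ + N * δ⁻¹ ^ 2) * Cg := ⟨_, rfl⟩
  have ha0 : 0 ≤ a := by rw [ha]; positivity
  refine ⟨C₁ * δ⁻¹ * a + ‖K.c‖ * N * B + 1, by positivity, ?_⟩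
  intro f ν M T D G S k w hw hwJ v
  have h0 := D.θ0
  have h1 := D.θ1
  have hw' := hw.trans_le (d0_TS_RC_le h0 h1 k)
  have hd := dl_pos h0 h1 hw'
  have hg : 0 ≤ gau (dl θ k w) w v := PT.gau_nonneg hd.le w v
  have hm0 : 0 ≤ d0_mW ν M θ k w := d0_mW_nonneg
  have hW := d0_Wk_nonneg (ν := ν) (M := M) h0 h1 hw'
  have e1 : ∀ x, ‖D01 (s0 f θ k) w x‖ ≤ a * d0_mW ν M θ k w * gau (dl θ k w) w x := by
    intro x
    have hgx : 0 ≤ gau (dl θ k w) w x := PT.gau_nonneg hd.le w x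
    refine (D.s0_D01 (l := k) (by omega) hw' (G := Cg * d0_mW ν M θ k w * gau (dl θ k w) w x)
      (fun j => G.g0 j k w x hw) (by positivity)).trans (le_of_eq ?_)
    rw [ha]
    ring
  have e2 := hU (s0 f θ k) w (fun x => a * d0_mW ν M θ k w * gau (dl θ k w) w x) e1 (fun _ => v)
  rw [Fin.prod_univ_one] at e2
  have e3 := D.s0_norm (l := k) (by omega) hw'
  have e4 := S.sbd 1 k le_rfl w hwJ (fun _ => v)
  rw [Fin.prod_univ_one] at e4
  have e5 : ‖K.c (FF f θ k w) (SS K f θ T k 1 w (fun _ => v))‖ ≤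
      ‖K.c‖ * N * (B * Wk ν M θ k w * gau (dl θ k w) w v) := by
    refine (K.c.le_opNorm₂ _ _).trans ?_
    have := D.FF_norm (l := k) (by omega) hw'
    have h2 := norm_nonneg K.c
    gcongr
  refine (norm_sub_le _ _).trans ?_
  calc _ ≤ C₁ * δ⁻¹ * (a * d0_mW ν M θ k w * gau (dl θ k w) w v) +
        ‖K.c‖ * N * (B * Wk ν M θ k w * gau (dl θ k w) w v) := by
        refine add_le_add (e2.trans ?_) e5
        gcongr
    _ ≤ _ := by
        have r1 : 0 ≤ (‖K.c‖ * N * B + 1) * d0_mW ν M θ k w * gau (dl θ k w) w v := by positivity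
        have r2 : 0 ≤ (C₁ * δ⁻¹ * a + 1) * Wk ν M θ k w * gau (dl θ k w) w v := by positivity
        linarith

end Pool.Agent.MPca0fc2.TS
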