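import Mathlib

set_option autoImplicit false

open Metric Set Filter Topology

/-! # Real lemmas of campaign TS -/

namespace Pool.Agent.MPca0fc2.TS

private theorem geo_sum_up {b : ℝ} (h0 : 0 < b) (h1 : b < 1) (J n : ℕ) :
    ∑ j ∈ Finset.range n, (if J ≤ j then b ^ (j - J) else 0) ≤ (1 - b ^ (n - J)) / (1 - b) := by
  have hb : 0 < 1 - b := by linarith
  induction n with
  | zero => simp
  | succ n ih =>
    rw [Finset.sum_range_succ]
    split_ifs with h
    · refine (add_le_add_left ih _).trans (le_of_eq ?_)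
      rw [show n + 1 - J = (n - J) + 1 by omega, pow_succ]
      field_simp
      ring
    · rw [show n - J = 0 by omega] at ih
      rw [show n + 1 - J = 0 by omega]
      simpa using ih

private theorem geo_sum_dn {c : ℝ} (h0 : 0 < c) (h1 : c < 1) (J n : ℕ) :
    ∑ j ∈ Finset.range n, (if j < J then c ^ (J - 1 - j) else 0) ≤ c ^ (J - n) / (1 - c) := by
  have hb : 0 < 1 - c := by linarith
  induction n with
  | zero => simp; positivity
  | succ n ih =>
    rw [Finset.sum_range_succ]
    split_ifs with h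
    · refine (add_le_add_left ih _).trans (le_of_eq ?_)
      rw [show J - (n + 1) = J - 1 - n by omega, show J - n = (J - 1 - n) + 1 by omega, pow_succ]
      field_simp
      ring
    · rw [show J - n = 0 by omega] at ih
      rw [show J - (n + 1) = 0 by omega]
      simpa using ih

/-- two sided geometric sum -/
theorem geo_sum {θ : ℝ} (h0 : 0 < θ) (h1 : θ < 1) {a p : ℝ} (ha : 0 < a) (hp : a < p) :
    ∃ C : ℝ, 0 < C ∧ ∀ D : ℝ, 0 < D → ∀ n : ℕ,
      ∑ j ∈ Finset.range n, (θ ^ j) ^ a * (max (θ ^ j) D) ^ (-p) ≤ C * D ^ (a - p) := by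
  set b : ℝ := θ ^ a with hb
  set c : ℝ := θ ^ (p - a) with hc
  have hb0 : 0 < b := Real.rpow_pos_of_pos h0 _
  have hc0 : 0 < c := Real.rpow_pos_of_pos h0 _
  have hb1 : b < 1 := Real.rpow_lt_one h0.le h1 ha
  have hc1 : c < 1 := Real.rpow_lt_one h0.le h1 (by linarith)
  have hb2 : 0 < 1 - b := by linarith
  have hc2 : 0 < 1 - c := by linarith
  refine ⟨1 / (1 - b) + 1 / (1 - c), by positivity, ?_⟩
  intro D hD n
  have hex : ∃ j : ℕ, θ ^ j < D := exists_pow_lt_of_lt_one hD h1
  classical
  set J := Nat.find hex with hJ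
  have hJ1 : θ ^ J < D := Nat.find_spec hex
  have hJ2 : ∀ j, j < J → D ≤ θ ^ j := fun j hj => not_lt.mp (Nat.find_min hex hj)
  have hDp : 0 < D ^ (a - p) := Real.rpow_pos_of_pos hD _
  have hterm : ∀ j ∈ Finset.range n, (θ ^ j) ^ a * (max (θ ^ j) D) ^ (-p) ≤
      D ^ (a - p) * ((if J ≤ j then b ^ (j - J) else 0) + (if j < J then c ^ (J - 1 - j) else 0)) := by
    intro j _
    have hj0 : 0 < θ ^ j := pow_pos h0 j
    by_cases hj : J ≤ j
    · rw [if_pos hj, if_neg (not_lt.mpr hj), add_zero]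
      have h3 : θ ^ j = θ ^ J * θ ^ (j - J) := by rw [← pow_add]; congr 1; omega
      have h4 : θ ^ j < D := lt_of_le_of_lt (pow_le_pow_of_le_one h0.le h1.le hj) hJ1
      rw [max_eq_right h4.le]
      have h5 : (θ ^ j) ^ a ≤ D ^ a * b ^ (j - J) := by
        rw [h3, Real.mul_rpow (by positivity) (by positivity), hb, Real.rpow_pow_comm h0.le]
        gcongr
      calc (θ ^ j) ^ a * D ^ (-p) ≤ (D ^ a * b ^ (j - J)) * D ^ (-p) :=
            mul_le_mul_of_nonneg_right h5 (Real.rpow_nonneg hD.le _)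
        _ = D ^ (a - p) * b ^ (j - J) := by
            rw [sub_eq_add_neg, Real.rpow_add hD]; ring
    · have hj' : j < J := not_le.mp hj
      rw [if_neg hj, if_pos hj', zero_add, max_eq_left (hJ2 j hj')]
      have h3 : θ ^ (J - 1) = θ ^ j * θ ^ (J - 1 - j) := by rw [← pow_add]; congr 1; omega
      have h4 : D ≤ θ ^ (J - 1) := hJ2 _ (by omega)
      have h6 : (θ ^ (J - 1)) ^ (a - p) ≤ D ^ (a - p) :=
        Real.rpow_le_rpow_of_nonpos hD h4 (by linarith)
      have h7 : (θ ^ j) ^ a * (θ ^ j) ^ (-p) = (θ ^ (J - 1)) ^ (a - p) * c ^ (J - 1 - j) := by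
        rw [← Real.rpow_add hj0, ← sub_eq_add_neg, h3, Real.mul_rpow (by positivity) (by positivity),
          hc, Real.rpow_pow_comm h0.le, mul_assoc, ← Real.rpow_add (by positivity),
          show a - p + (p - a) = 0 by ring, Real.rpow_zero, mul_one]
      rw [h7]
      exact mul_le_mul_of_nonneg_right h6 (by positivity)
  refine (Finset.sum_le_sum hterm).trans ?_
  rw [← Finset.mul_sum, Finset.sum_add_distrib, mul_comm]
  refine mul_le_mul_of_nonneg_right (add_le_add ?_ ?_) hDp.le
  · refine (geo_sum_up hb0 hb1 J n).trans ?_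
    exact div_le_div_of_nonneg_right (by have : 0 < b ^ (n - J) := by positivity
                                         linarith) hb2.le
  · refine (geo_sum_dn hc0 hc1 J n).trans ?_
    exact div_le_div_of_nonneg_right (pow_le_one₀ hc0.le hc1.le) hc2.le

end Pool.Agent.MPca0fc2.TS
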