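import Mathlib
import Pool.Agent.Lib.MP_ca0fc2_an.Mg.G122
import Pool.Agent.Lib.MP_ca0fc2_an.TS.PoA
import Pool.Agent.Lib.MP_ca0fc2_an.TS.AgeS
import Pool.Agent.Lib.MP_ca0fc2_an.TS.Re

set_option autoImplicit false

open Metric Set MeasureTheory Filter Topology
open scoped InnerProductSpace ENNReal ContDiff

/-! # Comparison and sums of the potentials -/

namespace Pool.Agent.MPca0fc2.TS

open Pool.Agent.MPca0fc2.PT
open Pool.Agent.MPca0fc2.QT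

variable {E : Type*} [NormedAddCommGroup E] [InnerProductSpace ℂ E]
variable [FiniteDimensional ℂ E] [MeasurableSpace E] [BorelSpace E]

/-- With `ζ = ⟪x, r_k w⟫`, `|ζ| < 1`, `t = r_j / r_k`: `|1 - ζ| ≤ |1 - t ζ| + (1 - t) ≤
2 |1 - t ζ|`, and `PP_le`. -/
theorem Ik_mono {θ : ℝ} (h0 : 0 < θ) (h1 : θ < 1) {ν : Measure E} (h : OnB ν) (M : ℕ) {j k : ℕ}
    (hjk : j ≤ k) {w : E} (hw : ‖w‖ < RC θ k) :
    Ik ν M θ j w ≤ 2 ^ (M + 1) * Ik ν M θ k w := by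
  have hwj : ‖w‖ < RC θ j := hw.trans_le (RC_anti h0 h1 hjk)
  have hpk : θ ^ k ≤ 1 := pow_le_one₀ h0.le h1.le
  have hpj : θ ^ j ≤ 1 := pow_le_one₀ h0.le h1.le
  have hjk' : θ ^ k ≤ θ ^ j := pow_le_pow_of_le_one h0.le h1.le hjk
  have hrj : 0 ≤ rt θ j := by unfold rt; linarith
  have hrk : 0 ≤ rt θ k := by unfold rt; linarith
  have hle : rt θ j ≤ rt θ k := by unfold rt; linarith
  have nrm : ∀ i : ℕ, 0 ≤ rt θ i → ‖((rt θ i : ℝ) : ℂ) • w‖ = rt θ i * ‖w‖ := fun i hi => by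
    rw [norm_smul, Complex.norm_real, Real.norm_of_nonneg hi]
  have hk1 : ‖((rt θ k : ℝ) : ℂ) • w‖ < 1 := by
    rw [nrm k hrk]; exact rt_mul_lt h0 h1 (Nat.le_succ k) hw
  have hj1 : ‖((rt θ j : ℝ) : ℂ) • w‖ < 1 := by
    rw [nrm j hrj]; exact rt_mul_lt h0 h1 (Nat.le_succ j) hwj
  have hcc : ∀ x ∈ ball (0 : E) 1, ‖1 - ⟪x, ((rt θ k : ℝ) : ℂ) • w⟫_ℂ‖ ≤
      2 * ‖1 - ⟪x, ((rt θ j : ℝ) : ℂ) • w⟫_ℂ‖ := by
    intro x hx
    rw [mem_ball_zero_iff] at hx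
    have hz1 : ‖⟪x, ((rt θ k : ℝ) : ℂ) • w⟫_ℂ‖ ≤ 1 := by
      refine (norm_inner_le_norm _ _).trans ?_
      exact mul_le_one₀ hx.le (norm_nonneg _) hk1.le
    rw [inner_smul_right, norm_mul, Complex.norm_real, Real.norm_of_nonneg hrk] at hz1
    rw [inner_smul_right, inner_smul_right]
    set z : ℂ := ⟪x, w⟫_ℂ with hz
    have e1 : 1 - ((rt θ k : ℝ) : ℂ) * z =
        (1 - ((rt θ j : ℝ) : ℂ) * z) - ((rt θ k - rt θ j : ℝ) : ℂ) * z := by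
      push_cast; ring
    have e2 : ‖((rt θ k - rt θ j : ℝ) : ℂ) * z‖ = (rt θ k - rt θ j) * ‖z‖ := by
      rw [norm_mul, Complex.norm_real, Real.norm_of_nonneg (by linarith)]
    have e3 : ‖1 - ((rt θ k : ℝ) : ℂ) * z‖ ≤
        ‖1 - ((rt θ j : ℝ) : ℂ) * z‖ + (rt θ k - rt θ j) * ‖z‖ := by
      rw [e1, ← e2]; exact norm_sub_le _ _
    have e4 : 1 - rt θ j * ‖z‖ ≤ ‖1 - ((rt θ j : ℝ) : ℂ) * z‖ := by
      have h5 := norm_sub_norm_le (1 : ℂ) (((rt θ j : ℝ) : ℂ) * z)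
      rw [norm_one, norm_mul, Complex.norm_real, Real.norm_of_nonneg hrj] at h5
      exact h5
    linarith
  have h2 := PP_le h (p := (M : ℝ) + 1 / 4) (by positivity) hk1 hj1 (c := 2) (by norm_num) hcc
  have hI := Ik_nonneg ν M θ k w
  have h3 : (2 : ℝ) ^ ((M : ℝ) + 1 / 4) ≤ 2 ^ (M + 1) := by
    rw [← Real.rpow_natCast]
    refine Real.rpow_le_rpow_of_exponent_le (by norm_num) ?_
    push_cast
    linarith
  exact h2.trans (mul_le_mul_of_nonneg_right h3 hI)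

/-- from `Ik_mono` -/
theorem Wk_mono {θ : ℝ} (h0 : 0 < θ) (h1 : θ < 1) {ν : Measure E} (h : OnB ν) (M : ℕ) {j k : ℕ}
    (hjk : j ≤ k) {w : E} (hw : ‖w‖ < RC θ k) :
    Wk ν M θ j w ≤ 2 ^ (M + 1) * (dl θ k w / dl θ j w) ^ (-(1 / 4) : ℝ) * Wk ν M θ k w := by
  have hwj : ‖w‖ < RC θ j := hw.trans_le (RC_anti h0 h1 hjk)
  have hdk : 0 < dl θ k w := dl_pos h0 h1 hw
  have hdj : 0 < dl θ j w := dl_pos h0 h1 hwj
  have hI := Ik_mono h0 h1 h M hjk hw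
  have e1 : (dl θ k w / dl θ j w) ^ (-(1 / 4) : ℝ) * dl θ k w ^ (1 / 4 : ℝ) =
      dl θ j w ^ (1 / 4 : ℝ) := by
    rw [Real.div_rpow hdk.le hdj.le, Real.rpow_neg hdk.le, Real.rpow_neg hdj.le]
    have hk4 : 0 < dl θ k w ^ (1 / 4 : ℝ) := Real.rpow_pos_of_pos hdk _
    have hj4 : 0 < dl θ j w ^ (1 / 4 : ℝ) := Real.rpow_pos_of_pos hdj _
    field_simp
  unfold Wk
  calc dl θ j w ^ (1 / 4 : ℝ) * Ik ν M θ j w
      ≤ dl θ j w ^ (1 / 4 : ℝ) * (2 ^ (M + 1) * Ik ν M θ k w) :=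
        mul_le_mul_of_nonneg_left hI (Real.rpow_nonneg hdj.le _)
    _ = 2 ^ (M + 1) * (dl θ k w / dl θ j w) ^ (-(1 / 4) : ℝ) *
        (dl θ k w ^ (1 / 4 : ℝ) * Ik ν M θ k w) := by
        rw [← e1]; ring

/-- `|1 - ⟪x, r_k w⟫| ≤ |1 - ⟪x, s w⟫| + 2 θ^k` and `θ^(k+1) / 8 ≤ |1 - ⟪x, s w⟫|`, `PP_le`. -/
theorem PP_shift {θ : ℝ} (h0 : 0 < θ) (h1 : θ < 1) {p : ℝ} (hp : 0 ≤ p) :
    ∃ C : ℝ, 0 < C ∧ ∀ ν : Measure E, OnB ν → ∀ (k : ℕ) (s : ℝ) (w : E), rt θ k ≤ s →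
      s ≤ rt θ (k + 1) → ‖w‖ < RC θ k →
      PP ν p ((s : ℂ) • w) ≤ C * PP ν p ((rt θ k : ℂ) • w) := by
  refine ⟨(1 + 8 / θ) ^ p, by positivity, ?_⟩
  intro ν hν k s w hs1 hs2 hw
  have hr0 : 0 ≤ rt θ k := PTDl_rt_nonneg h0 h1 k
  have hs0 : 0 ≤ s := hr0.trans hs1
  have hk0 : 0 < θ ^ k := pow_pos h0 k
  have hk1 : 0 < θ ^ (k + 1) := pow_pos h0 _
  have hk1' : θ ^ (k + 1) ≤ 1 := pow_le_one₀ h0.le h1.le
  have hkey := PTDl_key h0 h1 (le_refl (k + 1)) hw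
  have hy : ‖((rt θ k : ℂ) • w)‖ < 1 := by
    rw [norm_smul, Complex.norm_real, Real.norm_of_nonneg hr0]
    exact rt_mul_lt h0 h1 (Nat.le_succ k) hw
  have hsw : s * ‖w‖ ≤ 1 - θ ^ (k + 1) / 4 :=
    (mul_le_mul_of_nonneg_right hs2 (norm_nonneg w)).trans hkey
  have hy' : ‖((s : ℂ) • w)‖ < 1 := by
    rw [norm_smul, Complex.norm_real, Real.norm_of_nonneg hs0]
    linarith
  refine PP_le hν hp hy hy' (by positivity) ?_
  intro x hx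
  have hx1 : ‖x‖ ≤ 1 := by
    rw [mem_ball_zero_iff] at hx
    exact hx.le
  have hw2 : ‖w‖ ≤ 2 := by
    unfold RC at hw
    linarith
  have hxw : ‖⟪x, w⟫_ℂ‖ ≤ ‖w‖ := by
    have h2 := norm_inner_le_norm (𝕜 := ℂ) x w
    have h3 : ‖x‖ * ‖w‖ ≤ 1 * ‖w‖ := mul_le_mul_of_nonneg_right hx1 (norm_nonneg w)
    linarith
  have hlow : θ ^ (k + 1) / 4 ≤ ‖1 - ⟪x, (s : ℂ) • w⟫_ℂ‖ := by
    have h2 : ‖⟪x, (s : ℂ) • w⟫_ℂ‖ ≤ s * ‖w‖ := by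
      rw [inner_smul_right, norm_mul, Complex.norm_real, Real.norm_of_nonneg hs0]
      exact mul_le_mul_of_nonneg_left hxw hs0
    have h3 := norm_sub_norm_le (1 : ℂ) ⟪x, (s : ℂ) • w⟫_ℂ
    rw [norm_one] at h3
    linarith
  have hdiff : ‖1 - ⟪x, (rt θ k : ℂ) • w⟫_ℂ‖ ≤ ‖1 - ⟪x, (s : ℂ) • w⟫_ℂ‖ + 2 * θ ^ k := by
    have h2 : (1 - ⟪x, (rt θ k : ℂ) • w⟫_ℂ : ℂ) =
        (1 - ⟪x, (s : ℂ) • w⟫_ℂ) + (((s - rt θ k : ℝ) : ℂ) * ⟪x, w⟫_ℂ) := by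
      rw [inner_smul_right, inner_smul_right]
      push_cast
      ring
    rw [h2]
    refine (norm_add_le _ _).trans ?_
    have h3 : ‖(((s - rt θ k : ℝ) : ℂ) * ⟪x, w⟫_ℂ)‖ ≤ 2 * θ ^ k := by
      rw [norm_mul, Complex.norm_real, Real.norm_of_nonneg (sub_nonneg.2 hs1)]
      have h4 : s - rt θ k ≤ θ ^ k := by
        unfold rt at hs2 ⊢
        linarith
      have h5 : (s - rt θ k) * ‖⟪x, w⟫_ℂ‖ ≤ θ ^ k * 2 :=
        mul_le_mul h4 (hxw.trans hw2) (norm_nonneg _) hk0.le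
      linarith
    linarith
  refine hdiff.trans ?_
  have h6 : 2 * θ ^ k ≤ 8 / θ * ‖1 - ⟪x, (s : ℂ) • w⟫_ℂ‖ := by
    have h7 : 8 / θ * (θ ^ (k + 1) / 4) = 2 * θ ^ k := by
      rw [pow_succ]
      field_simp
      norm_num
    rw [← h7]
    exact mul_le_mul_of_nonneg_left hlow (by positivity)
  linarith

omit [FiniteDimensional ℂ E] [BorelSpace E] in
/-- the weights are nonnegative -/
theorem sum_core_Wk_nonneg {θ : ℝ} (h0 : 0 < θ) (h1 : θ < 1) (ν : Measure E) (M : ℕ) {k : ℕ}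
    {w : E} (hw : ‖w‖ < RC θ k) : 0 ≤ Wk ν M θ k w :=
  mul_nonneg (Real.rpow_nonneg (dl_pos h0 h1 hw).le _) (Ik_nonneg ν M θ k w)

omit [FiniteDimensional ℂ E] [MeasurableSpace E] [BorelSpace E] in
theorem sum_core_gau_nonneg {d : ℝ} (hd : 0 ≤ d) (w x : E) : 0 ≤ gau d w x := by
  unfold gau
  positivity

/-- `ek_l = xk_l^(1/4) W_l ≤ C xk_l^(1/4) (dl_k / dl_l)^(-1/4) W_k` by `Wk_mono`; then
`age_sum` with `a = b = 1/4`. -/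
theorem sum_core {θ : ℝ} (h0 : 0 < θ) (h1 : θ < 1) (M : ℕ) :
    ∃ C : ℝ, 0 < C ∧ ∀ ν : Measure E, OnB ν → ∀ (k : ℕ) (w : E), ‖w‖ < RC θ k →
      ∑ l ∈ Finset.range (k + 1), Real.sqrt (dl θ k w / dl θ l w) * ek ν M θ l w ≤
        C * Wk ν M θ k w := by
  obtain ⟨A, hA0, hA⟩ := age_sum (E := E) (a := 1 / 4) (b := 1 / 4) h0 h1 (by norm_num) (by norm_num)
  refine ⟨2 ^ (M + 1) * A, by positivity, ?_⟩
  intro ν hν k w hw
  have hWk : 0 ≤ Wk ν M θ k w := sum_core_Wk_nonneg h0 h1 ν M hw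
  have hterm : ∀ l ∈ Finset.range (k + 1),
      Real.sqrt (dl θ k w / dl θ l w) * ek ν M θ l w ≤
        (2 ^ (M + 1) * Wk ν M θ k w) *
          (xk θ l w ^ (1 / 4 : ℝ) * (dl θ k w / dl θ l w) ^ (1 / 4 : ℝ)) := by
    intro l hl
    have hlk : l ≤ k := by have := Finset.mem_range.1 hl; omega
    have hwl : ‖w‖ < RC θ l := hw.trans_le (RC_anti h0 h1 hlk)
    have hx := xk_pos h0 h1 hwl
    have hdl := dl_pos h0 h1 hwl
    have hdk := dl_pos h0 h1 hw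
    have hr0 : 0 < dl θ k w / dl θ l w := by positivity
    have hm := Wk_mono h0 h1 hν M hlk hw
    have e1 : ek ν M θ l w = xk θ l w ^ (1 / 4 : ℝ) * Wk ν M θ l w := by
      have e2 : (θ ^ l : ℝ) = xk θ l w * dl θ l w := by
        unfold xk
        field_simp
      unfold ek Wk
      rw [e2, Real.mul_rpow hx.le hdl.le]
      ring
    have e3 : Real.sqrt (dl θ k w / dl θ l w) * (dl θ k w / dl θ l w) ^ (-(1 / 4) : ℝ) =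
        (dl θ k w / dl θ l w) ^ (1 / 4 : ℝ) := by
      rw [Real.sqrt_eq_rpow, ← Real.rpow_add hr0]
      norm_num
    rw [e1]
    calc Real.sqrt (dl θ k w / dl θ l w) * (xk θ l w ^ (1 / 4 : ℝ) * Wk ν M θ l w)
        ≤ Real.sqrt (dl θ k w / dl θ l w) * (xk θ l w ^ (1 / 4 : ℝ) *
          (2 ^ (M + 1) * (dl θ k w / dl θ l w) ^ (-(1 / 4) : ℝ) * Wk ν M θ k w)) := by
          gcongr
      _ = (2 ^ (M + 1) * Wk ν M θ k w) * (xk θ l w ^ (1 / 4 : ℝ) *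
          (Real.sqrt (dl θ k w / dl θ l w) * (dl θ k w / dl θ l w) ^ (-(1 / 4) : ℝ))) := by ring
      _ = _ := by rw [e3]
  refine (Finset.sum_le_sum hterm).trans ?_
  rw [← Finset.mul_sum]
  have h2 := hA k w hw
  calc (2 ^ (M + 1) * Wk ν M θ k w) * ∑ l ∈ Finset.range (k + 1),
        xk θ l w ^ (1 / 4 : ℝ) * (dl θ k w / dl θ l w) ^ (1 / 4 : ℝ)
      ≤ (2 ^ (M + 1) * Wk ν M θ k w) * A := by gcongr
    _ = _ := by ring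

/-- the same with forms; `gau (dl_l) ≤ √(dl_k / dl_l) gau (dl_k)` is `PT.gau_anti`; `age_sum`
with `a = 1`, `b = 1/4` -/
theorem sum_Uk {θ : ℝ} (h0 : 0 < θ) (h1 : θ < 1) (M : ℕ) {r : ℕ} (hr : 1 ≤ r) :
    ∃ C : ℝ, 0 < C ∧ ∀ ν : Measure E, OnB ν → ∀ (k : ℕ) (w : E), ‖w‖ < RC θ k →
      ∀ v : Fin r → E, ∑ l ∈ Finset.range (k + 1), Uk ν M θ l w * ∏ i, gau (dl θ l w) w (v i) ≤
        C * Wk ν M θ k w * ∏ i, gau (dl θ k w) w (v i) := by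
  obtain ⟨A, hA0, hA⟩ := age_sum (E := E) (a := 1) (b := 1 / 4) h0 h1 (by norm_num) (by norm_num)
  refine ⟨2 ^ (M + 1) * A, by positivity, ?_⟩
  intro ν hν k w hw v
  have hWk : 0 ≤ Wk ν M θ k w := sum_core_Wk_nonneg h0 h1 ν M hw
  have hdk := dl_pos h0 h1 hw
  have hG : 0 ≤ ∏ i, gau (dl θ k w) w (v i) :=
    Finset.prod_nonneg fun i _ => sum_core_gau_nonneg hdk.le w (v i)
  have hterm : ∀ l ∈ Finset.range (k + 1),
      Uk ν M θ l w * ∏ i, gau (dl θ l w) w (v i) ≤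
        (2 ^ (M + 1) * Wk ν M θ k w * ∏ i, gau (dl θ k w) w (v i)) *
          (xk θ l w ^ (1 : ℝ) * (dl θ k w / dl θ l w) ^ (1 / 4 : ℝ)) := by
    intro l hl
    have hlk : l ≤ k := by have := Finset.mem_range.1 hl; omega
    have hwl : ‖w‖ < RC θ l := hw.trans_le (RC_anti h0 h1 hlk)
    have hx := xk_pos h0 h1 hwl
    have hdl := dl_pos h0 h1 hwl
    have hr0 : 0 < dl θ k w / dl θ l w := by positivity
    have hdd : dl θ k w ≤ dl θ l w := dl_anti h0 h1 hlk w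
    have hr1 : dl θ k w / dl θ l w ≤ 1 := by
      rw [div_le_one hdl]
      exact hdd
    have hs1 : Real.sqrt (dl θ k w / dl θ l w) ≤ 1 := Real.sqrt_le_one.2 hr1
    have hm := Wk_mono h0 h1 hν M hlk hw
    have hWl : 0 ≤ Wk ν M θ l w := sum_core_Wk_nonneg h0 h1 ν M hwl
    have e3 : (dl θ k w / dl θ l w) ^ (-(1 / 4) : ℝ) * Real.sqrt (dl θ k w / dl θ l w) =
        (dl θ k w / dl θ l w) ^ (1 / 4 : ℝ) := by
      rw [Real.sqrt_eq_rpow, ← Real.rpow_add hr0]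
      norm_num
    have hp : ∏ i, gau (dl θ l w) w (v i) ≤
        Real.sqrt (dl θ k w / dl θ l w) * ∏ i, gau (dl θ k w) w (v i) := by
      calc ∏ i, gau (dl θ l w) w (v i)
          ≤ ∏ i, (Real.sqrt (dl θ k w / dl θ l w) * gau (dl θ k w) w (v i)) :=
            Finset.prod_le_prod (fun i _ => sum_core_gau_nonneg hdl.le w (v i))
              fun i _ => gau_anti hdk hdd w (v i)
        _ = Real.sqrt (dl θ k w / dl θ l w) ^ r * ∏ i, gau (dl θ k w) w (v i) := by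
            rw [Finset.prod_mul_distrib, Finset.prod_const, Finset.card_univ, Fintype.card_fin]
        _ ≤ Real.sqrt (dl θ k w / dl θ l w) ^ 1 * ∏ i, gau (dl θ k w) w (v i) := by
            refine mul_le_mul_of_nonneg_right ?_ hG
            exact pow_le_pow_of_le_one (Real.sqrt_nonneg _) hs1 hr
        _ = _ := by rw [pow_one]
    unfold Uk
    rw [Real.rpow_one]
    calc xk θ l w * Wk ν M θ l w * ∏ i, gau (dl θ l w) w (v i)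
        ≤ xk θ l w * (2 ^ (M + 1) * (dl θ k w / dl θ l w) ^ (-(1 / 4) : ℝ) * Wk ν M θ k w) *
          (Real.sqrt (dl θ k w / dl θ l w) * ∏ i, gau (dl θ k w) w (v i)) := by
          refine mul_le_mul (mul_le_mul_of_nonneg_left hm hx.le) hp
            (Finset.prod_nonneg fun i _ => sum_core_gau_nonneg hdl.le w (v i)) ?_
          exact mul_nonneg hx.le (hWl.trans hm)
      _ = (2 ^ (M + 1) * Wk ν M θ k w * ∏ i, gau (dl θ k w) w (v i)) * (xk θ l w *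
          ((dl θ k w / dl θ l w) ^ (-(1 / 4) : ℝ) * Real.sqrt (dl θ k w / dl θ l w))) := by ring
      _ = _ := by rw [e3]
  refine (Finset.sum_le_sum hterm).trans ?_
  rw [← Finset.mul_sum]
  have h2 := hA k w hw
  calc (2 ^ (M + 1) * Wk ν M θ k w * ∏ i, gau (dl θ k w) w (v i)) * ∑ l ∈ Finset.range (k + 1),
        xk θ l w ^ (1 : ℝ) * (dl θ k w / dl θ l w) ^ (1 / 4 : ℝ)
      ≤ (2 ^ (M + 1) * Wk ν M θ k w * ∏ i, gau (dl θ k w) w (v i)) * A := by gcongr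
    _ = _ := by ring

/-- `|1 - ⟪x, r_l z⟫| ≥ max (θ^l) |1 - ⟪x, z⟫| / 2`, so `ek_l z ≤ C ∫ (θ^l)^(1/4)
(max (θ^l) D)^(-(M+1/4)) dν`, `D = |1 - ⟪x, z⟫|`; exchange the finite sum and the integral and
use `geo_sum` with `a = 1/4`, `p = M + 1/4`. -/
theorem sum_ek {θ : ℝ} (h0 : 0 < θ) (h1 : θ < 1) {M : ℕ} (hM : 1 ≤ M) :
    ∃ C : ℝ, 0 < C ∧ ∀ ν : Measure E, OnB ν → ∀ (n : ℕ) (z : E), ‖z‖ < 1 →
      ∑ l ∈ Finset.range n, ek ν M θ l z ≤ C * PP ν M z := by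
  have hM1 : (1 : ℝ) ≤ M := by exact_mod_cast hM
  obtain ⟨C, hC, hg⟩ := geo_sum h0 h1 (a := 1 / 4) (p := (M : ℝ) + 1 / 4) (by norm_num)
    (by linarith)
  refine ⟨2 ^ ((M : ℝ) + 1 / 4) * C, by positivity, ?_⟩
  intro ν hν n z hz
  haveI := hν.fin
  have hp0 : (0 : ℝ) ≤ (M : ℝ) + 1 / 4 := by positivity
  have hrt : ∀ l, 0 ≤ rt θ l ∧ rt θ l ≤ 1 := fun l =>
    ⟨PTDl_rt_nonneg h0 h1 l, by unfold rt; linarith [pow_pos h0 l]⟩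
  have hrz : ∀ l, ‖(rt θ l : ℂ) • z‖ < 1 := by
    intro l
    rw [age_norm_smul h0 h1]
    nlinarith [(hrt l).1, (hrt l).2, norm_nonneg z]
  have hae : ∀ᵐ x ∂ν, ‖x‖ < 1 := by
    have h2 := hν.supp
    filter_upwards [compl_mem_ae_iff.mpr h2] with x hx
    rw [compl_compl] at hx
    exact mem_ball_zero_iff.mp hx
  have e1 : ∑ l ∈ Finset.range n, ek ν M θ l z = ∫ x, ∑ l ∈ Finset.range n,
      (θ ^ l) ^ (1 / 4 : ℝ) * ‖1 - ⟪x, (rt θ l : ℂ) • z⟫_ℂ‖ ^ (-((M : ℝ) + 1 / 4)) ∂ν := by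
    rw [integral_finset_sum _ fun l _ => (PP_int hν hp0 (hrz l)).const_mul _]
    refine Finset.sum_congr rfl fun l _ => ?_
    rw [integral_const_mul]
    rfl
  have e2 : 2 ^ ((M : ℝ) + 1 / 4) * C * PP ν M z =
      ∫ x, 2 ^ ((M : ℝ) + 1 / 4) * C * ‖1 - ⟪x, z⟫_ℂ‖ ^ (-(M : ℝ)) ∂ν := by
    rw [integral_const_mul]
    rfl
  rw [e1, e2]
  refine integral_mono_ae (integrable_finset_sum _ fun l _ =>
    (PP_int hν hp0 (hrz l)).const_mul _) ((PP_int hν (by positivity) hz).const_mul _) ?_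
  filter_upwards [hae] with x hx
  obtain ⟨a1, a2⟩ := geo_one_sub hx hz
  set D : ℝ := ‖1 - ⟪x, z⟫_ℂ‖ with hD
  have hD0 : 0 < D := lt_of_lt_of_le a1 a2
  have key : ∀ l, max (θ ^ l) D / 2 ≤ ‖1 - ⟪x, (rt θ l : ℂ) • z⟫_ℂ‖ := by
    intro l
    have hθl : 0 < θ ^ l := pow_pos h0 l
    have b1 : 1 - ‖x‖ * ‖(rt θ l : ℂ) • z‖ ≤ ‖1 - ⟪x, (rt θ l : ℂ) • z⟫_ℂ‖ :=
      (geo_one_sub hx (hrz l)).2
    have b2 : θ ^ l ≤ ‖1 - ⟪x, (rt θ l : ℂ) • z⟫_ℂ‖ := by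
      refine le_trans ?_ b1
      rw [age_norm_smul h0 h1]
      have : θ ^ l = 1 - rt θ l := by unfold rt; ring
      rw [this]
      have c1 : ‖x‖ * (rt θ l * ‖z‖) ≤ 1 * (rt θ l * 1) := by
        apply mul_le_mul hx.le _ (mul_nonneg (hrt l).1 (norm_nonneg _)) zero_le_one
        exact mul_le_mul_of_nonneg_left hz.le (hrt l).1
      linarith
    have b3 : D ≤ 2 * ‖1 - ⟪x, (rt θ l : ℂ) • z⟫_ℂ‖ := by
      have c0 : ⟪x, (rt θ l : ℂ) • z⟫_ℂ = (rt θ l : ℂ) * ⟪x, z⟫_ℂ := by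
        rw [inner_smul_right]
      have c1 : (1 : ℂ) - ⟪x, z⟫_ℂ = (1 - ⟪x, (rt θ l : ℂ) • z⟫_ℂ) -
          ((1 - rt θ l : ℝ) : ℂ) * ⟪x, z⟫_ℂ := by
        rw [c0]; push_cast; ring
      have c2 : ‖⟪x, z⟫_ℂ‖ ≤ 1 := (norm_inner_le_norm x z).trans (by
        nlinarith [norm_nonneg x, norm_nonneg z])
      have c3 : ‖((1 - rt θ l : ℝ) : ℂ) * ⟪x, z⟫_ℂ‖ ≤ (1 - rt θ l) := by
        rw [norm_mul, Complex.norm_real, Real.norm_of_nonneg (by linarith [(hrt l).2])]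
        exact mul_le_of_le_one_right (by linarith [(hrt l).2]) c2
      have c4 : 1 - rt θ l = θ ^ l := by unfold rt; ring
      rw [c4] at c3
      calc D = ‖(1 - ⟪x, (rt θ l : ℂ) • z⟫_ℂ) - ((1 - rt θ l : ℝ) : ℂ) * ⟪x, z⟫_ℂ‖ := by
            rw [hD, c1]
        _ ≤ ‖1 - ⟪x, (rt θ l : ℂ) • z⟫_ℂ‖ + ‖((1 - rt θ l : ℝ) : ℂ) * ⟪x, z⟫_ℂ‖ :=
            norm_sub_le _ _
        _ ≤ ‖1 - ⟪x, (rt θ l : ℂ) • z⟫_ℂ‖ + θ ^ l := by
            rw [c4] at *; linarith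
        _ ≤ 2 * ‖1 - ⟪x, (rt θ l : ℂ) • z⟫_ℂ‖ := by linarith
    rcases le_total (θ ^ l) D with h | h
    · rw [max_eq_right h]; linarith
    · rw [max_eq_left h]; linarith
  have hterm : ∀ l, (θ ^ l) ^ (1 / 4 : ℝ) *
      ‖1 - ⟪x, (rt θ l : ℂ) • z⟫_ℂ‖ ^ (-((M : ℝ) + 1 / 4)) ≤
      2 ^ ((M : ℝ) + 1 / 4) * ((θ ^ l) ^ (1 / 4 : ℝ) * (max (θ ^ l) D) ^ (-((M : ℝ) + 1 / 4))) := by
    intro l
    have hmx : 0 < max (θ ^ l) D := lt_of_lt_of_le hD0 (le_max_right _ _)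
    have c1 : ‖1 - ⟪x, (rt θ l : ℂ) • z⟫_ℂ‖ ^ (-((M : ℝ) + 1 / 4)) ≤
        (max (θ ^ l) D / 2) ^ (-((M : ℝ) + 1 / 4)) :=
      Real.rpow_le_rpow_of_nonpos (by positivity) (key l) (by linarith)
    have c2 : (max (θ ^ l) D / 2) ^ (-((M : ℝ) + 1 / 4)) =
        2 ^ ((M : ℝ) + 1 / 4) * (max (θ ^ l) D) ^ (-((M : ℝ) + 1 / 4)) := by
      rw [Real.div_rpow hmx.le (by norm_num), Real.rpow_neg (by norm_num : (0:ℝ) ≤ 2)]
      field_simp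
    rw [c2] at c1
    calc _ ≤ (θ ^ l) ^ (1 / 4 : ℝ) *
          (2 ^ ((M : ℝ) + 1 / 4) * (max (θ ^ l) D) ^ (-((M : ℝ) + 1 / 4))) :=
          mul_le_mul_of_nonneg_left c1 (by positivity)
      _ = _ := by ring
  calc ∑ l ∈ Finset.range n, (θ ^ l) ^ (1 / 4 : ℝ) *
        ‖1 - ⟪x, (rt θ l : ℂ) • z⟫_ℂ‖ ^ (-((M : ℝ) + 1 / 4))
      ≤ ∑ l ∈ Finset.range n, 2 ^ ((M : ℝ) + 1 / 4) *
        ((θ ^ l) ^ (1 / 4 : ℝ) * (max (θ ^ l) D) ^ (-((M : ℝ) + 1 / 4))) :=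
        Finset.sum_le_sum fun l _ => hterm l
    _ = 2 ^ ((M : ℝ) + 1 / 4) * ∑ l ∈ Finset.range n,
        (θ ^ l) ^ (1 / 4 : ℝ) * (max (θ ^ l) D) ^ (-((M : ℝ) + 1 / 4)) := by
        rw [Finset.mul_sum]
    _ ≤ 2 ^ ((M : ℝ) + 1 / 4) * (C * D ^ (1 / 4 - ((M : ℝ) + 1 / 4))) :=
        mul_le_mul_of_nonneg_left (hg D hD0 n) (by positivity)
    _ = 2 ^ ((M : ℝ) + 1 / 4) * C * D ^ (-(M : ℝ)) := by
        have : (1 / 4 : ℝ) - ((M : ℝ) + 1 / 4) = -(M : ℝ) := by ring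
        rw [this]; ring

/-- `Uk ≤ C ek`: `xk ≤ 4 xk^(1/4)`. -/
theorem Uk_le_ek {θ : ℝ} (h0 : 0 < θ) (h1 : θ < 1) (ν : Measure E) (M : ℕ) {k : ℕ} {w : E}
    (hw : ‖w‖ < RC θ k) : Uk ν M θ k w ≤ 4 * ek ν M θ k w := by
  have hx0 := xk_pos h0 h1 hw
  have hx4 := xk_le h0 h1 hw
  have hd := PT.dl_pos h0 h1 hw
  have hI := Ik_nonneg ν M θ k w
  have hkey : xk θ k w * dl θ k w ^ (1 / 4 : ℝ) ≤ 4 * (θ ^ k) ^ (1 / 4 : ℝ) := by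
    have h2 : θ ^ k = xk θ k w * dl θ k w := by
      unfold xk
      field_simp
    have h3 : (θ ^ k) ^ (1 / 4 : ℝ) = xk θ k w ^ (1 / 4 : ℝ) * dl θ k w ^ (1 / 4 : ℝ) := by
      rw [h2, Real.mul_rpow hx0.le hd.le]
    have h4 : xk θ k w ≤ 4 * xk θ k w ^ (1 / 4 : ℝ) := by
      have h5 : xk θ k w = xk θ k w ^ (3 / 4 : ℝ) * xk θ k w ^ (1 / 4 : ℝ) := by
        rw [← Real.rpow_add hx0]
        norm_num
      have h6 : xk θ k w ^ (3 / 4 : ℝ) ≤ 4 := by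
        calc xk θ k w ^ (3 / 4 : ℝ) ≤ 4 ^ (3 / 4 : ℝ) := Real.rpow_le_rpow hx0.le hx4 (by norm_num)
          _ ≤ 4 ^ (1 : ℝ) := Real.rpow_le_rpow_of_exponent_le (by norm_num) (by norm_num)
          _ = 4 := Real.rpow_one 4
      have h7 : 0 ≤ xk θ k w ^ (1 / 4 : ℝ) := Real.rpow_nonneg hx0.le _
      calc xk θ k w = xk θ k w ^ (3 / 4 : ℝ) * xk θ k w ^ (1 / 4 : ℝ) := h5
        _ ≤ 4 * xk θ k w ^ (1 / 4 : ℝ) := mul_le_mul_of_nonneg_right h6 h7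
    rw [h3]
    have h8 := mul_le_mul_of_nonneg_right h4 (Real.rpow_nonneg hd.le (1 / 4 : ℝ))
    linarith
  unfold Uk Wk ek
  have h9 := mul_le_mul_of_nonneg_right hkey hI
  linarith

end Pool.Agent.MPca0fc2.TS
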