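import Mathlib
import Pool.Agent.Lib.MP_ca0fc2_an.Mg.G122
import Pool.Agent.Lib.MP_ca0fc2_an.TS.PoB
import Pool.Agent.Lib.MP_ca0fc2_an.TS.Gr
import Pool.Agent.Lib.MP_ca0fc2_an.PTInc

set_option autoImplicit false

open Metric Set MeasureTheory Filter Topology
open scoped InnerProductSpace ENNReal ContDiff

/-! # The estimates of the dilated data -/

namespace Pool.Agent.MPca0fc2.TS

open Pool.Agent.MPca0fc2.PT
open Pool.Agent.MPca0fc2.QT

variable {E : Type*} [NormedAddCommGroup E] [InnerProductSpace ℂ E]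
variable [FiniteDimensional ℂ E] [MeasurableSpace E] [BorelSpace E]

omit [MeasurableSpace E] [BorelSpace E] in
/-- the gradient by `IG2` -/
private theorem Gd_exists_grad {u : E → ℂ} {y : E} (hy : ‖y‖ < 1) (X : E) :
    ‖fderiv ℂ u y X‖ ≤ 3 * Real.sqrt (IG2 u y) * gau (1 - ‖y‖ ^ 2) y X := by
  obtain ⟨v, hv, hvn⟩ := gg'_zero_surj hy X
  have h1 := gd_IG (u := u) hy v
  rw [hv] at h1
  refine h1.trans ?_
  calc Real.sqrt (IG2 u y) * ‖v‖ ≤ Real.sqrt (IG2 u y) * (3 * gau (1 - ‖y‖ ^ 2) y X) :=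
        mul_le_mul_of_nonneg_left hvn (Real.sqrt_nonneg _)
    _ = _ := by ring

/-- `|f_j'(y) X| ≤ 3 √(IG2 f_j y) gau (1 - |y|²) y X` (`gg'_zero_surj`, `gd_IG`), `IG2 ≤ 1`,
`IG_mean`, and for `y = s w`, `rt θ k ≤ s ≤ rt θ (k + 1)`: `IG2 f_j y ≤ C W_k w` by `PP_shift`
(the depth of `y` is `≤ dl θ k w`). `g0`, `g1`: `s = rt θ k`, `rt θ (k + 1)`, `age_gau_le`,
`gau_mul`, `dl_succ`. `df`: the mean value inequality on the segment, `|f_j'(s w) w| ≤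
C √(IG2) / dl θ k w`, the length of the segment is `≤ θ^k`. -/
theorem Gd_exists (μ : Measure E) [μ.IsAddHaarMeasure] {m : ℕ}
    (hdim : Module.finrank ℂ E = m + 1) {M : ℕ} (hM : m + 2 ≤ M) {θ : ℝ} (h0 : 0 < θ)
    (h1 : θ < 1) :
    ∃ C : ℝ, 0 < C ∧ ∀ (N : ℕ) (f : Fin N → E → ℂ),
      (∀ j, DifferentiableOn ℂ (f j) (ball 0 1)) → (∀ j, ∀ z ∈ ball (0 : E) 1, ‖f j z‖ ≤ 1) →
      Gd f θ (nuE μ m M f) M C := by
  obtain ⟨C₁, hC₁, hmean⟩ := IG_mean μ hdim hM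
  have hp0 : (0 : ℝ) ≤ (M : ℝ) + 1 / 4 := by positivity
  obtain ⟨C₂, hC₂, hshift⟩ := PP_shift (E := E) h0 h1 hp0
  obtain ⟨K, hK⟩ : ∃ K : ℝ, K = 1 + Real.sqrt (C₁ * C₂) := ⟨_, rfl⟩
  have hK1 : 1 ≤ K := by
    rw [hK]
    linarith [Real.sqrt_nonneg (C₁ * C₂)]
  have hK0 : 0 < K := by linarith
  have hCpos : 0 < 336 * K / θ := by positivity
  refine ⟨336 * K / θ, hCpos, ?_⟩
  intro N f hf hfM
  have hOn : OnB (nuE μ m M f) := nuE_OnB μ hM hf hfM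
  set ν : Measure E := nuE μ m M f with hν
  -- the basic estimate
  have key : ∀ (j : Fin N) (k : ℕ) (w : E), ‖w‖ < RC θ k → ∀ s : ℝ, rt θ k ≤ s →
      s ≤ rt θ (k + 1) → ∀ X : E, ‖fderiv ℂ (f j) ((s : ℂ) • w) X‖ ≤
        3 * (K * min 1 (Real.sqrt (Wk ν M θ k w))) *
          gau (1 - ‖(s : ℂ) • w‖ ^ 2) ((s : ℂ) • w) X := by
    intro j k w hw s hs1 hs2 X
    have hr0 := inc_rt_nonneg h0 h1 k
    have hs0 : 0 ≤ s := hr0.trans hs1
    have hsw : s * ‖w‖ < 1 :=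
      lt_of_le_of_lt (mul_le_mul_of_nonneg_right hs2 (norm_nonneg _)) (rt_mul_lt h0 h1 le_rfl hw)
    have hy : ‖(s : ℂ) • w‖ < 1 := by rw [inc_norm_smul hs0]; exact hsw
    have hdep := (inc_depth h0 h1 hw hs0 hs2).1
    have hyd : 1 - ‖(s : ℂ) • w‖ ^ 2 = 1 - s ^ 2 * ‖w‖ ^ 2 := by
      rw [inc_norm_smul hs0]; ring
    have hd : 1 - ‖(s : ℂ) • w‖ ^ 2 ≤ dl θ k w := by
      rw [hyd]
      unfold dl
      have : rt θ k ^ 2 ≤ s ^ 2 := pow_le_pow_left₀ hr0 hs1 2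
      have := mul_le_mul_of_nonneg_right this (sq_nonneg ‖w‖)
      linarith
    have hd0 : 0 < 1 - ‖(s : ℂ) • w‖ ^ 2 := by rw [hyd]; exact hdep
    have hg0 := inc_gau_nonneg hd0 ((s : ℂ) • w) X
    have e1 := Gd_exists_grad (u := f j) hy X
    refine e1.trans ?_
    refine mul_le_mul_of_nonneg_right (mul_le_mul_of_nonneg_left ?_ (by norm_num)) hg0
    have hI1 : IG2 (f j) ((s : ℂ) • w) ≤ 1 := IG2_le (hf j) (hfM j) hy
    have hI2 : IG2 (f j) ((s : ℂ) • w) ≤ C₁ * C₂ * Wk ν M θ k w := by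
      refine (hmean N f hf hfM j _ hy).trans ?_
      have h2 := hshift ν hOn k s w hs1 hs2 hw
      have h3 : (1 - ‖(s : ℂ) • w‖ ^ 2) ^ (1 / 4 : ℝ) ≤ dl θ k w ^ (1 / 4 : ℝ) :=
        Real.rpow_le_rpow hd0.le hd (by norm_num)
      have h4 : 0 ≤ PP ν ((M : ℝ) + 1 / 4) ((s : ℂ) • w) := PP_nonneg _ _ _
      have h5 : 0 ≤ dl θ k w ^ (1 / 4 : ℝ) := Real.rpow_nonneg (hd0.le.trans hd) _
      calc C₁ * ((1 - ‖(s : ℂ) • w‖ ^ 2) ^ (1 / 4 : ℝ) * PP ν ((M : ℝ) + 1 / 4) ((s : ℂ) • w))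
          ≤ C₁ * (dl θ k w ^ (1 / 4 : ℝ) * (C₂ * PP ν ((M : ℝ) + 1 / 4) ((rt θ k : ℂ) • w))) :=
            mul_le_mul_of_nonneg_left (mul_le_mul h3 h2 h4 h5) hC₁.le
        _ = C₁ * C₂ * Wk ν M θ k w := by
            unfold Wk Ik
            ring
    have hW0 : 0 ≤ Wk ν M θ k w := by
      unfold Wk
      exact mul_nonneg (Real.rpow_nonneg (hd0.le.trans hd) _) (Ik_nonneg _ _ _ _ _)
    have hs1' : Real.sqrt (IG2 (f j) ((s : ℂ) • w)) ≤ 1 := by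
      rw [← Real.sqrt_one]
      exact Real.sqrt_le_sqrt hI1
    have hs2' : Real.sqrt (IG2 (f j) ((s : ℂ) • w)) ≤
        Real.sqrt (C₁ * C₂) * Real.sqrt (Wk ν M θ k w) := by
      rw [← Real.sqrt_mul (by positivity)]
      exact Real.sqrt_le_sqrt hI2
    rcases le_total 1 (Real.sqrt (Wk ν M θ k w)) with h | h
    · rw [min_eq_left h]
      linarith
    · rw [min_eq_right h]
      refine hs2'.trans (mul_le_mul_of_nonneg_right ?_ (Real.sqrt_nonneg _))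
      rw [hK]
      linarith
  have hmin0 : ∀ k w, 0 ≤ min 1 (Real.sqrt (Wk ν M θ k w)) := fun k w =>
    le_min zero_le_one (Real.sqrt_nonneg _)
  have hRC : ∀ (k : ℕ) (w : E), ‖w‖ < RC θ (k + 1) → ‖w‖ < RC θ k := fun k w hw =>
    hw.trans_le (RC_anti h0 h1 (Nat.le_succ k))
  have hc1 : 3 * K ≤ 336 * K / θ := by
    rw [le_div_iff₀ h0]
    nlinarith
  refine ⟨?_, ?_, ?_⟩
  · intro j k w v hw
    have hw' := hRC k w hw
    have hr0 := inc_rt_nonneg h0 h1 k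
    have hrw0 : rt θ k * ‖w‖ < 1 := rt_mul_lt h0 h1 (Nat.le_succ k) hw'
    have hd0 : 0 < dl θ k w := inc_dl_pos h0 h1 (Nat.le_succ k) hw'
    have hf0 := (inc_hasFDerivAt (hf j) (θ := θ) (j := k) (w := w) hr0 hrw0).fderiv
    rw [hf0]
    have hval : ((((fderiv ℂ (f j) ((rt θ k : ℂ) • w)).comp
        ((rt θ k : ℂ) • ContinuousLinearMap.id ℂ E)).restrictScalars ℝ)) v =
        fderiv ℂ (f j) ((rt θ k : ℂ) • w) ((rt θ k : ℂ) • v) := by
      simp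
    rw [hval]
    have e0 := key j k w hw' (rt θ k) le_rfl (inc_rt_mono h0 h1 k) ((rt θ k : ℂ) • v)
    have hn0 : 1 - ‖(rt θ k : ℂ) • w‖ ^ 2 = dl θ k w := by
      rw [inc_norm_smul hr0]
      unfold dl
      ring
    rw [hn0] at e0
    have g0 := inc_gau_smul hr0 (inc_rt_le_one h0 k) hd0 w v
    have hg := inc_gau_nonneg hd0 w v
    have hm := hmin0 k w
    calc _ ≤ 3 * (K * min 1 (Real.sqrt (Wk ν M θ k w))) * gau (dl θ k w) w v :=
          e0.trans (mul_le_mul_of_nonneg_left g0 (by positivity))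
      _ = 3 * K * (min 1 (Real.sqrt (Wk ν M θ k w)) * gau (dl θ k w) w v) := by ring
      _ ≤ 336 * K / θ * (min 1 (Real.sqrt (Wk ν M θ k w)) * gau (dl θ k w) w v) :=
          mul_le_mul_of_nonneg_right hc1 (mul_nonneg hm hg)
      _ = _ := by ring
  · intro j k w v hw
    have hw' := hRC k w hw
    have hr1 := inc_rt_nonneg h0 h1 (k + 1)
    have hrw1 : rt θ (k + 1) * ‖w‖ < 1 := rt_mul_lt h0 h1 le_rfl hw'
    have hd0 : 0 < dl θ k w := inc_dl_pos h0 h1 (Nat.le_succ k) hw'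
    have hd1 : 0 < dl θ (k + 1) w := inc_dl_pos h0 h1 le_rfl hw'
    have hf0 := (inc_hasFDerivAt (hf j) (θ := θ) (j := k + 1) (w := w) hr1 hrw1).fderiv
    rw [hf0]
    have hval : ((((fderiv ℂ (f j) ((rt θ (k + 1) : ℂ) • w)).comp
        ((rt θ (k + 1) : ℂ) • ContinuousLinearMap.id ℂ E)).restrictScalars ℝ)) v =
        fderiv ℂ (f j) ((rt θ (k + 1) : ℂ) • w) ((rt θ (k + 1) : ℂ) • v) := by
      simp
    rw [hval]
    have e0 := key j k w hw' (rt θ (k + 1)) (inc_rt_mono h0 h1 k) le_rfl ((rt θ (k + 1) : ℂ) • v)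
    have hn0 : 1 - ‖(rt θ (k + 1) : ℂ) • w‖ ^ 2 = dl θ (k + 1) w := by
      rw [inc_norm_smul hr1]
      unfold dl
      ring
    rw [hn0] at e0
    have g0 := (inc_gau_smul hr1 (inc_rt_le_one h0 (k + 1)) hd1 w v).trans
      (inc_gau_succ h0 h1 hw' v)
    have hg := inc_gau_nonneg hd0 w v
    have hm := hmin0 k w
    calc _ ≤ 3 * (K * min 1 (Real.sqrt (Wk ν M θ k w))) * (32 / θ * gau (dl θ k w) w v) :=
          e0.trans (mul_le_mul_of_nonneg_left g0 (by positivity))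
      _ = 96 * (K / θ * (min 1 (Real.sqrt (Wk ν M θ k w)) * gau (dl θ k w) w v)) := by ring
      _ ≤ 336 * (K / θ * (min 1 (Real.sqrt (Wk ν M θ k w)) * gau (dl θ k w) w v)) :=
          mul_le_mul_of_nonneg_right (by norm_num)
            (mul_nonneg (by positivity) (mul_nonneg hm hg))
      _ = _ := by ring
  · intro j k w hw
    have hw' := hRC k w hw
    have hr0 := inc_rt_nonneg h0 h1 k
    have hrm := inc_rt_mono h0 h1 k
    have hrw1 : rt θ (k + 1) * ‖w‖ < 1 := rt_mul_lt h0 h1 le_rfl hw'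
    have hd0 : 0 < dl θ k w := inc_dl_pos h0 h1 (Nat.le_succ k) hw'
    have hm := hmin0 k w
    have hseg := inc_seg (hf j) (w := w) (r := rt θ k) (r' := rt θ (k + 1))
      (K := 3 * (K * min 1 (Real.sqrt (Wk ν M θ k w))) * (7 / 2 * (32 / θ) / dl θ k w))
      hr0 hrm hrw1 (by
        intro s hs
        have hs0 : 0 ≤ s := hr0.trans hs.1
        refine (key j k w hw' s hs.1 hs.2 w).trans ?_
        exact mul_le_mul_of_nonneg_left (inc_gau_seg h0 h1 hw' hs0 hs.2) (by positivity))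
    change ‖f j ((rt θ (k + 1) : ℂ) • w) - f j ((rt θ k : ℂ) • w)‖ ≤ _
    refine hseg.trans ?_
    have hdiff : rt θ (k + 1) - rt θ k ≤ θ ^ k := by
      have h3 : 0 < θ ^ (k + 1) := pow_pos h0 _
      unfold rt
      linarith
    calc 3 * (K * min 1 (Real.sqrt (Wk ν M θ k w))) * (7 / 2 * (32 / θ) / dl θ k w) *
          (rt θ (k + 1) - rt θ k)
        ≤ 3 * (K * min 1 (Real.sqrt (Wk ν M θ k w))) * (7 / 2 * (32 / θ) / dl θ k w) * θ ^ k :=
          mul_le_mul_of_nonneg_left hdiff (by positivity)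
      _ = 336 * K / θ * xk θ k w * min 1 (Real.sqrt (Wk ν M θ k w)) := by
          unfold xk
          field_simp
          ring

end Pool.Agent.MPca0fc2.TS
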