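import Mathlib
import Pool.Agent.Lib.MP_ca0fc2_an.QTCmp
import Pool.Agent.Lib.MP_ca0fc2_an.QTX6
import Pool.Agent.Lib.MP_ca0fc2_an.QTX7a
import Pool.Agent.Lib.MP_ca0fc2_an.Mg.G122
import Pool.Agent.Lib.MP_ca0fc2_an.TS.Bd1
import Pool.Agent.Lib.MP_ca0fc2_an.TS.PrV
import Pool.Agent.Lib.MP_ca0fc2_an.TS.DbN

set_option autoImplicit false
set_option maxHeartbeats 4000000

open Metric Set MeasureTheory Filter Topology
open scoped InnerProductSpace ENNReal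

/-! # The step in degree zero -/

namespace Pool.Agent.MPca0fc2.TS

open Pool.Agent.MPca0fc2.PT Pool.Agent.MPca0fc2.QT

variable {E : Type*} [NormedAddCommGroup E] [InnerProductSpace ℂ E] [FiniteDimensional ℂ E]
variable [MeasurableSpace E] [BorelSpace E]
variable {V : Type*} [NormedAddCommGroup V] [InnerProductSpace ℂ V] [FiniteDimensional ℂ V]

/-- the radius of the projection -/
noncomputable def d0_Rm (θ : ℝ) (k : ℕ) : ℝ := 1 + (θ ^ (k + 2) + θ ^ (k + 3)) / 8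

theorem d0_Rm_facts {θ : ℝ} (h0 : 0 < θ) (h1 : θ < 1) (k : ℕ) (m : ℕ) :
    1 < d0_Rm θ k ∧ d0_Rm θ k < RB θ (k + 1) ∧ d0_Rm θ k ≤ RC θ k ∧
      RB θ (k + 2) + θ ^ 2 * (1 - θ) / 8 * θ ^ k ≤ d0_Rm θ k ∧
      RB θ (k + 1) < RC θ (k + 1) ∧ RB θ (k + 1) ≤ RJ m θ (m + 1) k ∧
      RB θ (k + 2) < RB θ (k + 1) ∧ RB θ (k + 2) < d0_Rm θ k ∧
      RB θ (k + 1) ≤ RJ m θ (m + 1) (k + 1) := by
  have p0 : 0 < θ ^ k := by positivity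
  have p2 : θ ^ (k + 2) = θ ^ k * θ ^ 2 := pow_add _ _ _
  have p3 : θ ^ (k + 3) = θ ^ k * θ ^ 3 := pow_add _ _ _
  have q1 : 0 < θ ^ (k + 1) := by positivity
  have q2 : 0 < θ ^ (k + 2) := by positivity
  have q3 : 0 < θ ^ (k + 3) := by positivity
  have l2 : θ ^ (k + 2) < θ ^ (k + 1) := pow_lt_pow_right_of_lt_one₀ h0 h1 (by omega)
  have l3 : θ ^ (k + 3) < θ ^ (k + 2) := pow_lt_pow_right_of_lt_one₀ h0 h1 (by omega)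
  have eJ : ∀ j, RJ m θ (m + 1) j = 1 + 3 / 8 * θ ^ (j + 1) := by
    intro j
    unfold RJ
    have : (m : ℝ) + 1 ≠ 0 := by positivity
    push_cast
    field_simp
    ring
  have e : θ ^ 2 * (1 - θ) / 8 * θ ^ k = (θ ^ (k + 2) - θ ^ (k + 3)) / 8 := by
    rw [p2, p3]; ring
  rw [eJ, eJ, e]
  unfold d0_Rm RB RC
  refine ⟨?_, ?_, ?_, ?_, ?_, ?_, ?_, ?_, ?_⟩ <;> (try simp only [Nat.add_assoc, Nat.reduceAdd]) <;>
    linarith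

/-- the function of degree zero -/
noncomputable def d0_Kz {N : ℕ} (K : Car (Fin N → ℂ) V) (f : Fin N → E → ℂ) (θ : ℝ)
    (T : (r : ℕ) → ℕ → E → E [⋀^Fin r]→L[ℝ] V) (P : E → V) (k : ℕ) (w : E) : V :=
  evz E V (SS K f θ T k 0 w) - P w

section kz

variable {N M m : ℕ} {K : Car (Fin N → ℂ) V} {f : Fin N → E → ℂ} {δ θ B : ℝ} {ν : Measure E}
variable {T : (r : ℕ) → ℕ → E → E [⋀^Fin r]→L[ℝ] V} {P : E → V} {k : ℕ}

theorem d0_Kz_c1 (D : TD f δ θ) (S : Des K f θ ν M m B T)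
    (hP : DifferentiableOn ℂ P (ball 0 (RB θ (k + 1)))) :
    ContDiffOn ℝ 1 (d0_Kz K f θ T P k) (ball 0 (RB θ (k + 1))) := by
  obtain ⟨_, _, _, _, _, h6, _⟩ := d0_Rm_facts D.θ0 D.θ1 k m
  have e1 : ContDiffOn ℝ 1 (fun w => evz E V (SS K f θ T k 0 w)) (ball 0 (RB θ (k + 1))) :=
    (evz E V).contDiff.comp_contDiffOn ((S.sc1 0 k).mono (ball_subset_ball h6))
  exact e1.sub (holo_c1' isOpen_ball hP)

omit [BorelSpace E] [FiniteDimensional ℂ E] [FiniteDimensional ℂ V] in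
theorem d0_Kz_D01 (D : TD f δ θ) (S : Des K f θ ν M m B T)
    (hP : DifferentiableOn ℂ P (ball 0 (RB θ (k + 1)))) {w : E} (hw : ‖w‖ < RB θ (k + 1)) (v : E) :
    D01 (d0_Kz K f θ T P k) w v = UU K (s0 f θ k) 1 w (fun _ => v) -
      K.c (FF f θ k w) (SS K f θ T k 1 w (fun _ => v)) := by
  obtain ⟨_, _, _, _, _, h6, _⟩ := d0_Rm_facts D.θ0 D.θ1 k m
  have hwJ : w ∈ ball (0 : E) (RJ m θ (m + 1) k) := mem_ball_zero_iff.mpr (hw.trans_le h6)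
  have hwB : w ∈ ball (0 : E) (RB θ (k + 1)) := mem_ball_zero_iff.mpr hw
  have hS : DifferentiableAt ℝ (SS K f θ T k 0) w :=
    ((S.sc1 0 k).differentiableOn one_ne_zero).differentiableAt (isOpen_ball.mem_nhds hwJ)
  have hPd : DifferentiableAt ℂ P w := hP.differentiableAt (isOpen_ball.mem_nhds hwB)
  have e1 := D01_evz hS v
  rw [S.sdb 0 k w hwJ] at e1
  have e2 : D01 P w = 0 := D01_holo hPd
  have e3 : DifferentiableAt ℝ (fun w => evz E V (SS K f θ T k 0 w)) w :=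
    (evz E V).differentiableAt.comp w hS
  have e4 : D01 (d0_Kz K f θ T P k) w v = D01 (fun w => evz E V (SS K f θ T k 0 w)) w v -
      D01 P w v := by
    unfold d0_Kz
    rw [D01_apply, D01_apply, D01_apply, fderiv_fun_sub e3 (hPd.restrictScalars ℝ)]
    simp only [sub_apply]
    module
  have e5 : (UU K (s0 f θ k) (0 + 1) w - opc E V (0 + 1) (K.c (FF f θ k w))
      (SS K f θ T k (0 + 1) w)) (fun _ => v) = UU K (s0 f θ k) 1 w (fun _ => v) -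
        K.c (FF f θ k w) (SS K f θ T k 1 w (fun _ => v)) := rfl
  rw [e4, e1, e2, e5, zero_apply, sub_zero]

omit [FiniteDimensional ℂ E] [MeasurableSpace E] [BorelSpace E] [FiniteDimensional ℂ V] in
theorem d0_Kz_succ (P Q : E → V) (k : ℕ) (w : E) :
    d0_Kz K f θ T (fun w => P w + Q w) (k + 1) w =
      d0_Kz K f θ T P k w + d0_Jf K f θ k w - Q w + evz E V (T 0 k w) := by
  unfold d0_Kz
  have e1 : SS K f θ T (k + 1) 0 w = SS K f θ T k 0 w + (JK K f θ k 0 w + T 0 k w) := by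
    unfold SS
    rw [Finset.sum_range_succ]
  have e2 : evz E V (JK K f θ k 0 w) = d0_Jf K f θ k w := by
    unfold JK
    rw [JJ_zero_eq, evz_cst]
    rfl
  rw [e1, map_add, map_add, e2]
  beta_reduce
  abel

end kz

theorem d0_st_real {CJ B C₃ C₄ C₅ C₁ B₀ : ℝ} (hC₁0 : 0 < C₁) (hB₀0 : 0 < B₀)
    (hC₁ : C₁ = 8 * (8 * CJ ^ 2 + B + C₅ * C₃)) (h3 : 8 * C₅ * C₄ ≤ B₀) :
    8 * CJ ^ 2 + B + C₅ * (C₃ + C₄ * C₁ / B₀) ≤ C₁ / 4 := by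
  have h1 : C₅ * (C₄ * C₁ / B₀) ≤ C₁ / 8 := by
    rw [← mul_div_assoc, div_le_iff₀ hB₀0]
    have := mul_le_mul_of_nonneg_right h3 hC₁0.le
    linarith
  have h2 : C₅ * (C₃ + C₄ * C₁ / B₀) = C₅ * C₃ + C₅ * (C₄ * C₁ / B₀) := mul_add _ _ _
  linarith

/-- one step, with constants -/
theorem d0_one_step (μ : Measure E) [μ.IsAddHaarMeasure] {m : ℕ} (hm : 1 ≤ m)
    (hdim : Module.finrank ℂ E = m + 1) {N : ℕ} (M : ℕ) (K : Car (Fin N → ℂ) V)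
    {δ θ Cg B CP : ℝ} (hθ0 : 0 < θ) (hθ1 : θ < 1) (hδ : 0 < δ) (hCg : 0 ≤ Cg) (hB : 0 ≤ B)
    (hCP : 0 ≤ CP) :
    ∃ B₀ C₁ : ℝ, 1 ≤ B₀ ∧ 0 < C₁ ∧ ∀ (f : Fin N → E → ℂ) (ν : Measure E)
      (T : (r : ℕ) → ℕ → E → E [⋀^Fin r]→L[ℝ] V), TD f δ θ → Gd f θ ν M Cg →
      Pot ν M θ (θ ^ 2 * (1 - θ) / 8) CP → Des K f θ ν M m B T →
      ∀ (k : ℕ) (P : E → V), DifferentiableOn ℂ P (ball 0 (RB θ (k + 1))) →
      (∀ w : E, ‖w‖ < RB θ (k + 1) → ‖d0_Kz K f θ T P k w‖ ≤ d0_BB0 ν M θ B₀ C₁ k w) →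
      ∃ P' : E → V, DifferentiableOn ℂ P' (ball 0 (RB θ (k + 2))) ∧
        ∀ w : E, ‖w‖ < RB θ (k + 2) →
          ‖d0_Kz K f θ T P' (k + 1) w‖ ≤ d0_BB0 ν M θ B₀ C₁ (k + 1) w := by
  obtain ⟨CJ, hCJ, hJ⟩ := d0_Jf_bd (E := E) K (θ := θ) hCg hδ
  obtain ⟨Ck, hCk, hK⟩ := d0_Kq_bd (E := E) (m := m) K (θ := θ) hCg hδ hB
  obtain ⟨Cb, hCb, hb⟩ := d0_BB0_fd (E := E) hθ0 hθ1 hCP
  obtain ⟨Cc, hCc, hc⟩ := gau_compare (E := E) hθ0 hθ1 (one_pos (α := ℝ))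
  obtain ⟨Cp, hCp, hp⟩ := PRV_sub (E := E) (V := V) (M + 3) μ hm hdim
  obtain ⟨C₃, hC₃⟩ : ∃ C₃ : ℝ, C₃ = CJ + 4 * CJ * Ck := ⟨_, rfl⟩
  obtain ⟨C₄, hC₄⟩ : ∃ C₄ : ℝ, C₄ = 2 * CJ * Cb := ⟨_, rfl⟩
  obtain ⟨C₅, hC₅⟩ : ∃ C₅ : ℝ, C₅ = Cp * (Cc * CP) := ⟨_, rfl⟩
  have hC₃0 : 0 < C₃ := by rw [hC₃]; positivity
  have hC₄0 : 0 < C₄ := by rw [hC₄]; positivity
  have hC₅0 : 0 ≤ C₅ := by rw [hC₅]; positivity
  obtain ⟨C₁, hC₁⟩ : ∃ C₁ : ℝ, C₁ = 8 * (8 * CJ ^ 2 + B + C₅ * C₃) := ⟨_, rfl⟩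
  have hC₁0 : 0 < C₁ := by rw [hC₁]; positivity
  obtain ⟨B₀, hB₀⟩ : ∃ B₀ : ℝ, B₀ = 1 + 8 * CJ + 8 * C₅ * C₄ := ⟨_, rfl⟩
  have hB₀1 : 1 ≤ B₀ := by rw [hB₀]; linarith [mul_nonneg hC₅0 hC₄0.le]
  have hB₀2 : 8 * CJ ≤ B₀ := by rw [hB₀]; linarith [mul_nonneg hC₅0 hC₄0.le]
  have hB₀3 : 8 * C₅ * C₄ ≤ B₀ := by rw [hB₀]; linarith
  have hB₀0 : 0 < B₀ := by linarith
  refine ⟨B₀, C₁, hB₀1, hC₁0, ?_⟩
  intro f ν T D G Po S k P hP hbd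
  obtain ⟨r1, r2, r3, r4, r5, r6, r7, r8, r9⟩ := d0_Rm_facts hθ0 hθ1 k m
  obtain ⟨Nf, hNf⟩ : ∃ Nf : E → V, Nf = Nb (d0_Jf K f θ k) (d0_Kz K f θ T P k)
    (d0_BB0 ν M θ B₀ C₁ k) := ⟨_, rfl⟩
  have hRC : RC θ (k + 1) ≤ RC θ k := d0_TS_RC_le hθ0 hθ1 k
  -- facts at a point
  have hBge : ∀ w : E, B₀ ≤ d0_BB0 ν M θ B₀ C₁ k w := fun w => d0_BB0_ge hθ0 hC₁0.le w
  have hNc : ContDiffOn ℝ 1 Nf (ball 0 (RB θ (k + 1))) := by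
    intro w hw
    have hw' := mem_ball_zero_iff.mp hw
    rw [hNf]
    have a1 : ContDiffAt ℝ 1 (d0_Jf K f θ k) w := d0_Jf_c1 K D (hw'.trans r5)
    have a2 : ContDiffAt ℝ 1 (d0_Kz K f θ T P k) w :=
      (d0_Kz_c1 D S hP).contDiffAt (isOpen_ball.mem_nhds hw)
    have a3 : ContDiffAt ℝ 1 (d0_BB0 ν M θ B₀ C₁ k) w :=
      (Po.BB0_c1 hθ0 hθ1 B₀ C₁).contDiffAt (isOpen_ball.mem_nhds
        (mem_ball_zero_iff.mpr ((hw'.trans r5).trans_le hRC)))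
    exact (Nb_c1 a1 a2 a3 (hB₀0.trans_le (hBge w))).contDiffWithinAt
  obtain ⟨L, hL⟩ : ∃ L : ℝ, L = C₃ + C₄ * C₁ / B₀ := ⟨_, rfl⟩
  have hL0 : 0 ≤ L := by rw [hL]; positivity
  have hN01 : ∀ w : E, ‖w‖ < RB θ (k + 1) → ∀ v : E,
      ‖D01 Nf w v‖ ≤ L * Uk ν M θ k w * gau (dl θ k w) w v := by
    intro w hw v
    have hwC := hw.trans r5
    have hwC' := hwC.trans_le hRC
    have hwB : w ∈ ball (0 : E) (RB θ (k + 1)) := mem_ball_zero_iff.mpr hw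
    have hd := dl_pos hθ0 hθ1 hwC'
    have hx := xk_pos hθ0 hθ1 hwC'
    have hg : 0 ≤ gau (dl θ k w) w v := PT.gau_nonneg hd.le w v
    have hW := d0_Wk_nonneg (ν := ν) (M := M) hθ0 hθ1 hwC'
    have hm0 : 0 ≤ d0_mW ν M θ k w := d0_mW_nonneg
    have hm1 : d0_mW ν M θ k w ≤ 1 := d0_mW_le_one
    have hBw := hBge w
    have hB1 : 1 ≤ d0_BB0 ν M θ B₀ C₁ k w := hB₀1.trans hBw
    obtain ⟨j1, j2⟩ := hJ f ν M D G k w hwC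
    have a1 : DifferentiableAt ℝ (d0_Jf K f θ k) w := (d0_Jf_c1 K D hwC).differentiableAt one_ne_zero
    have a2 : DifferentiableAt ℝ (d0_Kz K f θ T P k) w :=
      ((d0_Kz_c1 D S hP).contDiffAt (isOpen_ball.mem_nhds hwB)).differentiableAt one_ne_zero
    have a3 : DifferentiableAt ℝ (d0_BB0 ν M θ B₀ C₁ k) w :=
      ((Po.BB0_c1 hθ0 hθ1 B₀ C₁).contDiffAt (isOpen_ball.mem_nhds
        (mem_ball_zero_iff.mpr hwC'))).differentiableAt one_ne_zero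
    have a4 : ‖D01 (d0_Kz K f θ T P k) w v‖ ≤ Ck * (d0_mW ν M θ k w + Wk ν M θ k w) *
        gau (dl θ k w) w v := by
      rw [d0_Kz_D01 D S hP hw]
      exact hK f ν M T D G S k w hwC (hw.trans_le r6) v
    have a5 := hb ν M _ Po B₀ C₁ hC₁0.le k w hwC' v
    have a6 := hb ν M _ Po B₀ C₁ hC₁0.le k w hwC' (Complex.I • v)
    rw [PT.gau_I] at a6
    have key := Nb_D01 a1 a2 a3 (by linarith) (hbd w hw) v (j2 v) a4 a5 a6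
    rw [← hNf] at key
    refine key.trans ?_
    have k1 : 2 * ‖d0_Jf K f θ k w‖ * (Ck * (d0_mW ν M θ k w + Wk ν M θ k w) *
        gau (dl θ k w) w v) / d0_BB0 ν M θ B₀ C₁ k w ≤
        4 * CJ * Ck * Uk ν M θ k w * gau (dl θ k w) w v := by
      rw [div_le_iff₀ (by linarith)]
      calc 2 * ‖d0_Jf K f θ k w‖ * (Ck * (d0_mW ν M θ k w + Wk ν M θ k w) * gau (dl θ k w) w v)
          ≤ 2 * (CJ * xk θ k w * d0_mW ν M θ k w) * (Ck * (d0_mW ν M θ k w + Wk ν M θ k w) *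
            gau (dl θ k w) w v) := by gcongr
        _ = 2 * CJ * Ck * xk θ k w * gau (dl θ k w) w v *
            (d0_mW ν M θ k w * d0_mW ν M θ k w + d0_mW ν M θ k w * Wk ν M θ k w) := by ring
        _ ≤ 2 * CJ * Ck * xk θ k w * gau (dl θ k w) w v * (Wk ν M θ k w + 1 * Wk ν M θ k w) := by
            have := d0_mW_sq (ν := ν) (M := M) (θ := θ) (k := k) (w := w) hW
            gcongr
        _ = 4 * CJ * Ck * Uk ν M θ k w * gau (dl θ k w) w v * 1 := by unfold Uk; ring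
        _ ≤ _ := by
            have := d0_Uk_nonneg (ν := ν) (M := M) hθ0 hθ1 hwC'
            gcongr
    have k2 : 2 * ‖d0_Jf K f θ k w‖ * (C₁ * (Cb * Wk ν M θ k w) * gau (dl θ k w) w v) /
        d0_BB0 ν M θ B₀ C₁ k w ≤ C₄ * C₁ / B₀ * Uk ν M θ k w * gau (dl θ k w) w v := by
      calc 2 * ‖d0_Jf K f θ k w‖ * (C₁ * (Cb * Wk ν M θ k w) * gau (dl θ k w) w v) /
          d0_BB0 ν M θ B₀ C₁ k w
          ≤ 2 * (CJ * xk θ k w * 1) * (C₁ * (Cb * Wk ν M θ k w) * gau (dl θ k w) w v) / B₀ := by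
            have : ‖d0_Jf K f θ k w‖ ≤ CJ * xk θ k w * 1 := j1.trans (by gcongr)
            gcongr
        _ = _ := by rw [hC₄]; unfold Uk; ring
    rw [hL, hC₃]
    calc _ ≤ CJ * Uk ν M θ k w * gau (dl θ k w) w v +
          4 * CJ * Ck * Uk ν M θ k w * gau (dl θ k w) w v +
          C₄ * C₁ / B₀ * Uk ν M θ k w * gau (dl θ k w) w v := add_le_add (add_le_add le_rfl k1) k2
      _ = _ := by ring
  have hRm0 : 0 < d0_Rm θ k := by linarith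
  have hcb : closedBall (0 : E) (d0_Rm θ k) ⊆ ball 0 (RB θ (k + 1)) := closedBall_subset_ball r2
  have hQd : DifferentiableOn ℂ (PRV (M + 3 + 1) μ m (d0_Rm θ k) Nf) (ball 0 (d0_Rm θ k)) :=
    PRV_diff _ μ hRm0 hcb hNc
  refine ⟨fun w => P w + PRV (M + 3 + 1) μ m (d0_Rm θ k) Nf w, ?_, ?_⟩
  · exact (hP.mono (ball_subset_ball r7.le)).add (hQd.mono (ball_subset_ball r8.le))
  intro z hz
  have hzR : ‖z‖ < d0_Rm θ k := hz.trans r8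
  have hzB : ‖z‖ < RB θ (k + 1) := hz.trans r7
  have hzC := hzB.trans r5
  have hzC' := hzC.trans_le hRC
  have hU := d0_Uk_nonneg (ν := ν) (M := M) hθ0 hθ1 hzC'
  have hW := d0_Wk_nonneg (ν := ν) (M := M) hθ0 hθ1 hzC'
  have hx := xk_pos hθ0 hθ1 hzC'
  have hx4 := xk_le hθ0 hθ1 hzC'
  have hm0 : 0 ≤ d0_mW ν M θ k z := d0_mW_nonneg
  have hm1 : d0_mW ν M θ k z ≤ 1 := d0_mW_le_one
  rw [d0_Kz_succ]
  -- the projection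
  have hproj : ‖PRV (M + 3 + 1) μ m (d0_Rm θ k) Nf z - Nf z‖ ≤ C₅ * L * Uk ν M θ k z := by
    have := hp (d0_Rm θ k) Nf (ball 0 (RB θ (k + 1))) z (L * (Cc * (CP * Uk ν M θ k z)))
      hRm0 isOpen_ball hcb hNc hzR (by positivity) ?_
    · refine this.trans (le_of_eq ?_)
      rw [hC₅]
      ring
    intro w hw x
    have hwR : ‖w‖ < d0_Rm θ k := mem_ball_zero_iff.mp hw
    have hwC' := ((hwR.trans r2).trans r5).trans_le hRC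
    have b1 := hN01 w (hwR.trans r2) x
    have b2 := (hc k (d0_Rm θ k) w x r1.le r3).1 hwR
    have b3 := Po.har k (d0_Rm θ k) w z r1.le r3 (by linarith) hwR
    have hgR : 0 ≤ gau (d0_Rm θ k ^ 2 - ‖w‖ ^ 2) w x := by
      apply PT.gau_nonneg
      have : ‖w‖ ^ 2 ≤ d0_Rm θ k ^ 2 := pow_le_pow_left₀ (norm_nonneg _) hwR.le 2
      linarith
    have hUw := d0_Uk_nonneg (ν := ν) (M := M) hθ0 hθ1 hwC'
    calc ‖D01 Nf w x‖ ≤ L * Uk ν M θ k w * gau (dl θ k w) w x := b1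
      _ ≤ L * Uk ν M θ k w * (Cc * gau (d0_Rm θ k ^ 2 - ‖w‖ ^ 2) w x) := by gcongr
      _ = L * Cc * gau (d0_Rm θ k ^ 2 - ‖w‖ ^ 2) w x * Uk ν M θ k w := by ring
      _ ≤ L * Cc * gau (d0_Rm θ k ^ 2 - ‖w‖ ^ 2) w x * (CP * Uk ν M θ k z *
          (‖((d0_Rm θ k ^ 2 : ℝ) : ℂ) - ⟪w, z⟫_ℂ‖ / (d0_Rm θ k ^ 2 - ‖w‖ ^ 2)) ^ (M + 3) *
          Real.sqrt ((d0_Rm θ k ^ 2 - ‖z‖ ^ 2) / ‖((d0_Rm θ k ^ 2 : ℝ) : ℂ) - ⟪w, z⟫_ℂ‖)) := by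
          gcongr
      _ = _ := by ring
  -- the barrier
  have hBz := hBge z
  have hB1 : 1 ≤ d0_BB0 ν M θ B₀ C₁ k z := hB₀1.trans hBz
  obtain ⟨j1, -⟩ := hJ f ν M D G k z hzC
  have j3 : ‖d0_Jf K f θ k z‖ ≤ CJ * 4 := by
    calc ‖d0_Jf K f θ k z‖ ≤ CJ * xk θ k z * d0_mW ν M θ k z := j1
      _ ≤ CJ * 4 * 1 := by gcongr
      _ = CJ * 4 := mul_one _
  have j4 : ‖d0_Jf K f θ k z‖ ^ 2 ≤ 4 * CJ ^ 2 * Uk ν M θ k z := by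
    calc ‖d0_Jf K f θ k z‖ ^ 2 ≤ (CJ * xk θ k z * d0_mW ν M θ k z) ^ 2 :=
          pow_le_pow_left₀ (norm_nonneg _) j1 2
      _ = CJ ^ 2 * xk θ k z * (xk θ k z * (d0_mW ν M θ k z * d0_mW ν M θ k z)) := by ring
      _ ≤ CJ ^ 2 * 4 * (xk θ k z * Wk ν M θ k z) := by
          have := d0_mW_sq (ν := ν) (M := M) (θ := θ) (k := k) (w := z) hW
          gcongr
      _ = 4 * CJ ^ 2 * Uk ν M θ k z := by unfold Uk; ring
  have hbar := bar_step (d0_Kz K f θ T P k z) (d0_Jf K f θ k z) (B := d0_BB0 ν M θ B₀ C₁ k z)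
    (by linarith) (hbd z hzB) (by linarith)
  rw [← Nb_eq, ← hNf] at hbar
  have hT : ‖evz E V (T 0 k z)‖ ≤ B * Uk ν M θ k z := by
    have := S.bd 0 k z (hzB.trans_le r9) (fun i => i.elim0)
    rw [Fin.prod_univ_zero, mul_one] at this
    rwa [norm_evz (T 0 k z) (fun i => i.elim0)]
  have e : d0_Kz K f θ T P k z + d0_Jf K f θ k z - PRV (M + 3 + 1) μ m (d0_Rm θ k) Nf z +
      evz E V (T 0 k z) = (d0_Kz K f θ T P k z + d0_Jf K f θ k z - Nf z) -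
        (PRV (M + 3 + 1) μ m (d0_Rm θ k) Nf z - Nf z) + evz E V (T 0 k z) := by abel
  rw [e]
  have h8 : 2 * ‖d0_Jf K f θ k z‖ ^ 2 / d0_BB0 ν M θ B₀ C₁ k z ≤ 8 * CJ ^ 2 * Uk ν M θ k z := by
    calc 2 * ‖d0_Jf K f θ k z‖ ^ 2 / d0_BB0 ν M θ B₀ C₁ k z ≤ 2 * ‖d0_Jf K f θ k z‖ ^ 2 / 1 := by gcongr
      _ ≤ _ := by rw [div_one]; linarith
  have h9 : (8 * CJ ^ 2 + B + C₅ * L) * Uk ν M θ k z ≤ C₁ * ek ν M θ k z := by
    have hek := d0_Uk_le_ek (ν := ν) (M := M) hθ0 hθ1 hzC'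
    have hek0 : 0 ≤ ek ν M θ k z := d0_ek_nonneg hθ0
    have h11 : 8 * CJ ^ 2 + B + C₅ * L ≤ C₁ / 4 := by
      rw [hL]
      exact d0_st_real hC₁0 hB₀0 hC₁ hB₀3
    calc (8 * CJ ^ 2 + B + C₅ * L) * Uk ν M θ k z ≤ C₁ / 4 * (4 * ek ν M θ k z) :=
          mul_le_mul h11 hek hU (by positivity)
      _ = C₁ * ek ν M θ k z := by ring
  rw [d0_BB0_succ]
  calc _ ≤ ‖d0_Kz K f θ T P k z + d0_Jf K f θ k z - Nf z‖ +
        ‖PRV (M + 3 + 1) μ m (d0_Rm θ k) Nf z - Nf z‖ + ‖evz E V (T 0 k z)‖ :=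
        (norm_add_le _ _).trans (add_le_add (norm_sub_le _ _) le_rfl)
    _ ≤ (d0_BB0 ν M θ B₀ C₁ k z + 8 * CJ ^ 2 * Uk ν M θ k z) + C₅ * L * Uk ν M θ k z +
        B * Uk ν M θ k z :=
        add_le_add (add_le_add (hbar.trans (add_le_add le_rfl h8)) hproj) hT
    _ = d0_BB0 ν M θ B₀ C₁ k z + (8 * CJ ^ 2 + B + C₅ * L) * Uk ν M θ k z := by ring
    _ ≤ _ := by linarith

/-- the functions of degree zero -/
theorem d0_step0 (μ : Measure E) [μ.IsAddHaarMeasure] {m : ℕ} (hm : 1 ≤ m)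
    (hdim : Module.finrank ℂ E = m + 1) {N : ℕ} (M : ℕ) (K : Car (Fin N → ℂ) V)
    {δ θ Cg B CP : ℝ} (hθ0 : 0 < θ) (hθ1 : θ < 1) (hδ : 0 < δ) (hCg : 0 ≤ Cg) (hB : 0 ≤ B)
    (hCP : 0 ≤ CP) :
    ∃ C : ℝ, 0 < C ∧ ∀ (f : Fin N → E → ℂ) (ν : Measure E)
      (T : (r : ℕ) → ℕ → E → E [⋀^Fin r]→L[ℝ] V), TD f δ θ → Gd f θ ν M Cg →
      Pot ν M θ (θ ^ 2 * (1 - θ) / 8) CP → Des K f θ ν M m B T →
      ∀ k, ∃ P : E → V, DifferentiableOn ℂ P (ball 0 (RB θ (k + 1))) ∧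
        ∀ w ∈ ball (0 : E) (RB θ (k + 1)), ‖evz E V (SS K f θ T k 0 w) - P w‖ ≤
          C * (1 + ∑ j ∈ Finset.range k, ek ν M θ j w) := by
  obtain ⟨B₀, C₁, hB₀, hC₁, hs⟩ :=
    d0_one_step (E := E) (V := V) μ hm hdim M K hθ0 hθ1 hδ hCg hB hCP
  refine ⟨B₀ + C₁, by positivity, ?_⟩
  intro f ν T D G Po S
  have hind : ∀ k, ∃ P : E → V, DifferentiableOn ℂ P (ball 0 (RB θ (k + 1))) ∧
      ∀ w : E, ‖w‖ < RB θ (k + 1) → ‖d0_Kz K f θ T P k w‖ ≤ d0_BB0 ν M θ B₀ C₁ k w := by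
    intro k
    induction k with
    | zero =>
      refine ⟨fun _ => 0, differentiableOn_const _, fun w hw => ?_⟩
      have : d0_Kz K f θ T (fun _ => 0) 0 w = 0 := by
        unfold d0_Kz SS
        simp
      rw [this, norm_zero]
      exact (by linarith : (0 : ℝ) ≤ B₀).trans (d0_BB0_ge hθ0 hC₁.le w)
    | succ k ih =>
      obtain ⟨P, hP, hb⟩ := ih
      exact hs f ν T D G Po S k P hP hb
  intro k
  obtain ⟨P, hP, hb⟩ := hind k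
  refine ⟨P, hP, ?_⟩
  intro w hw
  refine (hb w (mem_ball_zero_iff.mp hw)).trans ?_
  unfold d0_BB0
  have : 0 ≤ ∑ j ∈ Finset.range k, ek ν M θ j w := Finset.sum_nonneg fun j _ => d0_ek_nonneg hθ0
  nlinarith [mul_nonneg (show (0 : ℝ) ≤ B₀ by linarith) this]

end Pool.Agent.MPca0fc2.TS
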