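import Mathlib
import Pool.Agent.Lib.MP_ca0fc2_an.Mg.G122
import Pool.Agent.Lib.MP_ca0fc2_an.TS.PoB
import Pool.Agent.Lib.MP_ca0fc2_an.TS.Ha
import Pool.Agent.Lib.MP_ca0fc2_an.TS.Step0

set_option autoImplicit false

open Metric Set MeasureTheory Filter Topology
open scoped InnerProductSpace ENNReal ContDiff

/-! # The step in degree zero (helper31) -/

namespace Pool.Agent.MPca0fc2.TS

open Pool.Agent.MPca0fc2.PT
open Pool.Agent.MPca0fc2.QT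

variable {E : Type*} [NormedAddCommGroup E] [InnerProductSpace ℂ E]
variable [FiniteDimensional ℂ E] [MeasurableSpace E] [BorelSpace E]
variable {V : Type*} [NormedAddCommGroup V] [InnerProductSpace ℂ V] [FiniteDimensional ℂ V]

/-- the facts on the potentials -/
theorem d0_Pot (E : Type*) [NormedAddCommGroup E] [InnerProductSpace ℂ E]
    [FiniteDimensional ℂ E] [MeasurableSpace E] [BorelSpace E] {θ : ℝ} (h0 : 0 < θ) (h1 : θ < 1)
    (M : ℕ) {c₀ : ℝ} (hc₀ : 0 < c₀) :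
    ∃ C : ℝ, 0 < C ∧ ∀ ν : Measure E, OnB ν → Pot ν M θ c₀ C := by
  obtain ⟨C, hC, h⟩ := Uk_harnack (E := E) h0 h1 M hc₀
  refine ⟨C + 6 * (M + 1) + 2 ^ (M + 1), by positivity, ?_⟩
  intro ν hν
  have h6 : (0 : ℝ) ≤ 6 * ((M : ℝ) + 1) := by positivity
  have h2 : (0 : ℝ) ≤ 2 ^ (M + 1) := by positivity
  refine ⟨fun k => Ik_c1 h0 h1 hν M k, ?_, ?_, ?_⟩
  · intro k w v hw
    refine (Ik_grad h0 h1 hν M hw v).trans ?_
    have hI := d0_Ik_nonneg ν M θ k w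
    have hg : 0 ≤ gau (dl θ k w) w v := PT.gau_nonneg (dl_pos h0 h1 hw).le w v
    have : 6 * ((M : ℝ) + 1) ≤ C + 6 * (M + 1) + 2 ^ (M + 1) := by linarith
    gcongr
  · intro j k w hjk hw
    refine (Ik_mono h0 h1 hν M hjk hw).trans ?_
    have hI := d0_Ik_nonneg ν M θ k w
    have : (2 : ℝ) ^ (M + 1) ≤ C + 6 * (M + 1) + 2 ^ (M + 1) := by linarith
    gcongr
  · intro k R w z h1R hR hz hw
    refine (h ν hν k R z w h1R hR hz hw).trans ?_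
    have hzR : ‖z‖ < R := by
      have : 0 < c₀ * θ ^ k := by positivity
      linarith
    have hU : 0 ≤ Uk ν M θ k z := d0_Uk_nonneg h0 h1 (hzR.trans_le hR)
    have : C ≤ C + 6 * (M + 1) + 2 ^ (M + 1) := by linarith
    have hd : 0 < R ^ 2 - ‖w‖ ^ 2 := by
      have := pow_lt_pow_left₀ hw (norm_nonneg _) two_ne_zero
      linarith
    gcongr

theorem step0 (μ : Measure E) [μ.IsAddHaarMeasure] {m : ℕ} (hm : 1 ≤ m)
    (hdim : Module.finrank ℂ E = m + 1) {N : ℕ} (K : Car (Fin N → ℂ) V) {δ θ : ℝ} (hδ : 0 < δ)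
    (h0 : 0 < θ) (h1 : θ < 1) {C₀ : ℝ} (hC₀ : 0 < C₀) (M : ℕ) {B : ℝ} (hB : 0 < B) :
    ∃ C : ℝ, 0 < C ∧ ∀ (f : Fin N → E → ℂ) (ν : Measure E), OnB ν → TD f δ θ → Gd f θ ν M C₀ →
      ∀ T : (r : ℕ) → ℕ → E → E [⋀^Fin r]→L[ℝ] V, Des K f θ ν M m B T → ∀ k,
      ∃ Q : E → E [⋀^Fin 0]→L[ℝ] V, ContDiffOn ℝ 1 Q (ball 0 (RB θ (k + 1))) ∧
        (∀ w ∈ ball (0 : E) (RB θ (k + 1)), db Q w = 0) ∧
        ∀ w : E, ‖w‖ < 1 → ∀ v : Fin 0 → E, ‖SS K f θ T k 0 w v - Q w v‖ ≤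
          C * (1 + ∑ l ∈ Finset.range k, ek ν M θ l w) := by
  obtain ⟨CP, hCP, hP⟩ := d0_Pot E h0 h1 M (c₀ := θ ^ 2 * (1 - θ) / 8)
    (by have : 0 < 1 - θ := by linarith
        positivity)
  obtain ⟨C, hC, hs⟩ := d0_step0 (E := E) (V := V) μ hm hdim M K h0 h1 hδ hC₀.le hB.le hCP.le
  refine ⟨C, hC, ?_⟩
  intro f ν hν D G T S k
  obtain ⟨P, hPd, hPb⟩ := hs f ν T D G (hP ν hν) S k
  refine ⟨fun w => cst E (P w), ?_, ?_, ?_⟩
  · exact (cstL E V).contDiff.comp_contDiffOn (holo_c1' isOpen_ball hPd)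
  · intro w hw
    exact db_cst_holo (hPd.differentiableAt (isOpen_ball.mem_nhds hw))
  · intro w hw v
    have h2 := hPb w (mem_ball_zero_iff.mpr (hw.trans (one_lt_RB h0 (k + 1))))
    rw [evz_apply _ v] at h2
    exact h2

end Pool.Agent.MPca0fc2.TS
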