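import Mathlib
import Pool.Agent.Lib.MP_ca0fc2_an.Mg.G122
import Pool.Agent.Lib.MP_ca0fc2_an.TS.De
import Pool.Agent.Lib.MP_ca0fc2_an.TS.St0
import Pool.Agent.Lib.MP_ca0fc2_an.TS.CarI
import Pool.Agent.Lib.MP_ca0fc2_an.TS.Th
import Pool.Agent.Lib.MP_ca0fc2_an.TS.GdE
import Pool.Agent.Lib.MP_ca0fc2_an.QTX7a
import Pool.Agent.Lib.MP_ca0fc2_an.QSi

set_option autoImplicit false

open Metric Set MeasureTheory Filter Topology
open scoped InnerProductSpace ENNReal ContDiff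

/-! # The solutions -/

namespace Pool.Agent.MPca0fc2.TS

open Pool.Agent.MPca0fc2.PT
open Pool.Agent.MPca0fc2.QT

variable {E : Type*} [NormedAddCommGroup E] [InnerProductSpace ℂ E]
variable [FiniteDimensional ℂ E] [MeasurableSpace E] [BorelSpace E]

/-- Pattern: `QS.cell_dil`. `exists_carI`, `descent`, `step0`; `P = UU K (s0 f θ k) 0 -
F_k ⌟ (SS k 0 - Q)` is holomorphic on `ball 0 (RB θ (k + 1))`, `F_k ⌟ P = Ω`, and
`h_j = ω (c (proj_j) P)`; `sum_ek`. -/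
theorem fin_k (μ : Measure E) [μ.IsAddHaarMeasure] {m : ℕ} (hm : 1 ≤ m)
    (hdim : Module.finrank ℂ E = m + 1) (N : ℕ) {δ θ : ℝ} (hδ : 0 < δ)
    (h0 : 0 < θ) (h1 : θ < 1) {C₀ : ℝ} (hC₀ : 0 < C₀) {M : ℕ} (hM : 1 ≤ M) :
    ∃ C : ℝ, 0 < C ∧ ∀ (f : Fin N → E → ℂ) (ν : Measure E), OnB ν → TD f δ θ → Gd f θ ν M C₀ →
      ∀ k, ∃ h : Fin N → E → ℂ, (∀ j, DifferentiableOn ℂ (h j) (ball 0 1)) ∧
        (∀ z ∈ ball (0 : E) 1, ∑ j, uk (f j) θ k z * h j z = 1) ∧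
        ∀ j, ∀ z ∈ ball (0 : E) 1, ‖h j z‖ ≤ C * (1 + PP ν M z) := by
  obtain ⟨d, ⟨K⟩⟩ := exists_carI N
  obtain ⟨B, hB, hD⟩ := descent (V := EuclideanSpace ℂ (Fin d)) μ hm hdim K hδ h0 h1 hC₀ M
  obtain ⟨CS, hCS, hS⟩ := step0 (V := EuclideanSpace ℂ (Fin d)) μ hm hdim K hδ h0 h1 hC₀ M hB
  obtain ⟨Ce, hCe, hE⟩ := sum_ek (E := E) h0 h1 hM
  have hKc : 0 ≤ ‖K.c‖ := K.c.opNorm_nonneg
  have hKa : 0 ≤ ‖K.a‖ := K.a.opNorm_nonneg
  have hKω : 0 ≤ ‖K.ω‖ := K.ω.opNorm_nonneg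
  obtain ⟨P, hP⟩ : ∃ P : ℝ, P = ‖K.a‖ * (1 / δ) * ‖K.Ω‖ + ‖K.c‖ * N * (CS * (1 + Ce)) :=
    ⟨_, rfl⟩
  have hP0 : 0 ≤ P := by rw [hP]; positivity
  refine ⟨‖K.ω‖ * ‖K.c‖ * P + 1, by positivity, ?_⟩
  intro f ν hν hTD hG k
  obtain ⟨T, hDes⟩ := hD f ν hν hTD hG
  obtain ⟨Q, Q1, Q2, Q3⟩ := hS f ν hν hTD hG T hDes k
  obtain ⟨W, hW⟩ : ∃ W : (r : ℕ) → E → E [⋀^Fin r]→L[ℝ] (EuclideanSpace ℂ (Fin d)),
      W = Function.update (SS K f θ T k) 0 (fun w => SS K f θ T k 0 w - Q w) := ⟨_, rfl⟩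
  have hW0 : W 0 = fun w => SS K f θ T k 0 w - Q w := by
    rw [hW]; exact Function.update_self _ _ _
  have hW1 : W 1 = SS K f θ T k 1 := by rw [hW]; exact Function.update_of_ne (by omega) _ _
  have hone : ∀ z ∈ ball (0 : E) 1, ‖z‖ < RC θ k := fun z hz =>
    lt_trans (mem_ball_zero_iff.mp hz)
      (lt_trans (one_lt_RB h0 k) ((RB_lt_RA h0 k).trans (RA_lt_RC h0 k)))
  have hmJ : ∀ z ∈ ball (0 : E) 1, z ∈ ball (0 : E) (RJ m θ (m + 1) k) := fun z hz =>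
    ball_subset_ball (rj_one m h0 le_rfl k) hz
  have hmB : ∀ z ∈ ball (0 : E) 1, z ∈ ball (0 : E) (RB θ (k + 1)) := fun z hz =>
    ball_subset_ball (one_lt_RB h0 (k + 1)).le hz
  have hSd : ∀ z ∈ ball (0 : E) 1, DifferentiableAt ℝ (SS K f θ T k 0) z := fun z hz =>
    ((hDes.sc1 0 k).contDiffAt (isOpen_ball.mem_nhds (hmJ z hz))).differentiableAt (by norm_num)
  have hQd : ∀ z ∈ ball (0 : E) 1, DifferentiableAt ℝ Q z := fun z hz =>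
    (Q1.contDiffAt (isOpen_ball.mem_nhds (hmB z hz))).differentiableAt (by norm_num)
  have hW0d : ∀ z ∈ ball (0 : E) 1, DifferentiableAt ℝ (W 0) z := by
    intro z hz
    rw [hW0]
    exact (hSd z hz).sub (hQd z hz)
  have hPd : ∀ z ∈ ball (0 : E) 1,
      db (Ph K (s0 f θ k) (FF f θ k) W) z = 0 := by
    intro z hz
    apply db_Ph K (s0_sol hTD (hone z hz)) (hW0d z hz)
    rw [hW0, hW1, db_sub (hSd z hz) (hQd z hz), Q2 z (hmB z hz), sub_zero,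
      hDes.sdb 0 k z (hmJ z hz)]
  have hHd : DifferentiableOn ℂ
      (fun w => evz E (EuclideanSpace ℂ (Fin d)) (Ph K (s0 f θ k) (FF f θ k) W w)) (ball 0 1) := by
    intro z hz
    exact (holo_of_db (Ph_diff K (s0_sol hTD (hone z hz)) (hW0d z hz))
      (hPd z hz)).differentiableWithinAt
  obtain ⟨H, hH⟩ : ∃ H : E → EuclideanSpace ℂ (Fin d), H = fun w =>
    evz E (EuclideanSpace ℂ (Fin d)) (Ph K (s0 f θ k) (FF f θ k) W w) := ⟨_, rfl⟩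
  rw [← hH] at hHd
  obtain ⟨e₀, he₀⟩ : ∃ e₀ : Fin 0 → E, e₀ = fun i => i.elim0 := ⟨_, rfl⟩
  have hHv : ∀ z, H z = Ph K (s0 f θ k) (FF f θ k) W z e₀ := by
    intro z
    rw [hH]
    exact evz_apply _ _
  refine ⟨fun j z => K.ω (K.c (ContinuousLinearMap.proj j) (H z)), ?_, ?_, ?_⟩
  · intro j
    exact K.ω.differentiable.comp_differentiableOn
      ((K.c (ContinuousLinearMap.proj j)).differentiable.comp_differentiableOn hHd)
  · intro z hz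
    have h1 := c_Ph K (W := W) (s0_sol hTD (hone z hz)) e₀
    rw [← hHv z] at h1
    have h2 : K.ω (K.c (FF f θ k z) (H z)) = 1 := by rw [h1]; exact K.ωΩ
    rw [← h2]
    unfold FF
    simp only [map_sum, map_smul, ContinuousLinearMap.sum_apply, ContinuousLinearMap.smul_apply,
      smul_eq_mul]
  · intro j z hz
    have hz1 : ‖z‖ < 1 := mem_ball_zero_iff.mp hz
    obtain ⟨X, hX⟩ : ∃ X : ℝ, X = PP ν M z := ⟨_, rfl⟩
    have hX0 : 0 ≤ X := by rw [hX]; exact PP_nonneg _ _ _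
    have t3 := Q3 z hz1 e₀
    have t4 := hE ν hν k z hz1
    rw [← hX] at t4 ⊢
    have h1 : ‖H z‖ ≤ P * (1 + X) := by
      rw [hHv z]
      have e1 : Ph K (s0 f θ k) (FF f θ k) W z e₀ =
          K.a (s0 f θ k z) K.Ω - K.c (FF f θ k z) (SS K f θ T k 0 z e₀ - Q z e₀) := by
        unfold Ph
        rw [ContinuousAlternatingMap.sub_apply, opc_apply, hW0]
        rfl
      rw [e1]
      have b1 : ‖K.a (s0 f θ k z) K.Ω‖ ≤ ‖K.a‖ * (1 / δ) * ‖K.Ω‖ := by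
        refine ((K.a (s0 f θ k z)).le_opNorm _).trans ?_
        apply mul_le_mul_of_nonneg_right _ (norm_nonneg _)
        refine (K.a.le_opNorm _).trans ?_
        exact mul_le_mul_of_nonneg_left (s0_norm hTD (hone z hz)) hKa
      have b2 : ‖K.c (FF f θ k z) (SS K f θ T k 0 z e₀ - Q z e₀)‖ ≤
          ‖K.c‖ * N * (CS * (1 + Ce * X)) := by
        refine ((K.c (FF f θ k z)).le_opNorm _).trans ?_
        apply mul_le_mul _ _ (norm_nonneg _) (by positivity)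
        · exact (K.c.le_opNorm _).trans (mul_le_mul_of_nonneg_left
            (FF_le hTD (hone z hz) (Nat.le_succ k)) hKc)
        · exact t3.trans (mul_le_mul_of_nonneg_left (by linarith) hCS.le)
      calc _ ≤ ‖K.a (s0 f θ k z) K.Ω‖ +
            ‖K.c (FF f θ k z) (SS K f θ T k 0 z e₀ - Q z e₀)‖ := norm_sub_le _ _
        _ ≤ ‖K.a‖ * (1 / δ) * ‖K.Ω‖ + ‖K.c‖ * N * (CS * (1 + Ce * X)) := add_le_add b1 b2
        _ ≤ ‖K.a‖ * (1 / δ) * ‖K.Ω‖ + ‖K.c‖ * N * (CS * (1 + Ce * X)) +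
            (‖K.a‖ * (1 / δ) * ‖K.Ω‖ * X + ‖K.c‖ * N * (CS * (Ce + X))) :=
            le_add_of_nonneg_right (by positivity)
        _ = _ := by rw [hP]; ring
    calc ‖K.ω (K.c (ContinuousLinearMap.proj j) (H z))‖
        ≤ ‖K.ω‖ * ‖K.c (ContinuousLinearMap.proj j) (H z)‖ := K.ω.le_opNorm _
      _ ≤ ‖K.ω‖ * (‖K.c‖ * (P * (1 + X))) := by
          apply mul_le_mul_of_nonneg_left _ hKω
          refine ((K.c (ContinuousLinearMap.proj j)).le_opNorm _).trans ?_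
          apply mul_le_mul _ h1 (norm_nonneg _) hKc
          refine (K.c.le_opNorm _).trans ?_
          calc ‖K.c‖ * ‖(ContinuousLinearMap.proj j : (Fin N → ℂ) →L[ℂ] ℂ)‖ ≤ ‖K.c‖ * 1 :=
                mul_le_mul_of_nonneg_left (QS.proj_norm j) hKc
            _ = ‖K.c‖ := mul_one _
      _ = ‖K.ω‖ * ‖K.c‖ * P * (1 + X) := by ring
      _ ≤ _ := by
          gcongr
          linarith

/-- The growth theorem: `exists_theta`, `Gd_exists`, `nuE_OnB`, `fin_k`, `limit_W`, `PP_c1`. -/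
theorem grow_N (μ : Measure E) [μ.IsAddHaarMeasure] {m : ℕ} (hm : 1 ≤ m)
    (hdim : Module.finrank ℂ E = m + 1) (N : ℕ) {δ : ℝ} (hδ : 0 < δ) {M : ℕ} (hM : m + 2 ≤ M) :
    ∃ C : ℝ, 0 < C ∧ ∀ f : Fin N → E → ℂ, (∀ j, DifferentiableOn ℂ (f j) (ball 0 1)) →
      (∀ j, ∀ z ∈ ball (0 : E) 1, ‖f j z‖ ≤ 1) → (∀ z ∈ ball (0 : E) 1, δ ≤ ∑ j, ‖f j z‖ ^ 2) →
      ∃ h : Fin N → E → ℂ, (∀ j, DifferentiableOn ℂ (h j) (ball 0 1)) ∧
        (∀ z ∈ ball (0 : E) 1, ∑ j, f j z * h j z = 1) ∧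
        ∀ j, ∀ z ∈ ball (0 : E) 1, ‖h j z‖ ≤ C * (1 + PP (nuE μ m M f) M z) := by
  obtain ⟨θ, h0, h1, hTD⟩ := exists_theta (E := E) N hδ
  obtain ⟨C₀, hC₀, hGd⟩ := Gd_exists μ hdim hM h0 h1
  obtain ⟨C, hC, hfin⟩ := fin_k μ hm hdim N hδ h0 h1 hC₀ (M := M) (by omega)
  refine ⟨C, hC, fun f hf hfM hfδ => ?_⟩
  have hν : OnB (nuE μ m M f) := nuE_OnB μ hM hf hfM
  obtain ⟨g, hg, hgb, hgs⟩ := limit_W (Φ := fun z => C * (1 + PP (nuE μ m M f) M z)) h0 h1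
    (continuousOn_const.mul (continuousOn_const.add (PP_c1 hν (Nat.cast_nonneg M)).continuousOn))
    hf (fun k => by
      obtain ⟨h, hh, hs, hb⟩ := hfin f (nuE μ m M f) hν (hTD f hf hfM hfδ) (hGd N f hf hfM) k
      exact ⟨h, hh, hb, hs⟩)
  exact ⟨g, hg, hgs, hgb⟩

end Pool.Agent.MPca0fc2.TS
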