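import Mathlib
import Pool.Agent.Lib.MP_ca0fc2_an.Mg.G122
import Pool.Agent.Lib.MP_ca0fc2_an.TS.Sol
import Pool.Agent.Lib.MP_ca0fc2_an.Mg.G015

set_option autoImplicit false

open Metric Set MeasureTheory Filter Topology
open scoped InnerProductSpace ENNReal ContDiff

/-! # Estimates of the smooth solutions -/

namespace Pool.Agent.MPca0fc2.TS

open Pool.Agent.MPca0fc2.PT
open Pool.Agent.MPca0fc2.QT

variable {E : Type*} [NormedAddCommGroup E] [InnerProductSpace ℂ E] [MeasurableSpace E]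
variable {V : Type*} [NormedAddCommGroup V] [NormedSpace ℂ V]

/-- the size of the gradient at the level `k` -/
noncomputable def AA' (ν : Measure E) (M : ℕ) (θ : ℝ) (k : ℕ) (w : E) : ℝ :=
  min 1 (Real.sqrt (Wk ν M θ k w))

theorem AA'_nonneg (ν : Measure E) (M : ℕ) (θ : ℝ) (k : ℕ) (w : E) : 0 ≤ AA' ν M θ k w :=
  le_min zero_le_one (Real.sqrt_nonneg _)

omit [MeasurableSpace E] in
private theorem sol_est_half {Y : Type*} [NormedAddCommGroup Y] [NormedSpace ℂ Y] (σ : E → Y)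
    (w v : E) {B : ℝ} (h1 : ‖fderiv ℝ σ w v‖ ≤ B) (h2 : ‖fderiv ℝ σ w (Complex.I • v)‖ ≤ B) :
    ‖D01 σ w v‖ ≤ B := by
  rw [D01_apply, norm_smul, norm_inv, Complex.norm_ofNat]
  have h3 := norm_add_le (fderiv ℝ σ w v) (Complex.I • fderiv ℝ σ w (Complex.I • v))
  rw [norm_smul, Complex.norm_I, one_mul] at h3
  linarith

omit [MeasurableSpace E] in
/-- `D01` of the smooth solution, from bounds of the real derivatives. -/
private theorem sol_est_D01 {N : ℕ} {u : Fin N → E → ℂ} {w : E} {δ : ℝ} (hδ : 0 < δ)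
    (hu : ∀ j, DifferentiableAt ℝ (u j) w) (h1 : ∀ j, ‖u j w‖ ≤ 1) (hs : δ ≤ ∑ j, ‖u j w‖ ^ 2)
    {g : E → ℝ} (hg : ∀ v, 0 ≤ g v) (hgI : ∀ v, g (Complex.I • v) = g v)
    (hd : ∀ j v, ‖fderiv ℝ (u j) w v‖ ≤ g v) (v : E) :
    ‖D01 (fun x => (fun j => (starRingEnd ℂ) (u j x) / ((∑ l, ‖u l x‖ ^ 2 : ℝ) : ℂ) :
      Fin N → ℂ)) w v‖ ≤ (1 / δ + 2 * N / δ ^ 2) * g v := by
  set q : E → ℂ := fun x => ∑ l, u l x * (starRingEnd ℂ) (u l x) with hq
  set σ : E → Fin N → ℂ := fun x j => (starRingEnd ℂ) (u j x) with hσ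
  have hqx : ∀ x, ((∑ l, ‖u l x‖ ^ 2 : ℝ) : ℂ) = q x := by
    intro x
    simp only [hq]
    rw [Complex.ofReal_sum]
    refine Finset.sum_congr rfl fun l _ => ?_
    rw [Complex.mul_conj', Complex.ofReal_pow]
  have hfun : (fun x => (fun j => (starRingEnd ℂ) (u j x) / ((∑ l, ‖u l x‖ ^ 2 : ℝ) : ℂ) :
      Fin N → ℂ)) = fun x => (q x)⁻¹ • σ x := by
    funext x j
    rw [hqx x, Pi.smul_apply, smul_eq_mul, div_eq_mul_inv, mul_comm]
  have hconj : ∀ j, HasFDerivAt (fun x => (starRingEnd ℂ) (u j x))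
      ((Complex.conjCLE : ℂ →L[ℝ] ℂ).comp (fderiv ℝ (u j) w)) w := fun j =>
    (Complex.conjCLE : ℂ →L[ℝ] ℂ).hasFDerivAt.comp w (hu j).hasFDerivAt
  have hσd : HasFDerivAt σ (ContinuousLinearMap.pi fun j =>
      (Complex.conjCLE : ℂ →L[ℝ] ℂ).comp (fderiv ℝ (u j) w)) w :=
    hasFDerivAt_pi.2 hconj
  have hqd : HasFDerivAt q (∑ l, (u l w • ((Complex.conjCLE : ℂ →L[ℝ] ℂ).comp
      (fderiv ℝ (u l) w)) + (starRingEnd ℂ) (u l w) • fderiv ℝ (u l) w)) w := by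
    simp only [hq]
    exact HasFDerivAt.fun_sum fun l _ => (hu l).hasFDerivAt.mul (hconj l)
  have hσ1 : ∀ v, ‖fderiv ℝ σ w v‖ ≤ g v := by
    intro v
    rw [hσd.fderiv, pi_norm_le_iff_of_nonneg (hg v)]
    intro j
    have e : (ContinuousLinearMap.pi fun j =>
      (Complex.conjCLE : ℂ →L[ℝ] ℂ).comp (fderiv ℝ (u j) w)) v j =
        (starRingEnd ℂ) (fderiv ℝ (u j) w v) := rfl
    rw [e, Complex.norm_conj]
    exact hd j v
  have hq1 : ∀ v, ‖fderiv ℝ q w v‖ ≤ 2 * N * g v := by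
    intro v
    have e : fderiv ℝ q w v = ∑ l, (u l w * (starRingEnd ℂ) (fderiv ℝ (u l) w v) +
        (starRingEnd ℂ) (u l w) * fderiv ℝ (u l) w v) := by
      rw [hqd.fderiv, sum_apply]
      rfl
    rw [e]
    refine (norm_sum_le _ _).trans ?_
    have : ∀ l ∈ (Finset.univ : Finset (Fin N)),
        ‖u l w * (starRingEnd ℂ) (fderiv ℝ (u l) w v) +
          (starRingEnd ℂ) (u l w) * fderiv ℝ (u l) w v‖ ≤ 2 * g v := by
      intro l _
      refine (norm_add_le _ _).trans ?_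
      rw [norm_mul, norm_mul, Complex.norm_conj, Complex.norm_conj]
      have k1 : ‖u l w‖ * ‖fderiv ℝ (u l) w v‖ ≤ 1 * g v :=
        mul_le_mul (h1 l) (hd l v) (norm_nonneg _) zero_le_one
      linarith
    refine (Finset.sum_le_sum this).trans (le_of_eq ?_)
    rw [Finset.sum_const, Finset.card_univ, Fintype.card_fin, nsmul_eq_mul]
    ring
  have hq0 : δ ≤ ‖q w‖ := by
    rw [← hqx w, Complex.norm_real, Real.norm_of_nonneg (hδ.le.trans hs)]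
    exact hs
  have hqn : q w ≠ 0 := by
    intro h
    rw [h, norm_zero] at hq0
    linarith
  have hσw : ‖σ w‖ ≤ 1 := by
    rw [pi_norm_le_iff_of_nonneg zero_le_one]
    intro j
    simp only [hσ]
    rw [Complex.norm_conj]
    exact h1 j
  have b1 : ‖D01 σ w v‖ ≤ g v := sol_est_half σ w v (hσ1 v) (by
    have := hσ1 (Complex.I • v)
    rwa [hgI] at this)
  have b2 : ‖D01 q w v‖ ≤ 2 * N * g v := sol_est_half q w v (hq1 v) (by
    have := hq1 (Complex.I • v)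
    rwa [hgI] at this)
  rw [hfun]
  have h3 := D01_smul (q := fun x => (q x)⁻¹) (hqd.differentiableAt.inv hqn)
    hσd.differentiableAt v
  rw [h3, D01_inv hqd.differentiableAt hqn]
  refine (norm_add_le _ _).trans ?_
  rw [norm_smul, norm_smul, norm_inv, norm_neg, norm_div, norm_pow]
  have c1 : ‖q w‖⁻¹ * ‖D01 σ w v‖ ≤ δ⁻¹ * g v := by
    have : ‖q w‖⁻¹ ≤ δ⁻¹ := inv_anti₀ hδ hq0
    exact mul_le_mul this b1 (norm_nonneg _) (by positivity)
  have c2 : ‖D01 q w v‖ / ‖q w‖ ^ 2 * ‖σ w‖ ≤ 2 * N * g v / δ ^ 2 * 1 := by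
    have hqp : 0 < ‖q w‖ := hδ.trans_le hq0
    refine mul_le_mul ?_ hσw (norm_nonneg _) (by
      have := hg v
      positivity)
    refine div_le_div₀ (by have := hg v; positivity) b2 (by positivity) ?_
    exact pow_le_pow_left₀ hδ.le hq0 2
  calc ‖q w‖⁻¹ * ‖D01 σ w v‖ + ‖D01 q w v‖ / ‖q w‖ ^ 2 * ‖σ w‖
      ≤ δ⁻¹ * g v + 2 * N * g v / δ ^ 2 * 1 := add_le_add c1 c2
    _ = (1 / δ + 2 * N / δ ^ 2) * g v := by ring

/-- the difference of the smooth solutions of near data -/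
private theorem sol_est_diff {N : ℕ} {a b : Fin N → ℂ} {δ κ : ℝ} (hδ : 0 < δ) (hκ0 : 0 ≤ κ)
    (ha : ∀ j, ‖a j‖ ≤ 1) (hb : ∀ j, ‖b j‖ ≤ 1) (hsa : δ ≤ ∑ j, ‖a j‖ ^ 2)
    (hsb : δ ≤ ∑ j, ‖b j‖ ^ 2) (hκ : ∀ j, ‖b j - a j‖ ≤ κ) :
    ‖(fun j => (starRingEnd ℂ) (b j) / ((∑ l, ‖b l‖ ^ 2 : ℝ) : ℂ) : Fin N → ℂ) -
      (fun j => (starRingEnd ℂ) (a j) / ((∑ l, ‖a l‖ ^ 2 : ℝ) : ℂ))‖ ≤
      (1 / δ + 2 * N / δ ^ 2) * κ := by
  set P : ℝ := ∑ l, ‖a l‖ ^ 2 with hP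
  set Q : ℝ := ∑ l, ‖b l‖ ^ 2 with hQ
  have hP0 : 0 < P := hδ.trans_le hsa
  have hQ0 : 0 < Q := hδ.trans_le hsb
  have hPQ : |P - Q| ≤ 2 * N * κ := by
    rw [hP, hQ, ← Finset.sum_sub_distrib]
    refine (Finset.abs_sum_le_sum_abs _ _).trans ?_
    have : ∀ l ∈ (Finset.univ : Finset (Fin N)), |‖a l‖ ^ 2 - ‖b l‖ ^ 2| ≤ 2 * κ := by
      intro l _
      have e : ‖a l‖ ^ 2 - ‖b l‖ ^ 2 = (‖a l‖ + ‖b l‖) * (‖a l‖ - ‖b l‖) := by ring
      rw [e, abs_mul]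
      have k1 : |‖a l‖ + ‖b l‖| ≤ 2 := by
        rw [abs_of_nonneg (by positivity)]
        linarith [ha l, hb l]
      have k2 : |‖a l‖ - ‖b l‖| ≤ κ := by
        refine (abs_norm_sub_norm_le _ _).trans ?_
        rw [norm_sub_rev]
        exact hκ l
      exact mul_le_mul k1 k2 (abs_nonneg _) (by norm_num)
    refine (Finset.sum_le_sum this).trans (le_of_eq ?_)
    rw [Finset.sum_const, Finset.card_univ, Fintype.card_fin, nsmul_eq_mul]
    ring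
  rw [pi_norm_le_iff_of_nonneg (by positivity)]
  intro j
  have hPc : ((P : ℝ) : ℂ) ≠ 0 := by exact_mod_cast hP0.ne'
  have hQc : ((Q : ℝ) : ℂ) ≠ 0 := by exact_mod_cast hQ0.ne'
  have e : (starRingEnd ℂ) (b j) / ((Q : ℝ) : ℂ) - (starRingEnd ℂ) (a j) / ((P : ℝ) : ℂ) =
      (starRingEnd ℂ) (b j - a j) / ((Q : ℝ) : ℂ) +
        (starRingEnd ℂ) (a j) * ((P - Q : ℝ) : ℂ) / (((Q : ℝ) : ℂ) * ((P : ℝ) : ℂ)) := by
    rw [map_sub, Complex.ofReal_sub]
    field_simp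
    ring
  rw [Pi.sub_apply, e]
  refine (norm_add_le _ _).trans ?_
  rw [norm_div, norm_div, norm_mul, norm_mul, Complex.norm_conj, Complex.norm_conj,
    Complex.norm_real, Complex.norm_real, Complex.norm_real, Real.norm_eq_abs (P - Q),
    Real.norm_of_nonneg hQ0.le, Real.norm_of_nonneg hP0.le]
  have c1 : ‖b j - a j‖ / Q ≤ κ / δ := div_le_div₀ hκ0 (hκ j) hδ hsb
  have c2 : ‖a j‖ * |P - Q| / (Q * P) ≤ (1 * (2 * N * κ)) / (δ * δ) :=
    div_le_div₀ (by positivity) (mul_le_mul (ha j) hPQ (abs_nonneg _) zero_le_one)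
      (by positivity) (mul_le_mul hsb hsa hδ.le hQ0.le)
  calc ‖b j - a j‖ / Q + ‖a j‖ * |P - Q| / (Q * P)
      ≤ κ / δ + (1 * (2 * N * κ)) / (δ * δ) := add_le_add c1 c2
    _ = (1 / δ + 2 * N / δ ^ 2) * κ := by ring

/-- The estimates of the smooth solutions. `uk` is holomorphic, so `D01` of `conj uk` is
controlled by `fderiv`; `D01 (s0 f θ k) w v` has the components `conj (u_j' v) / |u|² -
conj u_j (∑ u_l conj (u_l' v)) / |u|⁴`. The estimates of `s1` are `shp_D01` etc. with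
`FF (k+1) - FF k` of size `C xk A` and `F_{k+1}(D01 s0) = (F_{k+1} - F_k)(D01 s0)`. -/
theorem sol_est {N : ℕ} {δ θ : ℝ} (hδ : 0 < δ) {C₀ : ℝ} (hC₀ : 0 < C₀) (M : ℕ) :
    ∃ C : ℝ, 0 < C ∧ ∀ (f : Fin N → E → ℂ) (ν : Measure E), TD f δ θ → Gd f θ ν M C₀ →
      ∀ (k : ℕ) (w : E), ‖w‖ < RC θ (k + 1) →
      (∀ v, ‖D01 (s0 f θ k) w v‖ ≤ C * AA' ν M θ k w * gau (dl θ k w) w v) ∧
      (∀ v, ‖D01 (s0 f θ (k + 1)) w v‖ ≤ C * AA' ν M θ k w * gau (dl θ k w) w v) ∧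
      (∀ v, ‖D01 (s1 f θ k) w v‖ ≤ C * AA' ν M θ k w * gau (dl θ k w) w v) ∧
      (∀ v, ‖D01 (s1 f θ k) w v - D01 (s0 f θ k) w v‖ ≤
        C * xk θ k w * AA' ν M θ k w * (AA' ν M θ k w * gau (dl θ k w) w v)) ∧
      ‖s1 f θ k w - s0 f θ k w‖ ≤ C * xk θ k w * AA' ν M θ k w ∧
      ‖s0 f θ (k + 1) w - s1 f θ k w‖ ≤ C * xk θ k w * AA' ν M θ k w ∧
      ‖FF f θ (k + 1) w - FF f θ k w‖ ≤ C * xk θ k w * AA' ν M θ k w := by
  obtain ⟨c1, hc1⟩ : ∃ c1 : ℝ, c1 = (1 / δ + 2 * N / δ ^ 2) * C₀ := ⟨_, rfl⟩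
  have hc10 : 0 < c1 := by rw [hc1]; positivity
  obtain ⟨c2, hc2⟩ : ∃ c2 : ℝ, c2 = N * C₀ := ⟨_, rfl⟩
  have hc20 : 0 ≤ c2 := by rw [hc2]; positivity
  obtain ⟨c3, hc3⟩ : ∃ c3 : ℝ, c3 = 6 * c2 / δ * c1 := ⟨_, rfl⟩
  have hc30 : 0 ≤ c3 := by rw [hc3]; positivity
  obtain ⟨c4, hc4⟩ : ∃ c4 : ℝ, c4 = 2 * c2 / δ ^ 2 := ⟨_, rfl⟩
  have hc40 : 0 ≤ c4 := by rw [hc4]; positivity
  refine ⟨c1 + 4 * c3 + c4 + c2, by positivity, ?_⟩
  intro f ν hT hG k w hw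
  have hwk : ‖w‖ < RC θ k := hw.trans_le (RC_anti hT.θ0 hT.θ1 (Nat.le_succ k))
  set A := AA' ν M θ k w with hA
  have hA0 : 0 ≤ A := AA'_nonneg ν M θ k w
  have hA1 : A ≤ 1 := min_le_left _ _
  set x := xk θ k w with hx
  have hx0 : 0 < x := xk_pos hT.θ0 hT.θ1 hwk
  have hx4 : x ≤ 4 := xk_le hT.θ0 hT.θ1 hwk
  have hdl : 0 < dl θ k w := dl_pos hT.θ0 hT.θ1 hwk
  have hg0 : ∀ v, 0 ≤ gau (dl θ k w) w v := fun v => by
    unfold gau
    positivity
  have hgI : ∀ v, gau (dl θ k w) w (Complex.I • v) = gau (dl θ k w) w v := fun v => by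
    simp [gau, norm_smul]
  -- the conjugate derivatives of the smooth solutions
  have hdiff : ∀ i, i ≤ k + 1 → ∀ j, DifferentiableAt ℝ (uk (f j) θ i) w := fun i hi j =>
    ((uk_an hT hwk hi j).differentiableAt (by norm_num)).restrictScalars ℝ
  have hD : ∀ i, i ≤ k + 1 → (∀ j v, ‖fderiv ℝ (uk (f j) θ i) w v‖ ≤
      C₀ * A * gau (dl θ k w) w v) → ∀ v, ‖D01 (s0 f θ i) w v‖ ≤
        c1 * A * gau (dl θ k w) w v := by
    intro i hi hb v
    have h := sol_est_D01 (u := fun j => uk (f j) θ i) hT.δ0 (hdiff i hi)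
      (fun j => uk_le hT hwk hi j) (uk_sum hT hwk hi)
      (g := fun v => C₀ * A * gau (dl θ k w) w v)
      (fun v => mul_nonneg (by positivity) (hg0 v)) (fun v => by simp only [hgI]) hb v
    refine le_trans (le_of_eq rfl) (h.trans (le_of_eq ?_))
    rw [hc1]
    ring
  have hD0 := hD k (Nat.le_succ k) (fun j v => hG.g0 j k w v hw)
  have hD1 := hD (k + 1) le_rfl (fun j v => hG.g1 j k w v hw)
  -- the functionals
  have hFF : ‖FF f θ (k + 1) w - FF f θ k w‖ ≤ c2 * x * A := by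
    have e : FF f θ (k + 1) w - FF f θ k w = ∑ j, (uk (f j) θ (k + 1) w - uk (f j) θ k w) •
        (ContinuousLinearMap.proj j : (Fin N → ℂ) →L[ℂ] ℂ) := by
      unfold FF
      rw [← Finset.sum_sub_distrib]
      exact Finset.sum_congr rfl fun j _ => (sub_smul _ _ _).symm
    rw [e]
    refine (norm_sum_le _ _).trans ?_
    have : ∀ j ∈ (Finset.univ : Finset (Fin N)), ‖(uk (f j) θ (k + 1) w - uk (f j) θ k w) •
        (ContinuousLinearMap.proj j : (Fin N → ℂ) →L[ℂ] ℂ)‖ ≤ C₀ * x * A := by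
      intro j _
      rw [norm_smul]
      have k1 : ‖(ContinuousLinearMap.proj j : (Fin N → ℂ) →L[ℂ] ℂ)‖ ≤ 1 := by
        refine ContinuousLinearMap.opNorm_le_bound _ zero_le_one fun y => ?_
        rw [one_mul]
        exact norm_le_pi_norm y j
      have k2 : ‖uk (f j) θ (k + 1) w - uk (f j) θ k w‖ ≤ C₀ * x * A := hG.df j k w hw
      calc _ ≤ C₀ * x * A * 1 := mul_le_mul k2 k1 (norm_nonneg _) (by positivity)
        _ = C₀ * x * A := mul_one _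
    refine (Finset.sum_le_sum this).trans (le_of_eq ?_)
    rw [Finset.sum_const, Finset.card_univ, Fintype.card_fin, nsmul_eq_mul, hc2]
    ring
  -- the intermediate solution
  have hsol := s0_sol hT hwk
  have hne := FF_ne hT hw
  have hgk : ‖(FF f θ (k + 1) w (s0 f θ k w))⁻¹‖ ≤ 2 := gk_norm hT hw
  have hs0 : ‖s0 f θ k w‖ ≤ 1 / δ := s0_norm hT hwk
  have hFk : DifferentiableAt ℂ (FF f θ (k + 1)) w := (FF_c2 hT hwk le_rfl).2
  have hs0d : DifferentiableAt ℝ (s0 f θ k) w := hsol.c2.differentiableAt (by norm_num)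
  have hinv : ‖(FF f θ (k + 1) w (s0 f θ k w))⁻¹ - 1‖ ≤ 2 * (c2 * x * A * (1 / δ)) := by
    have e : (FF f θ (k + 1) w (s0 f θ k w))⁻¹ - 1 = (FF f θ (k + 1) w (s0 f θ k w))⁻¹ *
        (-((FF f θ (k + 1) w - FF f θ k w) (s0 f θ k w))) := by
      rw [sub_apply, hsol.one]
      field_simp
      ring
    rw [e, norm_mul, norm_neg]
    refine mul_le_mul hgk ?_ (norm_nonneg _) (by norm_num)
    exact ((FF f θ (k + 1) w - FF f θ k w).le_opNorm _).trans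
      (mul_le_mul hFF hs0 (norm_nonneg _) (by positivity))
  have hs1s0 : ‖s1 f θ k w - s0 f θ k w‖ ≤ c4 * x * A := by
    have e : s1 f θ k w - s0 f θ k w =
        ((FF f θ (k + 1) w (s0 f θ k w))⁻¹ - 1) • s0 f θ k w := by
      rw [sub_smul, one_smul]
      rfl
    rw [e, norm_smul]
    refine (mul_le_mul hinv hs0 (norm_nonneg _) (by positivity)).trans (le_of_eq ?_)
    rw [hc4]
    ring
  have hD3 : ∀ v, ‖D01 (s1 f θ k) w v - D01 (s0 f θ k) w v‖ ≤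
      c3 * x * A * (A * gau (dl θ k w) w v) := by
    intro v
    have e := shp_D01 hFk hs0d hne v
    rw [← s1_eq] at e
    have hz : FF f θ (k + 1) w (D01 (s0 f θ k) w v) =
        (FF f θ (k + 1) w - FF f θ k w) (D01 (s0 f θ k) w v) := by
      rw [sub_apply, hsol.zero, sub_zero]
    have hz1 : ‖FF f θ (k + 1) w (D01 (s0 f θ k) w v)‖ ≤
        c2 * x * A * (c1 * A * gau (dl θ k w) w v) := by
      rw [hz]
      exact ((FF f θ (k + 1) w - FF f θ k w).le_opNorm _).trans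
        (mul_le_mul hFF (hD0 v) (norm_nonneg _) (by positivity))
    have e1 : D01 (s1 f θ k) w v - D01 (s0 f θ k) w v =
        ((FF f θ (k + 1) w (s0 f θ k w))⁻¹ - 1) • D01 (s0 f θ k) w v -
          (FF f θ (k + 1) w (D01 (s0 f θ k) w v) * ((FF f θ (k + 1) w (s0 f θ k w))⁻¹ *
            (FF f θ (k + 1) w (s0 f θ k w))⁻¹)) • s0 f θ k w := by
      rw [e, sub_smul, one_smul]
      have : FF f θ (k + 1) w (D01 (s0 f θ k) w v) / (FF f θ (k + 1) w (s0 f θ k w)) ^ 2 =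
          FF f θ (k + 1) w (D01 (s0 f θ k) w v) * ((FF f θ (k + 1) w (s0 f θ k w))⁻¹ *
            (FF f θ (k + 1) w (s0 f θ k w))⁻¹) := by
        field_simp
      rw [this]
      abel
    rw [e1]
    refine (norm_sub_le _ _).trans ?_
    rw [norm_smul, norm_smul, norm_mul, norm_mul]
    have hgv := hg0 v
    have k1 : ‖(FF f θ (k + 1) w (s0 f θ k w))⁻¹ - 1‖ * ‖D01 (s0 f θ k) w v‖ ≤
        2 * (c2 * x * A * (1 / δ)) * (c1 * A * gau (dl θ k w) w v) :=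
      mul_le_mul hinv (hD0 v) (norm_nonneg _) (by positivity)
    have k2 : ‖FF f θ (k + 1) w (D01 (s0 f θ k) w v)‖ *
        (‖(FF f θ (k + 1) w (s0 f θ k w))⁻¹‖ * ‖(FF f θ (k + 1) w (s0 f θ k w))⁻¹‖) *
          ‖s0 f θ k w‖ ≤ c2 * x * A * (c1 * A * gau (dl θ k w) w v) * (2 * 2) * (1 / δ) :=
      mul_le_mul (mul_le_mul hz1 (mul_le_mul hgk hgk (norm_nonneg _) (by norm_num))
        (by positivity) (by positivity)) hs0 (norm_nonneg _) (by positivity)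
    refine (add_le_add k1 k2).trans (le_of_eq ?_)
    rw [hc3]
    field_simp
    ring
  have hC : ∀ {c y : ℝ}, c ≤ c1 + 4 * c3 + c4 + c2 → 0 ≤ y →
      c * y ≤ (c1 + 4 * c3 + c4 + c2) * y := fun h hy => mul_le_mul_of_nonneg_right h hy
  refine ⟨fun v => ?_, fun v => ?_, fun v => ?_, fun v => ?_, ?_, ?_, ?_⟩
  · have hgv := hg0 v
    refine (hD0 v).trans ?_
    rw [mul_assoc, mul_assoc]
    exact hC (by linarith) (by positivity)
  · have hgv := hg0 v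
    refine (hD1 v).trans ?_
    rw [mul_assoc, mul_assoc]
    exact hC (by linarith) (by positivity)
  · have hgv := hg0 v
    have h1 : ‖D01 (s1 f θ k) w v‖ ≤ ‖D01 (s1 f θ k) w v - D01 (s0 f θ k) w v‖ +
        ‖D01 (s0 f θ k) w v‖ := by
      calc ‖D01 (s1 f θ k) w v‖ =
          ‖(D01 (s1 f θ k) w v - D01 (s0 f θ k) w v) + D01 (s0 f θ k) w v‖ := by
            rw [sub_add_cancel]
        _ ≤ _ := norm_add_le _ _
    have h2 : c3 * x * A * (A * gau (dl θ k w) w v) ≤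
        c3 * 4 * 1 * (A * gau (dl θ k w) w v) := by
      have hAg : 0 ≤ A * gau (dl θ k w) w v := by positivity
      refine mul_le_mul_of_nonneg_right ?_ hAg
      exact mul_le_mul (mul_le_mul_of_nonneg_left hx4 hc30) hA1 hA0 (by positivity)
    have h3 : ‖D01 (s1 f θ k) w v‖ ≤ (c1 + 4 * c3) * (A * gau (dl θ k w) w v) := by
      have := hD3 v
      have := hD0 v
      linarith
    refine h3.trans ?_
    rw [mul_assoc (c1 + 4 * c3 + c4 + c2)]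
    exact hC (by linarith) (by positivity)
  · have hgv := hg0 v
    refine (hD3 v).trans ?_
    have e5 : ∀ c : ℝ, c * x * A * (A * gau (dl θ k w) w v) =
        c * (x * A * (A * gau (dl θ k w) w v)) := fun c => by ring
    rw [e5, e5]
    exact hC (by linarith) (by positivity)
  · refine hs1s0.trans ?_
    rw [mul_assoc, mul_assoc]
    exact hC (by linarith) (by positivity)
  · have hs : ‖s0 f θ (k + 1) w - s0 f θ k w‖ ≤ c1 * x * A := by
      have h := sol_est_diff (a := fun j => uk (f j) θ k w) (b := fun j => uk (f j) θ (k + 1) w)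
        (κ := C₀ * x * A) hT.δ0 (by positivity) (fun j => uk_le hT hwk (Nat.le_succ k) j)
        (fun j => uk_le hT hwk le_rfl j) (uk_sum hT hwk (Nat.le_succ k))
        (uk_sum hT hwk le_rfl) (fun j => hG.df j k w hw)
      refine le_trans (le_of_eq rfl) (h.trans (le_of_eq ?_))
      rw [hc1]
      ring
    have e : s0 f θ (k + 1) w - s1 f θ k w = (s0 f θ (k + 1) w - s0 f θ k w) -
        (s1 f θ k w - s0 f θ k w) := by abel
    rw [e]
    refine (norm_sub_le _ _).trans ?_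
    have hxA : 0 ≤ x * A := by positivity
    rw [mul_assoc] at hs hs1s0 ⊢
    have := hC (c := c1 + c4) (y := x * A) (by linarith) hxA
    linarith
  · refine hFF.trans ?_
    rw [mul_assoc, mul_assoc]
    exact hC (by linarith) (by positivity)

/-- the homotopy: `QT.JJ_bound` with `g = C A gau` -/
theorem JK_est {N : ℕ} (K : Car (Fin N → ℂ) V) {δ θ : ℝ} (hδ : 0 < δ) {C₀ : ℝ} (hC₀ : 0 < C₀) (M r : ℕ) :
    ∃ C : ℝ, 0 < C ∧ ∀ (f : Fin N → E → ℂ) (ν : Measure E), TD f δ θ → Gd f θ ν M C₀ →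
      ∀ (k : ℕ) (w : E), ‖w‖ < RC θ (k + 1) → ∀ v : Fin r → E,
      ‖JK K f θ k r w v‖ ≤
        C * (xk θ k w * AA' ν M θ k w ^ (r + 1)) * ∏ i, gau (dl θ k w) w (v i) := by
  obtain ⟨C1, hC1, H1⟩ := sol_est (E := E) (N := N) (θ := θ) hδ hC₀ M
  obtain ⟨C2, hC2, H2⟩ := JJ_bound (E := E) K r
  refine ⟨C2 * (2 / δ) * C1 ^ (r + 1), by positivity, ?_⟩
  intro f ν hT hG k w hw v
  obtain ⟨-, e2, e3, -, -, e6, -⟩ := H1 f ν hT hG k w hw
  have h1 := H2 (s1 f θ k) (s0 f θ (k + 1)) w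
    (fun v => C1 * AA' ν M θ k w * gau (dl θ k w) w v) (2 / δ) e3 e2 (s1_norm hT hw) v
  have hp : 0 ≤ ∏ i, (C1 * AA' ν M θ k w * gau (dl θ k w) w (v i)) :=
    Finset.prod_nonneg fun i _ => (norm_nonneg _).trans (e2 (v i))
  have hpe : ∏ i, (C1 * AA' ν M θ k w * gau (dl θ k w) w (v i)) =
      (C1 * AA' ν M θ k w) ^ r * ∏ i, gau (dl θ k w) w (v i) := by
    rw [Finset.prod_mul_distrib, Finset.prod_const, Finset.card_univ, Fintype.card_fin]
  have h2 : C2 * (2 / δ) * ‖s0 f θ (k + 1) w - s1 f θ k w‖ *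
      ∏ i, (C1 * AA' ν M θ k w * gau (dl θ k w) w (v i)) ≤
      C2 * (2 / δ) * (C1 * xk θ k w * AA' ν M θ k w) *
      ∏ i, (C1 * AA' ν M θ k w * gau (dl θ k w) w (v i)) :=
    mul_le_mul_of_nonneg_right (mul_le_mul_of_nonneg_left e6 (by positivity)) hp
  refine (h1.trans h2).trans (le_of_eq ?_)
  rw [hpe, mul_pow]
  ring

/-- `QT.UU_diff` with `κ = C xk A`, `g = C A gau` -/
theorem UU_est {N : ℕ} (K : Car (Fin N → ℂ) V) {δ θ : ℝ} (hδ : 0 < δ) {C₀ : ℝ} (hC₀ : 0 < C₀) (M r : ℕ) :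
    ∃ C : ℝ, 0 < C ∧ ∀ (f : Fin N → E → ℂ) (ν : Measure E), TD f δ θ → Gd f θ ν M C₀ →
      ∀ (k : ℕ) (w : E), ‖w‖ < RC θ (k + 1) → ∀ v : Fin r → E,
      ‖UU K (s1 f θ k) r w v - UU K (s0 f θ k) r w v‖ ≤
        C * (xk θ k w * AA' ν M θ k w ^ (r + 1)) * ∏ i, gau (dl θ k w) w (v i) ∧
      ‖UU K (s0 f θ k) r w v‖ ≤ C * AA' ν M θ k w ^ r * ∏ i, gau (dl θ k w) w (v i) := by
  obtain ⟨C1, hC1, H1⟩ := sol_est (E := E) (N := N) (θ := θ) hδ hC₀ M
  obtain ⟨C3, hC3, H3⟩ := UU_diff (E := E) K r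
  obtain ⟨C4, hC4, H4⟩ := UU_bound (E := E) K r
  refine ⟨C3 * C1 * (2 / δ + 1) * (C1 + 1) ^ r + C4 * (2 / δ + 1) * (C1 + 1) ^ r,
    by positivity, ?_⟩
  intro f ν hT hG k w hw v
  obtain ⟨e1, e2, e3, e4, e5, -, -⟩ := H1 f ν hT hG k w hw
  have hA0 : 0 ≤ AA' ν M θ k w := AA'_nonneg ν M θ k w
  have hAg : ∀ v, 0 ≤ AA' ν M θ k w * gau (dl θ k w) w v := by
    intro v
    have h := (norm_nonneg _).trans (e1 v)
    rw [mul_assoc] at h
    exact nonneg_of_mul_nonneg_right h hC1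
  have hκ : 0 ≤ C1 * xk θ k w * AA' ν M θ k w := (norm_nonneg _).trans e5
  have hg : ∀ v, C1 * AA' ν M θ k w * gau (dl θ k w) w v ≤
      (C1 + 1) * AA' ν M θ k w * gau (dl θ k w) w v := by
    intro v
    have := hAg v
    nlinarith
  have hwk : ‖w‖ < RC θ k := lt_of_lt_of_le hw (RC_anti hT.θ0 hT.θ1 (Nat.le_succ k))
  have hδ' : 0 < 2 / δ := by positivity
  have hb0 : ‖s0 f θ k w‖ ≤ 2 / δ + 1 := by
    have h := s0_norm hT hwk
    have h2 : 1 / δ ≤ 2 / δ := div_le_div_of_nonneg_right (by norm_num) hδ.le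
    linarith
  have hb1 : ‖s1 f θ k w‖ ≤ 2 / δ + 1 := by
    have h := s1_norm hT hw
    linarith
  have hp : 0 ≤ ∏ i, ((C1 + 1) * AA' ν M θ k w * gau (dl θ k w) w (v i)) :=
    Finset.prod_nonneg fun i _ => ((norm_nonneg _).trans (e1 (v i))).trans (hg (v i))
  have hpe : ∏ i, ((C1 + 1) * AA' ν M θ k w * gau (dl θ k w) w (v i)) =
      (C1 + 1) ^ r * (AA' ν M θ k w ^ r * ∏ i, gau (dl θ k w) w (v i)) := by
    rw [Finset.prod_mul_distrib, Finset.prod_const, Finset.card_univ, Fintype.card_fin, mul_pow,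
      mul_assoc]
  have hAP : 0 ≤ AA' ν M θ k w ^ r * ∏ i, gau (dl θ k w) w (v i) := by
    rw [hpe] at hp
    exact nonneg_of_mul_nonneg_right hp (by positivity)
  have hxA : 0 ≤ xk θ k w * AA' ν M θ k w := by
    rw [mul_assoc] at hκ
    exact nonneg_of_mul_nonneg_right hκ hC1
  have h1 := H3 (s0 f θ k) (s1 f θ k) w
    (fun v => (C1 + 1) * AA' ν M θ k w * gau (dl θ k w) w v) (C1 * xk θ k w * AA' ν M θ k w)
    (2 / δ + 1) (fun v => (e1 v).trans (hg v)) (fun v => (e3 v).trans (hg v)) (by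
      intro v
      refine (e4 v).trans (mul_le_mul_of_nonneg_left ?_ hκ)
      have := hAg v
      nlinarith) hb0 hb1 (by
      refine e5.trans ?_
      nlinarith) hκ v
  have h2 := H4 (s0 f θ k) w
    (fun v => (C1 + 1) * AA' ν M θ k w * gau (dl θ k w) w v) (fun v => (e1 v).trans (hg v)) v
  beta_reduce at h1 h2
  rw [hpe] at h1 h2
  constructor
  · refine h1.trans ?_
    have e : C3 * (C1 * xk θ k w * AA' ν M θ k w) * (2 / δ + 1) *
        ((C1 + 1) ^ r * (AA' ν M θ k w ^ r * ∏ i, gau (dl θ k w) w (v i))) =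
        C3 * C1 * (2 / δ + 1) * (C1 + 1) ^ r * ((xk θ k w * AA' ν M θ k w) *
          (AA' ν M θ k w ^ r * ∏ i, gau (dl θ k w) w (v i))) := by ring
    have e' : (C3 * C1 * (2 / δ + 1) * (C1 + 1) ^ r + C4 * (2 / δ + 1) * (C1 + 1) ^ r) *
        (xk θ k w * AA' ν M θ k w ^ (r + 1)) * ∏ i, gau (dl θ k w) w (v i) =
        (C3 * C1 * (2 / δ + 1) * (C1 + 1) ^ r + C4 * (2 / δ + 1) * (C1 + 1) ^ r) *
        ((xk θ k w * AA' ν M θ k w) * (AA' ν M θ k w ^ r * ∏ i, gau (dl θ k w) w (v i))) := by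
      ring
    rw [e, e']
    refine mul_le_mul_of_nonneg_right ?_ (mul_nonneg hxA hAP)
    have : 0 ≤ C4 * (2 / δ + 1) * (C1 + 1) ^ r := by positivity
    linarith
  · refine h2.trans ?_
    have h3 : C4 * ‖s0 f θ k w‖ * ((C1 + 1) ^ r * (AA' ν M θ k w ^ r *
        ∏ i, gau (dl θ k w) w (v i))) ≤ C4 * (2 / δ + 1) * ((C1 + 1) ^ r * (AA' ν M θ k w ^ r *
        ∏ i, gau (dl θ k w) w (v i))) :=
      mul_le_mul_of_nonneg_right (mul_le_mul_of_nonneg_left hb0 hC4.le)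
        (mul_nonneg (by positivity) hAP)
    refine h3.trans ?_
    have e : C4 * (2 / δ + 1) * ((C1 + 1) ^ r * (AA' ν M θ k w ^ r *
        ∏ i, gau (dl θ k w) w (v i))) = C4 * (2 / δ + 1) * (C1 + 1) ^ r * (AA' ν M θ k w ^ r *
        ∏ i, gau (dl θ k w) w (v i)) := by ring
    rw [e, mul_assoc _ (AA' ν M θ k w ^ r)]
    refine mul_le_mul_of_nonneg_right ?_ hAP
    have : 0 ≤ C3 * C1 * (2 / δ + 1) * (C1 + 1) ^ r := by positivity
    linarith

end Pool.Agent.MPca0fc2.TS
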