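import Mathlib
import Pool.Agent.Lib.MP_ca0fc2_an.Mg.G122
import Pool.Agent.Lib.MP_ca0fc2_an.TS.SolB
import Pool.Agent.Lib.MP_ca0fc2_an.TS.PoB

set_option autoImplicit false

open Metric Set MeasureTheory Filter Topology
open scoped InnerProductSpace ENNReal ContDiff

/-! # The forms of the Koszul complex: estimates -/

namespace Pool.Agent.MPca0fc2.TS

open Pool.Agent.MPca0fc2.PT
open Pool.Agent.MPca0fc2.QT

variable {E : Type*} [NormedAddCommGroup E] [InnerProductSpace ℂ E]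
variable [FiniteDimensional ℂ E] [MeasurableSpace E] [BorelSpace E]
variable {V : Type*} [NormedAddCommGroup V] [NormedSpace ℂ V]

/-- `JK_est` (`A^(r+1) ≤ A² ≤ W` as `r ≥ 1`), the hypothesis on `T`, and `sum_Uk`
(`range k ⊆ range (k + 1)`, `Uk ≥ 0`) -/
theorem SS_bd {N : ℕ} (K : Car (Fin N → ℂ) V) {δ θ : ℝ} (hδ : 0 < δ) (h0 : 0 < θ) (h1 : θ < 1)
    {C₀ : ℝ} (hC₀ : 0 < C₀) (M : ℕ) {r : ℕ} (hr : 1 ≤ r) {B : ℝ} (hB : 0 < B) :
    ∃ C : ℝ, 0 < C ∧ ∀ (f : Fin N → E → ℂ) (ν : Measure E), OnB ν → TD f δ θ → Gd f θ ν M C₀ →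
      ∀ (R : ℕ → ℝ) (T : (r : ℕ) → ℕ → E → E [⋀^Fin r]→L[ℝ] V), Antitone R →
      (∀ k, R k ≤ RC θ k) →
      (∀ k, BdG θ k (R (k + 1)) (fun w => B * Uk ν M θ k w) (T r k)) →
      ∀ k, BdG θ k (R k) (fun w => C * Wk ν M θ k w) (SS K f θ T k r) := by
  obtain ⟨CJ, hCJ, hJ⟩ := JK_est (E := E) K hδ hC₀ M r (θ := θ)
  obtain ⟨CU, hCU, hU⟩ := sum_Uk (E := E) h0 h1 M hr
  refine ⟨(CJ + B) * CU, by positivity, ?_⟩
  intro f ν hν hTD hGd R T hR hRC hT k w hw v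
  have hwk : ‖w‖ < RC θ k := lt_of_lt_of_le hw (hRC k)
  have hdlk : ∀ l, l ≤ k → 0 < dl θ l w := fun l hl =>
    lt_of_lt_of_le (by positivity) (dl_ge h0 h1 (le_trans hl (Nat.le_succ k)) hwk)
  have hW : ∀ l, l ≤ k → 0 ≤ Wk ν M θ l w := fun l hl =>
    mul_nonneg (Real.rpow_nonneg (hdlk l hl).le _) (Ik_nonneg _ _ _ _ _)
  have hxk : ∀ l, l ≤ k → 0 ≤ xk θ l w := fun l hl =>
    div_nonneg (pow_nonneg h0.le _) (hdlk l hl).le
  have hUk : ∀ l, l ≤ k → 0 ≤ Uk ν M θ l w := fun l hl => mul_nonneg (hxk l hl) (hW l hl)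
  have hG : ∀ l, l ≤ k → 0 ≤ ∏ i, gau (dl θ l w) w (v i) := fun l hl =>
    Finset.prod_nonneg fun i _ => add_nonneg (div_nonneg (norm_nonneg _) (hdlk l hl).le)
      (div_nonneg (norm_nonneg _) (Real.sqrt_nonneg _))
  have hterm : ∀ l ∈ Finset.range k, ‖(JK K f θ l r w + T r l w) v‖ ≤
      (CJ + B) * (Uk ν M θ l w * ∏ i, gau (dl θ l w) w (v i)) := by
    intro l hl
    have hlk : l < k := Finset.mem_range.1 hl
    have hwl : ‖w‖ < R (l + 1) := lt_of_lt_of_le hw (hR hlk)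
    have e1 := hJ f ν hTD hGd l w (lt_of_lt_of_le hwl (hRC (l + 1))) v
    have e2 := hT l w hwl v
    have hA : AA' ν M θ l w ^ (r + 1) ≤ Wk ν M θ l w := by
      have h2 : AA' ν M θ l w ^ (r + 1) ≤ AA' ν M θ l w ^ 2 :=
        pow_le_pow_of_le_one (AA'_nonneg _ _ _ _ _) (min_le_left _ _) (by omega)
      have h3 : AA' ν M θ l w ^ 2 ≤ Real.sqrt (Wk ν M θ l w) ^ 2 :=
        pow_le_pow_left₀ (AA'_nonneg _ _ _ _ _) (min_le_right _ _) 2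
      rw [Real.sq_sqrt (hW l hlk.le)] at h3
      exact h2.trans h3
    have e3 : CJ * (xk θ l w * AA' ν M θ l w ^ (r + 1)) * ∏ i, gau (dl θ l w) w (v i) ≤
        CJ * (Uk ν M θ l w * ∏ i, gau (dl θ l w) w (v i)) := by
      rw [mul_assoc]
      refine mul_le_mul_of_nonneg_left ?_ hCJ.le
      refine mul_le_mul_of_nonneg_right ?_ (hG l hlk.le)
      exact mul_le_mul_of_nonneg_left hA (hxk l hlk.le)
    have e4 : (JK K f θ l r w + T r l w) v = JK K f θ l r w v + T r l w v := rfl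
    rw [e4]
    calc ‖JK K f θ l r w v + T r l w v‖ ≤ ‖JK K f θ l r w v‖ + ‖T r l w v‖ := norm_add_le _ _
      _ ≤ CJ * (Uk ν M θ l w * ∏ i, gau (dl θ l w) w (v i)) +
          B * Uk ν M θ l w * ∏ i, gau (dl θ l w) w (v i) := add_le_add (e1.trans e3) e2
      _ = (CJ + B) * (Uk ν M θ l w * ∏ i, gau (dl θ l w) w (v i)) := by ring
  have hsum : (SS K f θ T k r w) v = ∑ l ∈ Finset.range k, (JK K f θ l r w + T r l w) v := by
    unfold SS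
    exact ContinuousAlternatingMap.sum_apply _ _
  rw [hsum]
  calc ‖∑ l ∈ Finset.range k, (JK K f θ l r w + T r l w) v‖
      ≤ ∑ l ∈ Finset.range k, (CJ + B) * (Uk ν M θ l w * ∏ i, gau (dl θ l w) w (v i)) :=
        norm_sum_le_of_le _ hterm
    _ = (CJ + B) * ∑ l ∈ Finset.range k, Uk ν M θ l w * ∏ i, gau (dl θ l w) w (v i) := by
        rw [Finset.mul_sum]
    _ ≤ (CJ + B) * ∑ l ∈ Finset.range (k + 1), Uk ν M θ l w * ∏ i, gau (dl θ l w) w (v i) := by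
        refine mul_le_mul_of_nonneg_left ?_ (by positivity)
        rw [Finset.sum_range_succ]
        exact le_add_of_nonneg_right (mul_nonneg (hUk k le_rfl) (hG k le_rfl))
    _ ≤ (CJ + B) * (CU * Wk ν M θ k w * ∏ i, gau (dl θ k w) w (v i)) :=
        mul_le_mul_of_nonneg_left (hU ν hν k w hwk v) (by positivity)
    _ = (CJ + B) * CU * Wk ν M θ k w * ∏ i, gau (dl θ k w) w (v i) := by ring

/-- `UU_est` (`A^(r+2) ≤ A² ≤ W`), `SS_bd` for the degree `r + 1` and `sol_est`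
(`‖F_{k+1} - F_k‖ ≤ C xk`), `FF_le` and the hypothesis on `T (r + 1)`; `QT.opc_apply` -/
theorem Src_bd {N : ℕ} (K : Car (Fin N → ℂ) V) {δ θ : ℝ} (hδ : 0 < δ) (h0 : 0 < θ) (h1 : θ < 1)
    {C₀ : ℝ} (hC₀ : 0 < C₀) (M r : ℕ) {B : ℝ} (hB : 0 < B) :
    ∃ C : ℝ, 0 < C ∧ ∀ (f : Fin N → E → ℂ) (ν : Measure E), OnB ν → TD f δ θ → Gd f θ ν M C₀ →
      ∀ (R : ℕ → ℝ) (T : (r : ℕ) → ℕ → E → E [⋀^Fin r]→L[ℝ] V), Antitone R →
      (∀ k, R k ≤ RC θ k) →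
      (∀ k, BdG θ k (R (k + 1)) (fun w => B * Uk ν M θ k w) (T (r + 1) k)) →
      ∀ k, BdG θ k (R (k + 1)) (fun w => C * Uk ν M θ k w) (Src K f θ T k r) := by
  obtain ⟨C1, hC1, H1⟩ := UU_est (E := E) K hδ hC₀ M (r + 1) (θ := θ)
  obtain ⟨C2, hC2, H2⟩ := SS_bd (E := E) K hδ h0 h1 hC₀ M (Nat.le_add_left 1 r) hB
  obtain ⟨C3, hC3, H3⟩ := sol_est (E := E) (N := N) (θ := θ) hδ hC₀ M
  have hκ : 0 ≤ ‖K.c‖ := ContinuousLinearMap.opNorm_nonneg K.c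
  have hN : (0 : ℝ) ≤ N := Nat.cast_nonneg _
  refine ⟨C1 + ‖K.c‖ * C3 * C2 + ‖K.c‖ * N * B, by positivity, ?_⟩
  intro f ν hν hf hg R T hR hRC hT k w hw v
  have hw1 : ‖w‖ < RC θ (k + 1) := hw.trans_le (hRC (k + 1))
  have hw0 : ‖w‖ < RC θ k := hw1.trans_le (RC_anti h0 h1 (Nat.le_succ k))
  have hwR : ‖w‖ < R k := hw.trans_le (hR (Nat.le_succ k))
  have hd := dl_pos h0 h1 hw0
  have hW : 0 ≤ Wk ν M θ k w := mul_nonneg (Real.rpow_nonneg hd.le _) (Ik_nonneg ν M θ k w)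
  have hX := xk_pos h0 h1 hw0
  have hA0 := AA'_nonneg ν M θ k w
  have hA1 : AA' ν M θ k w ≤ 1 := min_le_left _ _
  have hAW : AA' ν M θ k w ^ 2 ≤ Wk ν M θ k w := by
    have h2 : AA' ν M θ k w ≤ Real.sqrt (Wk ν M θ k w) := min_le_right _ _
    calc AA' ν M θ k w ^ 2 ≤ Real.sqrt (Wk ν M θ k w) ^ 2 := pow_le_pow_left₀ hA0 h2 2
      _ = Wk ν M θ k w := Real.sq_sqrt hW
  have hA2 : AA' ν M θ k w ^ (r + 1 + 1) ≤ Wk ν M θ k w :=
    (pow_le_pow_of_le_one hA0 hA1 (by omega)).trans hAW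
  have hP : 0 ≤ ∏ i, gau (dl θ k w) w (v i) :=
    Finset.prod_nonneg fun i _ => age_gau_nonneg hd.le w (v i)
  have e1 := (H1 f ν hf hg k w hw1 v).1
  have e2 := H2 f ν hν hf hg R T hR hRC hT k w hwR v
  have e3 := (H3 f ν hf hg k w hw1).2.2.2.2.2.2
  have e4 := hT k w hw v
  have e5 : ‖FF f θ (k + 1) w‖ ≤ N := FF_le hf hw0 le_rfl
  have hU : Uk ν M θ k w = xk θ k w * Wk ν M θ k w := rfl
  set W := Wk ν M θ k w with hWd
  set X := xk θ k w with hXd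
  set A := AA' ν M θ k w with hAd
  set P := ∏ i, gau (dl θ k w) w (v i) with hPd
  have t1 : ‖UU K (s1 f θ k) (r + 1) w v - UU K (s0 f θ k) (r + 1) w v‖ ≤ C1 * (X * W) * P :=
    e1.trans (mul_le_mul_of_nonneg_right (mul_le_mul_of_nonneg_left
      (mul_le_mul_of_nonneg_left hA2 hX.le) hC1.le) hP)
  have t2 : ‖K.c (FF f θ (k + 1) w - FF f θ k w) (SS K f θ T k (r + 1) w v)‖ ≤
      ‖K.c‖ * C3 * C2 * (X * W) * P := by
    have s1 : ‖K.c (FF f θ (k + 1) w - FF f θ k w) (SS K f θ T k (r + 1) w v)‖ ≤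
        ‖K.c (FF f θ (k + 1) w - FF f θ k w)‖ * ‖SS K f θ T k (r + 1) w v‖ :=
      ContinuousLinearMap.le_opNorm _ _
    have s2 : ‖K.c (FF f θ (k + 1) w - FF f θ k w)‖ ≤ ‖K.c‖ * (C3 * X) := by
      refine (ContinuousLinearMap.le_opNorm _ _).trans (mul_le_mul_of_nonneg_left ?_ hκ)
      refine e3.trans ?_
      have : C3 * X * A ≤ C3 * X * 1 := mul_le_mul_of_nonneg_left hA1 (by positivity)
      linarith
    calc _ ≤ ‖K.c (FF f θ (k + 1) w - FF f θ k w)‖ * ‖SS K f θ T k (r + 1) w v‖ := s1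
      _ ≤ ‖K.c‖ * (C3 * X) * (C2 * W * P) :=
        mul_le_mul s2 e2 (norm_nonneg _) (by positivity)
      _ = ‖K.c‖ * C3 * C2 * (X * W) * P := by ring
  have t3 : ‖K.c (FF f θ (k + 1) w) (T (r + 1) k w v)‖ ≤ ‖K.c‖ * N * B * (X * W) * P := by
    have s1 : ‖K.c (FF f θ (k + 1) w) (T (r + 1) k w v)‖ ≤
        ‖K.c (FF f θ (k + 1) w)‖ * ‖T (r + 1) k w v‖ := ContinuousLinearMap.le_opNorm _ _
    have s2 : ‖K.c (FF f θ (k + 1) w)‖ ≤ ‖K.c‖ * N :=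
      (ContinuousLinearMap.le_opNorm _ _).trans (mul_le_mul_of_nonneg_left e5 hκ)
    calc _ ≤ ‖K.c (FF f θ (k + 1) w)‖ * ‖T (r + 1) k w v‖ := s1
      _ ≤ ‖K.c‖ * N * (B * (X * W) * P) := mul_le_mul s2 e4 (norm_nonneg _) (by positivity)
      _ = ‖K.c‖ * N * B * (X * W) * P := by ring
  have hS : Src K f θ T k r w v =
      (UU K (s1 f θ k) (r + 1) w v - UU K (s0 f θ k) (r + 1) w v) -
        K.c (FF f θ (k + 1) w - FF f θ k w) (SS K f θ T k (r + 1) w v) -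
        K.c (FF f θ (k + 1) w) (T (r + 1) k w v) := rfl
  rw [hS]
  show _ ≤ (C1 + ‖K.c‖ * C3 * C2 + ‖K.c‖ * N * B) * (X * W) * P
  have n1 := norm_sub_le ((UU K (s1 f θ k) (r + 1) w v - UU K (s0 f θ k) (r + 1) w v) -
        K.c (FF f θ (k + 1) w - FF f θ k w) (SS K f θ T k (r + 1) w v))
    (K.c (FF f θ (k + 1) w) (T (r + 1) k w v))
  have n2 := norm_sub_le (UU K (s1 f θ k) (r + 1) w v - UU K (s0 f θ k) (r + 1) w v)
    (K.c (FF f θ (k + 1) w - FF f θ k w) (SS K f θ T k (r + 1) w v))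
  have n3 : (C1 + ‖K.c‖ * C3 * C2 + ‖K.c‖ * N * B) * (X * W) * P =
    C1 * (X * W) * P + ‖K.c‖ * C3 * C2 * (X * W) * P + ‖K.c‖ * N * B * (X * W) * P := by ring
  rw [n3]
  linarith

end Pool.Agent.MPca0fc2.TS
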